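import Pool.Agent.RC.Res

set_option autoImplicit false

/-!
BLOCK: the Green function if the boundary edges of `C` are cut.
-/

open scoped ENNReal NNReal InnerProductSpace
open MeasureTheory Set Filter Topology

noncomputable section

namespace RC

open Pool.Agent.Helper3.Anderson Pool.Agent.Helper3.Crit

variable {d : ℕ} {b : ℝ} {z : ℂ}

/-- all the edges between `C` and its complement have conductance zero -/
def IsCut (b : ℝ) (a : Edge d → ℝ) (C : Set (Site d)) : Prop :=
  ∀ e : Edge d, (src e ∈ C ∧ tgt e ∉ C) ∨ (src e ∉ C ∧ tgt e ∈ C) → cl b (a e) = 0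

open Classical in
/-- restriction to `C` -/
private def rs (C : Set (Site d)) : L2 d →L[ℂ] L2 d :=
  mulOp (fun x => if x ∈ C then (1 : ℝ) else 0)
    ⟨1, fun x => by dsimp only; split_ifs <;> simp⟩

private theorem rs_mem {C : Set (Site d)} {x : Site d} (hx : x ∈ C) (ψ : L2 d) :
    rs C ψ x = ψ x := by
  rw [rs, mulOp_apply, if_pos hx]; simp

private theorem rs_notMem {C : Set (Site d)} {x : Site d} (hx : x ∉ C) (ψ : L2 d) :
    rs C ψ x = 0 := by
  rw [rs, mulOp_apply, if_neg hx]; simp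

private theorem src_mk (x : Site d) (j : Fin d) : src (x, j) = x := rfl

private theorem tgt_mk (x : Site d) (j : Fin d) : tgt (x, j) = x + Pi.single j 1 := rfl

private theorem Hc_rs {a a' : Edge d → ℝ} {C : Set (Site d)}
    (h : IsCut b a C) (h' : IsCut b a' C)
    (hag : ∀ e : Edge d, src e ∈ C → tgt e ∈ C → cl b (a e) = cl b (a' e)) (ψ : L2 d) (x : Site d) :
    (x ∈ C → Hc b a' (rs C ψ) x = Hc b a ψ x) ∧ (x ∉ C → Hc b a' (rs C ψ) x = 0) := by
  rw [Hc_apply, Hc_apply]
  constructor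
  · intro hx
    refine Finset.sum_congr rfl fun j _ => ?_
    congr 1
    · by_cases hy : x - Pi.single j 1 ∈ C
      · rw [rs_mem hx, rs_mem hy, hag (x - Pi.single j 1, j) (by rw [src_mk]; exact hy)
          (by rw [tgt_mk, sub_add_cancel]; exact hx)]
      · have h1 : cl b (a (x - Pi.single j 1, j)) = 0 :=
          h _ (Or.inr ⟨by rw [src_mk]; exact hy, by rw [tgt_mk, sub_add_cancel]; exact hx⟩)
        have h2 : cl b (a' (x - Pi.single j 1, j)) = 0 :=
          h' _ (Or.inr ⟨by rw [src_mk]; exact hy, by rw [tgt_mk, sub_add_cancel]; exact hx⟩)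
        rw [h1, h2]; simp
    · by_cases hy : x + Pi.single j 1 ∈ C
      · rw [rs_mem hx, rs_mem hy, hag (x, j) (by rw [src_mk]; exact hx)
          (by rw [tgt_mk]; exact hy)]
      · have h1 : cl b (a (x, j)) = 0 :=
          h _ (Or.inl ⟨by rw [src_mk]; exact hx, by rw [tgt_mk]; exact hy⟩)
        have h2 : cl b (a' (x, j)) = 0 :=
          h' _ (Or.inl ⟨by rw [src_mk]; exact hx, by rw [tgt_mk]; exact hy⟩)
        rw [h1, h2]; simp
  · intro hx
    refine Finset.sum_eq_zero fun j _ => ?_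
    have e1 : (cl b (a' (x - Pi.single j 1, j)) : ℂ) *
        (rs C ψ x - rs C ψ (x - Pi.single j 1)) = 0 := by
      by_cases hy : x - Pi.single j 1 ∈ C
      · have h2 : cl b (a' (x - Pi.single j 1, j)) = 0 :=
          h' _ (Or.inl ⟨by rw [src_mk]; exact hy, by rw [tgt_mk, sub_add_cancel]; exact hx⟩)
        rw [h2]; simp
      · rw [rs_notMem hx, rs_notMem hy]; simp
    have e2 : (cl b (a' (x, j)) : ℂ) * (rs C ψ x - rs C ψ (x + Pi.single j 1)) = 0 := by
      by_cases hy : x + Pi.single j 1 ∈ C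
      · have h2 : cl b (a' (x, j)) = 0 :=
          h' _ (Or.inr ⟨by rw [src_mk]; exact hx, by rw [tgt_mk]; exact hy⟩)
        rw [h2]; simp
      · rw [rs_notMem hx, rs_notMem hy]; simp
    rw [e1, e2, add_zero]

/-- the Green function of `a'` from that of `a` -/
private theorem rs_G (hz : 0 < z.im) {a a' : Edge d → ℝ} {C : Set (Site d)}
    (h : IsCut b a C) (h' : IsCut b a' C)
    (hag : ∀ e : Edge d, src e ∈ C → tgt e ∈ C → cl b (a e) = cl b (a' e))
    {y : Site d} (hy : y ∈ C) (x : Site d) :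
    rs C (Rz b a z (dl y)) x = G b a' z x y := by
  apply G_unique b a' hz
  intro x
  obtain ⟨h1, h2⟩ := Hc_rs h h' hag (Rz b a z (dl y)) x
  by_cases hx : x ∈ C
  · rw [h1 hx, rs_mem hx, Hc_apply]
    exact G_eqn b a hz x y
  · have hxy : ¬ x = y := by
      rintro rfl
      exact hx hy
    rw [h2 hx, rs_notMem hx, if_neg hxy]
    simp

theorem G_zero_of_cut (hz : 0 < z.im) {a : Edge d → ℝ} {C : Set (Site d)} (h : IsCut b a C)
    {x y : Site d} (hx : x ∈ C) (hy : y ∉ C) : G b a z x y = 0 ∧ G b a z y x = 0 := by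
  have h1 : G b a z y x = 0 := by
    rw [← rs_G hz h h (fun _ _ _ => rfl) hx y, rs_notMem hy]
  exact ⟨by rw [G_symm b a hz, h1], h1⟩

theorem G_congr_of_cut (hz : 0 < z.im) {a a' : Edge d → ℝ} {C : Set (Site d)}
    (h : IsCut b a C) (h' : IsCut b a' C)
    (hag : ∀ e : Edge d, src e ∈ C → tgt e ∈ C → cl b (a e) = cl b (a' e))
    {x y : Site d} (hx : x ∈ C) (hy : y ∈ C) : G b a z x y = G b a' z x y := by
  rw [← rs_G hz h h' hag hy x, rs_mem hx]
  rfl

private theorem cut_Bd (hb : 0 ≤ b) {C : Finset (Site d)} {a : Edge d → ℝ} {e : Edge d}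
    (he : e ∈ Bd C) : cl b (cut C a e) = 0 := by
  rw [cut, if_pos he, cl_zero hb]

private theorem cut_not_Bd {C : Finset (Site d)} {a : Edge d → ℝ} {e : Edge d}
    (he : e ∉ Bd C) : cut C a e = a e := by
  rw [cut, if_neg he]

/-- inside: only the edges inside `C` matter -/
theorem G_cut_in (hb : 0 ≤ b) (hz : 0 < z.im) (C : Finset (Site d)) (Γ : Finset (Edge d))
    (ω : Edge d → ℝ) {x y : Site d} (hx : x ∈ C) (hy : y ∈ C) :
    G b (cut C (rst Γ ω)) z x y = G b (rst (Γ ∩ In C) ω) z x y := by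
  apply G_congr_of_cut (C := (C : Set (Site d))) hz ?_ ?_ ?_ hx hy
  · intro e he
    exact cut_Bd hb (mem_Bd.2 he)
  · intro e he
    have h1 : e ∉ Γ ∩ In C := by
      rw [Finset.mem_inter, mem_In]
      rcases he with he | he
      · exact fun h => he.2 h.2.2
      · exact fun h => he.1 h.2.1
    rw [rst, if_neg h1, cl_zero hb]
  · intro e h1 h2
    have h3 : e ∉ Bd C := by
      rw [mem_Bd]
      rintro (h | h)
      · exact h.2 h2
      · exact h.1 h1
    rw [cut_not_Bd h3]
    by_cases h4 : e ∈ Γ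
    · rw [rst, if_pos h4, rst, if_pos (Finset.mem_inter.2 ⟨h4, mem_In.2 ⟨h1, h2⟩⟩)]
    · rw [rst, if_neg h4, rst, if_neg (fun h => h4 (Finset.mem_inter.1 h).1)]

/-- outside: only the edges which do not touch `C` matter -/
theorem G_cut_out (hb : 0 ≤ b) (hz : 0 < z.im) (C : Finset (Site d)) (Γ : Finset (Edge d))
    (ω : Edge d → ℝ) {x y : Site d} (hx : x ∉ C) (hy : y ∉ C) :
    G b (cut C (rst Γ ω)) z x y = G b (rst (Γ \ touch C) ω) z x y := by
  apply G_congr_of_cut (C := ((C : Set (Site d))ᶜ)) hz ?_ ?_ ?_ hx hy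
  · intro e he
    apply cut_Bd hb
    rw [mem_Bd]
    rcases he with he | he
    · exact Or.inr ⟨he.1, not_not.1 he.2⟩
    · exact Or.inl ⟨not_not.1 he.1, he.2⟩
  · intro e he
    have h1 : e ∉ Γ \ touch C := by
      rw [Finset.mem_sdiff, mem_touch]
      rcases he with he | he
      · exact fun h => h.2 (Or.inr (not_not.1 he.2))
      · exact fun h => h.2 (Or.inl (not_not.1 he.1))
    rw [rst, if_neg h1, cl_zero hb]
  · intro e h1 h2
    have h1 : src e ∉ C := h1
    have h2 : tgt e ∉ C := h2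
    have h3 : e ∉ Bd C := by
      rw [mem_Bd]
      rintro (h | h)
      · exact h1 h.1
      · exact h2 h.2
    rw [cut_not_Bd h3]
    by_cases h4 : e ∈ Γ
    · rw [rst, if_pos h4, rst, if_pos (Finset.mem_sdiff.2 ⟨h4, by
        rw [mem_touch]
        rintro (h | h)
        · exact h1 h
        · exact h2 h⟩)]
    · rw [rst, if_neg h4, rst, if_neg (fun h => h4 (Finset.mem_sdiff.1 h).1)]

end RC
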