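import Pool.Agent.RC.Defs

set_option autoImplicit false

/-!
CMEAS: measurability and monotonicity of the connection events.
-/

open scoped ENNReal NNReal
open MeasureTheory Set

noncomputable section

namespace RC

open Pool.Agent.Helper3.Anderson Pool.Agent.Helper3.Crit

variable {d : ℕ} {Ω : Type*} [MeasurableSpace Ω]

theorem Conn.mono {σ σ' : Set (Edge d)} (h : σ ⊆ σ') {x y : Site d} (hc : Conn σ x y) :
    Conn σ' x y := by
  unfold Conn at *
  induction hc with
  | refl => exact Relation.ReflTransGen.refl
  | tail _ hab ih =>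
    obtain ⟨e, he, h'⟩ := hab
    exact Relation.ReflTransGen.tail ih ⟨e, h he, h'⟩

private theorem adj_symm {σ : Set (Edge d)} {x y : Site d} (h : Adj σ x y) : Adj σ y x := by
  obtain ⟨e, he, h'⟩ := h
  exact ⟨e, he, h'.symm⟩

theorem Conn.symm {σ : Set (Edge d)} {x y : Site d} (hc : Conn σ x y) : Conn σ y x := by
  unfold Conn at *
  induction hc with
  | refl => exact Relation.ReflTransGen.refl
  | tail _ hab ih => exact Relation.ReflTransGen.head (adj_symm hab) ih

/-- connection by `n` steps -/
private def St (σ : Set (Edge d)) : ℕ → Site d → Site d → Prop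
  | 0 => fun x y => x = y
  | n + 1 => fun x y => ∃ u, St σ n x u ∧ Adj σ u y

private theorem conn_iff_St {σ : Set (Edge d)} {x y : Site d} :
    Conn σ x y ↔ ∃ n, St σ n x y := by
  constructor
  · intro h
    unfold Conn at h
    induction h with
    | refl => exact ⟨0, rfl⟩
    | tail _ hab ih =>
      obtain ⟨n, hn⟩ := ih
      exact ⟨n + 1, _, hn, hab⟩
  · rintro ⟨n, hn⟩
    induction n generalizing y with
    | zero =>
      have : x = y := hn
      subst this
      exact Relation.ReflTransGen.refl
    | succ n ih =>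
      obtain ⟨u, hu, ha⟩ := hn
      exact Relation.ReflTransGen.tail (ih hu) ha

theorem measurableSet_Conn {σ : Ω → Set (Edge d)} (h : ∀ e, MeasurableSet {ω | e ∈ σ ω})
    (x y : Site d) : MeasurableSet {ω | Conn (σ ω) x y} := by
  have hA : ∀ u v : Site d, MeasurableSet {ω | Adj (σ ω) u v} := by
    intro u v
    have : {ω | Adj (σ ω) u v} = ⋃ e : Edge d, ({ω | e ∈ σ ω} ∩
        {_ω : Ω | (src e = u ∧ tgt e = v) ∨ (src e = v ∧ tgt e = u)}) := by
      ext ω
      simp only [Adj, Set.mem_iUnion, Set.mem_inter_iff]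
      rfl
    rw [this]
    exact MeasurableSet.iUnion (fun e => (h e).inter (MeasurableSet.const _))
  have hS : ∀ (n : ℕ) (v : Site d), MeasurableSet {ω | St (σ ω) n x v} := by
    intro n
    induction n with
    | zero =>
      intro v
      exact MeasurableSet.const (x = v)
    | succ n ih =>
      intro v
      have : {ω | St (σ ω) (n + 1) x v} =
          ⋃ u : Site d, ({ω | St (σ ω) n x u} ∩ {ω | Adj (σ ω) u v}) := by
        ext ω
        simp only [Set.mem_iUnion, Set.mem_inter_iff]
        rfl
      rw [this]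
      exact MeasurableSet.iUnion (fun u => (ih u).inter (hA u v))
  have : {ω | Conn (σ ω) x y} = ⋃ n : ℕ, {ω | St (σ ω) n x y} := by
    ext ω
    simp only [Set.mem_iUnion]
    exact conn_iff_St
  rw [this]
  exact MeasurableSet.iUnion (fun n => hS n y)

private theorem sn_adj_le {σ : Set (Edge d)} {u v x : Site d} (h : Adj σ u v) :
    sn (v - x) ≤ sn (u - x) + 1 := by
  obtain ⟨e, _, h' | h'⟩ := h
  · have : v - x = (u - x) + Pi.single e.2 1 := by
      rw [← h'.1, ← h'.2, src, tgt]
      abel
    rw [this]
    refine (sn_add_le _ _).trans ?_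
    rw [sn_single]
  · have : v - x = (u - x) - Pi.single e.2 1 := by
      rw [← h'.1, ← h'.2, src, tgt]
      abel
    rw [this]
    refine (sn_sub_le _ _).trans ?_
    rw [sn_single]

/-- a connection to distance `n` has sites at all distances `≤ n`; the cluster uses only
finitely many edges -/
theorem exists_dist_eq {σ : Set (Edge d)} {x y : Site d} {n : ℕ} (h : n ≤ sn (y - x))
    (hc : Conn σ x y) :
    ∃ w, sn (w - x) = n ∧ Conn {e ∈ σ | sn (src e - x) ≤ n ∧ sn (tgt e - x) ≤ n} x w := by
  have key : (sn (y - x) ≤ n ∧ Conn {e ∈ σ | sn (src e - x) ≤ n ∧ sn (tgt e - x) ≤ n} x y) ∨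
      ∃ w, sn (w - x) = n ∧ Conn {e ∈ σ | sn (src e - x) ≤ n ∧ sn (tgt e - x) ≤ n} x w := by
    clear h
    unfold Conn at hc
    induction hc with
    | refl =>
      left
      refine ⟨?_, Relation.ReflTransGen.refl⟩
      rw [sub_self, sn_zero]
      exact Nat.zero_le _
    | @tail b c _ hbc ih =>
      rcases ih with ⟨hb, hcb⟩ | hw
      · by_cases hcn : sn (c - x) ≤ n
        · left
          refine ⟨hcn, ?_⟩
          obtain ⟨e, he, h'⟩ := hbc
          refine Relation.ReflTransGen.tail hcb ⟨e, ⟨he, ?_⟩, h'⟩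
          rcases h' with h' | h'
          · rw [h'.1, h'.2]
            exact ⟨hb, hcn⟩
          · rw [h'.1, h'.2]
            exact ⟨hcn, hb⟩
        · right
          have := sn_adj_le (x := x) hbc
          exact ⟨b, by omega, hcb⟩
      · right
        exact hw
  rcases key with ⟨h1, h2⟩ | h1
  · exact ⟨y, le_antisymm h1 h, h2⟩
  · exact h1

end RC
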