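import Pool.Agent.RC.Indep

set_option autoImplicit false

/-!
CLU: the cluster of a site and its events.
-/

open scoped ENNReal NNReal
open MeasureTheory Set

noncomputable section

namespace RC

open Pool.Agent.Helper3.Anderson Pool.Agent.Helper3.Crit

variable {d : ℕ} {κ : Measure ℝ} [IsProbabilityMeasure κ]

theorem Clu_adj_mono {σ τ : Set (Edge d)} (h : σ ⊆ τ) {u v : Site d} (huv : Adj σ u v) :
    Adj τ u v := by
  obtain ⟨e, he, h2⟩ := huv
  exact ⟨e, h he, h2⟩

theorem Clu_conn_mono {σ τ : Set (Edge d)} (h : σ ⊆ τ) {u v : Site d} (huv : Conn σ u v) :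
    Conn τ u v :=
  Relation.ReflTransGen.mono (r := Adj σ) (p := Adj τ) (fun _ _ h' => Clu_adj_mono h h') u v huv

/-- events that depend on the pattern of strong bonds in a finite set are measurable -/
theorem Clu_meas (S : Finset (Edge d)) (q : ℝ) (P : Set (Edge d) → Prop) :
    MeasurableSet {ω : Edge d → ℝ | P {e | e ∈ S ∧ q < ω e}} := by
  classical
  have hrep : {ω : Edge d → ℝ | P {e | e ∈ S ∧ q < ω e}} =
      ⋃ T ∈ {T : Finset (Edge d) | T ∈ S.powerset ∧ P (T : Set (Edge d))},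
        {ω : Edge d → ℝ | ∀ e ∈ S, (e ∈ T ↔ q < ω e)} := by
    ext ω
    simp only [mem_setOf_eq, mem_iUnion, exists_prop, Finset.mem_powerset]
    constructor
    · intro h
      refine ⟨S.filter fun e => q < ω e, ⟨Finset.filter_subset _ _, ?_⟩, ?_⟩
      · convert h using 1
        ext e
        simp
      · intro e he
        simp [he]
    · rintro ⟨T, ⟨hT, hP⟩, h⟩
      convert hP using 1
      ext e
      constructor
      · rintro ⟨he, hq⟩
        exact (h e he).2 hq
      · intro he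
        have he' : e ∈ T := he
        exact ⟨hT he', (h e (hT he')).1 he'⟩
  rw [hrep]
  refine Set.Finite.measurableSet_biUnion ?_ ?_
  · exact (S.powerset.finite_toSet).subset fun T hT => hT.1
  · intro T _
    have h2 : {ω : Edge d → ℝ | ∀ e ∈ S, (e ∈ T ↔ q < ω e)} =
        ⋂ e ∈ S, {ω : Edge d → ℝ | e ∈ T ↔ q < ω e} := by
      ext ω
      simp
    rw [h2]
    refine Finset.measurableSet_biInter _ fun e _ => ?_
    have h3 : MeasurableSet {ω : Edge d → ℝ | q < ω e} :=
      measurableSet_lt measurable_const (measurable_pi_apply e)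
    by_cases heT : e ∈ T
    · simpa [heT] using h3
    · have h4 : {ω : Edge d → ℝ | e ∈ T ↔ q < ω e} = {ω : Edge d → ℝ | q < ω e}ᶜ := by
        ext ω
        simp [heT]
      rw [h4]
      exact h3.compl

theorem self_mem_clu (Γ : Finset (Edge d)) (q : ℝ) (ω : Edge d → ℝ) (x : Site d) :
    x ∈ clu Γ q ω x := by
  classical
  simp only [clu, Finset.mem_filter]
  exact ⟨Finset.mem_insert_self _ _, Relation.ReflTransGen.refl⟩

theorem mem_clu {Γ : Finset (Edge d)} {q : ℝ} {ω : Edge d → ℝ} {x y : Site d} :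
    y ∈ clu Γ q ω x ↔ Conn {e | e ∈ Γ ∧ q < ω e} x y := by
  classical
  simp only [clu, Finset.mem_filter]
  constructor
  · exact fun h => h.2
  · intro h
    refine ⟨?_, h⟩
    rcases Relation.ReflTransGen.cases_tail h with h1 | ⟨u, _, e, he, h2⟩
    · rw [← h1]
      exact Finset.mem_insert_self _ _
    · refine Finset.mem_insert_of_mem ?_
      rcases h2 with ⟨_, h3⟩ | ⟨h3, _⟩
      · exact Finset.mem_union_right _ (Finset.mem_image.2 ⟨e, he.1, h3⟩)
      · exact Finset.mem_union_left _ (Finset.mem_image.2 ⟨e, he.1, h3⟩)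

theorem clu_eq_iff {Γ : Finset (Edge d)} {q : ℝ} {ω : Edge d → ℝ} {x : Site d}
    {C : Finset (Site d)} (hx : x ∈ C) :
    clu Γ q ω x = C ↔ ω ∈ BC Γ q x C ∧ ∀ e ∈ Γ ∩ Bd C, ω e ≤ q := by
  classical
  constructor
  · intro hC
    have hmem : ∀ {y : Site d}, Conn {e | e ∈ Γ ∧ q < ω e} x y → y ∈ C := by
      intro y hy
      rw [← hC]
      exact mem_clu.2 hy
    constructor
    · intro y hy
      rw [← hC] at hy
      have hy' : Conn {e | e ∈ Γ ∧ q < ω e} x y := mem_clu.1 hy
      clear hy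
      induction hy' with
      | refl => exact Relation.ReflTransGen.refl
      | tail h1 h2 ih =>
        refine Relation.ReflTransGen.tail ih ?_
        have hu := hmem h1
        have hv := hmem (Relation.ReflTransGen.tail h1 h2)
        obtain ⟨e, he, h3⟩ := h2
        refine ⟨e, ⟨?_, he.2⟩, h3⟩
        refine Finset.mem_inter.2 ⟨he.1, mem_In.2 ?_⟩
        rcases h3 with ⟨h4, h5⟩ | ⟨h4, h5⟩
        · exact ⟨h4 ▸ hu, h5 ▸ hv⟩
        · exact ⟨h4 ▸ hv, h5 ▸ hu⟩
    · intro e he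
      by_contra hq
      have hq' : q < ω e := not_le.1 hq
      obtain ⟨heΓ, heB⟩ := Finset.mem_inter.1 he
      rcases mem_Bd.1 heB with ⟨h1, h2⟩ | ⟨h1, h2⟩
      · apply h2
        have h3 : Conn {e | e ∈ Γ ∧ q < ω e} x (src e) := by
          rw [← hC] at h1
          exact mem_clu.1 h1
        exact hmem (Relation.ReflTransGen.tail h3 ⟨e, ⟨heΓ, hq'⟩, Or.inl ⟨rfl, rfl⟩⟩)
      · apply h1
        have h3 : Conn {e | e ∈ Γ ∧ q < ω e} x (tgt e) := by
          rw [← hC] at h2
          exact mem_clu.1 h2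
        exact hmem (Relation.ReflTransGen.tail h3 ⟨e, ⟨heΓ, hq'⟩, Or.inr ⟨rfl, rfl⟩⟩)
  · rintro ⟨h1, h2⟩
    ext y
    rw [mem_clu]
    constructor
    · intro hy
      induction hy with
      | refl => exact hx
      | tail h3 h4 ih =>
        obtain ⟨e, he, h5⟩ := h4
        by_contra hv
        have heB : e ∈ Γ ∩ Bd C := by
          refine Finset.mem_inter.2 ⟨he.1, mem_Bd.2 ?_⟩
          rcases h5 with ⟨h6, h7⟩ | ⟨h6, h7⟩
          · left
            rw [h6, h7]
            exact ⟨ih, hv⟩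
          · right
            rw [h6, h7]
            exact ⟨hv, ih⟩
        exact absurd (h2 e heB) (not_le.2 he.2)
    · intro hy
      refine Clu_conn_mono ?_ (h1 y hy)
      rintro e ⟨he, hq⟩
      exact ⟨(Finset.mem_inter.1 he).1, hq⟩

theorem measurableSet_BC (Γ : Finset (Edge d)) (q : ℝ) (x : Site d) (C : Finset (Site d)) :
    MeasurableSet (BC Γ q x C) :=
  Clu_meas (Γ ∩ In C) q fun T => ∀ y ∈ C, Conn T x y

theorem measurableSet_BCf (Γ : Finset (Edge d)) (q : ℝ) (x : Site d) (C : Finset (Site d))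
    (f : Edge d) : MeasurableSet (BCf Γ q x C f) := by
  have h := Clu_meas (Γ ∩ In C) q fun T =>
    ∀ y ∈ C, Conn {e | e ∈ Γ ∩ In C ∧ (e = f ∨ e ∈ T)} x y
  convert h using 1
  ext ω
  have hs : {e | e ∈ Γ ∩ In C ∧ (e = f ∨ q < ω e)} =
      {e | e ∈ Γ ∩ In C ∧ (e = f ∨ e ∈ {e | e ∈ Γ ∩ In C ∧ q < ω e})} := by
    ext e
    simp only [mem_setOf_eq]
    tauto
  simp only [BCf, mem_setOf_eq] at hs ⊢
  rw [hs]

theorem measurableSet_clu (Γ : Finset (Edge d)) (q : ℝ) (x : Site d) (C : Finset (Site d)) :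
    MeasurableSet {ω : Edge d → ℝ | clu Γ q ω x = C} := by
  classical
  have h := Clu_meas Γ q fun T => ∀ y, y ∈ C ↔ Conn T x y
  convert h using 1
  ext ω
  simp only [mem_setOf_eq]
  constructor
  · intro hC y
    rw [← hC]
    exact mem_clu
  · intro hC
    ext y
    rw [mem_clu, hC y]

theorem BC_dep {Γ : Finset (Edge d)} {q : ℝ} {x : Site d} {C : Finset (Site d)}
    {ω ω' : Edge d → ℝ} (h : ∀ e ∈ Γ ∩ In C, ω e = ω' e) (hω : ω ∈ BC Γ q x C) :
    ω' ∈ BC Γ q x C := by
  intro y hy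
  refine Clu_conn_mono ?_ (hω y hy)
  rintro e ⟨he, hq⟩
  exact ⟨he, h e he ▸ hq⟩

theorem update_mem_BCf {Γ : Finset (Edge d)} {q : ℝ} {x : Site d} {C : Finset (Site d)}
    {f : Edge d} {ω : Edge d → ℝ} (hω : ω ∈ BC Γ q x C) (t : ℝ) :
    Function.update ω f t ∈ BCf Γ q x C f := by
  intro y hy
  refine Clu_conn_mono ?_ (hω y hy)
  rintro e ⟨he, hq⟩
  refine ⟨he, ?_⟩
  by_cases hef : e = f
  · exact Or.inl hef
  · right
    rw [Function.update_of_ne hef]
    exact hq

theorem prob_BCf (Γ : Finset (Edge d)) (q : ℝ) (x : Site d) (C : Finset (Site d)) (f : Edge d) :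
    κ (Ioi q) * PE d κ (BCf Γ q x C f) ≤ PE d κ (BC Γ q x C) := by
  classical
  have h1 : PE d κ {ω | ∀ i ∈ ({f} : Finset (Edge d)), ω i ∈ Ioi q} = κ (Ioi q) := by
    rw [prob_all ({f} : Finset (Edge d)) measurableSet_Ioi]
    simp
  have hmA : MeasurableSet {ω : Edge d → ℝ | ∀ i ∈ ({f} : Finset (Edge d)), ω i ∈ Ioi q} := by
    have h2 : {ω : Edge d → ℝ | ∀ i ∈ ({f} : Finset (Edge d)), ω i ∈ Ioi q} =
        {ω : Edge d → ℝ | q < ω f} := by
      ext ω
      simp
    rw [h2]
    exact measurableSet_lt measurable_const (measurable_pi_apply f)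
  have h3 := indep_set (κ := κ) ({f} : Finset (Edge d)) hmA (measurableSet_BCf Γ q x C f)
    (fun ω ω' h hω i hi => h i hi ▸ hω i hi)
    (fun ω ω' h hω y hy => by
      refine Clu_conn_mono ?_ (hω y hy)
      rintro e ⟨he, hq⟩
      refine ⟨he, ?_⟩
      by_cases hef : e = f
      · exact Or.inl hef
      · right
        rcases hq with hq | hq
        · exact absurd hq hef
        · rw [← h e (by simpa using hef)]
          exact hq)
  calc κ (Ioi q) * PE d κ (BCf Γ q x C f)
      = PE d κ ({ω | ∀ i ∈ ({f} : Finset (Edge d)), ω i ∈ Ioi q} ∩ BCf Γ q x C f) := by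
        rw [h3, h1]
    _ ≤ PE d κ (BC Γ q x C) := by
        refine measure_mono ?_
        rintro ω ⟨h4, h5⟩ y hy
        refine Clu_conn_mono ?_ (h5 y hy)
        rintro e ⟨he, hq⟩
        refine ⟨he, ?_⟩
        rcases hq with hq | hq
        · rw [hq]
          exact h4 f (Finset.mem_singleton_self f)
        · exact hq

theorem prob_clu {Γ : Finset (Edge d)} {q : ℝ} {x : Site d} {C : Finset (Site d)} (hx : x ∈ C) :
    PE d κ {ω | clu Γ q ω x = C} = PE d κ (BC Γ q x C) * κ (Iic q) ^ (Γ ∩ Bd C).card := by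
  classical
  have h1 : {ω : Edge d → ℝ | clu Γ q ω x = C} =
      BC Γ q x C ∩ {ω | ∀ e ∈ Γ ∩ Bd C, ω e ∈ Iic q} := by
    ext ω
    simp only [mem_setOf_eq, mem_inter_iff, mem_Iic]
    exact clu_eq_iff hx
  have hmB : MeasurableSet {ω : Edge d → ℝ | ∀ e ∈ Γ ∩ Bd C, ω e ∈ Iic q} := by
    have h2 : {ω : Edge d → ℝ | ∀ e ∈ Γ ∩ Bd C, ω e ∈ Iic q} =
        ⋂ e ∈ Γ ∩ Bd C, {ω : Edge d → ℝ | ω e ≤ q} := by
      ext ω
      simp only [mem_setOf_eq, mem_Iic, mem_iInter]
    rw [h2]
    exact Finset.measurableSet_biInter _ fun e _ =>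
      measurableSet_le (measurable_pi_apply e) measurable_const
  rw [h1, indep_set (κ := κ) (Γ ∩ In C) (measurableSet_BC Γ q x C) hmB
    (fun ω ω' h hω => BC_dep h hω)
    (fun ω ω' h hω e he => by
      rw [← h e]
      · exact hω e he
      · intro hIn
        have h3 := mem_In.1 (Finset.mem_inter.1 hIn).2
        rcases mem_Bd.1 (Finset.mem_inter.1 he).2 with h4 | h4
        · exact h4.2 h3.2
        · exact h4.1 h3.1), prob_all (Γ ∩ Bd C) measurableSet_Iic]

end RC
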