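import Pool.Agent.Helper3.Crit.Defs
import Pool.Agent.Helper3.Crit.PureP
import Pool.Agent.Helper3.Anderson.Basic
import Pool.Agent.Helper3.Anderson.Resample
import Pool.Agent.Helper3.Anderson.FinalA
import Pool.Agent.Helper3.Crit.BoxMeas

set_option autoImplicit false

/-!
Project RC (MP_938f0c_mp), definitions: edges of `ℤ^d`, the conductance operator on `ℓ²(ℤ^d)`,
its resolvent and Green function, clusters of strong bonds.
-/

open scoped ENNReal NNReal InnerProductSpace
open MeasureTheory Set Filter Topology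

noncomputable section

namespace RC

open Pool.Agent.Helper3.Anderson Pool.Agent.Helper3.Crit

/-- The edges of `ℤ^d`: the edge `(x, j)` joins `x` and `x + e_j`. -/
abbrev Edge (d : ℕ) : Type := Site d × Fin d

variable {d : ℕ}

/-- first end point -/
def src (e : Edge d) : Site d := e.1
/-- second end point -/
def tgt (e : Edge d) : Site d := e.1 + Pi.single e.2 1

/-- clipping to `[0, b]` -/
def cl (b t : ℝ) : ℝ := max 0 (min t b)

theorem cl_nonneg (b t : ℝ) : 0 ≤ cl b t := le_max_left _ _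

theorem cl_le {b : ℝ} (hb : 0 ≤ b) (t : ℝ) : cl b t ≤ b := max_le hb (min_le_right _ _)

theorem abs_cl_le (b t : ℝ) : |cl b t| ≤ |b| := by
  rw [abs_of_nonneg (cl_nonneg b t)]
  exact max_le (abs_nonneg _) ((min_le_right _ _).trans (le_abs_self _))

theorem cl_of_mem {b t : ℝ} (h : t ∈ Icc 0 b) : cl b t = t := by
  rw [cl, min_eq_left h.2, max_eq_right h.1]

theorem cl_zero {b : ℝ} (hb : 0 ≤ b) : cl b 0 = 0 := cl_of_mem ⟨le_rfl, hb⟩

theorem continuous_cl (b : ℝ) : Continuous (cl b) := by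
  unfold cl; fun_prop

theorem bdd_cl (b : ℝ) (a : Edge d → ℝ) (j : Fin d) : Bdd fun x : Site d => cl b (a (x, j)) :=
  ⟨|b|, fun _ => abs_cl_le _ _⟩

/-- The conductance operator with conductances `cl b (a e)`:
`(H ψ)(x) = ∑_{y ~ x} w(x,y) (ψ(x) - ψ(y))`. -/
def Hc (b : ℝ) (a : Edge d → ℝ) : L2 d →L[ℂ] L2 d :=
  ∑ j : Fin d, (shift (-Pi.single j 1) - 1) *
    (mulOp (fun x => cl b (a (x, j))) (bdd_cl b a j) * (shift (Pi.single j 1) - 1))

/-- the resolvent -/
def Rz (b : ℝ) (a : Edge d → ℝ) (z : ℂ) : L2 d →L[ℂ] L2 d :=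
  Ring.inverse (Hc b a - z • (1 : L2 d →L[ℂ] L2 d))

/-- the Green function -/
def G (b : ℝ) (a : Edge d → ℝ) (z : ℂ) (x y : Site d) : ℂ := (Rz b a z (dl y) : L2 d) x

/-- the vector `∇_e = δ_tgt - δ_src` -/
def grad (e : Edge d) : L2 d := dl (tgt e) - dl (src e)

/-- `⟨∇_e, G δ_y⟩` -/
def gL (b : ℝ) (a : Edge d → ℝ) (z : ℂ) (e : Edge d) (y : Site d) : ℂ :=
  G b a z (tgt e) y - G b a z (src e) y

/-- `⟨δ_x, G ∇_e⟩` -/
def gR (b : ℝ) (a : Edge d → ℝ) (z : ℂ) (x : Site d) (e : Edge d) : ℂ :=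
  G b a z x (tgt e) - G b a z x (src e)

/-- `⟨∇_e, G ∇_f⟩` -/
def gg (b : ℝ) (a : Edge d → ℝ) (z : ℂ) (e f : Edge d) : ℂ :=
  gL b a z e (tgt f) - gL b a z e (src f)

/-- The entries of `(R + ∇ G_cut ∇)⁻¹`, `R` the resistances. -/
def qq (b : ℝ) (a : Edge d → ℝ) (z : ℂ) (e f : Edge d) : ℂ :=
  if e = f then (cl b (a e) : ℂ) - (cl b (a e) : ℂ) ^ 2 * gg b a z e e
  else -((cl b (a e) : ℂ) * (cl b (a f) : ℂ) * gg b a z e f)

/-- The law `κ` of a conductance: it lives on `(0, b]` and the law of `log w` has a density which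
is at most `K`. -/
structure LawK (κ : Measure ℝ) (b : ℝ) (K : ℝ≥0) : Prop where
  supp : κ (Ioc 0 b)ᶜ = 0
  dens : κ.map Real.log ≤ K • (volume : Measure ℝ)

/-- the law of the conductances -/
abbrev PE (d : ℕ) (κ : Measure ℝ) : Measure (Edge d → ℝ) :=
  Measure.infinitePi fun _ : Edge d => κ

/-- the edges touching `C` -/
def touch (C : Finset (Site d)) : Finset (Edge d) :=
  (C ×ˢ Finset.univ) ∪ (C ×ˢ Finset.univ).image fun p => (p.1 - Pi.single p.2 1, p.2)

theorem mem_touch {C : Finset (Site d)} {e : Edge d} :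
    e ∈ touch C ↔ src e ∈ C ∨ tgt e ∈ C := by
  simp only [touch, Finset.mem_union, Finset.mem_product, Finset.mem_univ, and_true,
    Finset.mem_image, src, tgt]
  constructor
  · rintro (h | ⟨p, hp, rfl⟩)
    · exact Or.inl h
    · right
      simpa using hp
  · rintro (h | h)
    · exact Or.inl h
    · refine Or.inr ⟨(e.1 + Pi.single e.2 1, e.2), h, ?_⟩
      ext1 <;> simp

/-- the edges inside `C` -/
def In (C : Finset (Site d)) : Finset (Edge d) :=
  (touch C).filter fun e => src e ∈ C ∧ tgt e ∈ C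

/-- the boundary edges of `C` -/
def Bd (C : Finset (Site d)) : Finset (Edge d) :=
  (touch C).filter fun e => ¬(src e ∈ C ∧ tgt e ∈ C)

theorem mem_In {C : Finset (Site d)} {e : Edge d} : e ∈ In C ↔ src e ∈ C ∧ tgt e ∈ C := by
  simp only [In, Finset.mem_filter, mem_touch]
  tauto

theorem mem_Bd {C : Finset (Site d)} {e : Edge d} :
    e ∈ Bd C ↔ (src e ∈ C ∧ tgt e ∉ C) ∨ (src e ∉ C ∧ tgt e ∈ C) := by
  simp only [Bd, Finset.mem_filter, mem_touch]
  tauto

/-- the end point of a boundary edge in `C` -/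
def inn (C : Finset (Site d)) (e : Edge d) : Site d := if src e ∈ C then src e else tgt e
/-- the end point of a boundary edge outside of `C` -/
def outp (C : Finset (Site d)) (e : Edge d) : Site d := if src e ∈ C then tgt e else src e

/-- keep only the edges of `Γ` -/
def rst (Γ : Finset (Edge d)) (a : Edge d → ℝ) : Edge d → ℝ := fun e => if e ∈ Γ then a e else 0

/-- cut the boundary edges of `C` -/
def cut (C : Finset (Site d)) (a : Edge d → ℝ) : Edge d → ℝ := fun e => if e ∈ Bd C then 0 else a e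

/-- neighbours along an edge of `σ` -/
def Adj (σ : Set (Edge d)) (u v : Site d) : Prop :=
  ∃ e ∈ σ, (src e = u ∧ tgt e = v) ∨ (src e = v ∧ tgt e = u)

/-- connected by edges of `σ` -/
def Conn (σ : Set (Edge d)) : Site d → Site d → Prop := Relation.ReflTransGen (Adj σ)

open Classical in
/-- the cluster of `x`, for the strong bonds (`q < ω e`) in the finite set `Γ` -/
def clu (Γ : Finset (Edge d)) (q : ℝ) (ω : Edge d → ℝ) (x : Site d) : Finset (Site d) :=
  (insert x (Γ.image src ∪ Γ.image tgt)).filter fun y => Conn {e | e ∈ Γ ∧ q < ω e} x y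

/-- the strong bonds inside `C` connect `C` -/
def BC (Γ : Finset (Edge d)) (q : ℝ) (x : Site d) (C : Finset (Site d)) : Set (Edge d → ℝ) :=
  {ω | ∀ y ∈ C, Conn {e | e ∈ Γ ∩ In C ∧ q < ω e} x y}

/-- the same, when the bond `f` is declared strong -/
def BCf (Γ : Finset (Edge d)) (q : ℝ) (x : Site d) (C : Finset (Site d)) (f : Edge d) :
    Set (Edge d → ℝ) :=
  {ω | ∀ y ∈ C, Conn {e | e ∈ Γ ∩ In C ∧ (e = f ∨ q < ω e)} x y}

/-- exponential decay of the connection probability of the strong bonds -/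
def PDec (d : ℕ) (κ : Measure ℝ) (q A c : ℝ) : Prop :=
  ∀ (x : Site d) (n : ℕ), PE d κ {ω | ∃ y, n ≤ sn (y - x) ∧ Conn {e | q < ω e} x y}
    ≤ ENNReal.ofReal (A * Real.exp (-(c * n)))

end RC
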