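import Pool.Agent.RC.Block

set_option autoImplicit false

/-!
EXPAND: the expansion of the Green function after cutting the boundary edges of `C`.
-/

open scoped ENNReal NNReal InnerProductSpace
open MeasureTheory Set Filter Topology

noncomputable section

namespace RC

open Pool.Agent.Helper3.Anderson Pool.Agent.Helper3.Crit

variable {d : ℕ} {b : ℝ} {z : ℂ}

theorem qq_zero {a : Edge d → ℝ} {e f : Edge d} (h : cl b (a e) = 0 ∨ cl b (a f) = 0) :
    qq b a z e f = 0 := by
  unfold qq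
  split_ifs with hef
  · subst hef
    have h' : cl b (a e) = 0 := by tauto
    rw [h']; simp
  · rcases h with h | h <;> rw [h] <;> simp

private theorem cl_cut_eq {C : Finset (Site d)} {a : Edge d → ℝ} :
    ∀ e, e ∉ Bd C → cl b (a e) = cl b (cut C a e) := by
  intro e he
  rw [cut, if_neg he]

private theorem G1 (hb : 0 ≤ b) (hz : 0 < z.im) (C : Finset (Site d)) (a : Edge d → ℝ)
    (x y : Site d) :
    G b a z x y = G b (cut C a) z x y
      - ∑ e ∈ Bd C, (cl b (a e) : ℂ) * gR b a z x e * gL b (cut C a) z e y := by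
  have h := G_sub b a (cut C a) hz (Bd C) cl_cut_eq x y
  have h2 : ∑ e ∈ Bd C, ((cl b (a e) - cl b (cut C a e) : ℝ) : ℂ) * gR b a z x e *
      gL b (cut C a) z e y =
      ∑ e ∈ Bd C, (cl b (a e) : ℂ) * gR b a z x e * gL b (cut C a) z e y := by
    refine Finset.sum_congr rfl fun e he => ?_
    rw [cut, if_pos he, cl_zero hb, sub_zero]
  rw [h2] at h
  linear_combination h

private theorem G2 (hb : 0 ≤ b) (hz : 0 < z.im) (C : Finset (Site d)) (a : Edge d → ℝ)
    (x y : Site d) :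
    G b a z x y = G b (cut C a) z x y
      - ∑ e ∈ Bd C, (cl b (a e) : ℂ) * gR b (cut C a) z x e * gL b a z e y := by
  have h := G_sub b (cut C a) a hz (Bd C) (fun e he => (cl_cut_eq e he).symm) x y
  have h2 : ∑ e ∈ Bd C, ((cl b (cut C a e) - cl b (a e) : ℝ) : ℂ) * gR b (cut C a) z x e *
      gL b a z e y =
      -∑ e ∈ Bd C, (cl b (a e) : ℂ) * gR b (cut C a) z x e * gL b a z e y := by
    rw [← Finset.sum_neg_distrib]
    refine Finset.sum_congr rfl fun e he => ?_
    rw [cut, if_pos he, cl_zero hb, zero_sub]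
    push_cast
    ring
  rw [h2] at h
  linear_combination -h

/-- two resolvent identities -/
theorem expand (hb : 0 ≤ b) (hz : 0 < z.im) (C : Finset (Site d)) (a : Edge d → ℝ)
    (x y : Site d) :
    G b a z x y = G b (cut C a) z x y
      - ∑ e ∈ Bd C, ∑ f ∈ Bd C, gR b (cut C a) z x e * qq b a z e f * gL b (cut C a) z f y := by
  rw [G2 hb hz C a x y]
  congr 1
  refine Finset.sum_congr rfl fun e he => ?_
  have h1 : gL b a z e y = gL b (cut C a) z e y
      - ∑ f ∈ Bd C, (cl b (a f) : ℂ) * gg b a z e f * gL b (cut C a) z f y := by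
    have h3 := G1 hb hz C a (tgt e) y
    have h4 := G1 hb hz C a (src e) y
    have h5 : ∑ f ∈ Bd C, (cl b (a f) : ℂ) * gg b a z e f * gL b (cut C a) z f y =
        ∑ f ∈ Bd C, (cl b (a f) : ℂ) * gR b a z (tgt e) f * gL b (cut C a) z f y -
        ∑ f ∈ Bd C, (cl b (a f) : ℂ) * gR b a z (src e) f * gL b (cut C a) z f y := by
      rw [← Finset.sum_sub_distrib]
      refine Finset.sum_congr rfl fun f _ => ?_
      unfold gg gR gL
      ring
    rw [h5, gL, gL, h3, h4]
    ring
  have h6 : ∑ f ∈ Bd C, gR b (cut C a) z x e * qq b a z e f * gL b (cut C a) z f y =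
      ∑ f ∈ Bd C, ((if e = f then (cl b (a e) : ℂ) * gR b (cut C a) z x e *
        gL b (cut C a) z f y else 0) -
        (cl b (a e) : ℂ) * gR b (cut C a) z x e *
          ((cl b (a f) : ℂ) * gg b a z e f * gL b (cut C a) z f y)) := by
    refine Finset.sum_congr rfl fun f _ => ?_
    unfold qq
    split_ifs with hef
    · subst hef; ring
    · ring
  rw [h6, Finset.sum_sub_distrib, Finset.sum_ite_eq, if_pos he, ← Finset.mul_sum, h1]
  ring

private theorem isCut_cut (hb : 0 ≤ b) (C : Finset (Site d)) (a : Edge d → ℝ) :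
    IsCut b (cut C a) (C : Set (Site d)) := by
  intro e he
  rw [cut, if_pos (mem_Bd.2 he), cl_zero hb]

private theorem inn_mem {C : Finset (Site d)} {e : Edge d} (he : e ∈ Bd C) : inn C e ∈ C := by
  rw [mem_Bd] at he
  unfold inn
  split_ifs with h
  · exact h
  · tauto

private theorem outp_notMem {C : Finset (Site d)} {e : Edge d} (he : e ∈ Bd C) :
    outp C e ∉ C := by
  rw [mem_Bd] at he
  unfold outp
  split_ifs with h
  · tauto
  · exact h

private theorem gR_norm (hb : 0 ≤ b) (hz : 0 < z.im) (C : Finset (Site d)) (a : Edge d → ℝ)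
    {x : Site d} (hx : x ∈ C) {e : Edge d} (he : e ∈ Bd C) :
    ‖gR b (cut C a) z x e‖ = ‖G b (cut C a) z x (inn C e)‖ := by
  have h := isCut_cut hb C a
  rw [mem_Bd] at he
  unfold gR inn
  rcases he with he | he
  · rw [if_pos he.1, (G_zero_of_cut hz h (Finset.mem_coe.2 hx) (fun h => he.2 h)).1, zero_sub,
      norm_neg]
  · rw [if_neg he.1, (G_zero_of_cut hz h (Finset.mem_coe.2 hx) (fun h => he.1 h)).1, sub_zero]

private theorem gL_norm_in (hb : 0 ≤ b) (hz : 0 < z.im) (C : Finset (Site d)) (a : Edge d → ℝ)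
    {y : Site d} (hy : y ∈ C) {e : Edge d} (he : e ∈ Bd C) :
    ‖gL b (cut C a) z e y‖ = ‖G b (cut C a) z (inn C e) y‖ := by
  have h := isCut_cut hb C a
  rw [mem_Bd] at he
  unfold gL inn
  rcases he with he | he
  · rw [if_pos he.1, (G_zero_of_cut hz h (Finset.mem_coe.2 hy) (fun h => he.2 h)).2, zero_sub,
      norm_neg]
  · rw [if_neg he.1, (G_zero_of_cut hz h (Finset.mem_coe.2 hy) (fun h => he.1 h)).2, sub_zero]

private theorem gL_norm_out (hb : 0 ≤ b) (hz : 0 < z.im) (C : Finset (Site d)) (a : Edge d → ℝ)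
    {y : Site d} (hy : y ∉ C) {e : Edge d} (he : e ∈ Bd C) :
    ‖gL b (cut C a) z e y‖ = ‖G b (cut C a) z (outp C e) y‖ := by
  have h := isCut_cut hb C a
  rw [mem_Bd] at he
  unfold gL outp
  rcases he with he | he
  · rw [if_pos he.1, (G_zero_of_cut hz h (Finset.mem_coe.2 he.1) (fun h => hy h)).1, sub_zero]
  · rw [if_neg he.1, (G_zero_of_cut hz h (Finset.mem_coe.2 he.2) (fun h => hy h)).1, zero_sub,
      norm_neg]

theorem norm_G_out_le (hb : 0 ≤ b) (hz : 0 < z.im) (C : Finset (Site d)) (a : Edge d → ℝ)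
    {x y : Site d} (hx : x ∈ C) (hy : y ∉ C) :
    ‖G b a z x y‖ ≤ ∑ e ∈ Bd C, ∑ f ∈ Bd C,
      ‖G b (cut C a) z x (inn C e)‖ * ‖qq b a z e f‖ * ‖G b (cut C a) z (outp C f) y‖ := by
  rw [expand hb hz C a x y,
    (G_zero_of_cut hz (isCut_cut hb C a) (Finset.mem_coe.2 hx) (fun h => hy h)).1, zero_sub,
    norm_neg]
  refine (norm_sum_le _ _).trans (Finset.sum_le_sum fun e he => ?_)
  refine (norm_sum_le _ _).trans (Finset.sum_le_sum fun f hf => ?_)
  rw [norm_mul, norm_mul, gR_norm hb hz C a hx he, gL_norm_out hb hz C a hy hf]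

theorem norm_G_in_le (hb : 0 ≤ b) (hz : 0 < z.im) (C : Finset (Site d)) (a : Edge d → ℝ)
    {x y : Site d} (hx : x ∈ C) (hy : y ∈ C) :
    ‖G b a z x y‖ ≤ ‖G b (cut C a) z x y‖ + ∑ e ∈ Bd C, ∑ f ∈ Bd C,
      ‖G b (cut C a) z x (inn C e)‖ * ‖qq b a z e f‖ * ‖G b (cut C a) z (inn C f) y‖ := by
  rw [expand hb hz C a x y]
  refine (norm_sub_le _ _).trans ?_
  gcongr
  refine (norm_sum_le _ _).trans (Finset.sum_le_sum fun e he => ?_)
  refine (norm_sum_le _ _).trans (Finset.sum_le_sum fun f hf => ?_)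
  rw [norm_mul, norm_mul, gR_norm hb hz C a hx he, gL_norm_in hb hz C a hy hf]

end RC
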