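import Pool.Agent.RC.Res

set_option autoImplicit false

/-!
EXTRA: more facts on the resolvent (all proved): resolvent identities for `gL`, `gg`, rank one
formula, continuity in the energy, joint measurability.
-/

open scoped ENNReal NNReal InnerProductSpace
open MeasureTheory Set Filter Topology

noncomputable section

namespace RC

open Pool.Agent.Helper3.Anderson Pool.Agent.Helper3.Crit

variable {d : ℕ} {b : ℝ} {z : ℂ}

theorem gR_sub_eq_gg (b : ℝ) (a : Edge d → ℝ) (z : ℂ) (e f : Edge d) :
    gR b a z (tgt e) f - gR b a z (src e) f = gg b a z e f := by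
  simp only [gR, gg, gL]; ring

theorem gL_sub (b : ℝ) (a a' : Edge d → ℝ) (hz : 0 < z.im) (F : Finset (Edge d))
    (h : ∀ e, e ∉ F → cl b (a e) = cl b (a' e)) (e : Edge d) (y : Site d) :
    gL b a z e y - gL b a' z e y =
      -∑ g ∈ F, ((cl b (a g) - cl b (a' g) : ℝ) : ℂ) * gg b a z e g * gL b a' z g y := by
  have h1 := G_sub b a a' hz F h (tgt e) y
  have h2 := G_sub b a a' hz F h (src e) y
  have e0 : gL b a z e y - gL b a' z e y = (G b a z (tgt e) y - G b a' z (tgt e) y)
      - (G b a z (src e) y - G b a' z (src e) y) := by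
    simp only [gL]; ring
  rw [e0, h1, h2, ← neg_sub_neg, neg_neg, neg_neg, ← Finset.sum_sub_distrib,
    ← Finset.sum_neg_distrib]
  refine Finset.sum_congr rfl fun g _ => ?_
  rw [← gR_sub_eq_gg]
  ring

theorem gR_sub (b : ℝ) (a a' : Edge d → ℝ) (hz : 0 < z.im) (F : Finset (Edge d))
    (h : ∀ e, e ∉ F → cl b (a e) = cl b (a' e)) (x : Site d) (f : Edge d) :
    gR b a z x f - gR b a' z x f =
      -∑ g ∈ F, ((cl b (a g) - cl b (a' g) : ℝ) : ℂ) * gR b a z x g * gg b a' z g f := by
  have h1 := G_sub b a a' hz F h x (tgt f)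
  have h2 := G_sub b a a' hz F h x (src f)
  have e0 : gR b a z x f - gR b a' z x f = (G b a z x (tgt f) - G b a' z x (tgt f))
      - (G b a z x (src f) - G b a' z x (src f)) := by
    simp only [gR]; ring
  rw [e0, h1, h2, ← neg_sub_neg, neg_neg, neg_neg, ← Finset.sum_sub_distrib,
    ← Finset.sum_neg_distrib]
  refine Finset.sum_congr rfl fun g _ => ?_
  simp only [gg]
  ring

theorem gg_sub (b : ℝ) (a a' : Edge d → ℝ) (hz : 0 < z.im) (F : Finset (Edge d))
    (h : ∀ e, e ∉ F → cl b (a e) = cl b (a' e)) (e f : Edge d) :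
    gg b a z e f - gg b a' z e f =
      -∑ g ∈ F, ((cl b (a g) - cl b (a' g) : ℝ) : ℂ) * gg b a z e g * gg b a' z g f := by
  have h1 := gL_sub b a a' hz F h e (tgt f)
  have h2 := gL_sub b a a' hz F h e (src f)
  have e0 : gg b a z e f - gg b a' z e f = (gL b a z e (tgt f) - gL b a' z e (tgt f))
      - (gL b a z e (src f) - gL b a' z e (src f)) := by
    simp only [gg]; ring
  rw [e0, h1, h2, ← neg_sub_neg, neg_neg, neg_neg, ← Finset.sum_sub_distrib,
    ← Finset.sum_neg_distrib]
  refine Finset.sum_congr rfl fun g _ => ?_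
  simp only [gg]
  ring

/-- rank one formula: `gg_t = gg_0 / (1 + t gg_0)` -/
theorem gg_update (hb : 0 ≤ b) (hz : 0 < z.im) (a : Edge d → ℝ) (e : Edge d) {t : ℝ}
    (ht : t ∈ Icc 0 b) :
    1 + (t : ℂ) * gg b (Function.update a e 0) z e e ≠ 0 ∧
      gg b (Function.update a e t) z e e * (1 + (t : ℂ) * gg b (Function.update a e 0) z e e) =
        gg b (Function.update a e 0) z e e := by
  classical
  have h1 := gg_sub b (Function.update a e t) (Function.update a e 0) hz {e} (fun f hf => by
    rw [Finset.mem_singleton] at hf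
    rw [Function.update_of_ne hf, Function.update_of_ne hf]) e e
  rw [Finset.sum_singleton, Function.update_self, Function.update_self, cl_of_mem ht,
    cl_zero hb, sub_zero] at h1
  refine ⟨fun h => ?_, by linear_combination h1⟩
  have h2 := congrArg Complex.im h
  have h3 := gg_im_pos b (Function.update a e 0) hz e
  simp only [Complex.add_im, Complex.one_im, Complex.mul_im, Complex.ofReal_re,
    Complex.ofReal_im, zero_mul, add_zero, zero_add, Complex.zero_im] at h2
  have h4 : t = 0 := by
    rcases mul_eq_zero.1 h2 with h | h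
    · exact h
    · exact absurd h h3.ne'
  rw [h4] at h
  simp at h

/-- first resolvent identity in the spectral parameter -/
theorem Rz_sub_z (b : ℝ) (a : Edge d → ℝ) {z z' : ℂ} (hz : 0 < z.im) (hz' : 0 < z'.im)
    (ψ : L2 d) : Rz b a z ψ - Rz b a z' ψ = (z - z') • Rz b a z (Rz b a z' ψ) := by
  have h0 := Hz_Rz b a hz'.ne' ψ
  set u := Rz b a z' ψ with hu
  have h1 : ψ = (Hc b a u - z • u) + (z - z') • u := by
    rw [sub_smul, ← h0]
    abel
  conv_lhs => rw [h1]
  rw [map_add, Rz_Hz b a hz.ne', map_smul]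
  abel

theorem continuous_Rz_E (b : ℝ) (a : Edge d → ℝ) {ε : ℝ} (hε : 0 < ε) (ψ : L2 d) :
    Continuous fun E : ℝ => Rz b a ((E : ℂ) + ε * Complex.I) ψ := by
  have him : ∀ E : ℝ, ((E : ℂ) + ε * Complex.I).im = ε := fun E => by simp
  rw [continuous_iff_continuousAt]
  intro E0
  rw [ContinuousAt, tendsto_iff_dist_tendsto_zero]
  have h1 : Tendsto (fun E : ℝ => |E - E0| * (‖ψ‖ / ε / ε)) (𝓝 E0) (𝓝 0) := by
    have h2 : Continuous fun E : ℝ => |E - E0| * (‖ψ‖ / ε / ε) := by fun_prop
    have := h2.tendsto E0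
    simpa using this
  refine squeeze_zero (fun t => dist_nonneg) (fun E => ?_) h1
  rw [dist_eq_norm, Rz_sub_z b a (by rw [him]; exact hε) (by rw [him]; exact hε), norm_smul]
  have e1 : ((E : ℂ) + ε * Complex.I) - ((E0 : ℂ) + ε * Complex.I) = ((E - E0 : ℝ) : ℂ) := by
    push_cast; ring
  rw [e1, Complex.norm_real, Real.norm_eq_abs]
  refine mul_le_mul_of_nonneg_left ?_ (abs_nonneg _)
  have h3 := norm_Rz_le b a (z := (E : ℂ) + ε * Complex.I) (by rw [him]; exact hε)
    (Rz b a ((E0 : ℂ) + ε * Complex.I) ψ)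
  have h4 := norm_Rz_le b a (z := (E0 : ℂ) + ε * Complex.I) (by rw [him]; exact hε) ψ
  rw [him] at h3 h4
  exact h3.trans (by gcongr)

theorem measurable_G_uncurry (b : ℝ) {ε : ℝ} (hε : 0 < ε) (x y : Site d) :
    Measurable (Function.uncurry fun (E : ℝ) (ω : Edge d → ℝ) =>
      G b ω ((E : ℂ) + ε * Complex.I) x y) := by
  refine measurable_uncurry_of_continuous_of_measurable (fun ω => ?_) fun E => ?_
  · have h3 : Continuous fun φ : L2 d => φ x :=
      (lp.lipschitzWith_one_eval (E := fun _ : Site d => ℂ) 2 x).continuous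
    exact h3.comp (continuous_Rz_E b ω hε (dl y))
  · exact (continuous_G b (by simpa using hε) x y).measurable

theorem measurable_gg_uncurry (b : ℝ) {ε : ℝ} (hε : 0 < ε) (e f : Edge d) :
    Measurable (Function.uncurry fun (E : ℝ) (ω : Edge d → ℝ) =>
      gg b ω ((E : ℂ) + ε * Complex.I) e f) := by
  have h1 := measurable_G_uncurry b hε (tgt e) (tgt f)
  have h2 := measurable_G_uncurry b hε (src e) (tgt f)
  have h3 := measurable_G_uncurry b hε (tgt e) (src f)
  have h4 := measurable_G_uncurry b hε (src e) (src f)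
  exact (h1.sub h2).sub (h3.sub h4)

theorem continuous_gg (b : ℝ) (hz : 0 < z.im) (e f : Edge d) :
    Continuous fun a : Edge d → ℝ => gg b a z e f := by
  simp only [gg, gL]
  exact ((continuous_G b hz _ _).sub (continuous_G b hz _ _)).sub
    ((continuous_G b hz _ _).sub (continuous_G b hz _ _))

end RC
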