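import Pool.Agent.RC.Defs
import Pool.Agent.Helper3.Anderson.Cont

set_option autoImplicit false

/-!
RES: basic facts on the conductance operator and its resolvent.
-/

open scoped ENNReal NNReal InnerProductSpace
open MeasureTheory Set Filter Topology

noncomputable section

namespace RC

open Pool.Agent.Helper3.Anderson Pool.Agent.Helper3.Crit

variable {d : ℕ} {b : ℝ} {z : ℂ}

theorem Hc_apply (b : ℝ) (a : Edge d → ℝ) (ψ : L2 d) (x : Site d) :
    Hc b a ψ x = ∑ j : Fin d, ((cl b (a (x - Pi.single j 1, j)) : ℂ) * (ψ x - ψ (x - Pi.single j 1))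
      + (cl b (a (x, j)) : ℂ) * (ψ x - ψ (x + Pi.single j 1))) := by
  rw [Hc, sum_apply, coeFn_sum_apply]
  refine Finset.sum_congr rfl fun j _ => ?_
  simp only [mul_apply_eq_comp, sub_apply, one_apply_eq_self, lp.coeFn_sub,
    Pi.sub_apply, shift_apply, mulOp_apply, ← sub_eq_add_neg, sub_add_cancel]
  ring

theorem inner_Hc (b : ℝ) (a : Edge d → ℝ) (ψ φ : L2 d) : ⟪Hc b a ψ, φ⟫_ℂ = ⟪ψ, Hc b a φ⟫_ℂ := by
  simp only [Hc, sum_apply, sum_inner, inner_sum]
  refine Finset.sum_congr rfl fun j _ => ?_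
  simp only [mul_apply_eq_comp, sub_apply, one_apply_eq_self, inner_sub_left,
    inner_sub_right, inner_shift, inner_mulOp, neg_neg, map_sub]
  ring

theorem isSelfAdjoint_Hc (b : ℝ) (a : Edge d → ℝ) : IsSelfAdjoint (Hc b a) := by
  rw [ContinuousLinearMap.isSelfAdjoint_iff_isSymmetric]
  intro ψ φ
  exact inner_Hc b a ψ φ

theorem Hz_isUnit (b : ℝ) (a : Edge d → ℝ) (hz : z.im ≠ 0) :
    IsUnit (Hc b a - z • (1 : L2 d →L[ℂ] L2 d)) := by
  have h : z ∉ spectrum ℂ (Hc b a) := by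
    intro hmem
    have := (isSelfAdjoint_Hc b a).mem_spectrum_eq_re hmem
    apply hz
    rw [this]; simp
  rw [spectrum.notMem_iff] at h
  have h' : Hc b a - z • (1 : L2 d →L[ℂ] L2 d) =
      -(algebraMap ℂ (L2 d →L[ℂ] L2 d) z - Hc b a) := by
    rw [Algebra.algebraMap_eq_smul_one]; abel
  rw [h']
  exact h.neg

theorem Hz_Rz (b : ℝ) (a : Edge d → ℝ) (hz : z.im ≠ 0) (ψ : L2 d) :
    Hc b a (Rz b a z ψ) - z • Rz b a z ψ = ψ := by
  have := Ring.mul_inverse_cancel _ (Hz_isUnit b a hz)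
  exact congrArg (fun A : L2 d →L[ℂ] L2 d => A ψ) this

theorem Rz_Hz (b : ℝ) (a : Edge d → ℝ) (hz : z.im ≠ 0) (ψ : L2 d) :
    Rz b a z (Hc b a ψ - z • ψ) = ψ := by
  have := Ring.inverse_mul_cancel _ (Hz_isUnit b a hz)
  exact congrArg (fun A : L2 d →L[ℂ] L2 d => A ψ) this

theorem im_inner_Hc (b : ℝ) (a : Edge d → ℝ) (ψ : L2 d) : (⟪ψ, Hc b a ψ⟫_ℂ).im = 0 := by
  have h := inner_Hc b a ψ ψ
  have h2 : (starRingEnd ℂ) ⟪ψ, Hc b a ψ⟫_ℂ = ⟪ψ, Hc b a ψ⟫_ℂ := by
    rw [inner_conj_symm, h]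
  exact Complex.conj_eq_iff_im.1 h2

theorem im_inner_Hz (b : ℝ) (a : Edge d → ℝ) (z : ℂ) (ψ : L2 d) :
    (⟪ψ, Hc b a ψ - z • ψ⟫_ℂ).im = - z.im * ‖ψ‖ ^ 2 := by
  have h1 := im_inner_Hc b a ψ
  rw [inner_sub_right, Complex.sub_im, h1, inner_smul_right, inner_self_eq_norm_sq_to_K]
  have : (z * ((‖ψ‖ : ℝ) : ℂ) ^ 2).im = z.im * ‖ψ‖ ^ 2 := by
    rw [← Complex.ofReal_pow, Complex.im_mul_ofReal]
  simp only [Complex.coe_algebraMap, this]
  ring

theorem norm_Hz_ge (b : ℝ) (a : Edge d → ℝ) (hz : 0 < z.im) (ψ : L2 d) :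
    z.im * ‖ψ‖ ≤ ‖Hc b a ψ - z • ψ‖ := by
  by_cases h : ‖ψ‖ = 0
  · rw [h]; simp
  have hpos : 0 < ‖ψ‖ := lt_of_le_of_ne (norm_nonneg _) (Ne.symm h)
  have h1 := im_inner_Hz b a z ψ
  have h2 : |(⟪ψ, Hc b a ψ - z • ψ⟫_ℂ).im| ≤ ‖ψ‖ * ‖Hc b a ψ - z • ψ‖ :=
    (Complex.abs_im_le_norm _).trans (norm_inner_le_norm _ _)
  rw [h1, neg_mul, abs_neg, abs_of_nonneg (by positivity)] at h2
  have h3 : ‖ψ‖ * (z.im * ‖ψ‖) ≤ ‖ψ‖ * ‖Hc b a ψ - z • ψ‖ := by nlinarith
  exact le_of_mul_le_mul_left h3 hpos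

theorem norm_Rz_le (b : ℝ) (a : Edge d → ℝ) (hz : 0 < z.im) (ψ : L2 d) :
    ‖Rz b a z ψ‖ ≤ ‖ψ‖ / z.im := by
  rw [le_div_iff₀ hz, mul_comm]
  have := norm_Hz_ge b a hz (Rz b a z ψ)
  rwa [Hz_Rz b a hz.ne'] at this

theorem ward (b : ℝ) (a : Edge d → ℝ) (hz : 0 < z.im) (ψ : L2 d) :
    z.im * ‖Rz b a z ψ‖ ^ 2 = (⟪ψ, Rz b a z ψ⟫_ℂ).im := by
  have h := im_inner_Hz b a z (Rz b a z ψ)
  rw [Hz_Rz b a hz.ne'] at h
  have h2 : ⟪Rz b a z ψ, ψ⟫_ℂ = (starRingEnd ℂ) ⟪ψ, Rz b a z ψ⟫_ℂ := (inner_conj_symm _ _).symm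
  rw [h2, Complex.conj_im] at h
  linarith

theorem norm_G_le (b : ℝ) (a : Edge d → ℝ) (hz : 0 < z.im) (x y : Site d) :
    ‖G b a z x y‖ ≤ 1 / z.im := by
  refine (lp.norm_apply_le_norm (by norm_num) _ x).trans ?_
  refine (norm_Rz_le b a hz _).trans ?_
  rw [norm_dl]

theorem Hc_star (b : ℝ) (a : Edge d → ℝ) (w : L2 d) : Hc b a (star w) = star (Hc b a w) := by
  ext x
  rw [lp.star_apply, Hc_apply, Hc_apply]
  simp only [lp.star_apply, star_sum, star_add, star_mul', star_sub, Complex.star_def,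
    Complex.conj_ofReal]

theorem star_dl (x : Site d) : star (dl x) = dl x := by
  ext p
  rw [lp.star_apply, dl_apply]
  split_ifs <;> simp

theorem G_symm (b : ℝ) (a : Edge d → ℝ) (hz : 0 < z.im) (x y : Site d) :
    G b a z x y = G b a z y x := by
  set u := Rz b a z (dl y) with hu
  set w := Rz b a z (dl x) with hw
  have key : ⟪star w, Hc b a u - z • u⟫_ℂ = ⟪star (Hc b a w - z • w), u⟫_ℂ := by
    rw [star_sub, star_smul, ← Hc_star, inner_sub_right, inner_sub_left,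
      inner_smul_right, inner_smul_left, inner_Hc]
    simp
  rw [hu, hw, Hz_Rz b a hz.ne', Hz_Rz b a hz.ne', ← hu, ← hw] at key
  have h1 : ⟪star w, dl y⟫_ℂ = w y := by
    rw [dl, lp.inner_single_right]; simp
  have h2 : ⟪star (dl x), u⟫_ℂ = u x := by
    rw [star_dl, dl, lp.inner_single_left]; simp
  rw [h1, h2] at key
  exact key.symm

theorem gR_eq (b : ℝ) (a : Edge d → ℝ) (hz : 0 < z.im) (x : Site d) (e : Edge d) :
    gR b a z x e = gL b a z e x := by
  rw [gR, gL, G_symm b a hz x, G_symm b a hz x]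

theorem gg_symm (b : ℝ) (a : Edge d → ℝ) (hz : 0 < z.im) (e f : Edge d) :
    gg b a z e f = gg b a z f e := by
  simp only [gg, gL]
  rw [G_symm b a hz (tgt e) (tgt f), G_symm b a hz (src e) (tgt f),
    G_symm b a hz (tgt e) (src f), G_symm b a hz (src e) (src f)]
  ring

theorem inner_dl (x : Site d) (u : L2 d) : ⟪dl x, u⟫_ℂ = u x := by
  rw [dl, lp.inner_single_left]; simp

theorem inner_grad (e : Edge d) (u : L2 d) : ⟪grad e, u⟫_ℂ = u (tgt e) - u (src e) := by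
  rw [grad, inner_sub_left, inner_dl, inner_dl]

theorem gL_eq_inner (b : ℝ) (a : Edge d → ℝ) (z : ℂ) (e : Edge d) (y : Site d) :
    gL b a z e y = ⟪grad e, Rz b a z (dl y)⟫_ℂ := by
  rw [inner_grad]; rfl

theorem gg_eq_inner (b : ℝ) (a : Edge d → ℝ) (z : ℂ) (e f : Edge d) :
    gg b a z e f = ⟪grad e, Rz b a z (grad f)⟫_ℂ := by
  rw [gg, gL_eq_inner, gL_eq_inner, ← inner_sub_right, ← map_sub]; rfl

theorem gR_eq_apply (b : ℝ) (a : Edge d → ℝ) (z : ℂ) (x : Site d) (e : Edge d) :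
    gR b a z x e = (Rz b a z (grad e) : L2 d) x := by
  rw [grad, map_sub]; rfl

theorem src_ne_tgt (e : Edge d) : src e ≠ tgt e := by
  intro h
  have h1 := congrFun h e.2
  simp [src, tgt] at h1

theorem grad_ne_zero (e : Edge d) : grad e ≠ 0 := by
  intro h
  have h1 : (grad e : L2 d) (tgt e) = 0 := by rw [h]; rfl
  have h2 : (grad e : L2 d) (tgt e) = 1 := by
    rw [grad, lp.coeFn_sub, Pi.sub_apply, dl_apply, dl_apply, if_pos rfl,
      if_neg (src_ne_tgt e).symm, sub_zero]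
  rw [h2] at h1
  exact one_ne_zero h1

theorem gg_im_pos (b : ℝ) (a : Edge d → ℝ) (hz : 0 < z.im) (e : Edge d) :
    0 < (gg b a z e e).im := by
  rw [gg_eq_inner, ← ward b a hz]
  have h : Rz b a z (grad e) ≠ 0 := by
    intro h
    have h1 := Hz_Rz b a hz.ne' (grad e)
    rw [h, map_zero, smul_zero, sub_zero] at h1
    exact grad_ne_zero e h1.symm
  have := norm_pos_iff.2 h
  positivity

/-- the equation of the Green function -/
theorem G_eqn (b : ℝ) (a : Edge d → ℝ) (hz : 0 < z.im) (x y : Site d) :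
    ∑ j : Fin d, ((cl b (a (x - Pi.single j 1, j)) : ℂ) * (G b a z x y - G b a z (x - Pi.single j 1) y)
      + (cl b (a (x, j)) : ℂ) * (G b a z x y - G b a z (x + Pi.single j 1) y))
      - z * G b a z x y = if x = y then 1 else 0 := by
  have h1 := Hz_Rz b a hz.ne' (dl y)
  have h2 := congrArg (fun φ : L2 d => φ x) h1
  simp only [dl_apply] at h2
  rw [← h2, lp.coeFn_sub, Pi.sub_apply, Hc_apply, lp.coeFn_smul, Pi.smul_apply, smul_eq_mul]
  rfl

/-- uniqueness of the Green function -/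
theorem G_unique (b : ℝ) (a : Edge d → ℝ) (hz : 0 < z.im) (y : Site d) (ψ : L2 d)
    (h : ∀ x, Hc b a ψ x - z * ψ x = if x = y then 1 else 0) (x : Site d) :
    ψ x = G b a z x y := by
  have h1 : Hc b a ψ - z • ψ = dl y := by
    ext x
    rw [lp.coeFn_sub, Pi.sub_apply, lp.coeFn_smul, Pi.smul_apply, smul_eq_mul, h, dl_apply]
  have h2 := Rz_Hz b a hz.ne' ψ
  rw [h1] at h2
  rw [← h2]
  rfl

/-- two operators which differ on finitely many edges -/
theorem Hc_sub (b : ℝ) (a a' : Edge d → ℝ) (F : Finset (Edge d))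
    (h : ∀ e, e ∉ F → cl b (a e) = cl b (a' e)) (ψ : L2 d) :
    Hc b a ψ - Hc b a' ψ = ∑ e ∈ F,
      (((cl b (a e) - cl b (a' e) : ℝ) : ℂ) * (ψ (tgt e) - ψ (src e))) • grad e := by
  classical
  ext x
  rw [lp.coeFn_sub, Pi.sub_apply, Hc_apply, Hc_apply, coeFn_sum_apply]
  set D : Edge d → ℂ := fun e => ((cl b (a e) - cl b (a' e) : ℝ) : ℂ) with hD
  have hD0 : ∀ e, e ∉ F → D e = 0 := fun e he => by
    simp only [hD, h e he, sub_self, Complex.ofReal_zero]
  have e1 : ∀ e, (((D e * (ψ (tgt e) - ψ (src e))) • grad e : L2 d) : Site d → ℂ) x =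
      (if x = tgt e then D e * (ψ (tgt e) - ψ (src e)) else 0) -
        (if x = src e then D e * (ψ (tgt e) - ψ (src e)) else 0) := by
    intro e
    rw [lp.coeFn_smul, Pi.smul_apply, grad, lp.coeFn_sub, Pi.sub_apply, dl_apply, dl_apply,
      smul_eq_mul, mul_sub, mul_ite, mul_ite, mul_one, mul_zero]
  refine Eq.trans ?_ (Finset.sum_congr rfl fun e _ => (e1 e).symm)
  rw [Finset.sum_sub_distrib]
  have e2 : ∑ e ∈ F, (if x = tgt e then D e * (ψ (tgt e) - ψ (src e)) else 0) =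
      ∑ j : Fin d, D (x - Pi.single j 1, j) * (ψ x - ψ (x - Pi.single j 1)) := by
    rw [← Finset.sum_filter]
    have : ∑ j : Fin d, D (x - Pi.single j 1, j) * (ψ x - ψ (x - Pi.single j 1)) =
        ∑ j ∈ Finset.univ.filter (fun j : Fin d => (x - Pi.single j 1, j) ∈ F),
          D (x - Pi.single j 1, j) * (ψ x - ψ (x - Pi.single j 1)) := by
      refine (Finset.sum_subset (Finset.filter_subset _ _) fun j _ hj => ?_).symm
      have hj' : (x - Pi.single j 1, j) ∉ F := fun h' => hj (by simp [h'])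
      rw [hD0 _ hj', zero_mul]
    rw [this]
    symm
    refine Finset.sum_bij (fun j _ => (x - Pi.single j 1, j)) ?_ ?_ ?_ ?_
    · intro j hj
      rw [Finset.mem_filter] at hj ⊢
      refine ⟨hj.2, ?_⟩
      simp [tgt]
    · intro j _ j' _ hjj
      exact (Prod.ext_iff.1 hjj).2
    · rintro ⟨y, j⟩ he
      rw [Finset.mem_filter] at he
      have hy : y = x - Pi.single j 1 := by
        rw [he.2]; simp [tgt]
      refine ⟨j, ?_, ?_⟩
      · rw [Finset.mem_filter]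
        exact ⟨Finset.mem_univ _, hy ▸ he.1⟩
      · rw [hy]
    · intro j _
      simp [tgt, src]
  have e3 : ∑ e ∈ F, (if x = src e then D e * (ψ (tgt e) - ψ (src e)) else 0) =
      ∑ j : Fin d, D (x, j) * (ψ (x + Pi.single j 1) - ψ x) := by
    rw [← Finset.sum_filter]
    have : ∑ j : Fin d, D (x, j) * (ψ (x + Pi.single j 1) - ψ x) =
        ∑ j ∈ Finset.univ.filter (fun j : Fin d => (x, j) ∈ F),
          D (x, j) * (ψ (x + Pi.single j 1) - ψ x) := by
      refine (Finset.sum_subset (Finset.filter_subset _ _) fun j _ hj => ?_).symm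
      have hj' : (x, j) ∉ F := fun h' => hj (by simp [h'])
      rw [hD0 _ hj', zero_mul]
    rw [this]
    symm
    refine Finset.sum_bij (fun j _ => (x, j)) ?_ ?_ ?_ ?_
    · intro j hj
      rw [Finset.mem_filter] at hj ⊢
      exact ⟨hj.2, rfl⟩
    · intro j _ j' _ hjj
      exact (Prod.ext_iff.1 hjj).2
    · rintro ⟨y, j⟩ he
      rw [Finset.mem_filter] at he
      have hy : x = y := he.2
      refine ⟨j, ?_, ?_⟩
      · rw [Finset.mem_filter]
        exact ⟨Finset.mem_univ _, hy ▸ he.1⟩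
      · rw [hy]
    · intro j _
      simp [tgt, src]
  rw [e2, e3, ← Finset.sum_sub_distrib, ← Finset.sum_sub_distrib]
  refine Finset.sum_congr rfl fun j _ => ?_
  simp only [hD]
  push_cast
  ring

/-- second resolvent identity -/
theorem Rz_sub (b : ℝ) (a a' : Edge d → ℝ) (hz : 0 < z.im) (ψ : L2 d) :
    Rz b a z ψ - Rz b a' z ψ = -Rz b a z (Hc b a (Rz b a' z ψ) - Hc b a' (Rz b a' z ψ)) := by
  have h0 := Hz_Rz b a' hz.ne' ψ
  set u := Rz b a' z ψ with hu
  have h1 : Hc b a u - Hc b a' u = (Hc b a u - z • u) - ψ := by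
    rw [← h0]
    abel
  rw [h1, map_sub, Rz_Hz b a hz.ne']
  abel

/-- the resolvent identity -/
theorem G_sub (b : ℝ) (a a' : Edge d → ℝ) (hz : 0 < z.im) (F : Finset (Edge d))
    (h : ∀ e, e ∉ F → cl b (a e) = cl b (a' e)) (x y : Site d) :
    G b a z x y - G b a' z x y =
      -∑ e ∈ F, ((cl b (a e) - cl b (a' e) : ℝ) : ℂ) * gR b a z x e * gL b a' z e y := by
  have h1 := Rz_sub b a a' hz (dl y)
  rw [Hc_sub b a a' F h] at h1
  have h2 := congrArg (fun φ : L2 d => φ x) h1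
  simp only [lp.coeFn_sub, Pi.sub_apply, lp.coeFn_neg, Pi.neg_apply, map_sum, map_smul] at h2
  rw [coeFn_sum_apply] at h2
  have h3 : G b a z x y - G b a' z x y = (Rz b a z (dl y) : L2 d) x - (Rz b a' z (dl y) : L2 d) x :=
    rfl
  rw [h3, h2]
  congr 1
  refine Finset.sum_congr rfl fun e _ => ?_
  rw [lp.coeFn_smul, Pi.smul_apply, smul_eq_mul, gR_eq_apply]
  have h4 : gL b a' z e y = (Rz b a' z (dl y) : L2 d) (tgt e) - (Rz b a' z (dl y) : L2 d) (src e) :=
    rfl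
  rw [h4]
  ring

theorem continuous_Hc (b : ℝ) (ψ : L2 d) : Continuous fun a : Edge d → ℝ => Hc b a ψ := by
  simp only [Hc, sum_apply, mul_apply_eq_comp]
  refine continuous_finsetSum _ fun j _ => ?_
  refine (shift (-Pi.single j 1) - 1 : L2 d →L[ℂ] L2 d).continuous.comp ?_
  refine continuous_mulOp (T := Edge d → ℝ) (fun a x => cl b (a (x, j))) (fun a => bdd_cl b a j)
    (M := |b|) (fun a x => abs_cl_le _ _) (fun x => ?_) _
  exact (continuous_cl b).comp (continuous_apply _)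

theorem continuous_Rz (b : ℝ) (hz : 0 < z.im) (ψ : L2 d) :
    Continuous fun a : Edge d → ℝ => Rz b a z ψ := by
  rw [continuous_iff_continuousAt]
  intro a0
  have hcm := continuous_Hc b (Rz b a0 z ψ)
  rw [ContinuousAt, tendsto_iff_dist_tendsto_zero]
  have h1 : Tendsto (fun a => ‖Hc b a (Rz b a0 z ψ) - Hc b a0 (Rz b a0 z ψ)‖ / z.im)
      (𝓝 a0) (𝓝 0) := by
    have h2 : Continuous fun a => ‖Hc b a (Rz b a0 z ψ) - Hc b a0 (Rz b a0 z ψ)‖ / z.im :=
      ((hcm.sub continuous_const).norm).div_const _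
    have := h2.tendsto a0
    simpa using this
  refine squeeze_zero (fun t => dist_nonneg) (fun t => ?_) h1
  rw [dist_eq_norm, Rz_sub b t a0 hz, norm_neg]
  exact norm_Rz_le b t hz _

theorem continuous_G (b : ℝ) (hz : 0 < z.im) (x y : Site d) :
    Continuous fun a : Edge d → ℝ => G b a z x y := by
  have h3 : Continuous fun φ : L2 d => φ x :=
    (lp.lipschitzWith_one_eval (E := fun _ : Site d => ℂ) 2 x).continuous
  exact h3.comp (continuous_Rz b hz (dl y))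

end RC
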