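import Pool.Agent.RC.Step
import Pool.Agent.RC.Res

set_option autoImplicit false

/-!
IND: fractional moment localisation for finite sets of edges, by induction over the number of
edges; passage to the infinite volume.
-/

open scoped ENNReal NNReal InnerProductSpace
open MeasureTheory Set Filter Topology

noncomputable section

namespace RC

open Pool.Agent.Helper3.Anderson Pool.Agent.Helper3.Crit

theorem sn_tri {d : ℕ} (x y w : Site d) : sn (x - y) ≤ sn (w - x) + sn (w - y) := by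
  have h := sn_sub_le (w - y) (w - x)
  have h2 : w - y - (w - x) = x - y := by abel
  rw [h2] at h
  omega

/-- the constants of one cluster are at most the weight -/
theorem wt_ge {d : ℕ} (K : ℝ≥0) {p m : ℝ} (hp : 0 < p) (x : Site d) (C : Finset (Site d)) :
    (3 + 7 * K * (In C).card / p) * (1 + ((Bd C).card : ℝ) ^ 2) *
      Real.exp (m * (rad x C + 1)) ≤ wt d K p m (rad x C) := by
  have h1 : ((C.card : ℝ)) ≤ (2 * rad x C + 1) ^ d := by exact_mod_cast card_le_rad x C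
  have h2 : ((In C).card : ℝ) ≤ d * C.card := by exact_mod_cast card_In_le C
  have h3 : ((Bd C).card : ℝ) ≤ 2 * d * C.card := by exact_mod_cast card_Bd_le C
  have hd0 : (0 : ℝ) ≤ d := Nat.cast_nonneg d
  have h4 : ((In C).card : ℝ) ≤ d * (2 * rad x C + 1) ^ d :=
    h2.trans (mul_le_mul_of_nonneg_left h1 hd0)
  have h5 : ((Bd C).card : ℝ) ≤ 2 * d * (2 * rad x C + 1) ^ d :=
    h3.trans (mul_le_mul_of_nonneg_left h1 (by positivity))
  unfold wt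
  gcongr

/-- the coupling constant of the boundary bonds -/
theorem mz_le {K : ℝ≥0} {p q C0 : ℝ} (hC0 : 0 < C0) {z : ℂ} (hz : 0 < z.im)
    (hqz : C0 * q ≤ ‖z‖) :
    8 * ENNReal.ofReal (K * q) ^ (1 / 4 : ℝ) * ENNReal.ofReal (((1 - p) ^ 2)⁻¹)
        * ‖z‖ₑ ^ (-(1 / 4 : ℝ))
      ≤ ENNReal.ofReal (8 * (K / C0) ^ (1 / 4 : ℝ) * ((1 - p) ^ 2)⁻¹) := by
  have hz0 : z ≠ 0 := by rintro rfl; simp at hz
  have hzn : 0 < ‖z‖ := norm_pos_iff.2 hz0
  have hze : ‖z‖ₑ ≠ 0 := by simpa using hz0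
  have hzt : ‖z‖ₑ ≠ ⊤ := enorm_ne_top
  have h1 : (K : ℝ) * q ≤ (K / C0) * ‖z‖ := by
    rw [div_mul_eq_mul_div, le_div_iff₀ hC0]
    have := mul_le_mul_of_nonneg_left hqz K.2
    nlinarith
  have h2 : ENNReal.ofReal (K * q) ^ (1 / 4 : ℝ)
      ≤ ENNReal.ofReal ((K / C0) ^ (1 / 4 : ℝ)) * ‖z‖ₑ ^ (1 / 4 : ℝ) := by
    calc ENNReal.ofReal (K * q) ^ (1 / 4 : ℝ)
        ≤ ENNReal.ofReal ((K / C0) * ‖z‖) ^ (1 / 4 : ℝ) :=
          ENNReal.rpow_le_rpow (ENNReal.ofReal_le_ofReal h1) (by norm_num)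
      _ = (ENNReal.ofReal (K / C0) * ‖z‖ₑ) ^ (1 / 4 : ℝ) := by
          rw [ENNReal.ofReal_mul (by positivity), ofReal_norm]
      _ = ENNReal.ofReal ((K / C0) ^ (1 / 4 : ℝ)) * ‖z‖ₑ ^ (1 / 4 : ℝ) := by
          rw [ENNReal.mul_rpow_of_nonneg _ _ (by norm_num),
            ENNReal.ofReal_rpow_of_nonneg (by positivity) (by norm_num)]
  have h3 : ‖z‖ₑ ^ (1 / 4 : ℝ) * ‖z‖ₑ ^ (-(1 / 4 : ℝ)) = 1 := by
    rw [← ENNReal.rpow_add _ _ hze hzt]
    simp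
  calc 8 * ENNReal.ofReal (K * q) ^ (1 / 4 : ℝ) * ENNReal.ofReal (((1 - p) ^ 2)⁻¹)
        * ‖z‖ₑ ^ (-(1 / 4 : ℝ))
      ≤ 8 * (ENNReal.ofReal ((K / C0) ^ (1 / 4 : ℝ)) * ‖z‖ₑ ^ (1 / 4 : ℝ))
        * ENNReal.ofReal (((1 - p) ^ 2)⁻¹) * ‖z‖ₑ ^ (-(1 / 4 : ℝ)) := by gcongr
    _ = 8 * ENNReal.ofReal ((K / C0) ^ (1 / 4 : ℝ)) * ENNReal.ofReal (((1 - p) ^ 2)⁻¹)
        * (‖z‖ₑ ^ (1 / 4 : ℝ) * ‖z‖ₑ ^ (-(1 / 4 : ℝ))) := by ring
    _ = ENNReal.ofReal (8 * (K / C0) ^ (1 / 4 : ℝ) * ((1 - p) ^ 2)⁻¹) := by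
        rw [h3, mul_one, ENNReal.ofReal_mul (by positivity), ENNReal.ofReal_mul (by norm_num)]
        congr 2
        norm_num

theorem in_alg {Z M P c : ℝ≥0∞} {η s n B e X w : ℝ} (hη0 : 0 ≤ η) (hη1 : η ≤ 1) (hs0 : 0 ≤ s)
    (hn0 : 0 ≤ n) (hB0 : 0 ≤ B) (he : 0 < e) (hc : c = ENNReal.ofReal n)
    (hmz : M * Z ≤ ENNReal.ofReal η) (hX : 1 ≤ e * X) (hwt : s * (1 + n ^ 2) * X ≤ w) :
    (Z + c ^ 2 * M * (Z * Z)) * ENNReal.ofReal s * P
      ≤ ENNReal.ofReal ((1 + η * B) * e) * Z * (P * ENNReal.ofReal w) := by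
  have h2 : Z + c ^ 2 * M * (Z * Z) ≤ Z * ENNReal.ofReal (1 + n ^ 2) := by
    calc Z + c ^ 2 * M * (Z * Z)
        = Z * (1 + ENNReal.ofReal n ^ 2 * (M * Z)) := by rw [hc]; ring
      _ ≤ Z * (1 + ENNReal.ofReal n ^ 2 * ENNReal.ofReal η) := by gcongr
      _ ≤ Z * (1 + ENNReal.ofReal n ^ 2 * 1) := by
          gcongr
          rw [← ENNReal.ofReal_one]
          exact ENNReal.ofReal_le_ofReal hη1
      _ = Z * ENNReal.ofReal (1 + n ^ 2) := by
          rw [ENNReal.ofReal_add (by norm_num) (by positivity), ENNReal.ofReal_one, mul_one,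
            ENNReal.ofReal_pow hn0]
  have h3 : (1 + n ^ 2) * s ≤ (1 + η * B) * e * w := by
    have h5 : (1 + n ^ 2) * s ≤ e * (s * (1 + n ^ 2) * X) := by
      have : 0 ≤ (1 + n ^ 2) * s := by positivity
      nlinarith [mul_le_mul_of_nonneg_left hX this]
    have h6 : e * (s * (1 + n ^ 2) * X) ≤ e * w := mul_le_mul_of_nonneg_left hwt he.le
    have h7 : 0 ≤ e * w := le_trans (le_trans (by positivity) h5) h6
    have h8 : e * w ≤ (1 + η * B) * (e * w) := by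
      have : 0 ≤ η * B := by positivity
      nlinarith
    linarith
  calc (Z + c ^ 2 * M * (Z * Z)) * ENNReal.ofReal s * P
      ≤ (Z * ENNReal.ofReal (1 + n ^ 2)) * ENNReal.ofReal s * P := by gcongr
    _ = Z * P * ENNReal.ofReal ((1 + n ^ 2) * s) := by
        rw [ENNReal.ofReal_mul (by positivity)]; ring
    _ ≤ Z * P * ENNReal.ofReal ((1 + η * B) * e * w) := by gcongr
    _ = ENNReal.ofReal ((1 + η * B) * e) * Z * (P * ENNReal.ofReal w) := by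
        rw [ENNReal.ofReal_mul (by positivity)]; ring

theorem out_alg1 {Z M P J : ℝ≥0∞} {η s B e X t : ℝ} (hη0 : 0 ≤ η) (hs0 : 0 ≤ s) (hB0 : 0 ≤ B)
    (hmz : M * Z ≤ ENNReal.ofReal η) (hJ : J ≤ ENNReal.ofReal (B * t) * Z) (ht : t ≤ e * X) :
    M * (Z * ENNReal.ofReal s) * P * J ≤ ENNReal.ofReal (η * s * B * (e * X)) * (P * Z) := by
  have h1 : J ≤ ENNReal.ofReal (B * (e * X)) * Z := by
    refine hJ.trans ?_
    gcongr
  calc M * (Z * ENNReal.ofReal s) * P * J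
      ≤ M * (Z * ENNReal.ofReal s) * P * (ENNReal.ofReal (B * (e * X)) * Z) := by gcongr
    _ = (M * Z) * ENNReal.ofReal s * ENNReal.ofReal (B * (e * X)) * (P * Z) := by ring
    _ ≤ ENNReal.ofReal η * ENNReal.ofReal s * ENNReal.ofReal (B * (e * X)) * (P * Z) := by gcongr
    _ = ENNReal.ofReal (η * s * B * (e * X)) * (P * Z) := by
        rw [← ENNReal.ofReal_mul hη0, ← ENNReal.ofReal_mul (by positivity)]
        congr 2
        ring

theorem out_alg2 {Z P N : ℝ≥0∞} {η s n B e X w : ℝ} (hη0 : 0 ≤ η) (hs0 : 0 ≤ s)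
    (hB0 : 0 ≤ B) (he : 0 ≤ e) (hX : 0 ≤ X)
    (hN : N ≤ ENNReal.ofReal (n ^ 2)) (hwt : s * (1 + n ^ 2) * X ≤ w) :
    N * (ENNReal.ofReal (η * s * B * (e * X)) * (P * Z))
      ≤ ENNReal.ofReal ((1 + η * B) * e) * Z * (P * ENNReal.ofReal w) := by
  have h5 : n ^ 2 * (η * s * B * (e * X)) ≤ (1 + η * B) * e * w := by
    have h6 : s * n ^ 2 * X ≤ s * (1 + n ^ 2) * X := by
      gcongr; linarith
    have h7 := h6.trans hwt
    have h8 : 0 ≤ w := le_trans (by positivity) h7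
    have h9 : η * B * e * (s * n ^ 2 * X) ≤ η * B * e * w :=
      mul_le_mul_of_nonneg_left h7 (by positivity)
    have h10 : 0 ≤ e * w := by positivity
    nlinarith
  calc N * (ENNReal.ofReal (η * s * B * (e * X)) * (P * Z))
      ≤ ENNReal.ofReal (n ^ 2) * (ENNReal.ofReal (η * s * B * (e * X)) * (P * Z)) := by gcongr
    _ = ENNReal.ofReal (n ^ 2 * (η * s * B * (e * X))) * (P * Z) := by
        rw [← mul_assoc, ← ENNReal.ofReal_mul (by positivity)]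
    _ ≤ ENNReal.ofReal ((1 + η * B) * e * w) * (P * Z) := by gcongr
    _ = ENNReal.ofReal ((1 + η * B) * e) * Z * (P * ENNReal.ofReal w) := by
        rw [ENNReal.ofReal_mul (by positivity)]; ring

theorem fm_fin (d : ℕ) {p : ℝ} (hp : 0 < p) (hp1 : p < 1) (K : ℝ≥0) {A c : ℝ} (hA : 0 ≤ A)
    (hc : 0 < c) :
    ∃ C B m : ℝ, 0 < C ∧ 0 < B ∧ 0 < m ∧ ∀ (κ : Measure ℝ) [IsProbabilityMeasure κ] (b q : ℝ),
      0 ≤ b → LawK κ b K → 0 < q → κ (Ioi q) = ENNReal.ofReal p → PDec d κ q A c →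
      ∀ z : ℂ, 0 < z.im → C * q ≤ ‖z‖ → ∀ (Γ : Finset (Edge d)) (x y : Site d),
        ∫⁻ ω, ‖G b (rst Γ ω) z x y‖ₑ ^ (1 / 4 : ℝ) ∂(PE d κ)
          ≤ ENNReal.ofReal (B * Real.exp (-(m * sn (x - y)))) * ‖z‖ₑ ^ (-(1 / 4 : ℝ)) := by
  set m : ℝ := c / 2 with hm
  have hm0 : 0 < m := by positivity
  set W : ℝ≥0∞ := ∑' n : ℕ, ENNReal.ofReal (A * Real.exp (-(c * n))) *
    ENNReal.ofReal (wt d K p m n) with hW
  have hWtop : W ≠ ⊤ := wt_sum d K hp hA hm0.le (by rw [hm]; linarith)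
  set w : ℝ := W.toReal with hw
  have hw0 : 0 ≤ w := ENNReal.toReal_nonneg
  have hWw : W = ENNReal.ofReal w := (ENNReal.ofReal_toReal hWtop).symm
  set D : ℝ := 16 * (w + 1) * ((1 - p) ^ 2)⁻¹ with hD
  have hD0 : 0 < D := by
    have : 0 < (1 - p) ^ 2 := by
      have : 0 < 1 - p := by linarith
      positivity
    positivity
  set C0 : ℝ := K * D ^ 4 + 1 with hC0d
  have hC0 : 0 < C0 := by positivity
  set η : ℝ := 8 * (K / C0) ^ (1 / 4 : ℝ) * ((1 - p) ^ 2)⁻¹ with hη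
  have hη0 : 0 ≤ η := by positivity
  have hηw : η * (w + 1) ≤ 1 / 2 := by
    have h1 : (K : ℝ) / C0 ≤ (D⁻¹) ^ 4 := by
      rw [div_le_iff₀ hC0, hC0d, inv_pow]
      have : 0 < D ^ 4 := by positivity
      rw [mul_add, mul_one]
      have h2 : (D ^ 4)⁻¹ * (K * D ^ 4) = K := by field_simp
      rw [h2]
      have : 0 < (D ^ 4)⁻¹ := by positivity
      linarith
    have h2 : ((K : ℝ) / C0) ^ (1 / 4 : ℝ) ≤ D⁻¹ := by
      calc ((K : ℝ) / C0) ^ (1 / 4 : ℝ) ≤ ((D⁻¹) ^ 4) ^ (1 / 4 : ℝ) :=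
            Real.rpow_le_rpow (by positivity) h1 (by norm_num)
        _ = D⁻¹ := by
            rw [← Real.rpow_natCast, ← Real.rpow_mul (by positivity)]
            norm_num
    have h3 : 0 < ((1 - p) ^ 2)⁻¹ := by
      have : 0 < 1 - p := by linarith
      positivity
    calc η * (w + 1) ≤ 8 * D⁻¹ * ((1 - p) ^ 2)⁻¹ * (w + 1) := by rw [hη]; gcongr
      _ = 1 / 2 := by
          have h4 : 1 - p ≠ 0 := by linarith
          rw [hD]
          field_simp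
          norm_num
  have hη1 : η ≤ 1 := by nlinarith
  set B : ℝ := 2 * w + 1 with hB
  have hB0 : 0 < B := by positivity
  have hBw : (1 + η * B) * w ≤ B := by
    have h1 : η * w ≤ 1 / 2 := by nlinarith
    have h2 : η * w * B ≤ 1 / 2 * B := mul_le_mul_of_nonneg_right h1 hB0.le
    nlinarith
  refine ⟨C0, B, m, hC0, hB0, hm0, ?_⟩
  intro κ _ b q hb hL hq0 hq hdec z hz hqz
  have hmz := mz_le (K := K) (p := p) hC0 hz hqz
  rw [← hη] at hmz
  have hz0 : z ≠ 0 := by rintro rfl; simp at hz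
  have hze : ‖z‖ₑ ≠ 0 := by simpa using hz0
  have hzt : ‖z‖ₑ ≠ ⊤ := enorm_ne_top
  have hzz : ‖z‖ₑ ^ (-(1 / 2 : ℝ)) = ‖z‖ₑ ^ (-(1 / 4 : ℝ)) * ‖z‖ₑ ^ (-(1 / 4 : ℝ)) := by
    rw [← ENNReal.rpow_add _ _ hze hzt]
    norm_num
  set Z : ℝ≥0∞ := ‖z‖ₑ ^ (-(1 / 4 : ℝ)) with hZ
  set M : ℝ≥0∞ := 8 * ENNReal.ofReal (K * q) ^ (1 / 4 : ℝ) * ENNReal.ofReal (((1 - p) ^ 2)⁻¹)
    with hM
  intro Γ
  induction Γ using Finset.strongInduction with
  | H Γ ih =>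
  intro x y
  set e0 : ℝ := Real.exp (-(m * sn (x - y))) with he0
  have he00 : 0 < e0 := Real.exp_pos _
  -- one cluster
  have hone : ∀ C ∈ cand Γ x,
      ∫⁻ ω in {ω | clu Γ q ω x = C}, ‖G b (rst Γ ω) z x y‖ₑ ^ (1 / 4 : ℝ) ∂(PE d κ)
        ≤ ENNReal.ofReal ((1 + η * B) * e0) * Z *
          (PE d κ {ω | clu Γ q ω x = C} * ENNReal.ofReal (wt d K p m (rad x C))) := by
    intro C hC
    have hx : x ∈ C := (Finset.mem_filter.1 hC).2
    have hwt := wt_ge (d := d) K (p := p) (m := m) hp x C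
    set P : ℝ≥0∞ := PE d κ {ω | clu Γ q ω x = C} with hP
    set nI : ℝ := ((In C).card : ℝ) with hnI
    set nB : ℝ := ((Bd C).card : ℝ) with hnB
    have hnI0 : 0 ≤ nI := Nat.cast_nonneg _
    have hnB0 : 0 ≤ nB := Nat.cast_nonneg _
    set s : ℝ := 3 + 7 * K * nI / p with hs
    have hs0 : 0 ≤ s :=
      add_nonneg (by norm_num) (div_nonneg (mul_nonneg (mul_nonneg (by norm_num) K.2) hnI0) hp.le)
    by_cases hy : y ∈ C
    · refine (step_in hb hL hz hq0 hp1 hp hq Γ hx hy).trans ?_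
      rw [← hnI, ← hs, ← hP, ← hM, hzz]
      have h1 : ((Bd C).card : ℝ≥0∞) = ENNReal.ofReal nB := by
        rw [hnB, ENNReal.ofReal_natCast]
      have hry : (sn (x - y) : ℝ) ≤ rad x C := by
        have : sn (y - x) ≤ rad x C := Finset.le_sup (f := fun y => sn (y - x)) hy
        rw [sn_sub_comm]
        exact_mod_cast this
      have h4 : 1 ≤ e0 * Real.exp (m * (rad x C + 1)) := by
        rw [he0, ← Real.exp_add]
        apply Real.one_le_exp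
        nlinarith
      exact in_alg hη0 hη1 hs0 hnB0 hB0.le he00 h1 hmz h4 hwt
    · refine (step_out hb hL hz hq0 hp1 hp hq Γ hx hy).trans ?_
      rw [← hnI, ← hs, ← hP, ← hM]
      have h1 : ∀ e ∈ Γ ∩ Bd C, ∀ f ∈ Γ ∩ Bd C, M * (Z * ENNReal.ofReal s) * P *
          ∫⁻ ω, ‖G b (rst (Γ \ touch C) ω) z (outp C f) y‖ₑ ^ (1 / 4 : ℝ) ∂(PE d κ)
          ≤ ENNReal.ofReal (η * s * B * (e0 * Real.exp (m * (rad x C + 1)))) * (P * Z) := by
        intro e _ f hf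
        have hfΓ := (Finset.mem_inter.1 hf).1
        have hfB := (Finset.mem_inter.1 hf).2
        have hft : f ∈ touch C := (Finset.mem_filter.1 hfB).1
        have hlt : Γ \ touch C ⊂ Γ := by
          refine (Finset.ssubset_iff_of_subset Finset.sdiff_subset).2 ⟨f, hfΓ, ?_⟩
          simp [hft]
        have h2 := ih _ hlt (outp C f) y
        have h3 : Real.exp (-(m * sn (outp C f - y))) ≤ e0 * Real.exp (m * (rad x C + 1)) := by
          rw [he0, ← Real.exp_add]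
          apply Real.exp_le_exp.2
          have h4 := (sn_inn_le (x := x) hfB).2.2
          have h5 := sn_tri x y (outp C f)
          have h6 : (sn (x - y) : ℝ) ≤ (rad x C + 1) + sn (outp C f - y) := by
            have : sn (x - y) ≤ (rad x C + 1) + sn (outp C f - y) := by omega
            exact_mod_cast this
          nlinarith
        exact out_alg1 hη0 hs0 hB0.le hmz h2 h3
      refine (Finset.sum_le_sum fun e he => Finset.sum_le_sum fun f hf => h1 e he f hf).trans ?_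
      rw [Finset.sum_const, Finset.sum_const, smul_smul, nsmul_eq_mul]
      have hcard : (((Γ ∩ Bd C).card * (Γ ∩ Bd C).card : ℕ) : ℝ≥0∞) ≤ ENNReal.ofReal (nB ^ 2) := by
        have h2 : (Γ ∩ Bd C).card ≤ (Bd C).card := Finset.card_le_card Finset.inter_subset_right
        have h3 : ((Γ ∩ Bd C).card * (Γ ∩ Bd C).card : ℕ) ≤ ((Bd C).card ^ 2 : ℕ) := by
          rw [sq]; exact Nat.mul_le_mul h2 h2
        have h4 : ENNReal.ofReal (nB ^ 2) = (((Bd C).card ^ 2 : ℕ) : ℝ≥0∞) := by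
          rw [← ENNReal.ofReal_natCast]
          congr 1
          push_cast
          rfl
        rw [h4]
        exact_mod_cast h3
      exact out_alg2 hη0 hs0 hB0.le he00.le (Real.exp_pos _).le hcard hwt
  -- sum over the clusters
  have hcov : (univ : Set (Edge d → ℝ)) = ⋃ C : cand Γ x, {ω | clu Γ q ω x = C.1} := by
    ext ω
    simp only [mem_univ, mem_iUnion, true_iff]
    exact ⟨⟨_, clu_mem_cand Γ q ω x⟩, rfl⟩
  calc ∫⁻ ω, ‖G b (rst Γ ω) z x y‖ₑ ^ (1 / 4 : ℝ) ∂(PE d κ)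
      = ∫⁻ ω in ⋃ C : cand Γ x, {ω | clu Γ q ω x = C.1},
          ‖G b (rst Γ ω) z x y‖ₑ ^ (1 / 4 : ℝ) ∂(PE d κ) := by
        rw [← hcov, Measure.restrict_univ]
    _ ≤ ∑' C : cand Γ x, ∫⁻ ω in {ω | clu Γ q ω x = C.1},
          ‖G b (rst Γ ω) z x y‖ₑ ^ (1 / 4 : ℝ) ∂(PE d κ) := lintegral_iUnion_le _ _
    _ = ∑ C ∈ cand Γ x, ∫⁻ ω in {ω | clu Γ q ω x = C},
          ‖G b (rst Γ ω) z x y‖ₑ ^ (1 / 4 : ℝ) ∂(PE d κ) := by
        rw [tsum_fintype, Finset.univ_eq_attach, Finset.sum_attach (cand Γ x) fun C =>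
          ∫⁻ ω in {ω | clu Γ q ω x = C}, ‖G b (rst Γ ω) z x y‖ₑ ^ (1 / 4 : ℝ) ∂(PE d κ)]
    _ ≤ ∑ C ∈ cand Γ x, ENNReal.ofReal ((1 + η * B) * e0) * Z *
          (PE d κ {ω | clu Γ q ω x = C} * ENNReal.ofReal (wt d K p m (rad x C))) :=
        Finset.sum_le_sum hone
    _ = ENNReal.ofReal ((1 + η * B) * e0) * Z * ∑ C ∈ cand Γ x,
          PE d κ {ω | clu Γ q ω x = C} * ENNReal.ofReal (wt d K p m (rad x C)) := by
        rw [Finset.mul_sum]
    _ ≤ ENNReal.ofReal ((1 + η * B) * e0) * Z * W := by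
        gcongr
        exact psum hdec Γ x fun n => ENNReal.ofReal (wt d K p m n)
    _ = ENNReal.ofReal ((1 + η * B) * w * e0) * Z := by
        rw [hWw, mul_right_comm, ← ENNReal.ofReal_mul (by positivity)]
        congr 2
        ring
    _ ≤ ENNReal.ofReal (B * e0) * Z := by gcongr

theorem fm_inf (d : ℕ) {p : ℝ} (hp : 0 < p) (hp1 : p < 1) (K : ℝ≥0) {A c : ℝ} (hA : 0 ≤ A)
    (hc : 0 < c) :
    ∃ C B m : ℝ, 0 < C ∧ 0 < B ∧ 0 < m ∧ ∀ (κ : Measure ℝ) [IsProbabilityMeasure κ] (b q : ℝ),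
      0 ≤ b → LawK κ b K → 0 < q → κ (Ioi q) = ENNReal.ofReal p → PDec d κ q A c →
      ∀ z : ℂ, 0 < z.im → C * q ≤ ‖z‖ → ∀ x y : Site d,
        ∫⁻ ω, ‖G b ω z x y‖ₑ ^ (1 / 4 : ℝ) ∂(PE d κ)
          ≤ ENNReal.ofReal (B * Real.exp (-(m * sn (x - y)))) * ‖z‖ₑ ^ (-(1 / 4 : ℝ)) := by
  obtain ⟨C, B, m, hC, hB, hm, h⟩ := fm_fin d hp hp1 K hA hc
  refine ⟨C, B, m, hC, hB, hm, ?_⟩
  intro κ _ b q hb hL hq0 hq hdec z hz hqz x y
  obtain ⟨u, hu⟩ := exists_seq_tendsto (atTop : Filter (Finset (Edge d)))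
  have hlim : ∀ ω : Edge d → ℝ, Tendsto (fun n => rst (u n) ω) atTop (𝓝 ω) := by
    intro ω
    rw [tendsto_pi_nhds]
    intro e
    refine tendsto_const_nhds.congr' ?_
    filter_upwards [hu.eventually (eventually_ge_atTop {e})] with n hn
    have : e ∈ u n := hn (Finset.mem_singleton_self e)
    simp [rst, this]
  have hG : Continuous fun ω : Edge d → ℝ => ‖G b ω z x y‖ₑ ^ (1 / 4 : ℝ) := by
    have h1 := continuous_G b hz x y (d := d)
    exact (ENNReal.continuous_rpow_const).comp h1.enorm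
  have h1 : ∀ ω : Edge d → ℝ, ‖G b ω z x y‖ₑ ^ (1 / 4 : ℝ)
      = liminf (fun n => ‖G b (rst (u n) ω) z x y‖ₑ ^ (1 / 4 : ℝ)) atTop := by
    intro ω
    exact ((hG.tendsto ω).comp (hlim ω)).liminf_eq.symm
  calc ∫⁻ ω, ‖G b ω z x y‖ₑ ^ (1 / 4 : ℝ) ∂(PE d κ)
      = ∫⁻ ω, liminf (fun n => ‖G b (rst (u n) ω) z x y‖ₑ ^ (1 / 4 : ℝ)) atTop ∂(PE d κ) :=
        lintegral_congr h1
    _ ≤ liminf (fun n => ∫⁻ ω, ‖G b (rst (u n) ω) z x y‖ₑ ^ (1 / 4 : ℝ) ∂(PE d κ)) atTop :=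
        lintegral_liminf_le fun n => (hG.comp (continuous_rst (u n))).measurable
    _ ≤ liminf (fun _ : ℕ => ENNReal.ofReal (B * Real.exp (-(m * sn (x - y)))) *
          ‖z‖ₑ ^ (-(1 / 4 : ℝ))) atTop :=
        liminf_le_liminf (Eventually.of_forall fun n =>
          h κ b q hb hL hq0 hq hdec z hz hqz (u n) x y)
    _ = _ := by simp

end RC
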