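import Pool.Agent.RC.PC

set_option autoImplicit false

/-!
PD: transfer to the strong bonds.
-/

open scoped ENNReal NNReal
open MeasureTheory Set

noncomputable section

namespace RC

open Pool.Agent.Helper3.Anderson Pool.Agent.Helper3.Crit

variable {d : ℕ} {κ : Measure ℝ} [IsProbabilityMeasure κ]

/-- translation of edges -/
private def trE (v : Site d) : Edge d ≃ Edge d where
  toFun e := (e.1 + v, e.2)
  invFun e := (e.1 - v, e.2)
  left_inv e := by simp
  right_inv e := by simp

private theorem conn_tr {σ σ' : Set (Edge d)} (v : Site d)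
    (h : ∀ e ∈ σ, ((e.1 + v, e.2) : Edge d) ∈ σ') {x y : Site d} (hc : Conn σ x y) :
    Conn σ' (x + v) (y + v) := by
  refine Relation.ReflTransGen.lift (p := Adj σ') (fun u => u + v) ?_ _ _ hc
  rintro a b ⟨e, he, h1⟩
  refine ⟨_, h e he, ?_⟩
  have h2 : src ((e.1 + v, e.2) : Edge d) = src e + v := rfl
  have h3 : tgt ((e.1 + v, e.2) : Edge d) = tgt e + v := by
    simp only [tgt]; abel
  rw [h2, h3]
  rcases h1 with ⟨h4, h5⟩ | ⟨h4, h5⟩
  · left; rw [h4, h5]; exact ⟨rfl, rfl⟩
  · right; rw [h4, h5]; exact ⟨rfl, rfl⟩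

/-- the event in terms of open and closed bonds -/
private def ev (x : Site d) (n : ℕ) : Set (Edge d → Bool) :=
  {b | ∃ y, n ≤ sn (y - x) ∧ Conn {e | b e = true} x y}

private theorem measurableSet_ev (x : Site d) (n : ℕ) : MeasurableSet (ev x n) := by
  have h1 : ev x n = ⋃ y : Site d, {b : Edge d → Bool | n ≤ sn (y - x) ∧
      Conn {e | b e = true} x y} := by
    ext b
    simp [ev]
  rw [h1]
  refine MeasurableSet.iUnion fun y => ?_
  refine MeasurableSet.inter (MeasurableSet.const _) ?_
  refine measurableSet_Conn (σ := fun b : Edge d → Bool => {e | b e = true}) (fun e => ?_) x y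
  have h2 : Measurable (fun b : Edge d → Bool => b e) := measurable_pi_apply e
  exact h2 (MeasurableSet.singleton true)

private theorem ev_tr (ν : Measure Bool) [IsProbabilityMeasure ν] (x : Site d) (n : ℕ) :
    (Measure.infinitePi fun _ : Edge d => ν) (ev x n)
      = (Measure.infinitePi fun _ : Edge d => ν) (ev 0 n) := by
  have h1 := Measure.infinitePi_map_piCongrLeft (X := fun _ : Edge d => Bool)
    (μ := fun _ : Edge d => ν) (trE x)
  conv_lhs => rw [← h1]
  rw [Measure.map_apply (MeasurableEquiv.measurable _) (measurableSet_ev x n)]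
  congr 1
  ext b
  have h2 : ∀ e : Edge d, (MeasurableEquiv.piCongrLeft (fun _ : Edge d => Bool) (trE x)) b e
      = b (e.1 - x, e.2) := by
    intro e
    have h3 := Equiv.piCongrLeft_apply_apply (P := fun _ : Edge d => Bool) (e := trE x) (f := b)
      (a := (trE x).symm e)
    rw [Equiv.apply_symm_apply] at h3
    exact h3
  simp only [ev, mem_preimage, mem_ofPred_eq, h2]
  constructor
  · rintro ⟨y, hy, hc⟩
    refine ⟨y - x, by rwa [sub_zero], ?_⟩
    have h4 := conn_tr (σ' := {e | b e = true}) (-x) (by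
      intro e he
      simp only [mem_ofPred_eq] at he ⊢
      rw [← sub_eq_add_neg]; exact he) hc
    rwa [add_neg_cancel, ← sub_eq_add_neg] at h4
  · rintro ⟨y, hy, hc⟩
    refine ⟨y + x, by rwa [add_sub_cancel_right, ← sub_zero y], ?_⟩
    have h4 := conn_tr (σ' := {e : Edge d | b (e.1 - x, e.2) = true}) x (by
      intro e he
      simp only [mem_ofPred_eq] at he ⊢
      rw [add_sub_cancel_right]; exact he) hc
    rwa [zero_add] at h4

private theorem bool_ext {μ ν : Measure Bool} [IsProbabilityMeasure μ] [IsProbabilityMeasure ν]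
    (h : μ {true} = ν {true}) : μ = ν := by
  refine Measure.ext_of_singleton fun b => ?_
  rcases b with _ | _
  · have h1 : ({false} : Set Bool) = {true}ᶜ := by
      ext b; cases b <;> simp
    rw [h1, prob_compl_eq_one_sub (MeasurableSet.singleton _),
      prob_compl_eq_one_sub (MeasurableSet.singleton _), h]
  · exact h

private theorem pe_ev {μ : Measure ℝ} [IsProbabilityMeasure μ] {f : ℝ → Bool} (hf : Measurable f)
    (x : Site d) (n : ℕ) :
    PE d μ {ω | ∃ y, n ≤ sn (y - x) ∧ Conn {e | f (ω e) = true} x y}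
      = (Measure.infinitePi fun _ : Edge d => μ.map f) (ev x n) := by
  rw [← Measure.infinitePi_map_pi (μ := fun _ : Edge d => μ) (f := fun _ => f) (fun _ => hf),
    Measure.map_apply (by fun_prop) (measurableSet_ev x n)]
  rfl

theorem pdec_of_th {p q A c : ℝ} (hp : 0 ≤ p) (hp1 : p ≤ 1) (hq : κ (Ioi q) = ENNReal.ofReal p)
    (h : ∀ n : ℕ, th d p n ≤ A * Real.exp (-(c * n))) : PDec d κ q A c := by
  intro x n
  have hf1 : Measurable (fun t : ℝ => decide (q < t)) :=
    measurable_to_bool (by
      have : (fun t : ℝ => decide (q < t)) ⁻¹' {true} = Ioi q := by ext t; simp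
      rw [this]; exact measurableSet_Ioi)
  have hf2 : Measurable (fun t : ℝ => decide (t < p)) :=
    measurable_to_bool (by
      have : (fun t : ℝ => decide (t < p)) ⁻¹' {true} = Iio p := by ext t; simp
      rw [this]; exact measurableSet_Iio)
  have i1 : IsProbabilityMeasure (κ.map fun t : ℝ => decide (q < t)) :=
    Measure.isProbabilityMeasure_map hf1.aemeasurable
  have i2 : IsProbabilityMeasure (unif.map fun t : ℝ => decide (t < p)) :=
    Measure.isProbabilityMeasure_map hf2.aemeasurable
  have heq : (κ.map fun t : ℝ => decide (q < t)) = unif.map fun t : ℝ => decide (t < p) := by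
    refine bool_ext ?_
    rw [Measure.map_apply hf1 (MeasurableSet.singleton _),
      Measure.map_apply hf2 (MeasurableSet.singleton _)]
    have h1 : (fun t : ℝ => decide (q < t)) ⁻¹' {true} = Ioi q := by ext t; simp
    have h2 : (fun t : ℝ => decide (t < p)) ⁻¹' {true} = Iio p := by ext t; simp
    rw [h1, h2, hq, unif, Measure.restrict_apply measurableSet_Iio]
    have h3 : Iio p ∩ Icc 0 1 = Ico 0 p := by
      ext t
      simp only [mem_inter_iff, mem_Iio, mem_Icc, mem_Ico]
      constructor
      · rintro ⟨a, b, -⟩; exact ⟨b, a⟩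
      · rintro ⟨a, b⟩; exact ⟨b, a, by linarith⟩
    rw [h3, Real.volume_Ico, sub_zero]
  have e1 : PE d κ {ω | ∃ y, n ≤ sn (y - x) ∧ Conn {e | q < ω e} x y}
      = (Measure.infinitePi fun _ : Edge d => κ.map fun t : ℝ => decide (q < t)) (ev x n) := by
    rw [← pe_ev hf1]
    simp only [decide_eq_true_eq]
  have e2 : PE d unif {ω | ∃ y, n ≤ sn (y - 0) ∧ Conn {e | ω e < p} 0 y}
      = (Measure.infinitePi fun _ : Edge d => unif.map fun t : ℝ => decide (t < p)) (ev 0 n) := by
    rw [← pe_ev hf2]
    simp only [decide_eq_true_eq]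
  rw [e1, heq, ev_tr, ← e2]
  have h4 : PE d unif {ω | ∃ y, n ≤ sn (y - 0) ∧ Conn {e | ω e < p} 0 y}
      = ENNReal.ofReal (th d p n) := by
    unfold th far
    rw [ofReal_measureReal]
  rw [h4]
  exact ENNReal.ofReal_le_ofReal (h n)

end RC
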