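import Pool.Agent.RC.Defs
import Pool.Agent.Helper3.Crit.Decoup

set_option autoImplicit false

/-!
INDEP: functions of disjoint sets of coordinates are independent.
-/

open scoped ENNReal NNReal
open MeasureTheory Set

noncomputable section

namespace RC

open Pool.Agent.Helper3.Anderson Pool.Agent.Helper3.Crit

variable {ι : Type*} [DecidableEq ι] {κ : Measure ℝ} [IsProbabilityMeasure κ]

/-- `f` depends only on the coordinates in `S` -/
def DepOn (f : (ι → ℝ) → ℝ≥0∞) (S : Set ι) : Prop :=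
  ∀ ω ω' : ι → ℝ, (∀ i ∈ S, ω i = ω' i) → f ω = f ω'

theorem indep (S : Finset ι) {f g : (ι → ℝ) → ℝ≥0∞} (hf : Measurable f) (hg : Measurable g)
    (hfS : DepOn f (S : Set ι)) (hgS : DepOn g ((S : Set ι)ᶜ)) :
    ∫⁻ ω, f ω * g ω ∂(Measure.infinitePi fun _ : ι => κ) =
      (∫⁻ ω, f ω ∂(Measure.infinitePi fun _ : ι => κ)) *
        ∫⁻ ω, g ω ∂(Measure.infinitePi fun _ : ι => κ) := by
  set P := Measure.infinitePi (fun _ : ι => κ) with hP
  have hmap := map_glue (μ := κ) S
  rw [← hP] at hmap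
  have hF : Measurable fun p : (ι → ℝ) × (ι → ℝ) => f p.1 * g p.1 :=
    (hf.comp measurable_fst).mul (hg.comp measurable_fst)
  have hgl : Measurable fun p : (ι → ℝ) × (ι → ℝ) => (glue S p.1 p.2, glue S p.2 p.1) :=
    (measurable_glue S).prodMk ((measurable_glue S).comp measurable_swap)
  have h1 : ∫⁻ ω, f ω * g ω ∂P = ∫⁻ p, f p.1 * g p.1 ∂(P.prod P) := by
    rw [lintegral_prod _ hF.aemeasurable]
    refine lintegral_congr fun ω => ?_
    simp
  have h2 : ∫⁻ p, f p.1 * g p.1 ∂(P.prod P)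
      = ∫⁻ p, f (glue S p.1 p.2) * g (glue S p.1 p.2) ∂(P.prod P) := by
    conv_lhs => rw [← hmap]
    rw [lintegral_map hF hgl]
  have h3 : ∀ p : (ι → ℝ) × (ι → ℝ), f (glue S p.1 p.2) * g (glue S p.1 p.2) = g p.1 * f p.2 := by
    intro p
    have hfa : f (glue S p.1 p.2) = f p.2 := by
      apply hfS
      intro i hi
      exact glue_of_mem (by simpa using hi)
    have hga : g (glue S p.1 p.2) = g p.1 := by
      apply hgS
      intro i hi
      exact glue_of_notMem (by simpa using hi)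
    rw [hfa, hga, mul_comm]
  rw [h1, h2, lintegral_congr h3, lintegral_prod_mul hg.aemeasurable hf.aemeasurable, mul_comm]

theorem indep_set (S : Finset ι) {A B : Set (ι → ℝ)} (hA : MeasurableSet A)
    (hB : MeasurableSet B) (hAS : ∀ ω ω' : ι → ℝ, (∀ i ∈ S, ω i = ω' i) → ω ∈ A → ω' ∈ A)
    (hBS : ∀ ω ω' : ι → ℝ, (∀ i, i ∉ S → ω i = ω' i) → ω ∈ B → ω' ∈ B) :
    (Measure.infinitePi fun _ : ι => κ) (A ∩ B) =
      (Measure.infinitePi fun _ : ι => κ) A * (Measure.infinitePi fun _ : ι => κ) B := by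
  set P := Measure.infinitePi (fun _ : ι => κ) with hP
  have h1 : P (A ∩ B) = ∫⁻ ω, A.indicator 1 ω * B.indicator 1 ω ∂P := by
    rw [← lintegral_indicator_one (hA.inter hB)]
    refine lintegral_congr fun ω => ?_
    rw [Set.inter_indicator_one]
    rfl
  have hdA : DepOn (A.indicator (1 : (ι → ℝ) → ℝ≥0∞)) (S : Set ι) := by
    intro ω ω' h
    by_cases hω : ω ∈ A
    · rw [Set.indicator_of_mem hω, Set.indicator_of_mem (hAS ω ω' (by simpa using h) hω)]
      rfl
    · have : ω' ∉ A := fun h' => hω (hAS ω' ω (fun i hi => (h i (by simpa using hi)).symm) h')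
      rw [Set.indicator_of_notMem hω, Set.indicator_of_notMem this]
  have hdB : DepOn (B.indicator (1 : (ι → ℝ) → ℝ≥0∞)) ((S : Set ι)ᶜ) := by
    intro ω ω' h
    by_cases hω : ω ∈ B
    · rw [Set.indicator_of_mem hω, Set.indicator_of_mem (hBS ω ω' (by simpa using h) hω)]
      rfl
    · have : ω' ∉ B := fun h' => hω (hBS ω' ω (fun i hi => (h i (by simpa using hi)).symm) h')
      rw [Set.indicator_of_notMem hω, Set.indicator_of_notMem this]
  rw [h1, indep S (measurable_one.indicator hA) (measurable_one.indicator hB) hdA hdB,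
    lintegral_indicator_one hA, lintegral_indicator_one hB]

/-- all coordinates in `S` lie in `J` -/
theorem prob_all (S : Finset ι) {J : Set ℝ} (hJ : MeasurableSet J) :
    (Measure.infinitePi fun _ : ι => κ) {ω | ∀ i ∈ S, ω i ∈ J} = κ J ^ S.card := by
  have h := Measure.infinitePi_pi (fun _ : ι => κ) (s := S) (t := fun _ => J) (fun _ _ => hJ)
  rw [Finset.prod_const] at h
  rw [← h]
  congr 1

end RC
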