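import Pool.Agent.RC.Extra
import Pool.Agent.RC.Indep
import Pool.Agent.Helper3.Crit.SpecAvg

set_option autoImplicit false

/-!
SWB: spectral averaging over one conductance.
-/

open scoped ENNReal NNReal InnerProductSpace
open MeasureTheory Set Filter Topology ProbabilityTheory

noncomputable section

namespace RC

open Pool.Agent.Helper3.Anderson Pool.Agent.Helper3.Crit

variable {d : ℕ} {b : ℝ} {κ : Measure ℝ} [IsProbabilityMeasure κ]

/-- the rank one average over all real `t` -/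
theorem cauchy_form {g : ℂ} (hgi : 0 < g.im) : ∃ (α : ℝ) (γ : ℝ≥0), γ ≠ 0 ∧ ∀ t : ℝ,
    ENNReal.ofReal (Real.pi⁻¹ * (g / (1 + (t : ℂ) * g)).im) = cauchyPDF α γ t := by
  have hn2 : 0 < g.re ^ 2 + g.im ^ 2 := by positivity
  set α : ℝ := g.re / (g.re ^ 2 + g.im ^ 2) with hα
  set β : ℝ := g.im / (g.re ^ 2 + g.im ^ 2) with hβ
  have hβ0 : 0 < β := div_pos hgi hn2
  set γ : ℝ≥0 := ⟨β, hβ0.le⟩ with hγ
  have hγ0 : γ ≠ 0 := by
    intro h
    have : β = 0 := congrArg NNReal.toReal h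
    linarith
  refine ⟨-α, γ, hγ0, fun t => ?_⟩
  have h3 : (g / (1 + (t : ℂ) * g)).im
      = g.im / ((1 + t * g.re) ^ 2 + (t * g.im) ^ 2) := by
    rw [Complex.div_im]
    have e1 : (1 + (t : ℂ) * g).re = 1 + t * g.re := by simp
    have e2 : (1 + (t : ℂ) * g).im = t * g.im := by simp
    rw [Complex.normSq_apply, e1, e2]
    have h6 : (1 + t * g.re) * (1 + t * g.re) + (t * g.im) * (t * g.im)
        = (1 + t * g.re) ^ 2 + (t * g.im) ^ 2 := by ring
    rw [h6, ← sub_div]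
    congr 1
    ring
  have h4 : (1 + t * g.re) ^ 2 + (t * g.im) ^ 2
      = (g.re ^ 2 + g.im ^ 2) * ((α + t) ^ 2 + β ^ 2) := by
    rw [hα, hβ]; field_simp; ring
  have h5 : 0 < (α + t) ^ 2 + β ^ 2 := by positivity
  rw [h3, h4, cauchyPDF, cauchyPDFReal_def]
  congr 1
  have h6 : (γ : ℝ) = β := rfl
  rw [h6]
  have h7 : (t - -α) ^ 2 + β ^ 2 = (α + t) ^ 2 + β ^ 2 := by ring
  rw [h7]
  have h9 : g.im / ((g.re ^ 2 + g.im ^ 2) * ((α + t) ^ 2 + β ^ 2))
      = β / ((α + t) ^ 2 + β ^ 2) := by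
    rw [← div_div, ← hβ]
  rw [h9]
  have hpi := Real.pi_ne_zero
  field_simp

theorem one_edge (hb : 0 ≤ b) (hs : κ (Ioc 0 b)ᶜ = 0) {K' : ℝ≥0}
    (hd : κ ≤ K' • (volume : Measure ℝ)) {z : ℂ} (hz : 0 < z.im) (ω : Edge d → ℝ) (e : Edge d) :
    ∫⁻ t, ENNReal.ofReal (Real.pi⁻¹ * (gg b (Function.update ω e t) z e e).im) ∂κ ≤ K' := by
  have hae : ∀ᵐ t ∂κ, t ∈ Ioc 0 b := by rw [ae_iff]; exact hs
  obtain ⟨α, γ, hγ, hk⟩ := cauchy_form (gg_im_pos b (Function.update ω e 0) hz e)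
  calc ∫⁻ t, ENNReal.ofReal (Real.pi⁻¹ * (gg b (Function.update ω e t) z e e).im) ∂κ
      = ∫⁻ t, cauchyPDF α γ t ∂κ := by
        refine lintegral_congr_ae ?_
        filter_upwards [hae] with t ht
        obtain ⟨h1, h2⟩ := gg_update hb hz ω e ⟨ht.1.le, ht.2⟩
        rw [← hk t, ← (eq_div_iff h1).2 h2]
    _ ≤ ∫⁻ t, cauchyPDF α γ t ∂((K' : ℝ≥0∞) • (volume : Measure ℝ)) :=
        lintegral_mono' hd le_rfl
    _ = K' := by
        rw [lintegral_smul_measure, lintegral_cauchyPDF_eq_one _ hγ, smul_eq_mul, mul_one]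

theorem spec_avg (hb : 0 ≤ b) (hs : κ (Ioc 0 b)ᶜ = 0) {K' : ℝ≥0}
    (hd : κ ≤ K' • (volume : Measure ℝ)) (e : Edge d) (t0 : ℝ)
    {N : Set (ℝ × (Edge d → ℝ))} (hN : MeasurableSet N)
    (hN0 : ∀ᵐ ω ∂(PE d κ), ∀ᵐ E : ℝ, (E, Function.update ω e t0) ∉ N) :
    ∀ᵐ ω ∂(PE d κ), ∀ ν : Measure ℝ, IsFiniteMeasure ν →
      (∀ z : ℂ, 0 < z.im → ∫ t : ℝ, z.im / ‖(t : ℂ) - z‖ ^ 2 ∂ν ≤ (gg b ω z e e).im) →
      ν {E | (E, Function.update ω e t0) ∈ N} = 0 := by
  set T : (Edge d → ℝ) → (Edge d → ℝ) := fun ω => Function.update ω e t0 with hT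
  have hTm : Measurable T :=
    (measurable_update_prod e).comp (measurable_id.prodMk measurable_const)
  set P0 : Measure (Edge d → ℝ) := (PE d κ).map T with hP0
  have : IsProbabilityMeasure P0 := Measure.isProbabilityMeasure_map hTm.aemeasurable
  have hm0 : ((volume : Measure ℝ).prod P0) N = 0 := by
    have hmm : Measurable fun ω : Edge d → ℝ => (volume : Measure ℝ) ((fun E => (E, T ω)) ⁻¹' N) :=
      (measurable_measure_prodMk_right hN).comp hTm
    rw [Measure.prod_apply_symm hN, lintegral_map (measurable_measure_prodMk_right hN) hTm,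
      lintegral_eq_zero_iff hmm]
    filter_upwards [hN0] with ω hω
    have h1 : volume {E : ℝ | ¬ (E, Function.update ω e t0) ∉ N} = 0 := ae_iff.1 hω
    simp only [not_not] at h1
    exact h1
  have hU : ∀ n : ℕ, ∃ U : Set (ℝ × (Edge d → ℝ)), N ⊆ U ∧ IsOpen U ∧
      ((volume : Measure ℝ).prod P0) U ≤ ENNReal.ofReal ((1 / 2) ^ n) := by
    intro n
    obtain ⟨U, hNU, hUo, hUm⟩ := N.exists_isOpen_lt_of_lt (μ := (volume : Measure ℝ).prod P0)
      (ENNReal.ofReal ((1 / 2) ^ n)) (by rw [hm0]; simp)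
    exact ⟨U, hNU, hUo, hUm.le⟩
  choose U hNU hUo hUm using hU
  set p : ℕ → ℝ → (Edge d → ℝ) → ℝ≥0∞ := fun j E ω =>
    ENNReal.ofReal (Real.pi⁻¹ * (gg b ω ((E : ℂ) + (saEps j : ℝ) * Complex.I) e e).im) with hp
  have hpm : ∀ j, Measurable (Function.uncurry (p j)) := by
    intro j
    have h1 := measurable_gg_uncurry (d := d) b (saEps_pos j) e e
    exact ENNReal.measurable_ofReal.comp ((Complex.measurable_im.comp h1).const_mul _)
  have hind : ∀ n, Measurable fun q : ℝ × (Edge d → ℝ) =>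
      (U n).indicator (fun _ => (1 : ℝ≥0∞)) (q.1, T q.2) := by
    intro n
    exact (measurable_const.indicator (hUo n).measurableSet).comp
      (measurable_fst.prodMk (hTm.comp measurable_snd))
  have hFm : ∀ n j, Measurable (Function.uncurry fun (E : ℝ) (ω : Edge d → ℝ) =>
      (U n).indicator (fun _ => (1 : ℝ≥0∞)) (E, T ω) * p j E ω) := by
    intro n j
    exact (hind n).mul (hpm j)
  have hΦm : ∀ n j, Measurable fun ω => ∫⁻ E : ℝ,
      (U n).indicator (fun _ => (1 : ℝ≥0∞)) (E, T ω) * p j E ω := by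
    intro n j
    exact Measurable.lintegral_prod_left (hFm n j)
  set C : ℝ≥0∞ := (K' : ℝ≥0∞) with hC
  have hCtop : C ≠ ⊤ := ENNReal.coe_ne_top
  have hΦ : ∀ n j, ∫⁻ ω, (∫⁻ E : ℝ,
      (U n).indicator (fun _ => (1 : ℝ≥0∞)) (E, T ω) * p j E ω) ∂(PE d κ)
        ≤ C * ENNReal.ofReal ((1 / 2) ^ n) := by
    intro n j
    have hsw : Measurable (Function.uncurry fun (ω : Edge d → ℝ) (E : ℝ) =>
        (U n).indicator (fun _ => (1 : ℝ≥0∞)) (E, T ω) * p j E ω) :=
      (hFm n j).comp measurable_swap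
    rw [lintegral_lintegral_swap hsw.aemeasurable]
    have h1 : ∀ E : ℝ, ∫⁻ ω, (U n).indicator (fun _ => (1 : ℝ≥0∞)) (E, T ω) * p j E ω ∂(PE d κ)
        ≤ ∫⁻ ω, (U n).indicator (fun _ => (1 : ℝ≥0∞)) (E, T ω) * C ∂(PE d κ) := by
      intro E
      have hmE : Measurable fun ω : Edge d → ℝ =>
          (U n).indicator (fun _ => (1 : ℝ≥0∞)) (E, T ω) * p j E ω :=
        (hFm n j).comp (measurable_const.prodMk measurable_id)
      rw [lintegral_resample e hmE]
      refine lintegral_mono fun ω => ?_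
      have hTu : ∀ t, T (Function.update ω e t) = T ω := fun t => Function.update_idem _ _ _
      simp only [hTu]
      have hfin : (U n).indicator (fun _ => (1 : ℝ≥0∞)) (E, T ω) ≠ ⊤ := by
        by_cases hE : (E, T ω) ∈ U n
        · rw [indicator_of_mem hE]; exact ENNReal.one_ne_top
        · rw [indicator_of_notMem hE]; exact ENNReal.zero_ne_top
      have him : 0 < ((E : ℂ) + (saEps j : ℝ) * Complex.I).im := by
        simpa using saEps_pos j
      have h5 : ∫⁻ t, p j E (Function.update ω e t) ∂κ ≤ C := one_edge hb hs hd him ω e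
      rw [lintegral_const_mul' _ _ hfin]
      exact mul_le_mul' le_rfl h5
    calc ∫⁻ E : ℝ, ∫⁻ ω, (U n).indicator (fun _ => (1 : ℝ≥0∞)) (E, T ω) * p j E ω ∂(PE d κ)
        ≤ ∫⁻ E : ℝ, ∫⁻ ω, (U n).indicator (fun _ => (1 : ℝ≥0∞)) (E, T ω) * C ∂(PE d κ) :=
          lintegral_mono h1
      _ = (∫⁻ E : ℝ, ∫⁻ ω, (U n).indicator (fun _ => (1 : ℝ≥0∞)) (E, T ω) ∂(PE d κ)) * C := by
          rw [← lintegral_mul_const' _ _ hCtop]
          exact lintegral_congr fun E => lintegral_mul_const' _ _ hCtop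
      _ = ((volume : Measure ℝ).prod P0) (U n) * C := by
          congr 1
          rw [Measure.prod_apply (hUo n).measurableSet]
          refine lintegral_congr fun E => ?_
          have hmE : Measurable fun ω : Edge d → ℝ =>
              (U n).indicator (fun _ => (1 : ℝ≥0∞)) (E, ω) :=
            (measurable_const.indicator (hUo n).measurableSet).comp
              (measurable_const.prodMk measurable_id)
          have h2 := lintegral_map (μ := PE d κ) hmE hTm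
          rw [← h2, ← hP0]
          have h3 : (fun ω : Edge d → ℝ => (U n).indicator (fun _ => (1 : ℝ≥0∞)) (E, ω))
              = (Prod.mk E ⁻¹' (U n)).indicator (fun _ => 1) := by
            funext ω; rfl
          have h4 : MeasurableSet (Prod.mk E ⁻¹' (U n)) :=
            measurable_prodMk_left (hUo n).measurableSet
          rw [h3, lintegral_indicator_const h4, one_mul]
      _ ≤ ENNReal.ofReal ((1 / 2) ^ n) * C := mul_le_mul' (hUm n) le_rfl
      _ = C * ENNReal.ofReal ((1 / 2) ^ n) := mul_comm _ _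
  set h : ℕ → (Edge d → ℝ) → ℝ≥0∞ := fun n ω => liminf (fun j => ∫⁻ E : ℝ,
      (U n).indicator (fun _ => (1 : ℝ≥0∞)) (E, T ω) * p j E ω) atTop with hh
  have hhm : ∀ n, Measurable (h n) := fun n => Measurable.liminf (hΦm n)
  have hhint : ∀ n, ∫⁻ ω, h n ω ∂(PE d κ) ≤ C * ENNReal.ofReal ((1 / 2) ^ n) := by
    intro n
    refine (lintegral_liminf_le (hΦm n)).trans ?_
    refine (liminf_le_liminf (Eventually.of_forall (hΦ n))).trans ?_
    simp
  have hzero : ∫⁻ ω, ⨅ n, h n ω ∂(PE d κ) = 0 := by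
    have h1 : ∀ n, ∫⁻ ω, ⨅ n, h n ω ∂(PE d κ) ≤ C * ENNReal.ofReal ((1 / 2) ^ n) := fun n =>
      (lintegral_mono fun ω => iInf_le _ n).trans (hhint n)
    have h2 : Tendsto (fun n : ℕ => C * ENNReal.ofReal ((1 / 2) ^ n)) atTop (𝓝 (C * 0)) := by
      refine ENNReal.Tendsto.const_mul ?_ (Or.inr hCtop)
      have := ENNReal.tendsto_ofReal
        (tendsto_pow_atTop_nhds_zero_of_lt_one (r := (1 / 2 : ℝ)) (by norm_num) (by norm_num))
      simpa using this
    rw [mul_zero] at h2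
    exact le_antisymm (ge_of_tendsto' h2 h1) bot_le
  have hae := (lintegral_eq_zero_iff (Measurable.iInf hhm)).1 hzero
  filter_upwards [hae] with ω hω ν hν hb
  have hω' : ⨅ n, h n ω = 0 := hω
  have hcont : Continuous fun E : ℝ => (E, T ω) := by fun_prop
  have hle : ∀ n, ν {E | (E, Function.update ω e t0) ∈ N} ≤ h n ω := by
    intro n
    have hO : IsOpen {E : ℝ | (E, T ω) ∈ U n} := (hUo n).preimage hcont
    calc ν {E | (E, Function.update ω e t0) ∈ N} ≤ ν {E : ℝ | (E, T ω) ∈ U n} :=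
          measure_mono fun E hE => hNU n hE
      _ ≤ liminf (fun j => ∫⁻ E in {E : ℝ | (E, T ω) ∈ U n}, p j E ω) atTop := by
          refine sa_measure_le hO (p := fun j E => p j E ω) fun j E => ?_
          refine ENNReal.ofReal_le_ofReal ?_
          exact mul_le_mul_of_nonneg_left (hb _ (by simpa using saEps_pos j)) (by positivity)
      _ = h n ω := by
          rw [hh]
          simp only
          congr 1
          funext j
          rw [← lintegral_indicator hO.measurableSet]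
          refine lintegral_congr fun E => ?_
          by_cases hE : (E, T ω) ∈ U n
          · rw [indicator_of_mem (show E ∈ {E : ℝ | (E, T ω) ∈ U n} from hE),
              indicator_of_mem hE, one_mul]
          · rw [indicator_of_notMem (show E ∉ {E : ℝ | (E, T ω) ∈ U n} from hE),
              indicator_of_notMem hE, zero_mul]
  have := le_iInf hle
  rw [hω'] at this
  exact le_antisymm this bot_le

/-- the resolvent is a continuous function of the operator -/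
theorem cfc_Rz (a : Edge d → ℝ) {z : ℂ} (hz : 0 < z.im) :
    ∃ g : ℂ → ℂ, Continuous g ∧ (∀ t : ℝ, g t = ((t : ℂ) - z)⁻¹) ∧
      ∀ u : L2 d, cfc g (Hc b a) u = Rz b a z u := by
  have hH := isSelfAdjoint_Hc b a
  have hne : ∀ w : ℂ, (w.re : ℂ) - z ≠ 0 := by
    intro w hw
    have := congrArg Complex.im hw
    simp at this
    exact hz.ne' this
  refine ⟨fun w => ((w.re : ℂ) - z)⁻¹, ?_, fun t => by simp, fun u => ?_⟩
  · exact Continuous.inv₀ (by fun_prop) hne
  · set g : ℂ → ℂ := fun w => ((w.re : ℂ) - z)⁻¹ with hg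
    have hgc : Continuous g := Continuous.inv₀ (by fun_prop) hne
    have hstar := hH.isStarNormal
    have h1 : Hc b a (cfc g (Hc b a) u) - z • cfc g (Hc b a) u = u := by
      have e1 : Hc b a (cfc g (Hc b a) u) - z • cfc g (Hc b a) u =
          cfc (fun w : ℂ => w - z) (Hc b a) (cfc g (Hc b a) u) := by
        rw [PP.cfc_sub_smul hH]
      rw [e1, PP.cfc_apply_mul hH (by fun_prop) hgc]
      have e2 : cfc (fun w : ℂ => (w - z) * g w) (Hc b a)
          = cfc (fun _ : ℂ => (1 : ℂ)) (Hc b a) := by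
        refine cfc_congr fun w hw => ?_
        have hw' := hH.mem_spectrum_eq_re hw
        simp only [hg]
        rw [← hw', mul_inv_cancel₀]
        rw [hw']; exact hne w
      rw [e2, cfc_const_one ℂ (Hc b a)]
      rfl
    rw [← Rz_Hz b a hz.ne' (cfc g (Hc b a) u), h1]

/-- the Poisson integral of a spectral measure -/
theorem poisson_spec (a : Edge d → ℝ) {v : L2 d} {ν : Measure ℝ}
    (hν : PP.IsSpec (Hc b a) v ν) {z : ℂ} (hz : 0 < z.im) :
    ∫ t : ℝ, z.im / ‖(t : ℂ) - z‖ ^ 2 ∂ν = (⟪v, Rz b a z v⟫_ℂ).im := by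
  obtain ⟨g, hg, hgt, hgr⟩ := cfc_Rz a hz
  have h1 := hν.int g hg
  rw [hgr] at h1
  have hint : Integrable (fun t : ℝ => g t) ν :=
    hν.integrable (hg.comp Complex.continuous_ofReal)
  have h3 : (⟪v, Rz b a z v⟫_ℂ).im = ∫ t : ℝ, (g t).im ∂ν := by
    rw [h1]
    exact (integral_im hint).symm
  rw [h3]
  refine integral_congr_ae (ae_of_all _ fun t => ?_)
  simp only [hgt, Complex.inv_im, Complex.sub_im, Complex.ofReal_im, zero_sub, neg_neg,
    Complex.normSq_eq_norm_sq]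

/-- the point mass of an eigenvalue is dominated by the spectral measure of `∇_e` -/
theorem poisson_eig_grad (a : Edge d → ℝ) (e : Edge d) {E : ℝ} {ψ : L2 d}
    (hψ : Hc b a ψ = (E : ℂ) • ψ) {z : ℂ} (hz : 0 < z.im) :
    ‖ψ (tgt e) - ψ (src e)‖ ^ 2 * (z.im / ‖(E : ℂ) - z‖ ^ 2) ≤
      ‖ψ‖ ^ 2 * (gg b a z e e).im := by
  set u : L2 d := Rz b a z (grad e) with hu
  have h1 : ⟪ψ, grad e⟫_ℂ = ((E : ℂ) - z) * ⟪ψ, u⟫_ℂ := by
    have e1 := Hz_Rz b a hz.ne' (grad e)
    rw [← hu] at e1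
    rw [← e1, inner_sub_right, ← inner_Hc, hψ, inner_smul_right, inner_smul_left,
      Complex.conj_ofReal]
    ring
  have h2 : ‖⟪ψ, grad e⟫_ℂ‖ = ‖ψ (tgt e) - ψ (src e)‖ := by
    rw [← inner_conj_symm, RCLike.norm_conj, inner_grad]
  have hne : 0 < ‖(E : ℂ) - z‖ := by
    rw [norm_pos_iff]
    intro h0
    have := congrArg Complex.im h0
    simp at this
    exact hz.ne' this
  have h3 : ‖ψ (tgt e) - ψ (src e)‖ ≤ ‖(E : ℂ) - z‖ * (‖ψ‖ * ‖u‖) := by
    rw [← h2, h1, norm_mul]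
    exact mul_le_mul_of_nonneg_left (norm_inner_le_norm _ _) (norm_nonneg _)
  have h4 := ward b a hz (grad e)
  rw [← hu, ← gg_eq_inner] at h4
  have h5 : ‖ψ (tgt e) - ψ (src e)‖ ^ 2 ≤ ‖(E : ℂ) - z‖ ^ 2 * (‖ψ‖ ^ 2 * ‖u‖ ^ 2) := by
    have := pow_le_pow_left₀ (norm_nonneg _) h3 2
    rw [mul_pow, mul_pow] at this
    exact this
  rw [← h4, ← mul_div_assoc, div_le_iff₀ (by positivity)]
  have h6 := mul_le_mul_of_nonneg_right h5 hz.le
  calc ‖ψ (tgt e) - ψ (src e)‖ ^ 2 * z.im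
      ≤ ‖(E : ℂ) - z‖ ^ 2 * (‖ψ‖ ^ 2 * ‖u‖ ^ 2) * z.im := h6
    _ = ‖ψ‖ ^ 2 * (z.im * ‖u‖ ^ 2) * ‖(E : ℂ) - z‖ ^ 2 := by ring

/-- the spectral measure of `∇_e` avoids `N` -/
theorem spec_avoid (hb : 0 ≤ b) (hs : κ (Ioc 0 b)ᶜ = 0) {K' : ℝ≥0}
    (hd : κ ≤ K' • (volume : Measure ℝ)) (e : Edge d) (t0 : ℝ)
    {N : Set (ℝ × (Edge d → ℝ))} (hN : MeasurableSet N)
    (hN0 : ∀ᵐ ω ∂(PE d κ), ∀ᵐ E : ℝ, (E, Function.update ω e t0) ∉ N) :
    ∀ᵐ ω ∂(PE d κ), (∀ ν : Measure ℝ, PP.IsSpec (Hc b ω) (grad e) ν →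
      ν {E | (E, Function.update ω e t0) ∈ N} = 0) ∧
      ∀ (E : ℝ) (ψ : L2 d), Hc b ω ψ = (E : ℂ) • ψ → ψ (tgt e) ≠ ψ (src e) →
        (E, Function.update ω e t0) ∉ N := by
  filter_upwards [spec_avg hb hs hd e t0 hN hN0] with ω hω
  refine ⟨fun ν hν => hω ν hν.fin fun z hz => ?_, fun E ψ hψ hx hcon => ?_⟩
  · rw [poisson_spec ω hν hz, ← gg_eq_inner]
  have hx' : 0 < ‖ψ (tgt e) - ψ (src e)‖ := norm_pos_iff.2 (sub_ne_zero.2 hx)
  have hψ0 : 0 < ‖ψ‖ := by
    rw [norm_pos_iff]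
    rintro rfl
    exact hx rfl
  have hc : 0 < ‖ψ (tgt e) - ψ (src e)‖ ^ 2 / ‖ψ‖ ^ 2 := by positivity
  set ν : Measure ℝ := ENNReal.ofReal (‖ψ (tgt e) - ψ (src e)‖ ^ 2 / ‖ψ‖ ^ 2) •
    Measure.dirac E with hν
  have hfin : IsFiniteMeasure ν := ⟨by
    rw [hν, Measure.smul_apply, smul_eq_mul]
    exact ENNReal.mul_lt_top ENNReal.ofReal_lt_top (measure_lt_top _ _)⟩
  have h1 := hω ν hfin (fun z hz0 => by
    rw [hν, integral_smul_measure, integral_dirac, ENNReal.toReal_ofReal hc.le, smul_eq_mul,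
      div_mul_eq_mul_div, div_le_iff₀ (by positivity), mul_comm (gg b ω z e e).im]
    exact poisson_eig_grad ω e hψ hz0)
  have hNE : MeasurableSet {E : ℝ | (E, Function.update ω e t0) ∈ N} :=
    measurable_prodMk_right hN
  rw [hν, Measure.smul_apply, Measure.dirac_apply' _ hNE, indicator_of_mem (by exact hcon)] at h1
  simp only [Pi.one_apply, smul_eq_mul, mul_one] at h1
  rw [ENNReal.ofReal_eq_zero] at h1
  linarith

end RC
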