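import Pool.Agent.RC.SWA
import Pool.Agent.RC.SWB
import Pool.Agent.Helper3.Crit.Eqb

set_option autoImplicit false

/-!
SWC: localisation from fractional moments.
-/

open scoped ENNReal NNReal InnerProductSpace
open MeasureTheory Set Filter Topology

noncomputable section

namespace RC

open Pool.Agent.Helper3.Anderson Pool.Agent.Helper3.Crit

variable {d : ℕ} {b : ℝ} {κ : Measure ℝ} [IsProbabilityMeasure κ]

/-- localisation on `U`: every eigenvector with eigenvalue in `U` decays exponentially, and the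
spectrum in `U` is pure point -/
def Loc (b : ℝ) (a : Edge d → ℝ) (U : Set ℝ) : Prop :=
  (∀ E ∈ U, ∀ φ : L2 d, Hc b a φ = (E : ℂ) • φ → ExpDecay (φ : Site d → ℂ)) ∧
  ∀ ψ : L2 d, (∀ E ∈ U, ∀ φ : L2 d, Hc b a φ = (E : ℂ) • φ → ⟪φ, ψ⟫_ℂ = 0) →
    ∀ ν : Measure ℝ, PP.IsSpec (Hc b a) ψ ν → ν U = 0

section abstract

variable {𝓗 : Type*} [NormedAddCommGroup 𝓗] [InnerProductSpace ℂ 𝓗] [CompleteSpace 𝓗]
  {H : 𝓗 →L[ℂ] 𝓗}

/-- energies for which `v` is in the range of `H - E` -/
theorem SWC_null (hH : IsSelfAdjoint H) {v : 𝓗} {ν : Measure ℝ} (h : PP.IsSpec H v ν) :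
    ν {E : ℝ | ∃ (φ : 𝓗) (c : ℂ), c ≠ 0 ∧ H φ - (E : ℂ) • φ = c • v} = 0 := by
  have hfin := h.fin
  refine PP.null_of_little ?_
  rintro E ⟨φ, c, hc, hφ⟩ δ hδ
  have e1 : H (c⁻¹ • φ) - (E : ℂ) • (c⁻¹ • φ) = v := by
    rw [map_smul, smul_comm, ← smul_sub, hφ, smul_smul, inv_mul_cancel₀ hc, one_smul]
  obtain ⟨C, hC0, hC⟩ := PP.ball_le hH h e1
  have hr0 : 0 < 2 * (δ : ℝ) / (C + 1) := by positivity
  filter_upwards [Ioo_mem_nhdsGT hr0] with r hr
  have h5 := hC r hr.1
  have h6 : C * r ^ 2 ≤ δ * (2 * r) := by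
    have : (C + 1) * r ≤ 2 * δ := by
      have := hr.2.le
      rwa [le_div_iff₀ (by positivity), mul_comm] at this
    have hrp := hr.1.le
    nlinarith
  rw [Real.volume_closedBall]
  have h7 : ν (Metric.closedBall E r) = ENNReal.ofReal (ν.real (Metric.closedBall E r)) := by
    rw [Measure.real, ENNReal.ofReal_toReal (measure_ne_top _ _)]
  rw [h7, ← ENNReal.ofReal_coe_nnreal, ← ENNReal.ofReal_mul (by positivity)]
  exact ENNReal.ofReal_le_ofReal (h5.trans h6)

/-- a set which is null for the spectral measures of a total set of vectors is null for all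
spectral measures -/
theorem SWC_total (hH : IsSelfAdjoint H) {S : Set 𝓗} {B : Set ℝ} (hB : MeasurableSet B)
    (hS : ∀ v ∈ S, ∀ ν : Measure ℝ, PP.IsSpec H v ν → ν B = 0)
    (hd : ∀ u : 𝓗, (∀ v ∈ S, ⟪v, u⟫_ℂ = 0) → u = 0) {q : 𝓗} {ν : Measure ℝ}
    (hν : PP.IsSpec H q ν) : ν B = 0 := by
  have hfin := hν.fin
  have hq : q ∈ (Submodule.span ℂ S).topologicalClosure := by
    have h1 : (Submodule.span ℂ S).topologicalClosure = ⊤ := by
      rw [Submodule.topologicalClosure_eq_top_iff, Submodule.eq_bot_iff]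
      intro u hu
      refine hd u fun v hv => ?_
      exact (Submodule.mem_orthogonal _ _).1 hu v (Submodule.subset_span hv)
    rw [h1]
    exact Submodule.mem_top
  have hcl : ∀ K ⊆ B, IsClosed K → ν K = 0 := by
    intro K hKB hK
    rcases K.eq_empty_or_nonempty with rfl | hne
    · simp
    have hspan : ∀ w ∈ Submodule.span ℂ S,
        Tendsto (fun m => cfc (Eqb.cbump K m) H w) atTop (𝓝 0) := by
      intro w hw
      induction hw using Submodule.span_induction with
      | mem v hv =>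
        obtain ⟨ρ, h1, h2, h3⟩ := exists_specMeasure H hH v
        have hρ : PP.IsSpec H v ρ := ⟨h1, h2, h3⟩
        have hρ0 : ρ K = 0 := measure_mono_null hKB (hS v hv ρ hρ)
        have h4 : Tendsto (fun m => ‖cfc (Eqb.cbump K m) H v‖ ^ 2) atTop (𝓝 0) := by
          have h5 : Tendsto (fun m => ∫ t : ℝ, ‖Eqb.cbump K m t‖ ^ 2 ∂ρ) atTop
              (𝓝 (∫ _t : ℝ, (0 : ℝ) ∂ρ)) := by
            refine tendsto_integral_of_dominated_convergence (fun _ => 1) (fun m => ?_)
              (integrable_const _) (fun m => ae_of_all _ fun t => ?_) ?_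
            · have := Eqb.cbump_cont K m
              exact (by fun_prop : Continuous fun t : ℝ =>
                ‖Eqb.cbump K m t‖ ^ 2).aestronglyMeasurable
            · rw [Real.norm_eq_abs, abs_of_nonneg (by positivity)]
              exact pow_le_one₀ (norm_nonneg _) (Eqb.norm_cbump K m t)
            · have h6 : ∀ᵐ t ∂ρ, t ∉ K := by
                rw [ae_iff]
                simp only [not_not]
                exact hρ0
              filter_upwards [h6] with t ht
              have h7 := ((Eqb.bump_tendsto hK hne ht).norm).pow 2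
              rw [norm_zero, zero_pow two_ne_zero] at h7
              refine h7.congr fun m => ?_
              rw [Eqb.cbump_ofReal, Complex.norm_real]
          rw [integral_zero] at h5
          refine h5.congr fun m => ?_
          rw [hρ.norm_sq hH (Eqb.cbump_cont K m)]
        have h8 := h4.sqrt
        simp only [Real.sqrt_zero, Real.sqrt_sq (norm_nonneg _)] at h8
        exact tendsto_zero_iff_norm_tendsto_zero.2 h8
      | zero => simp
      | add a b _ _ ha hb => simpa only [map_add, add_zero] using ha.add hb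
      | smul c a _ ha => simpa only [map_smul, smul_zero] using ha.const_smul c
    have hlim : Tendsto (fun m => cfc (Eqb.cbump K m) H q) atTop (𝓝 0) := by
      rw [Metric.tendsto_atTop]
      intro ε hε
      have hq' : q ∈ closure (Submodule.span ℂ S : Set 𝓗) := hq
      obtain ⟨w, hw, hqw⟩ := Metric.mem_closure_iff.1 hq' (ε / 2) (half_pos hε)
      obtain ⟨N, hN⟩ := Metric.tendsto_atTop.1 (hspan w hw) (ε / 2) (half_pos hε)
      refine ⟨N, fun m hm => ?_⟩
      have h1 := hN m hm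
      rw [dist_zero_right] at h1 ⊢
      have h2 : cfc (Eqb.cbump K m) H q
          = cfc (Eqb.cbump K m) H (q - w) + cfc (Eqb.cbump K m) H w := by
        rw [← map_add, sub_add_cancel]
      have h3 := Eqb.norm_cfc_cbump_le (H := H) K m (q - w)
      rw [dist_eq_norm] at hqw
      calc ‖cfc (Eqb.cbump K m) H q‖
          ≤ ‖cfc (Eqb.cbump K m) H (q - w)‖ + ‖cfc (Eqb.cbump K m) H w‖ := by
            rw [h2]; exact norm_add_le _ _
        _ < ε / 2 + ε / 2 := by linarith
        _ = ε := add_halves ε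
    have hle : ∀ m, ν.real K ≤ ‖cfc (Eqb.cbump K m) H q‖ ^ 2 := by
      intro m
      rw [hν.norm_sq hH (Eqb.cbump_cont K m)]
      calc ν.real K = ∫ t, indicator K 1 t ∂ν := by
            rw [integral_indicator_one hK.measurableSet]
        _ ≤ ∫ t : ℝ, ‖Eqb.cbump K m t‖ ^ 2 ∂ν := by
            refine integral_mono ?_
              (hν.integrable (f := fun t : ℝ => ‖Eqb.cbump K m t‖ ^ 2) ?_) fun t => ?_
            · exact (integrable_const (1 : ℝ)).indicator hK.measurableSet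
            · exact (((Eqb.cbump_cont K m).comp Complex.continuous_ofReal).norm).pow 2
            · by_cases ht : t ∈ K
              · rw [indicator_of_mem ht]
                change (1 : ℝ) ≤ ‖Eqb.cbump K m t‖ ^ 2
                rw [Eqb.cbump_ofReal, Eqb.bump_eq_one ht]
                simp
              · rw [indicator_of_notMem ht]; positivity
    have h0 : ν.real K ≤ 0 := by
      have h1 : Tendsto (fun m => ‖cfc (Eqb.cbump K m) H q‖ ^ 2) atTop (𝓝 (‖(0 : 𝓗)‖ ^ 2)) :=
        hlim.norm.pow 2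
      rw [norm_zero, zero_pow two_ne_zero] at h1
      exact ge_of_tendsto' h1 hle
    have h2 : ν.real K = 0 := le_antisymm h0 measureReal_nonneg
    rwa [measureReal_eq_zero_iff] at h2
  rw [hB.measure_eq_iSup_isClosed_of_ne_top (measure_ne_top ν B)]
  simp only [ENNReal.iSup_eq_zero]
  intro K hKB hK
  exact hcl K hKB hK

end abstract

/-- the operator when one conductance changes -/
theorem SWC_update (ω : Edge d → ℝ) (e : Edge d) (t0 : ℝ) (ψ : L2 d) :
    Hc b ω ψ = Hc b (Function.update ω e t0) ψ +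
      (((cl b (ω e) - cl b t0 : ℝ) : ℂ) * (ψ (tgt e) - ψ (src e))) • grad e := by
  have h := Hc_sub b ω (Function.update ω e t0) {e} (fun f hf => by
    rw [Finset.mem_singleton] at hf
    rw [Function.update_of_ne hf]) ψ
  rw [Finset.sum_singleton, Function.update_self] at h
  rw [← h]
  abel

theorem SWC_decay_smul {ψ : L2 d} (h : ExpDecay (ψ : Site d → ℂ)) (c : ℂ) :
    ExpDecay ((c • ψ : L2 d) : Site d → ℂ) := by
  obtain ⟨C, r, hr, h1⟩ := h
  refine ⟨‖c‖ * C, r, hr, fun y => ?_⟩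
  rw [lp.coeFn_smul, Pi.smul_apply, norm_smul, mul_assoc]
  exact mul_le_mul_of_nonneg_left (h1 y) (norm_nonneg _)

/-- deterministic part, one edge -/
theorem atoms_of_sol (ω : Edge d → ℝ) (e : Edge d) {t0 : ℝ} {U N : Set ℝ}
    (hU : MeasurableSet U) (hN : MeasurableSet N)
    (hsol : ∀ E ∈ U, E ∉ N → ∃ ψ : L2 d, ExpDecay (ψ : Site d → ℂ) ∧
      Hc b (Function.update ω e t0) ψ - (E : ℂ) • ψ = grad e)
    (hker : ∀ E ∈ U, E ∉ N → ∀ ψ : L2 d,
      Hc b (Function.update ω e t0) ψ = (E : ℂ) • ψ → ψ = 0)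
    (hν : ∀ ν : Measure ℝ, PP.IsSpec (Hc b ω) (grad e) ν → ν N = 0)
    (hev : ∀ (E : ℝ) (ψ : L2 d), Hc b ω ψ = (E : ℂ) • ψ → ψ (tgt e) ≠ ψ (src e) → E ∉ N) :
    (∀ E ∈ U, ∀ φ : L2 d, Hc b ω φ = (E : ℂ) • φ → φ (tgt e) ≠ φ (src e) →
      ExpDecay (φ : Site d → ℂ)) ∧
    ∀ ν : Measure ℝ, PP.IsSpec (Hc b ω) (grad e) ν →
      ν (U \ {E | ∃ φ : L2 d, φ ≠ 0 ∧ Hc b ω φ = (E : ℂ) • φ}) = 0 := by
  constructor
  · intro E hE φ hφ hne
    have hEN := hev E φ hφ hne
    obtain ⟨ψ, hdec, hψ⟩ := hsol E hE hEN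
    set c : ℂ := ((cl b (ω e) - cl b t0 : ℝ) : ℂ) * (φ (tgt e) - φ (src e)) with hc
    have h1 : Hc b (Function.update ω e t0) φ = (E : ℂ) • φ - c • grad e := by
      have := SWC_update (b := b) ω e t0 φ
      rw [hφ] at this
      rw [this]
      abel
    have h2 : Hc b (Function.update ω e t0) (φ + c • ψ) = (E : ℂ) • (φ + c • ψ) := by
      have h3 : Hc b (Function.update ω e t0) ψ = (E : ℂ) • ψ + grad e := by
        rw [← hψ]; abel
      rw [map_add, map_smul, h1, h3, smul_add, smul_add, smul_comm c]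
      abel
    have h4 := hker E hE hEN _ h2
    have h5 : φ = (-c) • ψ := by
      rw [neg_smul]
      exact eq_neg_of_add_eq_zero_left h4
    rw [h5]
    exact SWC_decay_smul hdec _
  · intro ν hspec
    have h0 := hν ν hspec
    have h1 := SWC_null (isSelfAdjoint_Hc b ω) hspec
    refine measure_mono_null ?_ (measure_union_null h0 h1)
    rintro E ⟨hE, hEv⟩
    by_cases hEN : E ∈ N
    · exact Or.inl hEN
    · right
      obtain ⟨ψ, hdec, hψ⟩ := hsol E hE hEN
      have h2 : Hc b ω ψ - (E : ℂ) • ψ =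
          (1 + ((cl b (ω e) - cl b t0 : ℝ) : ℂ) * (ψ (tgt e) - ψ (src e))) • grad e := by
        have h3 : Hc b (Function.update ω e t0) ψ = (E : ℂ) • ψ + grad e := by
          rw [← hψ]; abel
        rw [SWC_update (b := b) ω e t0 ψ, add_smul, one_smul, h3]
        abel
      refine ⟨ψ, _, ?_, h2⟩
      intro hc
      rw [hc, zero_smul] at h2
      apply hEv
      refine ⟨ψ, ?_, sub_eq_zero.1 h2⟩
      rintro rfl
      apply grad_ne_zero e
      rw [← hψ]
      simp

/-- a square summable function with vanishing gradient is zero -/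
theorem SWC_const (hd : 0 < d) (u : L2 d) (h : ∀ e : Edge d, u (tgt e) = u (src e)) : u = 0 := by
  ext x
  set j : Fin d := ⟨0, hd⟩ with hj
  have h1 : ∀ n : ℕ, u (x + (n : ℤ) • Pi.single j 1) = u x := by
    intro n
    induction n with
    | zero => simp
    | succ n ih =>
      rw [← ih]
      have h2 := h (x + (n : ℤ) • Pi.single j 1, j)
      simp only [tgt, src] at h2
      rw [← h2]
      congr 1
      push_cast
      rw [add_smul, one_smul, add_assoc]
  have hsum : Summable fun y : Site d => ‖u y‖ ^ (2 : ℝ) := by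
    have := (lp.memℓp u).summable (by norm_num : (0 : ℝ) < (2 : ℝ≥0∞).toReal)
    simpa using this
  have hinj : Function.Injective fun n : ℕ => x + (n : ℤ) • (Pi.single j 1 : Site d) := by
    intro n m hnm
    have h3 := congrFun hnm j
    simp only [Pi.add_apply, Pi.smul_apply, Pi.single_eq_same, smul_eq_mul, mul_one,
      add_right_inj] at h3
    exact_mod_cast h3
  have h4 := (hsum.comp_injective hinj).tendsto_atTop_zero
  have h5 : Tendsto (fun _ : ℕ => ‖u x‖ ^ (2 : ℝ)) atTop (𝓝 0) := by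
    refine h4.congr fun n => ?_
    simp only [Function.comp_apply, h1 n]
  have h6 := tendsto_nhds_unique h5 tendsto_const_nhds
  rw [eq_comm, Real.rpow_eq_zero_iff_of_nonneg (norm_nonneg _)] at h6
  simpa using h6.1

theorem SWC_orth (ω : Edge d → ℝ) {E E' : ℝ} (hEE : E ≠ E') {a c : L2 d}
    (ha : Hc b ω a = (E : ℂ) • a) (hc : Hc b ω c = (E' : ℂ) • c) : ⟪a, c⟫_ℂ = 0 := by
  have h1 := inner_Hc b ω a c
  rw [ha, hc, inner_smul_left, inner_smul_right, Complex.conj_ofReal] at h1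
  have h2 : ((E : ℂ) - (E' : ℂ)) * ⟪a, c⟫_ℂ = 0 := by linear_combination h1
  rcases mul_eq_zero.1 h2 with h3 | h3
  · exact absurd (by exact_mod_cast sub_eq_zero.1 h3) hEE
  · exact h3

theorem SWC_count1 (ω : Edge d → ℝ) (x : Site d) :
    {E : ℝ | ∃ φ : L2 d, Hc b ω φ = (E : ℂ) • φ ∧ φ x ≠ 0}.Countable := by
  set A2 : Set ℝ := {E : ℝ | ∃ φ : L2 d, Hc b ω φ = (E : ℂ) • φ ∧ φ x ≠ 0} with hA2def
  choose! Φ hΦ using fun (E : ℝ) (hE : E ∈ A2) => hE
  have hne : ∀ E ∈ A2, Φ E ≠ 0 := fun E hE h0 => (hΦ E hE).2 (by rw [h0]; rfl)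
  let w : A2 → L2 d := fun E => ((‖Φ E‖ : ℂ)⁻¹) • Φ E
  have horth : Orthonormal ℂ w := by
    constructor
    · intro E
      have := norm_ne_zero_iff.2 (hne E E.2)
      simp only [w, norm_smul, norm_inv, Complex.norm_real, norm_norm]
      exact inv_mul_cancel₀ this
    · intro E E' hEE
      simp only [w, inner_smul_left, inner_smul_right]
      have h0 : ⟪Φ E, Φ E'⟫_ℂ = 0 :=
        SWC_orth ω (fun h => hEE (Subtype.ext h)) (hΦ E E.2).1 (hΦ E' E'.2).1
      rw [h0]; simp
  have hsum := horth.inner_products_summable (dl x)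
  have hsupp := hsum.countable_support
  have : Function.support (fun i : A2 => ‖⟪w i, dl x⟫_ℂ‖ ^ 2) = univ := by
    ext E
    simp only [Function.mem_support, mem_univ, iff_true]
    have h1 : ⟪w E, dl x⟫_ℂ ≠ 0 := by
      rw [← inner_conj_symm, inner_dl]
      simp only [w, lp.coeFn_smul, Pi.smul_apply, smul_eq_mul]
      have h2 := (hΦ E E.2).2
      have h3 := norm_ne_zero_iff.2 (hne E E.2)
      rw [Ne, map_eq_zero]
      exact mul_ne_zero (inv_ne_zero (by exact_mod_cast h3)) h2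
    exact pow_ne_zero 2 (norm_ne_zero_iff.2 h1)
  rw [this, countable_univ_iff] at hsupp
  exact countable_coe_iff.1 hsupp

theorem SWC_count (ω : Edge d → ℝ) :
    {E : ℝ | ∃ φ : L2 d, φ ≠ 0 ∧ Hc b ω φ = (E : ℂ) • φ}.Countable := by
  refine (countable_iUnion fun x : Site d => SWC_count1 (b := b) ω x).mono ?_
  rintro E ⟨φ, h0, h1⟩
  rw [mem_iUnion]
  by_contra hcon
  push Not at hcon
  apply h0
  ext x
  by_contra hx
  exact hcon x ⟨φ, h1, hx⟩

/-- deterministic part, all edges -/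
theorem loc_of_atoms (hd : 0 < d) (ω : Edge d → ℝ) {U : Set ℝ} (hU : MeasurableSet U)
    (h1 : ∀ e : Edge d, ∀ E ∈ U, ∀ φ : L2 d, Hc b ω φ = (E : ℂ) • φ → φ (tgt e) ≠ φ (src e) →
      ExpDecay (φ : Site d → ℂ))
    (h2 : ∀ e : Edge d, ∀ ν : Measure ℝ, PP.IsSpec (Hc b ω) (grad e) ν →
      ν (U \ {E | ∃ φ : L2 d, φ ≠ 0 ∧ Hc b ω φ = (E : ℂ) • φ}) = 0) : Loc b ω U := by
  have hH := isSelfAdjoint_Hc b ω
  constructor
  · intro E hE φ hφ
    by_cases h3 : ∃ e : Edge d, φ (tgt e) ≠ φ (src e)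
    · obtain ⟨e, he⟩ := h3
      exact h1 e E hE φ hφ he
    · push Not at h3
      rw [SWC_const hd φ h3]
      exact ⟨0, 1, one_pos, fun y => by simp⟩
  · intro ψ hψ ν hν
    have hfin := hν.fin
    set Ev : Set ℝ := {E | ∃ φ : L2 d, φ ≠ 0 ∧ Hc b ω φ = (E : ℂ) • φ} with hEv
    have hcount : Ev.Countable := SWC_count ω
    have hB : MeasurableSet (U \ Ev) := hU.diff hcount.measurableSet
    have h3 : ν (U \ Ev) = 0 := by
      refine SWC_total hH (S := range fun e : Edge d => (grad e : L2 d)) hB ?_ ?_ hν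
      · rintro v ⟨e, rfl⟩ ρ hρ
        exact h2 e ρ hρ
      · intro u hu
        refine SWC_const hd u fun e => ?_
        have := hu (grad e) ⟨e, rfl⟩
        rw [inner_grad] at this
        exact sub_eq_zero.1 this
    have h4 : ν (U ∩ Ev) = 0 := by
      have h5 : U ∩ Ev ⊆ ⋃ E ∈ U ∩ Ev, {E} := fun E hE => by
        simp only [mem_iUnion, mem_singleton_iff, exists_prop]
        exact ⟨E, hE, rfl⟩
      refine measure_mono_null h5 ?_
      rw [measure_biUnion_null_iff (hcount.mono inter_subset_right)]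
      intro E hE
      obtain ⟨a, ha1, ha2, _⟩ := PP.exists_atom hH hν E
      have h6 := hψ E hE.1 a ha1
      rw [← inner_conj_symm, ha2, Complex.conj_ofReal, Complex.ofReal_eq_zero] at h6
      rwa [measureReal_eq_zero_iff] at h6
    rw [← inter_union_diff U Ev]
    exact measure_union_null h4 h3

theorem loc_of_fm (hd : 0 < d) (hb : 0 ≤ b) (hs : κ (Ioc 0 b)ᶜ = 0) {K' : ℝ≥0}
    (hK : κ ≤ K' • (volume : Measure ℝ)) {U : Set ℝ} (hU : MeasurableSet U) {B m : ℝ}
    (hm : 0 < m) (hfm : ∀ z : ℂ, 0 < z.im → z.re ∈ U → ∀ x y : Site d,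
      ∫⁻ ω, ‖G b ω z x y‖ₑ ^ (1 / 4 : ℝ) ∂(PE d κ)
        ≤ ENNReal.ofReal (B * Real.exp (-(m * sn (x - y))))) :
    ∀ᵐ ω ∂(PE d κ), Loc b ω U := by
  set ε : ℕ → ℝ := fun k => 1 / ((k : ℝ) + 1) with hεdef
  have hε : ∀ k, 0 < ε k := fun k => by positivity
  have hε0 : Tendsto ε atTop (𝓝 0) := tendsto_one_div_add_atTop_nhds_zero_nat
  have hkey : ∀ e : Edge d, ∀ᵐ ω ∂(PE d κ),
      (∀ E ∈ U, ∀ φ : L2 d, Hc b ω φ = (E : ℂ) • φ → φ (tgt e) ≠ φ (src e) →
        ExpDecay (φ : Site d → ℂ)) ∧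
      ∀ ν : Measure ℝ, PP.IsSpec (Hc b ω) (grad e) ν →
        ν (U \ {E | ∃ φ : L2 d, φ ≠ 0 ∧ Hc b ω φ = (E : ℂ) • φ}) = 0 := by
    intro e
    set N : Set (ℝ × (Edge d → ℝ)) := NA (d := d) b U ε (m / 2) e ∪ NB (d := d) b ε with hN
    have hNB := measurableSet_NB (d := d) (b := b) hε
    have hNm : MeasurableSet N := (measurableSet_NA hU hε (m / 2) e).union hNB
    have hNae : ∀ᵐ E : ℝ, ∀ᵐ ω ∂(PE d κ), (E, ω) ∉ N := by
      have h1 : ∀ᵐ E : ℝ, ∀ᵐ ω ∂(PE d κ), (E, ω) ∉ NB (d := d) b ε := by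
        have h2 : ∀ᵐ ω ∂(PE d κ), ∀ᵐ E : ℝ, (E, ω) ∉ NB (d := d) b ε :=
          ae_of_all _ fun ω => ae_NB hε hε0 ω
        exact (Measure.ae_ae_comm (μ := (volume : Measure ℝ)) (ν := PE d κ)
          (p := fun E ω => (E, ω) ∉ NB (d := d) b ε) hNB.compl).2 h2
      filter_upwards [h1] with E hE
      filter_upwards [hE, ae_NA hε hm hfm e E] with ω hω hω'
      rintro (h | h)
      · exact hω' h
      · exact hω h
    obtain ⟨t0, ht0⟩ := exists_ref (κ := κ) e hNm hNae
    filter_upwards [spec_avoid hb hs hK e t0 hNm ht0] with ω hω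
    refine atoms_of_sol ω e (t0 := t0) (N := {E | (E, Function.update ω e t0) ∈ N}) hU
      (measurable_prodMk_right hNm) ?_ ?_ hω.1 hω.2
    · intro E hE hEN
      exact sol_of_NA hε hε0 (half_pos hm) hE fun h => hEN (Or.inl h)
    · intro E hE hEN ψ hψ
      exact ker_of_NB hε (fun h => hEN (Or.inr h)) hψ
  have hall := ae_all_iff.2 hkey
  filter_upwards [hall] with ω hω
  exact loc_of_atoms hd ω hU (fun e => (hω e).1) fun e => (hω e).2

end RC
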