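import Pool.Agent.RC.Statement
import Pool.Agent.RC.Ind
import Pool.Agent.RC.SWC
import Pool.Agent.RC.PD

set_option autoImplicit false

/-!
FINAL: localisation of the random conductance operator above the percolation energy.
-/

open scoped ENNReal NNReal InnerProductSpace
open MeasureTheory Set Filter Topology

noncomputable section

namespace RC

open Pool.Agent.Helper3.Anderson Pool.Agent.Helper3.Crit

variable {d : ℕ}

theorem Hc_eq_Hw {b : ℝ} {w : Edge d → ℝ} (hw : ∀ e, w e ∈ Icc 0 b) (f : L2 d) (x : Site d) :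
    Hc b w f x = Hw w f x := by
  rw [Hc_apply, Hw]
  refine Finset.sum_congr rfl fun j _ => ?_
  rw [cl_of_mem (hw _), cl_of_mem (hw _)]
  ring

theorem eig_iff {b : ℝ} {w : Edge d → ℝ} (hw : ∀ e, w e ∈ Icc 0 b) (E : ℝ) (f : L2 d) :
    Eig w E f ↔ Hc b w f = (E : ℂ) • f := by
  constructor
  · intro h
    ext x
    rw [Hc_eq_Hw hw, h x]
    rfl
  · intro h x
    rw [← Hc_eq_Hw hw, h]
    rfl

theorem inner_aux (r : ℝ) (u : ℂ) : r * ‖u‖ ^ 2 = (⟪u, (r : ℂ) * u⟫_ℂ).re := by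
  rw [← smul_eq_mul (a := (r : ℂ)), inner_smul_right, inner_self_eq_norm_sq_to_K]
  simp only [Complex.coe_algebraMap]
  rw [← Complex.ofReal_pow, ← Complex.ofReal_mul, Complex.ofReal_re]

/-- the quadratic form -/
theorem form_eq {b : ℝ} {w : Edge d → ℝ} (hw : ∀ e, w e ∈ Icc 0 b) (g : L2 d) :
    ∑' e : Edge d, ENNReal.ofReal (w e * ‖g (e.1 + Pi.single e.2 1) - g e.1‖ ^ 2) =
      ENNReal.ofReal (⟪g, Hc b w g⟫_ℂ).re := by
  set D : Fin d → L2 d := fun j => shift (Pi.single j 1) g - g with hD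
  have hDx : ∀ j x, D j x = g (x + Pi.single j 1) - g x := by
    intro j x
    rw [hD]
    simp
  have h1 : ⟪g, Hc b w g⟫_ℂ
      = ∑ j : Fin d, ⟪D j, mulOp (fun x => cl b (w (x, j))) (bdd_cl b w j) (D j)⟫_ℂ := by
    simp only [Hc, sum_apply, inner_sum]
    refine Finset.sum_congr rfl fun j _ => ?_
    simp only [hD, mul_apply_eq_comp, sub_apply, one_apply_eq_self, inner_sub_left,
      inner_sub_right, inner_shift, map_sub]
  have h2 : ∀ j : Fin d, HasSum (fun x : Site d => w (x, j) * ‖D j x‖ ^ 2)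
      (⟪D j, mulOp (fun x => cl b (w (x, j))) (bdd_cl b w j) (D j)⟫_ℂ).re := by
    intro j
    have h3 := Complex.hasSum_re (lp.hasSum_inner (𝕜 := ℂ) (D j)
      (mulOp (fun x => cl b (w (x, j))) (bdd_cl b w j) (D j)))
    convert h3 using 1
    funext x
    rw [mulOp_apply, cl_of_mem (hw _)]
    exact inner_aux (w (x, j)) (D j x)
  have h3 : ∀ j : Fin d, ∑' x : Site d, ENNReal.ofReal (w (x, j) * ‖D j x‖ ^ 2) =
      ENNReal.ofReal (⟪D j, mulOp (fun x => cl b (w (x, j))) (bdd_cl b w j) (D j)⟫_ℂ).re := by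
    intro j
    rw [← ENNReal.ofReal_tsum_of_nonneg (fun x => mul_nonneg (hw _).1 (sq_nonneg _))
      (h2 j).summable, (h2 j).tsum_eq]
  have h4 : ∀ j : Fin d,
      0 ≤ (⟪D j, mulOp (fun x => cl b (w (x, j))) (bdd_cl b w j) (D j)⟫_ℂ).re := by
    intro j
    rw [← (h2 j).tsum_eq]
    exact tsum_nonneg fun x => mul_nonneg (hw _).1 (sq_nonneg _)
  rw [h1, Complex.re_sum, ENNReal.ofReal_sum_of_nonneg (fun j _ => h4 j), ENNReal.tsum_prod',
    ENNReal.tsum_comm, tsum_fintype]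
  refine Finset.sum_congr rfl fun j _ => ?_
  rw [← h3 j]
  refine tsum_congr fun x => ?_
  rw [hDx]

/-- from `Loc` to the elementary formulation -/
theorem localisedAbove_of_loc {b c : ℝ} {w : Edge d → ℝ} (hw : ∀ e, w e ∈ Icc 0 b)
    (h : Loc b w (Ici c)) : LocalisedAbove w c := by
  refine ⟨fun E hE f hf => ?_, fun g hg => ?_⟩
  · obtain ⟨C, m, hm, h1⟩ := h.1 E hE f ((eig_iff hw E f).1 hf)
    exact ⟨C, m, hm, h1⟩
  · rw [form_eq hw g]
    refine ENNReal.ofReal_le_ofReal ?_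
    obtain ⟨ν, hν1, hν2, hν3⟩ := exists_specMeasure (Hc b w) (isSelfAdjoint_Hc b w) g
    have hν : PP.IsSpec (Hc b w) g ν := ⟨hν1, hν2, hν3⟩
    have h0 := h.2 g (fun E hE f hf => hg E hE f ((eig_iff hw E f).2 hf)) ν hν
    have hst := (isSelfAdjoint_Hc b w).isStarNormal
    have h1 : ⟪g, Hc b w g⟫_ℂ = ∫ t : ℝ, (t : ℂ) ∂ν := by
      rw [← hν3 (fun z => z) continuous_id, cfc_id' ℂ (Hc b w)]
    have h2 : ‖g‖ ^ 2 = ∫ t : ℝ, (1 : ℝ) ∂ν := by
      have h3 := hν3 (fun _ => 1) continuous_const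
      rw [cfc_const_one ℂ (Hc b w)] at h3
      have h4 : ⟪g, g⟫_ℂ = ((∫ t : ℝ, (1 : ℝ) ∂ν : ℝ) : ℂ) := by
        rw [show ⟪g, g⟫_ℂ = ⟪g, (1 : L2 d →L[ℂ] L2 d) g⟫_ℂ from rfl, h3]
        simp
      rw [inner_self_eq_norm_sq_to_K] at h4
      have h5 : ((‖g‖ ^ 2 : ℝ) : ℂ) = ((∫ t : ℝ, (1 : ℝ) ∂ν : ℝ) : ℂ) := by
        rw [← h4]; simp
      exact_mod_cast h5
    have h3 : (⟪g, Hc b w g⟫_ℂ).re = ∫ t : ℝ, t ∂ν := by
      have h5 : ∫ t : ℝ, (t : ℂ) ∂ν = ((∫ t : ℝ, t ∂ν : ℝ) : ℂ) := integral_ofReal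
      rw [h1, h5, Complex.ofReal_re]
    have hint : Integrable (fun t : ℝ => t) ν := hν.integrable continuous_id
    rw [h3, h2, ← integral_const_mul]
    refine integral_mono_ae hint (hν.integrable (by fun_prop)) ?_
    have h4 : ∀ᵐ t ∂ν, t ∉ Ici c := by
      rw [ae_iff]
      simp only [not_not]
      exact h0
    filter_upwards [h4] with t ht
    rw [mem_Ici, not_le] at ht
    linarith

/-- a bounded density of `log w` gives a bounded density of `w` -/
theorem dens_of_log {μ : Measure ℝ} {a : ℝ} {K : ℝ≥0} (ha : 0 < a) (hs : μ (Ici a)ᶜ = 0)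
    (hd : μ.map Real.log ≤ K • (volume : Measure ℝ)) :
    μ ≤ (K * ⟨a⁻¹, (inv_pos.2 ha).le⟩ : ℝ≥0) • (volume : Measure ℝ) := by
  refine Measure.le_iff.2 fun S hS => ?_
  set T : Set ℝ := S ∩ Ici a with hT
  have hTm : MeasurableSet T := hS.inter measurableSet_Ici
  have hinj : InjOn Real.log T := by
    intro s hs t ht hst
    exact Real.log_injOn_pos (mem_Ioi.2 (ha.trans_le hs.2)) (mem_Ioi.2 (ha.trans_le ht.2)) hst
  have h1 : μ S ≤ μ T := by
    calc μ S ≤ μ (T ∪ (Ici a)ᶜ) := measure_mono fun t ht => by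
          by_cases h : t ∈ Ici a
          · exact Or.inl ⟨ht, h⟩
          · exact Or.inr h
      _ ≤ μ T + μ (Ici a)ᶜ := measure_union_le _ _
      _ = μ T := by rw [hs, add_zero]
  have him : MeasurableSet (Real.log '' T) :=
    hTm.image_of_measurable_injOn Real.measurable_log hinj
  have h2 : μ T ≤ μ.map Real.log (Real.log '' T) := by
    rw [Measure.map_apply Real.measurable_log him]
    exact measure_mono (subset_preimage_image _ _)
  have h3 : volume (Real.log '' T) ≤ ENNReal.ofReal a⁻¹ * volume T := by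
    have h4 := lintegral_image_eq_lintegral_abs_deriv_mul (f := Real.log) (f' := fun x => x⁻¹)
      hTm (fun x hx => (Real.hasDerivAt_log (ha.trans_le hx.2).ne').hasDerivWithinAt) hinj
      (fun _ => 1)
    rw [lintegral_one, Measure.restrict_apply_univ] at h4
    rw [h4]
    calc ∫⁻ x in T, ENNReal.ofReal |x⁻¹| * 1 ≤ ∫⁻ _ in T, ENNReal.ofReal a⁻¹ := by
          refine setLIntegral_mono' hTm fun x hx => ?_
          rw [mul_one]
          refine ENNReal.ofReal_le_ofReal ?_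
          have hx0 : 0 < x := ha.trans_le hx.2
          rw [abs_of_pos (inv_pos.2 hx0)]
          exact inv_anti₀ ha hx.2
      _ = ENNReal.ofReal a⁻¹ * volume T := by rw [setLIntegral_const]
  calc μ S ≤ μ.map Real.log (Real.log '' T) := h1.trans h2
    _ ≤ (K • (volume : Measure ℝ)) (Real.log '' T) := hd _
    _ = K * volume (Real.log '' T) := rfl
    _ ≤ K * (ENNReal.ofReal a⁻¹ * volume T) := by gcongr
    _ ≤ K * (ENNReal.ofReal a⁻¹ * volume S) := by
        gcongr
        exact inter_subset_left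
    _ = ((K * ⟨a⁻¹, (inv_pos.2 ha).le⟩ : ℝ≥0) • (volume : Measure ℝ)) S := by
        rw [Measure.smul_apply, ENNReal.smul_def, smul_eq_mul, ENNReal.coe_mul, mul_assoc]
        congr 2
        rw [ENNReal.ofReal, Real.toNNReal_of_nonneg (inv_pos.2 ha).le]
        rfl

/-- a level at which the tail is exactly `p` -/
theorem exists_level {μ : Measure ℝ} [IsProbabilityMeasure μ] {K' : ℝ≥0} {a q p : ℝ}
    (hd : μ ≤ K' • (volume : Measure ℝ)) (hp1 : p < 1) (hp : 0 < p)
    (ha : μ (Ici a)ᶜ = 0) (hq : μ (Ioi q) ≤ ENNReal.ofReal p) :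
    ∃ q' ∈ Icc a q, μ (Ioi q') = ENNReal.ofReal p := by
  set F : ℝ → ℝ := fun t => μ.real (Ioi t) with hF
  have hLip : ∀ s t : ℝ, s ≤ t → F s ≤ F t + K' * (t - s) := by
    intro s t hst
    have h1 : Ioi s ⊆ Ioi t ∪ Ioc s t := by
      intro r hr
      by_cases h : t < r
      · exact Or.inl h
      · exact Or.inr ⟨hr, not_lt.1 h⟩
    have h2 : μ.real (Ioc s t) ≤ K' * (t - s) := by
      have h3 : μ (Ioc s t) ≤ ENNReal.ofReal (K' * (t - s)) := by
        calc μ (Ioc s t) ≤ (K' • (volume : Measure ℝ)) (Ioc s t) := hd _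
          _ = K' * ENNReal.ofReal (t - s) := by
              rw [Measure.smul_apply, Real.volume_Ioc]; rfl
          _ = ENNReal.ofReal (K' * (t - s)) := by
              rw [ENNReal.ofReal_mul (NNReal.coe_nonneg K'), ENNReal.ofReal_coe_nnreal]
      exact ENNReal.toReal_le_of_le_ofReal (mul_nonneg K'.2 (by linarith)) h3
    calc F s ≤ μ.real (Ioi t ∪ Ioc s t) := measureReal_mono h1
      _ ≤ F t + μ.real (Ioc s t) := measureReal_union_le _ _
      _ ≤ F t + K' * (t - s) := by linarith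
  have hanti : ∀ s t : ℝ, s ≤ t → F t ≤ F s := fun s t hst =>
    measureReal_mono (Ioi_subset_Ioi hst)
  have hcont : Continuous F := by
    have : LipschitzWith K' F := by
      refine LipschitzWith.of_dist_le_mul fun s t => ?_
      rw [Real.dist_eq, Real.dist_eq]
      rcases le_total s t with h | h
      · rw [abs_of_nonneg (by linarith [hanti s t h]), abs_of_nonpos (by linarith)]
        linarith [hLip s t h]
      · rw [abs_of_nonpos (by linarith [hanti t s h]), abs_of_nonneg (by linarith)]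
        linarith [hLip t s h]
    exact this.continuous
  have hFq : F q ≤ p := ENNReal.toReal_le_of_le_ofReal hp.le hq
  have hFa' : ∀ t < a, F t = 1 := by
    intro t ht
    have h1 : μ (Ioi t)ᶜ = 0 := by
      refine measure_mono_null ?_ ha
      intro r hr hr2
      exact hr (lt_of_lt_of_le ht hr2)
    have h2 : μ (Ioi t) = 1 := (prob_compl_eq_zero_iff measurableSet_Ioi).1 h1
    rw [hF]
    simp [Measure.real, h2]
  have hFa : F a = 1 := by
    have h1 : Tendsto F (𝓝[<] a) (𝓝 (F a)) := (hcont.tendsto a).mono_left nhdsWithin_le_nhds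
    have h2 : Tendsto F (𝓝[<] a) (𝓝 1) := by
      refine tendsto_const_nhds.congr' ?_
      filter_upwards [self_mem_nhdsWithin] with t ht
      exact (hFa' t ht).symm
    exact tendsto_nhds_unique h1 h2
  have haq : a ≤ q := by
    by_contra h
    push Not at h
    have := hFa' q h
    linarith
  obtain ⟨q', hq', hFq'⟩ := intermediate_value_Icc' haq hcont.continuousOn
    (show p ∈ Icc (F q) (F a) from ⟨hFq, by rw [hFa]; exact hp1.le⟩)
  refine ⟨q', hq', ?_⟩
  rw [← hFq', hF]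
  simp only
  rw [ofReal_measureReal]

/-- Localisation of the random conductance operator above the percolation energy. -/
theorem main (d : ℕ) (hd : 0 < d) {p : ℝ} (hp0 : 0 < p) (hp : p < pc d) (K : ℝ≥0) :
    ∃ C : ℝ, 0 < C ∧ ∀ (μ : Measure ℝ) [IsProbabilityMeasure μ] (a b q : ℝ), 0 < a →
      μ (Icc a b) = 1 → μ.map Real.log ≤ K • (volume : Measure ℝ) →
      μ (Ioi q) ≤ ENNReal.ofReal p →
      ∀ᵐ w ∂(Measure.infinitePi fun _ : Edge d => μ), LocalisedAbove w (C * q) := by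
  have hp1 : p < 1 := hp.trans_le (pc_le_one hd)
  obtain ⟨A, c, hA, hc, hth⟩ := decay_of_lt_pc hd hp0.le hp
  obtain ⟨C, B, m, hC, hB, hm, hfm⟩ := fm_inf d hp0 hp1 K hA.le hc
  refine ⟨C, hC, ?_⟩
  intro μ _ a b q ha hab hlog hq
  have hs : μ (Icc a b)ᶜ = 0 := (prob_compl_eq_zero_iff measurableSet_Icc).2 hab
  have hsa : μ (Ici a)ᶜ = 0 := measure_mono_null (compl_subset_compl.2 Icc_subset_Ici_self) hs
  have hs0 : μ (Ioc 0 b)ᶜ = 0 :=
    measure_mono_null (compl_subset_compl.2 fun t ht => ⟨ha.trans_le ht.1, ht.2⟩) hs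
  have hne : (Icc a b).Nonempty := by
    by_contra h
    rw [not_nonempty_iff_eq_empty] at h
    rw [h] at hab
    simp at hab
  have hab' : a ≤ b := nonempty_Icc.1 hne
  have hb0 : 0 ≤ b := ha.le.trans hab'
  have hdens := dens_of_log ha hsa hlog
  obtain ⟨q', hq', hlev⟩ := exists_level hdens hp1 hp0 hsa hq
  have hq0 : 0 < q' := ha.trans_le hq'.1
  have hdec : PDec d μ q' A c := pdec_of_th hp0.le hp1.le hlev hth
  set c0 : ℝ := C * q' with hc0
  have hc0' : 0 < c0 := mul_pos hC hq0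
  have hloc := loc_of_fm (b := b) hd hb0 hs0 hdens (U := Ici (C * q)) measurableSet_Ici
    (B := B * c0 ^ (-(1 / 4 : ℝ))) hm (by
      intro z hz hzU x y
      have hzre : c0 ≤ z.re := by
        refine le_trans ?_ hzU
        exact mul_le_mul_of_nonneg_left hq'.2 hC.le
      have hzn : c0 ≤ ‖z‖ := hzre.trans (Complex.re_le_norm z)
      refine (hfm μ b q' hb0 ⟨hs0, hlog⟩ hq0 hlev hdec z hz hzn x y).trans ?_
      have h1 : ‖z‖ₑ ^ (-(1 / 4 : ℝ)) ≤ ENNReal.ofReal (c0 ^ (-(1 / 4 : ℝ))) := by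
        rw [← ENNReal.ofReal_rpow_of_pos hc0', ← ofReal_norm]
        rw [ENNReal.rpow_neg, ENNReal.rpow_neg, ENNReal.inv_le_inv]
        gcongr
      calc ENNReal.ofReal (B * Real.exp (-(m * sn (x - y)))) * ‖z‖ₑ ^ (-(1 / 4 : ℝ))
          ≤ ENNReal.ofReal (B * Real.exp (-(m * sn (x - y)))) *
              ENNReal.ofReal (c0 ^ (-(1 / 4 : ℝ))) := by gcongr
        _ = ENNReal.ofReal (B * c0 ^ (-(1 / 4 : ℝ)) * Real.exp (-(m * sn (x - y)))) := by
            rw [← ENNReal.ofReal_mul (by positivity)]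
            congr 1
            ring)
  have hw : ∀ᵐ w ∂(Measure.infinitePi fun _ : Edge d => μ), ∀ e, w e ∈ Icc 0 b := by
    rw [ae_all_iff]
    intro e
    have h0 : ∀ᵐ t ∂μ, t ∈ Ioc 0 b := by
      rw [ae_iff]
      exact hs0
    have h1 : ∀ᵐ t ∂μ, t ∈ Icc 0 b := by
      filter_upwards [h0] with t ht using ⟨ht.1.le, ht.2⟩
    exact (measurePreserving_eval_infinitePi (fun _ : Edge d => μ) e).quasiMeasurePreserving.ae h1
  filter_upwards [hloc, hw] with w h1 h2
  exact localisedAbove_of_loc h2 h1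

end RC
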