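import Pool.Agent.RC.PDefs

set_option autoImplicit false

/-!
PA: exponential decay if `ph d p S < 1` for some finite `S`.
-/

open scoped ENNReal NNReal
open MeasureTheory Set

noncomputable section

namespace RC

open Pool.Agent.Helper3.Anderson Pool.Agent.Helper3.Crit

variable {d : ℕ}

private theorem measurableSet_lt_edge (p : ℝ) (e : Edge d) :
    MeasurableSet {u : Edge d → ℝ | u e < p} :=
  measurableSet_lt (measurable_pi_apply e) measurable_const

private theorem far_mono {σ σ' : Set (Edge d)} (h : σ ⊆ σ') {x : Site d} {n : ℕ}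
    (hf : far σ x n) : far σ' x n := by
  obtain ⟨y, hy, hc⟩ := hf
  exact ⟨y, hy, Conn.mono h hc⟩

private theorem measurableSet_far_gen {σ : (Edge d → ℝ) → Set (Edge d)}
    (h : ∀ e, MeasurableSet {ω | e ∈ σ ω}) (x : Site d) (n : ℕ) :
    MeasurableSet {u : Edge d → ℝ | far (σ u) x n} := by
  have : {u : Edge d → ℝ | far (σ u) x n} =
      ⋃ y : Site d, {u | n ≤ sn (y - x) ∧ Conn (σ u) x y} := by
    ext u
    simp [far]
  rw [this]
  refine MeasurableSet.iUnion fun y => ?_
  by_cases hy : n ≤ sn (y - x)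
  · simp only [hy, true_and]
    exact measurableSet_Conn h x y
  · simp [hy]

theorem measurableSet_far (p : ℝ) (x : Site d) (n : ℕ) :
    MeasurableSet {u : Edge d → ℝ | far {e | u e < p} x n} :=
  measurableSet_far_gen (σ := fun u => {e | u e < p}) (fun e => measurableSet_lt_edge p e) x n

/-- translation of edges -/
private def tr (x : Site d) : Edge d ≃ Edge d :=
  (Equiv.addRight x).prodCongr (Equiv.refl (Fin d))

private theorem map_tr (x : Site d) :
    (PE d unif).map (fun u e => u (e.1 + x, e.2)) = PE d unif := by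
  have h := Measure.infinitePi_map_piCongrLeft (fun _ : Edge d => unif) (tr (-x))
  have h2 : ⇑(MeasurableEquiv.piCongrLeft (fun _ : Edge d => ℝ) (tr (-x)))
      = fun (ω : Edge d → ℝ) e => ω (e.1 + x, e.2) := by
    funext ω e
    rw [MeasurableEquiv.coe_piCongrLeft]
    have : e = (tr (-x)) (e.1 + x, e.2) := by
      ext1 <;> simp [tr]
    conv_lhs => rw [this]
    rw [Equiv.piCongrLeft_apply_apply]
  rw [h2] at h
  exact h

private theorem conn_tr (x : Site d) (σ : Set (Edge d)) {y z : Site d}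
    (h : Conn {e | (e.1 + x, e.2) ∈ σ} y z) : Conn σ (y + x) (z + x) := by
  induction h with
  | refl => exact Relation.ReflTransGen.refl
  | tail _ hs ih =>
    refine Relation.ReflTransGen.tail ih ?_
    obtain ⟨e, he, h1⟩ := hs
    refine ⟨(e.1 + x, e.2), he, ?_⟩
    rcases h1 with ⟨h1, h2⟩ | ⟨h1, h2⟩
    · left
      refine ⟨?_, ?_⟩
      · rw [← h1]; simp [src]
      · rw [← h2]; simp only [tgt]; abel
    · right
      refine ⟨?_, ?_⟩
      · rw [← h1]; simp [src]
      · rw [← h2]; simp only [tgt]; abel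

private theorem far_tr (x : Site d) (σ : Set (Edge d)) (n : ℕ) :
    far {e | (e.1 + x, e.2) ∈ σ} 0 n ↔ far σ x n := by
  constructor
  · rintro ⟨y, hy, hc⟩
    refine ⟨y + x, ?_, ?_⟩
    · simpa using hy
    · have := conn_tr x σ hc
      simpa using this
  · rintro ⟨y, hy, hc⟩
    refine ⟨y - x, ?_, ?_⟩
    · simpa using hy
    · have h1 : {e : Edge d | (e.1 + -x, e.2) ∈ {e : Edge d | (e.1 + x, e.2) ∈ σ}} = σ := by
        ext e; simp
      have := conn_tr (-x) {e : Edge d | (e.1 + x, e.2) ∈ σ} (y := x) (z := y) (by rw [h1]; exact hc)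
      simpa [sub_eq_add_neg] using this

/-- translation invariance -/
theorem prob_far (p : ℝ) (x : Site d) (n : ℕ) :
    (PE d unif).real {u | far {e | u e < p} x n} = th d p n := by
  unfold th
  have hmeas : Measurable (fun (u : Edge d → ℝ) (e : Edge d) => u (e.1 + x, e.2)) := by
    fun_prop
  rw [measureReal_def, measureReal_def]
  congr 1
  conv_rhs => rw [← map_tr x, Measure.map_apply hmeas (measurableSet_far p 0 n)]
  congr 1
  ext u
  simp only [mem_setOf_eq, mem_preimage]
  exact (far_tr x {e | u e < p} n).symm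

theorem th_mono {p p' : ℝ} (h : p ≤ p') (n : ℕ) : th d p n ≤ th d p' n := by
  unfold th
  refine measureReal_mono ?_
  intro u hu
  exact far_mono (fun e he => lt_of_lt_of_le he h) hu

theorem th_anti (p : ℝ) {n n' : ℕ} (h : n ≤ n') : th d p n' ≤ th d p n := by
  unfold th
  refine measureReal_mono ?_
  rintro u ⟨y, hy, hc⟩
  exact ⟨y, h.trans hy, hc⟩

theorem ph_mono {p p' : ℝ} (h0 : 0 ≤ p) (h : p ≤ p') (S : Finset (Site d)) :
    ph d p S ≤ ph d p' S := by
  unfold ph
  refine Finset.sum_le_sum fun e _ => ?_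
  refine mul_le_mul h ?_ measureReal_nonneg (h0.trans h)
  refine measureReal_mono ?_
  intro u hu
  refine Conn.mono ?_ hu
  intro f hf
  exact ⟨hf.1, lt_of_lt_of_le hf.2 h⟩

private theorem last_exit {σ : Set (Edge d)} {C : Set (Site d)} {x y : Site d} (h : Conn σ x y)
    (hx : x ∈ C) (hy : y ∉ C) :
    ∃ e ∈ σ, ∃ z w, z ∈ C ∧ w ∉ C ∧ ((src e = z ∧ tgt e = w) ∨ (src e = w ∧ tgt e = z)) ∧
      Conn {f | f ∈ σ ∧ src f ∉ C ∧ tgt f ∉ C} w y := by
  have key : ∀ x, Conn σ x y → (x ∉ C ∧ Conn {f | f ∈ σ ∧ src f ∉ C ∧ tgt f ∉ C} x y) ∨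
      ∃ e ∈ σ, ∃ z w, z ∈ C ∧ w ∉ C ∧ ((src e = z ∧ tgt e = w) ∨ (src e = w ∧ tgt e = z)) ∧
      Conn {f | f ∈ σ ∧ src f ∉ C ∧ tgt f ∉ C} w y := by
    intro x h
    induction h using Relation.ReflTransGen.head_induction_on with
    | refl => exact Or.inl ⟨hy, Relation.ReflTransGen.refl⟩
    | @head a c hs _ ih =>
      rcases ih with ⟨hc, hcy⟩ | hex
      · obtain ⟨e, he, h1⟩ := hs
        by_cases ha : a ∈ C
        · exact Or.inr ⟨e, he, a, c, ha, hc, h1, hcy⟩
        · refine Or.inl ⟨ha, Relation.ReflTransGen.head ⟨e, ⟨he, ?_⟩, h1⟩ hcy⟩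
          rcases h1 with ⟨h1, h2⟩ | ⟨h1, h2⟩
          · rw [h1, h2]; exact ⟨ha, hc⟩
          · rw [h1, h2]; exact ⟨hc, ha⟩
      · exact Or.inr hex
  rcases key x h with ⟨h1, _⟩ | h1
  · exact absurd hx h1
  · exact h1

open Classical in
/-- the cluster of `0` inside `S` -/
private def Cf (p : ℝ) (S : Finset (Site d)) (u : Edge d → ℝ) : Finset (Site d) :=
  S.filter fun y => Conn {f | f ∈ In S ∧ u f < p} 0 y

private theorem mem_Cf {p : ℝ} {S : Finset (Site d)} (h0 : (0 : Site d) ∈ S) {u : Edge d → ℝ}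
    {y : Site d} : y ∈ Cf p S u ↔ Conn {f | f ∈ In S ∧ u f < p} 0 y := by
  classical
  unfold Cf
  rw [Finset.mem_filter]
  refine ⟨fun h => h.2, fun h => ⟨?_, h⟩⟩
  induction h with
  | refl => exact h0
  | tail _ hs _ =>
    obtain ⟨e, he, h1⟩ := hs
    have := mem_In.mp he.1
    rcases h1 with ⟨_, h2⟩ | ⟨h2, _⟩
    · rw [← h2]; exact this.2
    · rw [← h2]; exact this.1

private theorem Cf_dep {p : ℝ} {S C : Finset (Site d)} (h0 : (0 : Site d) ∈ S)
    {u u' : Edge d → ℝ} (h : ∀ e ∈ In S, e ∈ touch C → u e = u' e) (hC : Cf p S u = C) :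
    Cf p S u' = C := by
  have h0C : (0 : Site d) ∈ C := by
    rw [← hC, mem_Cf h0]; exact Relation.ReflTransGen.refl
  ext y
  rw [mem_Cf h0]
  constructor
  · intro hy
    induction hy with
    | refl => exact h0C
    | tail _ hs ih =>
      rename_i b c _
      obtain ⟨e, he, h1⟩ := hs
      have het : e ∈ touch C := by
        rw [mem_touch]
        rcases h1 with ⟨h1, _⟩ | ⟨_, h1⟩
        · left; rw [h1]; exact ih
        · right; rw [h1]; exact ih
      have hb : Conn {f | f ∈ In S ∧ u f < p} 0 b := by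
        rw [← mem_Cf h0, hC]; exact ih
      rw [← hC, mem_Cf h0]
      exact Relation.ReflTransGen.tail hb ⟨e, ⟨he.1, by rw [h e he.1 het]; exact he.2⟩, h1⟩
  · intro hy
    rw [← hC, mem_Cf h0] at hy
    induction hy with
    | refl => exact Relation.ReflTransGen.refl
    | tail hp hs ih =>
      rename_i b c
      obtain ⟨e, he, h1⟩ := hs
      have hbC : b ∈ C := by rw [← hC, mem_Cf h0]; exact hp
      have het : e ∈ touch C := by
        rw [mem_touch]
        rcases h1 with ⟨h1, _⟩ | ⟨_, h1⟩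
        · left; rw [h1]; exact hbC
        · right; rw [h1]; exact hbC
      exact Relation.ReflTransGen.tail ih ⟨e, ⟨he.1, by rw [← h e he.1 het]; exact he.2⟩, h1⟩

private theorem measurableSet_connIn (p : ℝ) (S : Finset (Site d)) (y : Site d) :
    MeasurableSet {u : Edge d → ℝ | Conn {f | f ∈ In S ∧ u f < p} 0 y} := by
  refine measurableSet_Conn (σ := fun u : Edge d → ℝ => {f | f ∈ In S ∧ u f < p}) ?_ 0 y
  intro e
  by_cases he : e ∈ In S
  · simp only [mem_setOf_eq, he, true_and]
    exact measurableSet_lt_edge p e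
  · simp [he]

private theorem measurableSet_Cf (p : ℝ) (S C : Finset (Site d)) :
    MeasurableSet {u : Edge d → ℝ | Cf p S u = C} := by
  have : {u : Edge d → ℝ | Cf p S u = C} =
      ⋂ y : Site d, {u | (y ∈ S ∧ Conn {f | f ∈ In S ∧ u f < p} 0 y) ↔ y ∈ C} := by
    ext u
    simp only [Cf, Finset.ext_iff, Finset.mem_filter, mem_setOf_eq, mem_iInter]
  rw [this]
  refine MeasurableSet.iInter fun y => ?_
  have hm := measurableSet_connIn (d := d) p S y
  by_cases hS : y ∈ S <;> by_cases hC : y ∈ C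
  · simp only [hS, hC, true_and, iff_true]; exact hm
  · simp only [hS, hC, true_and, iff_false]; exact hm.compl
  · simp [hS, hC]
  · simp [hS, hC]

private theorem unif_Iio {p : ℝ} (hp : 0 ≤ p) (hp1 : p ≤ 1) :
    unif (Iio p) = ENNReal.ofReal p := by
  unfold unif
  rw [Measure.restrict_apply measurableSet_Iio]
  have : Iio p ∩ Icc (0 : ℝ) 1 = Ico 0 p := by
    ext t
    simp only [mem_inter_iff, mem_Iio, mem_Icc, mem_Ico]
    constructor
    · rintro ⟨h1, h2, _⟩; exact ⟨h2, h1⟩
    · rintro ⟨h1, h2⟩; exact ⟨h2, h1, by linarith⟩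
  rw [this, Real.volume_Ico, sub_zero]

private theorem prob_edge {p : ℝ} (hp : 0 ≤ p) (hp1 : p ≤ 1) (e : Edge d) :
    PE d unif {u | u e < p} = ENNReal.ofReal p := by
  have h := prob_all (κ := unif) ({e} : Finset (Edge d)) (J := Iio p) measurableSet_Iio
  simp only [Finset.mem_singleton, forall_eq, mem_Iio, Finset.card_singleton, pow_one] at h
  rw [unif_Iio hp hp1] at h
  exact h

private theorem sn_edge_le (e : Edge d) {z w : Site d}
    (h : (src e = z ∧ tgt e = w) ∨ (src e = w ∧ tgt e = z)) : sn w ≤ sn z + 1 := by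
  rcases h with ⟨h1, h2⟩ | ⟨h1, h2⟩
  · rw [← h1, ← h2]
    have := sn_add_le (src e) (Pi.single e.2 1)
    rw [sn_single] at this
    exact this
  · rw [← h1, ← h2]
    have h3 : src e = tgt e - Pi.single e.2 1 := by simp [src, tgt]
    rw [h3]
    have := sn_sub_le (tgt e) (Pi.single e.2 1)
    rw [sn_single] at this
    exact this

private theorem cover {p : ℝ} {S : Finset (Site d)} (h0 : (0 : Site d) ∈ S) {L : ℕ}
    (hL : ∀ y ∈ S, sn y < L) (n : ℕ) {u : Edge d → ℝ} (hu : far {e | u e < p} 0 (n + L)) :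
    ∃ e ∈ Bd S, inn S e ∈ Cf p S u ∧ u e < p ∧
      far {f | f ∉ touch (Cf p S u) ∧ u f < p} (outp S e) n := by
  classical
  obtain ⟨y, hy, hc⟩ := hu
  rw [sub_zero] at hy
  have hyS : y ∉ S := fun h => by have := hL y h; omega
  have hyC : y ∉ (Cf p S u : Set (Site d)) := by
    intro h
    have h' : y ∈ Cf p S u := h
    exact hyS (Finset.mem_filter.mp h').1
  have h0C : (0 : Site d) ∈ (Cf p S u : Set (Site d)) := by
    show (0 : Site d) ∈ Cf p S u
    rw [mem_Cf h0]; exact Relation.ReflTransGen.refl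
  obtain ⟨e, he, z, w, hz, hw, hzw, hcw⟩ := last_exit hc h0C hyC
  have hzC : z ∈ Cf p S u := hz
  have hzS : z ∈ S := (Finset.mem_filter.mp hzC).1
  have hwC : w ∉ Cf p S u := hw
  have hwS : w ∉ S := by
    intro hwS
    apply hwC
    rw [mem_Cf h0]
    refine Relation.ReflTransGen.tail ((mem_Cf h0).mp hzC) ⟨e, ⟨?_, he⟩, hzw⟩
    rw [mem_In]
    rcases hzw with ⟨h1, h2⟩ | ⟨h1, h2⟩
    · rw [h1, h2]; exact ⟨hzS, hwS⟩
    · rw [h1, h2]; exact ⟨hwS, hzS⟩
  have hinn : inn S e = z := by
    unfold inn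
    rcases hzw with ⟨h1, h2⟩ | ⟨h1, h2⟩
    · rw [if_pos (by rw [h1]; exact hzS), h1]
    · rw [if_neg (by rw [h1]; exact hwS), h2]
  have hout : outp S e = w := by
    unfold outp
    rcases hzw with ⟨h1, h2⟩ | ⟨h1, h2⟩
    · rw [if_pos (by rw [h1]; exact hzS), h2]
    · rw [if_neg (by rw [h1]; exact hwS), h1]
  refine ⟨e, ?_, by rw [hinn]; exact hzC, he, ?_⟩
  · rw [mem_Bd]
    rcases hzw with ⟨h1, h2⟩ | ⟨h1, h2⟩
    · left; rw [h1, h2]; exact ⟨hzS, hwS⟩
    · right; rw [h1, h2]; exact ⟨hwS, hzS⟩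
  · rw [hout]
    refine ⟨y, ?_, ?_⟩
    · have h1 := sn_edge_le e hzw
      have h2 := hL z hzS
      have h3 : sn y ≤ sn (y - w) + sn w := by
        have := sn_add_le (y - w) w
        simpa using this
      omega
    · refine Conn.mono ?_ hcw
      rintro f ⟨hf1, hf2, hf3⟩
      refine ⟨?_, hf1⟩
      rw [mem_touch]
      rintro (h | h)
      · exact hf2 h
      · exact hf3 h

private theorem term_le {p : ℝ} (hp : 0 ≤ p) (hp1 : p ≤ 1) {S : Finset (Site d)}
    (h0 : (0 : Site d) ∈ S) (n : ℕ) {e : Edge d} (he : e ∈ Bd S) (C : Finset (Site d))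
    (hC : inn S e ∈ C) :
    (PE d unif).real ({u | Cf p S u = C} ∩ {u | u e < p} ∩
      {u | far {f | f ∉ touch C ∧ u f < p} (outp S e) n}) ≤
      (PE d unif).real {u | Cf p S u = C} * p * th d p n := by
  have mA := measurableSet_Cf (d := d) p S C
  have mB := measurableSet_lt_edge (d := d) p e
  have mD : MeasurableSet {u : Edge d → ℝ | far {f | f ∉ touch C ∧ u f < p} (outp S e) n} := by
    refine measurableSet_far_gen (σ := fun u => {f | f ∉ touch C ∧ u f < p}) ?_ _ n
    intro f
    by_cases hf : f ∈ touch C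
    · simp [hf]
    · simp only [mem_setOf_eq, hf, not_false_eq_true, true_and]
      exact measurableSet_lt_edge p f
  have heC : e ∈ touch C := by
    rw [mem_touch]
    unfold inn at hC
    split_ifs at hC with h
    · exact Or.inl hC
    · exact Or.inr hC
  have heS : e ∉ In S := by
    rw [mem_In]
    rcases mem_Bd.mp he with ⟨_, h⟩ | ⟨h, _⟩
    · exact fun h' => h h'.2
    · exact fun h' => h h'.1
  have i1 := indep_set (κ := unif) (touch C) (mA.inter mB) mD
    (by
      rintro ω ω' h ⟨h1, h2⟩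
      refine ⟨Cf_dep h0 (fun e' _ he' => h e' he') h1, ?_⟩
      show ω' e < p
      rw [← h e heC]; exact h2)
    (by
      intro ω ω' h h1
      refine far_mono ?_ h1
      rintro f ⟨hf1, hf2⟩
      exact ⟨hf1, by rw [← h f hf1]; exact hf2⟩)
  have i2 := indep_set (κ := unif) (In S) mA mB
    (by
      intro ω ω' h h1
      exact Cf_dep h0 (fun e' he' _ => h e' he') h1)
    (by
      intro ω ω' h h1
      show ω' e < p
      rw [← h e heS]; exact h1)
  have hD : (PE d unif).real {u : Edge d → ℝ | far {f | f ∉ touch C ∧ u f < p} (outp S e) n} ≤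
      th d p n := by
    rw [← prob_far p (outp S e) n]
    refine measureReal_mono ?_
    intro u hu
    exact far_mono (fun f hf => hf.2) hu
  have e1 : (PE d unif).real ({u | Cf p S u = C} ∩ {u | u e < p} ∩
      {u | far {f | f ∉ touch C ∧ u f < p} (outp S e) n}) =
      (PE d unif).real {u | Cf p S u = C} * p *
      (PE d unif).real {u : Edge d → ℝ | far {f | f ∉ touch C ∧ u f < p} (outp S e) n} := by
    rw [measureReal_def, i1, i2, prob_edge hp hp1, ENNReal.toReal_mul, ENNReal.toReal_mul,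
      ENNReal.toReal_ofReal hp]
    rfl
  rw [e1]
  exact mul_le_mul_of_nonneg_left hD (mul_nonneg measureReal_nonneg hp)

/-- one step: leave `S` for the last time -/
theorem th_step {p : ℝ} (hp : 0 ≤ p) (hp1 : p ≤ 1) {S : Finset (Site d)}
    (h0 : (0 : Site d) ∈ S) {L : ℕ} (hL : ∀ y ∈ S, sn y < L) (n : ℕ) :
    th d p (n + L) ≤ ph d p S * th d p n := by
  classical
  have hsub : {u : Edge d → ℝ | far {e | u e < p} 0 (n + L)} ⊆
      ⋃ e ∈ Bd S, ⋃ C ∈ S.powerset.filter (fun C => inn S e ∈ C),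
        ({u | Cf p S u = C} ∩ {u | u e < p} ∩
          {u | far {f | f ∉ touch C ∧ u f < p} (outp S e) n}) := by
    intro u hu
    obtain ⟨e, he, h1, h2, h3⟩ := cover h0 hL n hu
    simp only [mem_iUnion]
    refine ⟨e, he, Cf p S u, ?_, ⟨rfl, h2⟩, h3⟩
    rw [Finset.mem_filter, Finset.mem_powerset]
    exact ⟨Finset.filter_subset _ _, h1⟩
  have hth : 0 ≤ th d p n := measureReal_nonneg
  calc th d p (n + L) ≤ (PE d unif).real (⋃ e ∈ Bd S, ⋃ C ∈ S.powerset.filter (fun C => inn S e ∈ C),
        ({u | Cf p S u = C} ∩ {u | u e < p} ∩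
          {u | far {f | f ∉ touch C ∧ u f < p} (outp S e) n})) :=
        measureReal_mono hsub (measure_ne_top _ _)
    _ ≤ ∑ e ∈ Bd S, (PE d unif).real (⋃ C ∈ S.powerset.filter (fun C => inn S e ∈ C),
        ({u | Cf p S u = C} ∩ {u | u e < p} ∩
          {u | far {f | f ∉ touch C ∧ u f < p} (outp S e) n})) :=
        measureReal_biUnion_finset_le _ _
    _ ≤ ∑ e ∈ Bd S, ∑ C ∈ S.powerset.filter (fun C => inn S e ∈ C), (PE d unif).real
        ({u | Cf p S u = C} ∩ {u | u e < p} ∩
          {u | far {f | f ∉ touch C ∧ u f < p} (outp S e) n}) :=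
        Finset.sum_le_sum fun e _ => measureReal_biUnion_finset_le _ _
    _ ≤ ∑ e ∈ Bd S, ∑ C ∈ S.powerset.filter (fun C => inn S e ∈ C),
        (PE d unif).real {u | Cf p S u = C} * p * th d p n :=
        Finset.sum_le_sum fun e he => Finset.sum_le_sum fun C hC =>
          term_le hp hp1 h0 n he C (Finset.mem_filter.mp hC).2
    _ ≤ ∑ e ∈ Bd S, (p * (PE d unif).real {u | Conn {f | f ∈ In S ∧ u f < p} 0 (inn S e)}) *
          th d p n := by
        refine Finset.sum_le_sum fun e he => ?_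
        rw [← Finset.sum_mul, ← Finset.sum_mul]
        have h1 : ∑ C ∈ S.powerset.filter (fun C => inn S e ∈ C),
            (PE d unif).real {u | Cf p S u = C} ≤
            (PE d unif).real {u | Conn {f | f ∈ In S ∧ u f < p} 0 (inn S e)} := by
          rw [← measureReal_biUnion_finset]
          · refine measureReal_mono ?_
            intro u hu
            simp only [mem_iUnion] at hu
            obtain ⟨C, hC, hu⟩ := hu
            have hu' : Cf p S u = C := hu
            show Conn {f | f ∈ In S ∧ u f < p} 0 (inn S e)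
            rw [← mem_Cf h0, hu']
            exact (Finset.mem_filter.mp hC).2
          · intro C _ C' _ hCC
            rw [Function.onFun, Set.disjoint_left]
            intro u h1 h2
            exact hCC (h1.symm.trans h2)
          · intro C _
            exact measurableSet_Cf p S C
        have h2 : (∑ C ∈ S.powerset.filter (fun C => inn S e ∈ C),
            (PE d unif).real {u | Cf p S u = C}) * p ≤
            p * (PE d unif).real {u | Conn {f | f ∈ In S ∧ u f < p} 0 (inn S e)} := by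
          rw [mul_comm]
          exact mul_le_mul_of_nonneg_left h1 hp
        exact mul_le_mul_of_nonneg_right h2 hth
    _ = ph d p S * th d p n := by rw [ph, Finset.sum_mul]

theorem decay_of_ph {p : ℝ} (hp : 0 ≤ p) (hp1 : p ≤ 1) {S : Finset (Site d)}
    (h0 : (0 : Site d) ∈ S) (h : ph d p S < 1) :
    ∃ A c : ℝ, 0 < A ∧ 0 < c ∧ ∀ n : ℕ, th d p n ≤ A * Real.exp (-(c * n)) := by
  set L : ℕ := S.sup sn + 1 with hLdef
  have hL : ∀ y ∈ S, sn y < L := fun y hy => by
    have : sn y ≤ S.sup sn := Finset.le_sup (f := sn) hy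
    omega
  have hph0 : 0 ≤ ph d p S := by
    unfold ph
    exact Finset.sum_nonneg fun e _ => mul_nonneg hp measureReal_nonneg
  set r : ℝ := max (ph d p S) (1 / 2) with hr
  have hr0 : 0 < r := lt_of_lt_of_le (by norm_num) (le_max_right _ _)
  have hr1 : r < 1 := max_lt h (by norm_num)
  have hth1 : th d p 0 ≤ 1 := by
    unfold th
    exact measureReal_le_one
  have hk : ∀ k : ℕ, th d p (k * L) ≤ r ^ k := by
    intro k
    induction k with
    | zero => simpa using hth1
    | succ k ih =>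
      have h1 := th_step hp hp1 h0 hL (k * L)
      have h2 : (k + 1) * L = k * L + L := by ring
      rw [h2, pow_succ, mul_comm (r ^ k) r]
      refine h1.trans (mul_le_mul (le_max_left _ _) ih measureReal_nonneg hr0.le)
  have hLpos : (0 : ℝ) < L := by rw [hLdef]; positivity
  have hlog : Real.log r < 0 := Real.log_neg hr0 hr1
  refine ⟨r⁻¹, -Real.log r / L, inv_pos.mpr hr0, div_pos (by linarith) hLpos, fun n => ?_⟩
  set k := n / L with hkdef
  have h1 : k * L ≤ n := Nat.div_mul_le_self n L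
  have h2 : n < (k + 1) * L := by
    have := Nat.lt_div_mul_add (a := n) (b := L) (by omega)
    rw [← hkdef] at this
    nlinarith
  have h3 : (n : ℝ) / L ≤ k + 1 := by
    rw [div_le_iff₀ hLpos]
    have : (n : ℝ) < (k + 1) * L := by exact_mod_cast h2
    linarith
  calc th d p n ≤ th d p (k * L) := th_anti p h1
    _ ≤ r ^ k := hk k
    _ = Real.exp (Real.log r * k) := by
        rw [mul_comm, Real.exp_nat_mul, Real.exp_log hr0]
    _ ≤ Real.exp (-Real.log r + -(-Real.log r / L * n)) := by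
        apply Real.exp_le_exp.mpr
        have h4 : Real.log r * (k + 1) ≤ Real.log r * (n / L) :=
          mul_le_mul_of_nonpos_left h3 hlog.le
        have h5 : -(-Real.log r / L * n) = Real.log r * (n / L) := by ring
        rw [h5]
        linarith
    _ = r⁻¹ * Real.exp (-(-Real.log r / L * n)) := by
        rw [Real.exp_add, Real.exp_neg, Real.exp_log hr0]

end RC
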