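import Pool.Agent.RC.PDefs

set_option autoImplicit false

/-!
PB: sprinkling.
-/

open scoped ENNReal NNReal
open MeasureTheory Set

noncomputable section

namespace RC

open Pool.Agent.Helper3.Anderson Pool.Agent.Helper3.Crit

variable {d : ℕ}

/-! ### Combinatorics of the set which is not connected to infinity -/

theorem pb_avoid {S : Finset (Site d)} {σ : Set (Edge d)} {v y : Site d} (hc : Conn σ v y)
    (h : ∀ w, Conn σ w y → w ∉ S) : Conn {e | e ∉ touch S ∧ e ∈ σ} v y := by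
  induction hc using Relation.ReflTransGen.head_induction_on with
  | refl => exact Relation.ReflTransGen.refl
  | head hab hbc ih =>
    rename_i a c
    have hc' : Conn σ a y := Relation.ReflTransGen.head hab hbc
    refine Relation.ReflTransGen.head ?_ ih
    obtain ⟨e, he, he'⟩ := hab
    refine ⟨e, ⟨fun ht => ?_, he⟩, he'⟩
    have ha := h a hc'
    have hb := h c hbc
    rcases he' with ⟨h1, h2⟩ | ⟨h1, h2⟩
    · rcases mem_touch.1 ht with h3 | h3
      · exact ha (h1 ▸ h3)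
      · exact hb (h2 ▸ h3)
    · rcases mem_touch.1 ht with h3 | h3
      · exact hb (h1 ▸ h3)
      · exact ha (h2 ▸ h3)

theorem pb_stay {S : Finset (Site d)} {σ : Set (Edge d)} {v y : Site d} (hc : Conn σ v y)
    (hv : v ∈ S) (h : ∀ e ∈ Bd S, e ∉ σ) : y ∈ S := by
  induction hc with
  | refl => exact hv
  | tail _ hbc ih =>
    rename_i b c
    obtain ⟨e, he, he'⟩ := hbc
    by_contra hcS
    refine h e ?_ he
    rw [mem_Bd]
    rcases he' with ⟨h1, h2⟩ | ⟨h1, h2⟩
    · exact Or.inl ⟨h1 ▸ ih, h2 ▸ hcS⟩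
    · exact Or.inr ⟨h1 ▸ hcS, h2 ▸ ih⟩

/-- `v` is connected to distance `n + 1` from `0` at level `p` -/
def pbF (p : ℝ) (n : ℕ) (u : Edge d → ℝ) (v : Site d) : Prop :=
  ∃ y, n + 1 ≤ sn y ∧ Conn {e | u e < p} v y

/-- the set of the sites which are not connected to distance `n + 1` is `S` -/
def pbD (p : ℝ) (n : ℕ) (S : Finset (Site d)) : Set (Edge d → ℝ) :=
  {u | ∀ v, v ∈ S ↔ ¬ pbF p n u v}

/-- the sites outside of `S` are connected to distance `n + 1` by edges which do not touch `S` -/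
def pbA (p : ℝ) (n : ℕ) (S : Finset (Site d)) : Set (Edge d → ℝ) :=
  {u | ∀ v, v ∉ S → ∃ y, n + 1 ≤ sn y ∧ Conn {e | e ∉ touch S ∧ e ∈ {f | u f < p}} v y}

theorem pb_adj {S : Finset (Site d)} {e : Edge d} (he : e ∈ Bd S) {σ : Set (Edge d)} (h : e ∈ σ) :
    inn S e ∈ S ∧ outp S e ∉ S ∧ Adj σ (inn S e) (outp S e) := by
  rcases mem_Bd.1 he with ⟨h1, h2⟩ | ⟨h1, h2⟩
  · rw [inn, outp, if_pos h1, if_pos h1]
    exact ⟨h1, h2, e, h, Or.inl ⟨rfl, rfl⟩⟩
  · rw [inn, outp, if_neg h1, if_neg h1]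
    exact ⟨h2, h1, e, h, Or.inr ⟨rfl, rfl⟩⟩

theorem pbD_eq (p : ℝ) (n : ℕ) (S : Finset (Site d)) (hS : ∀ v ∈ S, sn v ≤ n) :
    pbD p n S = pbA p n S ∩ {u | ∀ e ∈ Bd S, p ≤ u e} := by
  ext u
  constructor
  · intro hu
    refine ⟨fun v hv => ?_, fun e he => ?_⟩
    · have h1 : pbF p n u v := by
        by_contra h
        exact hv ((hu v).2 h)
      obtain ⟨y, hy, hc⟩ := h1
      exact ⟨y, hy, pb_avoid hc fun w hw hwS => (hu w).1 hwS ⟨y, hy, hw⟩⟩
    · by_contra hlt
      obtain ⟨h1, h2, h3⟩ := pb_adj he (σ := {e | u e < p}) (not_le.1 hlt)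
      have h4 : pbF p n u (outp S e) := by
        by_contra h
        exact h2 ((hu _).2 h)
      obtain ⟨y, hy, hc⟩ := h4
      exact (hu _).1 h1 ⟨y, hy, Relation.ReflTransGen.head h3 hc⟩
  · rintro ⟨hA, hB⟩ v
    constructor
    · rintro hv ⟨y, hy, hc⟩
      have h1 := pb_stay hc hv fun e he h => not_lt.2 (hB e he) h
      have := hS y h1
      omega
    · intro h
      by_contra hv
      obtain ⟨y, hy, hc⟩ := hA v hv
      exact h ⟨y, hy, hc.mono fun e he => he.2⟩

/-- a newly opened boundary edge connects `0` to distance `n + 1` -/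
theorem pb_open {p h : ℝ} (hh : 0 ≤ h) (n : ℕ) {S : Finset (Site d)} {u : Edge d → ℝ}
    (hu : u ∈ pbA p n S) {e : Edge d} (he : e ∈ Bd S)
    (hc : Conn {f | f ∈ In S ∧ u f < p} 0 (inn S e)) (hlt : u e < p + h) :
    far {f | u f < p + h} (0 : Site d) (n + 1) := by
  obtain ⟨h1, h2, h3⟩ := pb_adj he (σ := {f | u f < p + h}) hlt
  obtain ⟨y, hy, hc'⟩ := hu _ h2
  refine ⟨y, by rwa [sub_zero], ?_⟩
  have h4 : Conn {f | u f < p + h} (0 : Site d) (inn S e) := hc.mono fun f hf => by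
    have := hf.2
    change u f < p + h
    linarith
  have h5 : Conn {f | u f < p + h} (outp S e) y := hc'.mono fun f hf => by
    have : u f < p := hf.2
    change u f < p + h
    linarith
  exact (Relation.ReflTransGen.tail h4 h3).trans h5

/-! ### Measurability -/

theorem pb_meas_F (p : ℝ) (n : ℕ) (v : Site d) :
    MeasurableSet {u : Edge d → ℝ | pbF p n u v} := by
  have : {u : Edge d → ℝ | pbF p n u v} = ⋃ y ∈ {y : Site d | n + 1 ≤ sn y},
      {u | Conn {e | u e < p} v y} := by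
    ext u
    simp [pbF]
  rw [this]
  exact MeasurableSet.biUnion (Set.to_countable _) fun y _ =>
    measurableSet_Conn (fun e => measurableSet_lt (measurable_pi_apply e) measurable_const) v y

theorem pb_meas_D (p : ℝ) (n : ℕ) (S : Finset (Site d)) : MeasurableSet (pbD p n S) := by
  have : pbD p n S = ⋂ v : Site d, {u : Edge d → ℝ | v ∈ S ↔ ¬ pbF p n u v} := by
    ext u
    simp [pbD]
  rw [this]
  refine MeasurableSet.iInter fun v => ?_
  by_cases hv : v ∈ S
  · simp only [hv, true_iff]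
    exact (pb_meas_F p n v).compl
  · simp only [hv, false_iff, not_not]
    exact pb_meas_F p n v

theorem pb_meas_A (p : ℝ) (n : ℕ) (S : Finset (Site d)) : MeasurableSet (pbA p n S) := by
  have : pbA p n S = ⋂ v ∈ {v : Site d | v ∉ S}, ⋃ y ∈ {y : Site d | n + 1 ≤ sn y},
      {u : Edge d → ℝ | Conn {e | e ∉ touch S ∧ e ∈ {f | u f < p}} v y} := by
    ext u
    simp [pbA]
  rw [this]
  refine MeasurableSet.biInter (Set.to_countable _) fun v _ =>
    MeasurableSet.biUnion (Set.to_countable _) fun y _ => measurableSet_Conn (fun e => ?_) v y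
  by_cases he : e ∈ touch S
  · simp [he]
  · simp only [mem_ofPred_eq, he, not_false_eq_true, true_and]
    exact measurableSet_lt (measurable_pi_apply e) measurable_const

theorem pb_meas_C (p : ℝ) (S : Finset (Site d)) (y : Site d) :
    MeasurableSet {u : Edge d → ℝ | Conn {f | f ∈ In S ∧ u f < p} 0 y} := by
  refine measurableSet_Conn (fun e => ?_) 0 y
  by_cases he : e ∈ In S
  · simp only [mem_ofPred_eq, he, true_and]
    exact measurableSet_lt (measurable_pi_apply e) measurable_const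
  · simp [he]

/-! ### Probabilities -/

theorem pb_unif_Ici {p : ℝ} (hp : 0 ≤ p) (hp1 : p ≤ 1) : unif.real (Ici p) = 1 - p := by
  have h : Ici p ∩ Icc 0 1 = Icc p 1 := by
    ext x
    simp only [mem_inter_iff, mem_Ici, mem_Icc]
    constructor
    · rintro ⟨h1, _, h3⟩
      exact ⟨h1, h3⟩
    · rintro ⟨h1, h2⟩
      exact ⟨h1, hp.trans h1, h2⟩
  rw [Measure.real, unif, Measure.restrict_apply measurableSet_Ici, h, Real.volume_Icc,
    ENNReal.toReal_ofReal (by linarith)]

theorem pb_unif_Ico {p h : ℝ} (hp : 0 ≤ p) (hh : 0 ≤ h) (hp1 : p + h ≤ 1) :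
    unif.real (Ico p (p + h)) = h := by
  have h1 : Ico p (p + h) ∩ Icc 0 1 = Ico p (p + h) := by
    refine inter_eq_left.2 fun x hx => ⟨hp.trans hx.1, (hx.2.le).trans hp1⟩
  rw [Measure.real, unif, Measure.restrict_apply measurableSet_Ico, h1, Real.volume_Ico,
    ENNReal.toReal_ofReal (by linarith)]
  ring

theorem pb_pi (B : Finset (Edge d)) (J : Edge d → Set ℝ) (hJ : ∀ e, MeasurableSet (J e)) :
    (PE d unif).real {u | ∀ f ∈ B, u f ∈ J f} = ∏ f ∈ B, unif.real (J f) := by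
  have h : {u : Edge d → ℝ | ∀ f ∈ B, u f ∈ J f} = Set.pi (B : Set (Edge d)) J := by
    ext u
    simp [Set.mem_pi]
  rw [h, Measure.real, Measure.infinitePi_pi (fun _ : Edge d => unif) (fun f _ => hJ f),
    ENNReal.toReal_prod]
  rfl

theorem pb_meas_pi (B : Finset (Edge d)) (J : Edge d → Set ℝ) (hJ : ∀ e, MeasurableSet (J e)) :
    MeasurableSet {u : Edge d → ℝ | ∀ f ∈ B, u f ∈ J f} := by
  have h : {u : Edge d → ℝ | ∀ f ∈ B, u f ∈ J f} = Set.pi (B : Set (Edge d)) J := by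
    ext u
    simp [Set.mem_pi]
  rw [h]
  exact MeasurableSet.pi (Set.to_countable _) fun f _ => hJ f

theorem pb_indep (T : Finset (Edge d)) {A B : Set (Edge d → ℝ)} (hA : MeasurableSet A)
    (hB : MeasurableSet B) (hAS : ∀ ω ω' : Edge d → ℝ, (∀ i ∈ T, ω i = ω' i) → ω ∈ A → ω' ∈ A)
    (hBS : ∀ ω ω' : Edge d → ℝ, (∀ i, i ∉ T → ω i = ω' i) → ω ∈ B → ω' ∈ B) :
    (PE d unif).real (A ∩ B) = (PE d unif).real A * (PE d unif).real B := by
  rw [Measure.real, Measure.real, Measure.real, ← ENNReal.toReal_mul]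
  congr 1
  exact indep_set T hA hB hAS hBS

theorem pb_bonf {Ω ι : Type*} [MeasurableSpace Ω] [DecidableEq ι] (μ : Measure Ω)
    [IsFiniteMeasure μ] (T : Finset ι) (X : ι → Set Ω) (hX : ∀ i, MeasurableSet (X i)) (c : ℝ)
    (hc : 0 ≤ c) (h : ∀ i ∈ T, ∀ j ∈ T, i ≠ j → μ.real (X i ∩ X j) ≤ c) :
    ∑ i ∈ T, μ.real (X i) - (T.card : ℝ) ^ 2 * c ≤ μ.real (⋃ i ∈ T, X i) := by
  induction T using Finset.induction_on with
  | empty => simp
  | insert a T ha ih =>
    have ih' := ih fun i hi j hj hij =>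
      h i (Finset.mem_insert_of_mem hi) j (Finset.mem_insert_of_mem hj) hij
    rw [Finset.sum_insert ha, Finset.card_insert_of_notMem ha, Finset.set_biUnion_insert]
    have hm : MeasurableSet (⋃ i ∈ T, X i) :=
      MeasurableSet.biUnion (Finset.countable_toSet T) fun i _ => hX i
    have h1 := measureReal_union_add_inter (μ := μ) (s := X a) (t := ⋃ i ∈ T, X i) hm
      (measure_ne_top _ _) (measure_ne_top _ _)
    have h2 : μ.real (X a ∩ ⋃ i ∈ T, X i) ≤ T.card * c := by
      rw [Set.inter_iUnion₂]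
      refine (measureReal_biUnion_finset_le T _).trans ?_
      refine (Finset.sum_le_card_nsmul T _ c fun i hi => h a (Finset.mem_insert_self a T) i
        (Finset.mem_insert_of_mem hi) fun hai => ha (hai ▸ hi)).trans ?_
      rw [nsmul_eq_mul]
    push_cast
    nlinarith [mul_nonneg (Nat.cast_nonneg T.card (α := ℝ)) hc]

theorem pb_touch_card (S : Finset (Site d)) : (Bd S).card ≤ 2 * d * S.card := by
  have h1 : (Bd S).card ≤ (touch S).card := Finset.card_le_card (Finset.filter_subset _ _)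
  have h2 : (touch S).card ≤ S.card * d + S.card * d := by
    unfold touch
    refine (Finset.card_union_le _ _).trans (add_le_add ?_ (Finset.card_image_le.trans ?_))
    · rw [Finset.card_product, Finset.card_univ, Fintype.card_fin]
    · rw [Finset.card_product, Finset.card_univ, Fintype.card_fin]
  calc (Bd S).card ≤ S.card * d + S.card * d := h1.trans h2
    _ = 2 * d * S.card := by ring

/-- the intervals for the boundary edges -/
def pbJ (p h : ℝ) (e f : Edge d) : Edge d → Set ℝ :=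
  fun g => if g = e ∨ g = f then Ico p (p + h) else Ici p

theorem pb_prod {p h : ℝ} (hp : 0 < p) (hh : 0 ≤ h) (hph : p + h < 1) (B : Finset (Edge d))
    {e : Edge d} (he : e ∈ B) :
    (PE d unif).real {u | ∀ g ∈ B, u g ∈ pbJ p h e e g} = h / (1 - p) * (1 - p) ^ B.card := by
  have hp1 : 1 - p ≠ 0 := by linarith
  rw [pb_pi B _ fun g => by unfold pbJ; split_ifs; exacts [measurableSet_Ico, measurableSet_Ici]]
  have h1 : ∀ g ∈ B, unif.real (pbJ p h e e g) = (if g = e then h / (1 - p) else 1) * (1 - p) := by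
    intro g _
    unfold pbJ
    by_cases hg : g = e
    · rw [if_pos (Or.inl hg), if_pos hg, pb_unif_Ico hp.le hh hph.le, div_mul_cancel₀ _ hp1]
    · rw [if_neg (by tauto), if_neg hg, pb_unif_Ici hp.le (by linarith), one_mul]
  rw [Finset.prod_congr rfl h1, Finset.prod_mul_distrib, Finset.prod_const,
    Finset.prod_ite_eq' B e, if_pos he]

theorem pb_prod2 {p h : ℝ} (hp : 0 < p) (hh : 0 ≤ h) (hph : p + h < 1) (B : Finset (Edge d))
    {e f : Edge d} (he : e ∈ B) (hf : f ∈ B) (hef : e ≠ f) :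
    (PE d unif).real {u | ∀ g ∈ B, u g ∈ pbJ p h e f g} = (h / (1 - p)) ^ 2 * (1 - p) ^ B.card := by
  have hp1 : 1 - p ≠ 0 := by linarith
  rw [pb_pi B _ fun g => by unfold pbJ; split_ifs; exacts [measurableSet_Ico, measurableSet_Ici]]
  have h1 : ∀ g ∈ B, unif.real (pbJ p h e f g) =
      ((if g = e then h / (1 - p) else 1) * (if g = f then h / (1 - p) else 1)) * (1 - p) := by
    intro g _
    unfold pbJ
    by_cases hg : g = e
    · have hgf : g ≠ f := fun h' => hef (hg.symm.trans h')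
      rw [if_pos (Or.inl hg), if_pos hg, if_neg hgf, pb_unif_Ico hp.le hh hph.le, mul_one,
        div_mul_cancel₀ _ hp1]
    · by_cases hgf : g = f
      · rw [if_pos (Or.inr hgf), if_neg hg, if_pos hgf, pb_unif_Ico hp.le hh hph.le, one_mul,
          div_mul_cancel₀ _ hp1]
      · rw [if_neg (by tauto), if_neg hg, if_neg hgf, pb_unif_Ici hp.le (by linarith), one_mul,
          one_mul]
  rw [Finset.prod_congr rfl h1, Finset.prod_mul_distrib, Finset.prod_mul_distrib,
    Finset.prod_const, Finset.prod_ite_eq' B e, Finset.prod_ite_eq' B f, if_pos he, if_pos hf, sq]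

theorem pb_D_prob {p : ℝ} (hp : 0 < p) (hp1 : p < 1) (n : ℕ) (S : Finset (Site d))
    (hS : ∀ v ∈ S, sn v ≤ n) :
    (PE d unif).real (pbD p n S) = (PE d unif).real (pbA p n S) * (1 - p) ^ (Bd S).card := by
  rw [pbD_eq p n S hS, inter_comm, mul_comm]
  have h1 : (PE d unif).real {u : Edge d → ℝ | ∀ e ∈ Bd S, p ≤ u e} = (1 - p) ^ (Bd S).card := by
    have := pb_pi (Bd S) (fun _ => Ici p) fun _ => measurableSet_Ici
    rw [Finset.prod_const, pb_unif_Ici hp.le hp1.le] at this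
    exact this
  rw [← h1]
  refine pb_indep (touch S) (pb_meas_pi (Bd S) (fun _ => Ici p) fun _ => measurableSet_Ici)
    (pb_meas_A p n S) ?_ ?_
  · intro ω ω' h hω e he
    rw [← h e (Finset.mem_filter.1 he).1]
    exact hω e he
  · intro ω ω' h hω v hv
    obtain ⟨y, hy, hc⟩ := hω v hv
    refine ⟨y, hy, ?_⟩
    refine Conn.mono (σ' := {e | e ∉ touch S ∧ e ∈ {f | ω' f < p}}) (fun e he => ⟨he.1, ?_⟩) hc
    have h2 : ω e < p := he.2
    change ω' e < p
    rwa [← h e he.1]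

/-- the gain for a given set `S` -/
theorem pb_gain {p h : ℝ} (hp : 0 < p) (hh : 0 ≤ h) (hph : p + h < 1) (n : ℕ)
    (S : Finset (Site d)) (hS : ∀ v ∈ S, sn v ≤ n) (hphi : 1 ≤ ph d p S) :
    (PE d unif).real (pbD p n S) *
        (4 * h - (h / (1 - p) * (2 * d * (2 * (n : ℝ) + 1) ^ d)) ^ 2) ≤
      (PE d unif).real (⋃ e ∈ Bd S, pbA p n S ∩
        ({u | Conn {f | f ∈ In S ∧ u f < p} 0 (inn S e)} ∩
          {u | ∀ g ∈ Bd S, u g ∈ pbJ p h e e g})) := by
  have hp1 : 0 < 1 - p := by linarith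
  set μ := PE d unif with hμ
  set δ := h / (1 - p) with hδ
  have hδ0 : 0 ≤ δ := div_nonneg hh hp1.le
  have hJm : ∀ e f g : Edge d, MeasurableSet (pbJ p h e f g) := fun e f g => by
    unfold pbJ
    split_ifs
    exacts [measurableSet_Ico, measurableSet_Ici]
  have hInT : ∀ e ∈ In S, e ∈ touch S := fun e he => (Finset.mem_filter.1 he).1
  have hBdT : ∀ e ∈ Bd S, e ∈ touch S := fun e he => (Finset.mem_filter.1 he).1
  have hAdep : ∀ ω ω' : Edge d → ℝ, (∀ i, i ∉ touch S → ω i = ω' i) → ω ∈ pbA p n S →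
      ω' ∈ pbA p n S := by
    intro ω ω' h hω v hv
    obtain ⟨y, hy, hc⟩ := hω v hv
    refine ⟨y, hy, ?_⟩
    refine Conn.mono (σ' := {e | e ∉ touch S ∧ e ∈ {f | ω' f < p}}) (fun e he => ⟨he.1, ?_⟩) hc
    have h2 : ω e < p := he.2
    change ω' e < p
    rwa [← h e he.1]
  -- probability of `X e`
  have hX : ∀ e ∈ Bd S, μ.real (pbA p n S ∩
        ({u | Conn {f | f ∈ In S ∧ u f < p} 0 (inn S e)} ∩
          {u | ∀ g ∈ Bd S, u g ∈ pbJ p h e e g})) =
      μ.real (pbD p n S) * (δ * μ.real {u | Conn {f | f ∈ In S ∧ u f < p} 0 (inn S e)}) := by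
    intro e he
    rw [inter_comm, hμ, pb_indep (touch S)
      ((pb_meas_C p S _).inter (pb_meas_pi (Bd S) _ fun g => hJm e e g)) (pb_meas_A p n S) ?_ hAdep,
      pb_indep (In S) (pb_meas_C p S _) (pb_meas_pi (Bd S) _ fun g => hJm e e g) ?_ ?_,
      pb_prod hp hh hph (Bd S) he, pb_D_prob hp (by linarith) n S hS]
    · ring
    · intro ω ω' h hω
      refine Conn.mono (σ' := {f | f ∈ In S ∧ ω' f < p}) (fun f hf => ⟨hf.1, ?_⟩) hω
      have h2 : ω f < p := hf.2
      rwa [← h f hf.1]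
    · intro ω ω' h hω g hg
      rw [← h g ?_]
      · exact hω g hg
      · intro hgI
        exact (Finset.mem_filter.1 hg).2 (Finset.mem_filter.1 hgI).2
    · rintro ω ω' h ⟨h1, h2⟩
      refine ⟨Conn.mono (σ' := {f | f ∈ In S ∧ ω' f < p}) (fun f hf => ⟨hf.1, ?_⟩) h1,
        fun g hg => ?_⟩
      · have h3 : ω f < p := hf.2
        rwa [← h f (hInT f hf.1)]
      · rw [← h g (hBdT g hg)]
        exact h2 g hg
  have hXX : ∀ e ∈ Bd S, ∀ f ∈ Bd S, e ≠ f → μ.real ((pbA p n S ∩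
        ({u | Conn {f | f ∈ In S ∧ u f < p} 0 (inn S e)} ∩
          {u | ∀ g ∈ Bd S, u g ∈ pbJ p h e e g})) ∩ (pbA p n S ∩
        ({u | Conn {f | f ∈ In S ∧ u f < p} 0 (inn S f)} ∩
          {u | ∀ g ∈ Bd S, u g ∈ pbJ p h f f g}))) ≤ μ.real (pbD p n S) * δ ^ 2 := by
    intro e he f hf hef
    have hsub : ((pbA p n S ∩
        ({u | Conn {f | f ∈ In S ∧ u f < p} 0 (inn S e)} ∩
          {u | ∀ g ∈ Bd S, u g ∈ pbJ p h e e g})) ∩ (pbA p n S ∩
        ({u | Conn {f | f ∈ In S ∧ u f < p} 0 (inn S f)} ∩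
          {u | ∀ g ∈ Bd S, u g ∈ pbJ p h f f g}))) ⊆
        {u | ∀ g ∈ Bd S, u g ∈ pbJ p h e f g} ∩ pbA p n S := by
      rintro u ⟨⟨h1, _, h3⟩, ⟨_, _, h6⟩⟩
      refine ⟨fun g hg => ?_, h1⟩
      have h7 := h3 g hg
      have h8 := h6 g hg
      unfold pbJ at h7 h8 ⊢
      by_cases hge : g = e
      · rw [if_pos (Or.inl hge)] at h7 ⊢
        exact h7
      · by_cases hgf : g = f
        · rw [if_pos (Or.inl hgf)] at h8
          rw [if_pos (Or.inr hgf)]
          exact h8
        · rw [if_neg (by tauto)] at h7 ⊢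
          exact h7
    refine (measureReal_mono hsub).trans (le_of_eq ?_)
    rw [hμ, pb_indep (touch S) (pb_meas_pi (Bd S) _ fun g => hJm e f g) (pb_meas_A p n S) ?_ hAdep,
      pb_prod2 hp hh hph (Bd S) he hf hef, pb_D_prob hp (by linarith) n S hS]
    · ring
    · intro ω ω' h hω g hg
      rw [← h g (hBdT g hg)]
      exact hω g hg
  have hbonf := pb_bonf μ (Bd S) (fun e => pbA p n S ∩
        ({u | Conn {f | f ∈ In S ∧ u f < p} 0 (inn S e)} ∩
          {u | ∀ g ∈ Bd S, u g ∈ pbJ p h e e g}))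
    (fun e => (pb_meas_A p n S).inter ((pb_meas_C p S _).inter
      (pb_meas_pi (Bd S) _ fun g => hJm e e g))) (μ.real (pbD p n S) * δ ^ 2) (by positivity) hXX
  refine le_trans ?_ hbonf
  rw [Finset.sum_congr rfl hX, ← Finset.mul_sum, ← Finset.mul_sum]
  have h1 : p * ∑ e ∈ Bd S, μ.real {u | Conn {f | f ∈ In S ∧ u f < p} 0 (inn S e)} =
      ph d p S := by
    rw [ph, Finset.mul_sum]
  have h2 : 4 * h ≤ δ * ∑ e ∈ Bd S, μ.real {u | Conn {f | f ∈ In S ∧ u f < p} 0 (inn S e)} := by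
    have h3 : 1 / p ≤ ∑ e ∈ Bd S, μ.real {u | Conn {f | f ∈ In S ∧ u f < p} 0 (inn S e)} := by
      rw [div_le_iff₀ hp, mul_comm, h1]
      exact hphi
    refine le_trans ?_ (mul_le_mul_of_nonneg_left h3 hδ0)
    rw [hδ, div_mul_div_comm, mul_one, le_div_iff₀ (mul_pos hp1 hp)]
    nlinarith [mul_nonneg hh (sq_nonneg (2 * p - 1))]
  have h3 : ((Bd S).card : ℝ) ^ 2 * δ ^ 2 ≤ (δ * (2 * d * (2 * (n : ℝ) + 1) ^ d)) ^ 2 := by
    rw [← mul_pow, mul_comm]
    refine pow_le_pow_left₀ (by positivity) (mul_le_mul_of_nonneg_left ?_ hδ0) 2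
    have h4 : S.card ≤ (2 * n + 1) ^ d := by
      rw [← card_box (0 : Site d) n]
      refine Finset.card_le_card fun v hv => ?_
      rw [mem_box, sub_zero]
      exact hS v hv
    have h5 : (Bd S).card ≤ 2 * d * (2 * n + 1) ^ d :=
      (pb_touch_card S).trans (Nat.mul_le_mul_left _ h4)
    exact_mod_cast h5
  have h4 : 0 ≤ μ.real (pbD p n S) := measureReal_nonneg
  nlinarith [mul_le_mul_of_nonneg_left h2 h4, mul_le_mul_of_nonneg_left h3 h4]

/-- If `ph d p S ≥ 1` for all finite `S ∋ 0` then a small increase of `p` gives a definite gain. -/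
theorem sprinkle {p h : ℝ} (hp : 0 < p) (hh : 0 ≤ h) (hph : p + h < 1) (n : ℕ)
    (hS : ∀ S : Finset (Site d), (0 : Site d) ∈ S → 1 ≤ ph d p S) :
    4 * h * (1 - th d p (n + 1)) - (h / (1 - p) * (2 * d * (2 * (n : ℝ) + 1) ^ d)) ^ 2
      ≤ th d (p + h) (n + 1) - th d p (n + 1) := by
  classical
  set μ := PE d unif with hμ
  let Fam : Finset (Finset (Site d)) := (box (0 : Site d) n).powerset.filter fun S => (0 : Site d) ∈ S
  have hFam : ∀ S ∈ Fam, (0 : Site d) ∈ S ∧ ∀ v ∈ S, sn v ≤ n := by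
    intro S hSF
    obtain ⟨h1, h2⟩ := Finset.mem_filter.1 hSF
    refine ⟨h2, fun v hv => ?_⟩
    have := mem_box.1 (Finset.mem_powerset.1 h1 hv)
    rwa [sub_zero] at this
  have hfarF : ∀ (q : ℝ) (u : Edge d → ℝ), far {e | u e < q} (0 : Site d) (n + 1) ↔ pbF q n u 0 := by
    intro q u
    unfold far pbF
    simp only [sub_zero]
  -- partition of the complement
  have hpart : {u : Edge d → ℝ | far {e | u e < p} (0 : Site d) (n + 1)}ᶜ =
      ⋃ S ∈ Fam, pbD p n S := by
    ext u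
    simp only [mem_compl_iff, mem_ofPred_eq, hfarF, mem_iUnion, exists_prop]
    constructor
    · intro h0
      refine ⟨(box (0 : Site d) n).filter fun v => ¬ pbF p n u v, ?_, ?_⟩
      · refine Finset.mem_filter.2 ⟨Finset.mem_powerset.2 (Finset.filter_subset _ _), ?_⟩
        refine Finset.mem_filter.2 ⟨mem_box.2 ?_, h0⟩
        rw [sub_zero, sn_zero]
        exact Nat.zero_le n
      · intro v
        rw [Finset.mem_filter, mem_box, sub_zero]
        constructor
        · exact fun h => h.2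
        · intro h
          refine ⟨?_, h⟩
          by_contra hlt
          exact h ⟨v, by omega, Relation.ReflTransGen.refl⟩
    · rintro ⟨S, hSF, hD⟩
      exact (hD 0).1 (hFam S hSF).1
  have hdisj : Set.PairwiseDisjoint (Fam : Set (Finset (Site d))) (pbD (d := d) p n) := by
    intro S _ S' _ hne
    refine Set.disjoint_left.2 fun u h1 h2 => hne ?_
    ext v
    rw [h1 v, h2 v]
  have hfm : MeasurableSet {u : Edge d → ℝ | far {e | u e < p} (0 : Site d) (n + 1)} := by
    simp only [hfarF]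
    exact pb_meas_F p n 0
  have hsumD : ∑ S ∈ Fam, μ.real (pbD p n S) = 1 - th d p (n + 1) := by
    rw [← measureReal_biUnion_finset hdisj fun S _ => pb_meas_D p n S, ← hpart]
    exact probReal_compl_eq_one_sub hfm
  -- the gains
  let Y : Finset (Site d) → Set (Edge d → ℝ) := fun S => ⋃ e ∈ Bd S, pbA p n S ∩
        ({u | Conn {f | f ∈ In S ∧ u f < p} 0 (inn S e)} ∩
          {u | ∀ g ∈ Bd S, u g ∈ pbJ p h e e g})
  have hJp : ∀ {e f g : Edge d} {x : ℝ}, x ∈ pbJ p h e f g → p ≤ x := by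
    intro e f g x hx
    unfold pbJ at hx
    split_ifs at hx
    · exact hx.1
    · exact hx
  have hYD : ∀ S ∈ Fam, Y S ⊆ pbD p n S := by
    intro S hSF u hu
    obtain ⟨e, he, hu1, hu2, hu3⟩ := mem_iUnion₂.1 hu
    rw [pbD_eq p n S (hFam S hSF).2]
    exact ⟨hu1, fun g hg => hJp (hu3 g hg)⟩
  have hYfar : ∀ S ∈ Fam, Y S ⊆ {u : Edge d → ℝ | far {e | u e < p + h} (0 : Site d) (n + 1)} := by
    intro S hSF u hu
    obtain ⟨e, he, hu1, hu2, hu3⟩ := mem_iUnion₂.1 hu
    refine pb_open hh n hu1 he hu2 ?_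
    have := hu3 e he
    unfold pbJ at this
    rw [if_pos (Or.inl rfl)] at this
    exact this.2
  have hYm : ∀ S, MeasurableSet (Y S) := fun S =>
    MeasurableSet.biUnion (Finset.countable_toSet _) fun e _ => (pb_meas_A p n S).inter
      ((pb_meas_C p S _).inter (pb_meas_pi (Bd S) _ fun g => by
        unfold pbJ
        split_ifs
        exacts [measurableSet_Ico, measurableSet_Ici]))
  have hYdisj : Set.PairwiseDisjoint (Fam : Set (Finset (Site d))) Y := by
    intro S hSF S' hSF' hne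
    exact (hdisj hSF hSF' hne).mono (hYD S hSF) (hYD S' hSF')
  have hunion : th d p (n + 1) + ∑ S ∈ Fam, μ.real (Y S) ≤ th d (p + h) (n + 1) := by
    rw [← measureReal_biUnion_finset hYdisj (fun S _ => hYm S) fun S _ => measure_ne_top _ _]
    change μ.real _ + _ ≤ μ.real _
    rw [← measureReal_union ?_ (Finset.measurableSet_biUnion Fam fun S _ => hYm S)
      (measure_ne_top _ _) (measure_ne_top _ _)]
    · refine measureReal_mono (union_subset ?_ (iUnion₂_subset hYfar))
      rintro u ⟨y, hy, hc⟩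
      refine ⟨y, hy, hc.mono fun e he => ?_⟩
      have : u e < p := he
      change u e < p + h
      linarith
    · refine Set.disjoint_left.2 fun u h1 h2 => ?_
      have h3 : u ∈ {u : Edge d → ℝ | far {e | u e < p} (0 : Site d) (n + 1)}ᶜ := by
        rw [hpart]
        obtain ⟨S, hSF, hY⟩ := mem_iUnion₂.1 h2
        exact mem_iUnion₂.2 ⟨S, hSF, hYD S hSF hY⟩
      exact h3 h1
  have hgain : (1 - th d p (n + 1)) *
      (4 * h - (h / (1 - p) * (2 * d * (2 * (n : ℝ) + 1) ^ d)) ^ 2) ≤ ∑ S ∈ Fam, μ.real (Y S) := by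
    rw [← hsumD, Finset.sum_mul]
    exact Finset.sum_le_sum fun S hSF =>
      pb_gain hp hh hph n S (hFam S hSF).2 (hS S (hFam S hSF).1)
  have hth0 : 0 ≤ th d p (n + 1) := measureReal_nonneg
  nlinarith [mul_nonneg hth0 (sq_nonneg (h / (1 - p) * (2 * d * (2 * (n : ℝ) + 1) ^ d)))]

end RC
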