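import Pool.Agent.RC.PA
import Pool.Agent.RC.PB

set_option autoImplicit false

/-!
PC: sharpness of the phase transition.
-/

open scoped ENNReal NNReal
open MeasureTheory Set

noncomputable section

namespace RC

open Pool.Agent.Helper3.Anderson Pool.Agent.Helper3.Crit

variable {d : ℕ}

theorem perco_of_th {p c : ℝ} (hc : 0 < c) (h : ∀ n : ℕ, c ≤ th d p n) : Perco d p := by
  set A : ℕ → Set (Edge d → ℝ) := fun n => {u | far {e | u e < p} 0 n} with hA
  have hanti : Antitone A := by
    intro m n hmn u hu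
    obtain ⟨y, hy1, hy2⟩ := hu
    exact ⟨y, hmn.trans hy1, hy2⟩
  have hinter : (PE d unif) (⋂ n, A n) = ⨅ n, (PE d unif) (A n) :=
    hanti.measure_iInter (fun n => (measurableSet_far p 0 n).nullMeasurableSet)
      ⟨0, measure_ne_top _ _⟩
  have hle : ENNReal.ofReal c ≤ (PE d unif) (⋂ n, A n) := by
    rw [hinter]
    refine le_iInf (fun n => ?_)
    rw [ENNReal.ofReal_le_iff_le_toReal (measure_ne_top _ _)]
    exact h n
  have hsub : (⋂ n, A n) ⊆ {u : Edge d → ℝ | {y | Conn {e | u e < p} 0 y}.Infinite} := by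
    intro u hu hfin
    rw [mem_iInter] at hu
    obtain ⟨N, hN⟩ := (hfin.image sn).bddAbove
    obtain ⟨y, hy1, hy2⟩ := hu (N + 1)
    have h1 : sn y ≤ N := hN ⟨y, hy2, rfl⟩
    rw [sub_zero] at hy1
    omega
  exact (ENNReal.ofReal_pos.2 hc).trans_le (hle.trans (measure_mono hsub))

lemma conn_empty {σ : Set (Edge d)} (hσ : σ = ∅) {x y : Site d} (h : Conn σ x y) : y = x := by
  induction h with
  | refl => rfl
  | tail _ h2 _ =>
    obtain ⟨e, he, _⟩ := h2
    rw [hσ] at he
    exact absurd he (notMem_empty e)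

lemma nonneg_of_perco {p : ℝ} (h : Perco d p) : 0 ≤ p := by
  by_contra hp
  push Not at hp
  have h1 : ∀ e : Edge d, (PE d unif) {u : Edge d → ℝ | u e < p} = 0 := by
    intro e
    have h2 := prob_all (κ := unif) ({e} : Finset (Edge d)) (J := Iio p) measurableSet_Iio
    have h3 : {ω : Edge d → ℝ | ∀ i ∈ ({e} : Finset (Edge d)), ω i ∈ Iio p}
        = {u : Edge d → ℝ | u e < p} := by
      ext u
      simp
    rw [h3] at h2
    rw [h2]
    have h4 : unif (Iio p) = 0 := by
      unfold unif
      rw [Measure.restrict_apply measurableSet_Iio]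
      have : Iio p ∩ Icc (0:ℝ) 1 = ∅ := by
        ext t
        simp only [mem_inter_iff, mem_Iio, mem_Icc, mem_empty_iff_false, iff_false]
        intro ht
        linarith [ht.1, ht.2.1]
      rw [this, measure_empty]
    rw [h4]
    simp
  have h5 : {u : Edge d → ℝ | {y | Conn {e | u e < p} 0 y}.Infinite} ⊆
      ⋃ e : Edge d, {u : Edge d → ℝ | u e < p} := by
    intro u hu
    by_contra hcon
    rw [mem_iUnion] at hcon
    push Not at hcon
    have h6 : {e : Edge d | u e < p} = ∅ := by
      ext e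
      simp only [mem_empty_iff_false, iff_false]
      exact hcon e
    refine hu ((Set.finite_singleton (0 : Site d)).subset ?_)
    intro y hy
    exact conn_empty h6 hy
  have h7 : (PE d unif) {u : Edge d → ℝ | {y | Conn {e | u e < p} 0 y}.Infinite} = 0 :=
    measure_mono_null h5 (measure_iUnion_null h1)
  unfold Perco at h
  rw [h7] at h
  exact lt_irrefl _ h

lemma bddBelow_perco (d : ℕ) : BddBelow {p | Perco d p} := ⟨0, fun _ h => nonneg_of_perco h⟩

theorem pc_le_one (hd : 0 < d) : pc d ≤ 1 := by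
  refine csInf_le (bddBelow_perco d) ?_
  have hone : ∀ e : Edge d, (PE d unif) {u : Edge d → ℝ | u e < 1}ᶜ = 0 := by
    intro e
    have h2 := prob_all (κ := unif) ({e} : Finset (Edge d)) (J := (Iio 1)ᶜ)
      measurableSet_Iio.compl
    have h3 : {ω : Edge d → ℝ | ∀ i ∈ ({e} : Finset (Edge d)), ω i ∈ (Iio (1:ℝ))ᶜ}
        = {u : Edge d → ℝ | u e < 1}ᶜ := by
      ext u
      simp
    rw [h3] at h2
    rw [h2]
    have h4 : unif (Iio (1:ℝ))ᶜ = 0 := by
      unfold unif
      rw [Measure.restrict_apply measurableSet_Iio.compl]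
      have : (Iio (1:ℝ))ᶜ ∩ Icc (0:ℝ) 1 ⊆ {1} := by
        intro t ht
        simp only [mem_inter_iff, mem_compl_iff, mem_Iio, not_lt, mem_Icc] at ht
        exact le_antisymm ht.2.2 ht.1
      exact measure_mono_null this (by simp)
    rw [h4]
    simp
  have hall : (PE d unif) {u : Edge d → ℝ | ∀ e, u e < 1}ᶜ = 0 := by
    have h1 : {u : Edge d → ℝ | ∀ e, u e < 1}ᶜ = ⋃ e : Edge d, {u : Edge d → ℝ | u e < 1}ᶜ := by
      ext u
      simp
    rw [h1]
    exact measure_iUnion_null hone
  have hsub : {u : Edge d → ℝ | {y | Conn {e | u e < 1} 0 y}.Infinite}ᶜ ⊆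
      {u : Edge d → ℝ | ∀ e, u e < 1}ᶜ := by
    rw [compl_subset_compl]
    intro u hu
    set j : Fin d := ⟨0, hd⟩ with hj
    have h1 : ∀ n : ℕ, Conn {e | u e < 1} 0 (Pi.single j (n : ℤ)) := by
      intro n
      induction n with
      | zero =>
        simp only [Nat.cast_zero, Pi.single_zero]
        exact Relation.ReflTransGen.refl
      | succ n ih =>
        refine Relation.ReflTransGen.tail ih ⟨(Pi.single j (n : ℤ), j), hu _, Or.inl ⟨rfl, ?_⟩⟩
        unfold tgt
        simp only [Nat.cast_add, Nat.cast_one]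
        exact (Pi.single_add (f := fun _ : Fin d => ℤ) j (n : ℤ) 1).symm
    refine Set.infinite_of_injective_forall_mem (f := fun n : ℕ => (Pi.single j (n : ℤ) : Site d))
      ?_ h1
    intro m n hmn
    have h2 := congrFun hmn j
    simp only [Pi.single_eq_same] at h2
    exact_mod_cast h2
  have h0 : (PE d unif) {u : Edge d → ℝ | {y | Conn {e | u e < 1} 0 y}.Infinite}ᶜ = 0 :=
    measure_mono_null hsub hall
  change 0 < (PE d unif) {u : Edge d → ℝ | {y | Conn {e | u e < 1} 0 y}.Infinite}
  rw [pos_iff_ne_zero]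
  intro h2
  have h3 : (PE d unif) univ ≤ 0 := by
    rw [← union_compl_self {u : Edge d → ℝ | {y | Conn {e | u e < 1} 0 y}.Infinite}]
    refine (measure_union_le _ _).trans ?_
    rw [h2, h0, add_zero]
  rw [measure_univ] at h3
  exact absurd h3 (by simp)

lemma th_nonneg (p : ℝ) (n : ℕ) : 0 ≤ th d p n := measureReal_nonneg

lemma th_le_one (p : ℝ) (n : ℕ) : th d p n ≤ 1 := measureReal_le_one

/-- the bound after `N` steps -/
lemma th_steps {p p' : ℝ} (hp : 0 < p) (hpp : p < p') (hp1 : p' < 1)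
    (hS : ∀ S : Finset (Site d), (0 : Site d) ∈ S → 1 ≤ ph d p S) (n : ℕ) {N : ℕ} (hN : 0 < N) :
    1 - th d p' (n + 1) ≤ Real.exp (-(4 * (p' - p)))
      + ((p' - p) / (1 - p') * (2 * d * (2 * (n : ℝ) + 1) ^ d)) ^ 2 / N := by
  have hN0 : (0:ℝ) < N := by exact_mod_cast hN
  set h : ℝ := (p' - p) / N with hh
  have hh0 : 0 < h := div_pos (by linarith) hN0
  set D : ℝ := 2 * d * (2 * (n : ℝ) + 1) ^ d with hD
  have hD0 : 0 ≤ D := by positivity
  set ε : ℝ := (h / (1 - p') * D) ^ 2 with hε
  have hε0 : 0 ≤ ε := sq_nonneg _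
  have key : ∀ i : ℕ, i ≤ N → 1 - th d (p + i * h) (n + 1) ≤ Real.exp (-(4 * (i * h))) + i * ε := by
    intro i
    induction i with
    | zero =>
      intro _
      simp only [Nat.cast_zero, zero_mul, mul_zero, neg_zero, Real.exp_zero, add_zero]
      linarith [th_nonneg (d := d) p (n + 1)]
    | succ i ih =>
      intro hi
      have ih' := ih (by omega)
      have hiN : ((i : ℝ) + 1) ≤ N := by exact_mod_cast hi
      have h1 : p + i * h + h ≤ p' := by
        have : ((i:ℝ) + 1) * h ≤ N * h := mul_le_mul_of_nonneg_right hiN hh0.le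
        have h2 : (N:ℝ) * h = p' - p := by
          rw [hh]
          field_simp
        nlinarith
      have hpi : 0 < p + i * h := by positivity
      have h3 := sprinkle (d := d) hpi hh0.le (by linarith) n (fun S h0 =>
        (hS S h0).trans (ph_mono hp.le (by nlinarith [mul_nonneg (Nat.cast_nonneg (α := ℝ) i) hh0.le]) S))
      have h4 : (h / (1 - (p + i * h)) * (2 * d * (2 * (n : ℝ) + 1) ^ d)) ^ 2 ≤ ε := by
        rw [hε, ← hD]
        have h5 : 0 < 1 - p' := by linarith
        have h6 : 1 - p' ≤ 1 - (p + i * h) := by linarith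
        have h7 : h / (1 - (p + i * h)) ≤ h / (1 - p') :=
          div_le_div_of_nonneg_left hh0.le h5 h6
        have h8 : 0 ≤ h / (1 - (p + i * h)) := div_nonneg hh0.le (by linarith)
        exact pow_le_pow_left₀ (mul_nonneg h8 hD0) (mul_le_mul_of_nonneg_right h7 hD0) 2
      have h9 : p + ((i + 1 : ℕ) : ℝ) * h = p + i * h + h := by
        push_cast
        ring
      rw [h9]
      have h10 : 1 - th d (p + i * h + h) (n + 1)
          ≤ (1 - 4 * h) * (1 - th d (p + i * h) (n + 1)) + ε := by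
        nlinarith
      have h11 : 1 - 4 * h ≤ Real.exp (-(4 * h)) := by
        have := Real.add_one_le_exp (-(4 * h))
        linarith
      have h12 : 0 ≤ 1 - th d (p + i * h) (n + 1) := by
        linarith [th_le_one (d := d) (p + i * h) (n + 1)]
      have h13 : Real.exp (-(4 * h)) ≤ 1 := by
        rw [Real.exp_le_one_iff]
        linarith
      have h14 : 0 ≤ (i : ℝ) * ε := by positivity
      calc 1 - th d (p + i * h + h) (n + 1)
          ≤ (1 - 4 * h) * (1 - th d (p + i * h) (n + 1)) + ε := h10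
        _ ≤ Real.exp (-(4 * h)) * (1 - th d (p + i * h) (n + 1)) + ε := by
            have := mul_le_mul_of_nonneg_right h11 h12
            linarith
        _ ≤ Real.exp (-(4 * h)) * (Real.exp (-(4 * (i * h))) + i * ε) + ε := by
            have := mul_le_mul_of_nonneg_left ih' (Real.exp_pos (-(4 * h))).le
            linarith
        _ = Real.exp (-(4 * h)) * Real.exp (-(4 * (i * h))) + Real.exp (-(4 * h)) * (i * ε) + ε := by
            ring
        _ ≤ Real.exp (-(4 * (((i + 1 : ℕ) : ℝ) * h))) + ((i + 1 : ℕ) : ℝ) * ε := by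
            rw [← Real.exp_add]
            have h15 : -(4 * h) + -(4 * (i * h)) = -(4 * (((i + 1 : ℕ) : ℝ) * h)) := by
              push_cast
              ring
            rw [h15]
            have h16 : Real.exp (-(4 * h)) * (i * ε) ≤ 1 * (i * ε) :=
              mul_le_mul_of_nonneg_right h13 h14
            push_cast
            linarith
  have h1 := key N le_rfl
  have h2 : (N:ℝ) * h = p' - p := by
    rw [hh]
    field_simp
  rw [h2, show p + (p' - p) = p' by ring] at h1
  refine h1.trans (le_of_eq ?_)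
  congr 1
  rw [hε, hh]
  field_simp

theorem th_lower {p p' : ℝ} (hp : 0 < p) (hpp : p < p') (hp1 : p' < 1)
    (hS : ∀ S : Finset (Site d), (0 : Site d) ∈ S → 1 ≤ ph d p S) (n : ℕ) :
    1 - Real.exp (-(4 * (p' - p))) ≤ th d p' (n + 1) := by
  set c : ℝ := ((p' - p) / (1 - p') * (2 * d * (2 * (n : ℝ) + 1) ^ d)) ^ 2 with hc
  have h1 : Filter.Tendsto (fun N : ℕ => Real.exp (-(4 * (p' - p))) + c / N) Filter.atTop
      (nhds (Real.exp (-(4 * (p' - p))) + 0)) :=
    tendsto_const_nhds.add (tendsto_const_div_atTop_nhds_zero_nat c)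
  have h2 : 1 - th d p' (n + 1) ≤ Real.exp (-(4 * (p' - p))) + 0 := by
    refine ge_of_tendsto h1 ?_
    filter_upwards [Filter.eventually_gt_atTop 0] with N hN
    exact th_steps hp hpp hp1 hS n hN
  linarith

/-- sharpness of the phase transition -/
theorem decay_of_lt_pc (hd : 0 < d) {p : ℝ} (hp : 0 ≤ p) (h : p < pc d) :
    ∃ A c : ℝ, 0 < A ∧ 0 < c ∧ ∀ n : ℕ, th d p n ≤ A * Real.exp (-(c * n)) := by
  have hpc := pc_le_one hd
  obtain ⟨p1, hp1, hp1'⟩ := exists_between h
  obtain ⟨p2, hp2, hp2'⟩ := exists_between hp1'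
  have hex : ∃ S : Finset (Site d), (0 : Site d) ∈ S ∧ ph d p1 S < 1 := by
    by_contra hcon
    push Not at hcon
    have h1 : 0 < 1 - Real.exp (-(4 * (p2 - p1))) := by
      have : Real.exp (-(4 * (p2 - p1))) < 1 := by
        rw [Real.exp_lt_one_iff]
        linarith
      linarith
    have h2 : ∀ n : ℕ, 1 - Real.exp (-(4 * (p2 - p1))) ≤ th d p2 n := by
      intro n
      exact (th_lower (lt_of_le_of_lt hp hp1) hp2 (by linarith) hcon n).trans
        (th_anti p2 (Nat.le_succ n))
    have h3 : pc d ≤ p2 := csInf_le (bddBelow_perco d) (perco_of_th h1 h2)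
    linarith
  obtain ⟨S, hS0, hS1⟩ := hex
  obtain ⟨A, c, hA, hc, hdec⟩ := decay_of_ph (by linarith) (by linarith) hS0 hS1
  exact ⟨A, c, hA, hc, fun n => (th_mono hp1.le n).trans (hdec n)⟩

end RC
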