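import Pool.Agent.RC.CMeas
import Pool.Agent.RC.Indep

set_option autoImplicit false

/-!
Percolation: definitions.
-/

open scoped ENNReal NNReal
open MeasureTheory Set

noncomputable section

namespace RC

open Pool.Agent.Helper3.Anderson Pool.Agent.Helper3.Crit

/-- the uniform law on `[0, 1]` -/
def unif : Measure ℝ := volume.restrict (Icc 0 1)

instance : IsProbabilityMeasure unif := ⟨by simp [unif]⟩

/-- bond percolation on `ℤ^d` with parameter `p` has an infinite cluster at `0` with positive
probability (the edge `e` is open if `u e < p`, with independent uniform `u e`) -/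
def Perco (d : ℕ) (p : ℝ) : Prop :=
  0 < PE d unif {u | {y | Conn {e | u e < p} 0 y}.Infinite}

/-- the critical probability of bond percolation on `ℤ^d` -/
def pc (d : ℕ) : ℝ := sInf {p | Perco d p}

/-- `x` is connected to distance `n` -/
def far {d : ℕ} (σ : Set (Edge d)) (x : Site d) (n : ℕ) : Prop := ∃ y, n ≤ sn (y - x) ∧ Conn σ x y

/-- the probability that `0` is connected to distance `n` -/
def th (d : ℕ) (p : ℝ) (n : ℕ) : ℝ := (PE d unif).real {u | far {e | u e < p} 0 n}

/-- the functional of Duminil-Copin and Tassion -/
def ph (d : ℕ) (p : ℝ) (S : Finset (Site d)) : ℝ :=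
  ∑ e ∈ Bd S, p * (PE d unif).real {u | Conn {f | f ∈ In S ∧ u f < p} 0 (inn S e)}

end RC
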