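import Pool.Agent.RC.Clu
import Pool.Agent.RC.CMeas

set_option autoImplicit false

/-!
PSUM: sums over the clusters converge.
-/

open scoped ENNReal NNReal
open MeasureTheory Set

noncomputable section

namespace RC

open Pool.Agent.Helper3.Anderson Pool.Agent.Helper3.Crit

variable {d : ℕ} {κ : Measure ℝ} [IsProbabilityMeasure κ]

/-- radius of `C` seen from `x` -/
def rad (x : Site d) (C : Finset (Site d)) : ℕ := C.sup fun y => sn (y - x)

/-- the possible clusters of `x` -/
def cand (Γ : Finset (Edge d)) (x : Site d) : Finset (Finset (Site d)) :=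
  (insert x (Γ.image src ∪ Γ.image tgt)).powerset.filter fun C => x ∈ C

theorem clu_mem_cand (Γ : Finset (Edge d)) (q : ℝ) (ω : Edge d → ℝ) (x : Site d) :
    clu Γ q ω x ∈ cand Γ x := by
  unfold cand
  rw [Finset.mem_filter, Finset.mem_powerset]
  refine ⟨?_, self_mem_clu Γ q ω x⟩
  classical
  intro y hy
  unfold clu at hy
  exact (Finset.mem_filter.1 hy).1

lemma sn_le_rad (x : Site d) {C : Finset (Site d)} {y : Site d} (hy : y ∈ C) :
    sn (y - x) ≤ rad x C := Finset.le_sup (f := fun y => sn (y - x)) hy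

theorem card_le_rad (x : Site d) (C : Finset (Site d)) : C.card ≤ (2 * rad x C + 1) ^ d := by
  have h1 : C ⊆ Finset.Icc (fun i => x i - (rad x C : ℤ)) (fun i => x i + (rad x C : ℤ)) := by
    intro y hy
    have h2 := sn_le_iff.1 (sn_le_rad x hy)
    rw [Finset.mem_Icc, Pi.le_def, Pi.le_def]
    constructor
    · intro i
      have h3 := h2 i
      rw [Pi.sub_apply] at h3
      change x i - (rad x C : ℤ) ≤ y i
      omega
    · intro i
      have h3 := h2 i
      rw [Pi.sub_apply] at h3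
      change y i ≤ x i + (rad x C : ℤ)
      omega
  refine (Finset.card_le_card h1).trans (le_of_eq ?_)
  rw [Pi.card_Icc]
  have h4 : ∀ i : Fin d, (Finset.Icc (x i - (rad x C : ℤ)) (x i + (rad x C : ℤ))).card
      = 2 * rad x C + 1 := by
    intro i
    rw [Int.card_Icc]
    omega
  rw [Finset.prod_congr rfl (fun i _ => h4 i)]
  simp

theorem card_In_le (C : Finset (Site d)) : (In C).card ≤ d * C.card := by
  have h1 : In C ⊆ C ×ˢ (Finset.univ : Finset (Fin d)) := by
    intro e he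
    rw [mem_In] at he
    rw [Finset.mem_product]
    exact ⟨he.1, Finset.mem_univ _⟩
  refine (Finset.card_le_card h1).trans (le_of_eq ?_)
  rw [Finset.card_product, Finset.card_univ, Fintype.card_fin, mul_comm]

theorem card_Bd_le (C : Finset (Site d)) : (Bd C).card ≤ 2 * d * C.card := by
  have h1 : (Bd C).card ≤ (touch C).card := Finset.card_le_card (Finset.filter_subset _ _)
  have h2 : (touch C).card ≤ (C ×ˢ (Finset.univ : Finset (Fin d))).card
      + (C ×ˢ (Finset.univ : Finset (Fin d))).card := by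
    unfold touch
    refine (Finset.card_union_le _ _).trans ?_
    exact Nat.add_le_add_left Finset.card_image_le _
  have h3 : (C ×ˢ (Finset.univ : Finset (Fin d))).card = d * C.card := by
    rw [Finset.card_product, Finset.card_univ, Fintype.card_fin, mul_comm]
  rw [h3] at h2
  calc (Bd C).card ≤ d * C.card + d * C.card := h1.trans h2
    _ = 2 * d * C.card := by ring

theorem sn_inn_le {x : Site d} {C : Finset (Site d)} {e : Edge d} (he : e ∈ Bd C) :
    inn C e ∈ C ∧ outp C e ∉ C ∧ sn (outp C e - x) ≤ rad x C + 1 := by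
  have ht : tgt e - src e = Pi.single e.2 1 := by
    unfold tgt src
    abel
  rw [mem_Bd] at he
  rcases he with ⟨h1, h2⟩ | ⟨h1, h2⟩
  · unfold inn outp
    rw [if_pos h1, if_pos h1]
    refine ⟨h1, h2, ?_⟩
    have h3 : tgt e - x = (src e - x) + (tgt e - src e) := by abel
    rw [h3]
    refine (sn_add_le _ _).trans ?_
    rw [ht, sn_single]
    exact Nat.add_le_add_right (sn_le_rad x h1) 1
  · unfold inn outp
    rw [if_neg h1, if_neg h1]
    refine ⟨h2, h1, ?_⟩
    have h3 : src e - x = (tgt e - x) - (tgt e - src e) := by abel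
    rw [h3]
    refine (sn_sub_le _ _).trans ?_
    rw [ht, sn_single]
    exact Nat.add_le_add_right (sn_le_rad x h2) 1

/-- the clusters of radius `n` -/
theorem psum_fibre {q A c : ℝ} (h : PDec d κ q A c) (Γ : Finset (Edge d)) (x : Site d) (n : ℕ) :
    ∑ C ∈ (cand Γ x).filter (fun C => rad x C = n), PE d κ {ω | clu Γ q ω x = C}
      ≤ ENNReal.ofReal (A * Real.exp (-(c * n))) := by
  refine le_trans ?_ (h x n)
  rw [← measure_biUnion_finset]
  · refine measure_mono ?_
    intro ω hω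
    simp only [mem_iUnion] at hω
    obtain ⟨C, hC, hω⟩ := hω
    rw [Finset.mem_filter] at hC
    have hxC : x ∈ C := (Finset.mem_filter.1 hC.1).2
    obtain ⟨y, hy1, hy2⟩ := Finset.exists_mem_eq_sup C ⟨x, hxC⟩ (fun y => sn (y - x))
    refine ⟨y, ?_, ?_⟩
    · rw [← hC.2]
      exact le_of_eq hy2
    · have h2 : y ∈ clu Γ q ω x := by
        rw [show clu Γ q ω x = C from hω]
        exact hy1
      exact (mem_clu.1 h2).mono (fun e he => he.2)
  · intro C _ C' _ hne
    rw [Function.onFun, Set.disjoint_left]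
    intro ω h1 h2
    exact hne (h1.symm.trans h2)
  · intro C _
    exact measurableSet_clu Γ q x C

theorem psum {q A c : ℝ} (h : PDec d κ q A c) (Γ : Finset (Edge d)) (x : Site d)
    (g : ℕ → ℝ≥0∞) :
    ∑ C ∈ cand Γ x, PE d κ {ω | clu Γ q ω x = C} * g (rad x C)
      ≤ ∑' n : ℕ, ENNReal.ofReal (A * Real.exp (-(c * n))) * g n := by
  have h1 : ∑ C ∈ cand Γ x, PE d κ {ω | clu Γ q ω x = C} * g (rad x C)
      = ∑ n ∈ (cand Γ x).image (rad x), ∑ C ∈ (cand Γ x).filter (fun C => rad x C = n),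
        PE d κ {ω | clu Γ q ω x = C} * g (rad x C) :=
    (Finset.sum_fiberwise_of_maps_to (fun C hC => Finset.mem_image_of_mem _ hC) _).symm
  rw [h1]
  refine le_trans (Finset.sum_le_sum (fun n _ => ?_))
    (ENNReal.sum_le_tsum ((cand Γ x).image (rad x)))
  have h2 : ∑ C ∈ (cand Γ x).filter (fun C => rad x C = n),
        PE d κ {ω | clu Γ q ω x = C} * g (rad x C)
      = (∑ C ∈ (cand Γ x).filter (fun C => rad x C = n), PE d κ {ω | clu Γ q ω x = C}) * g n := by
    rw [Finset.sum_mul]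
    refine Finset.sum_congr rfl (fun C hC => ?_)
    rw [(Finset.mem_filter.1 hC).2]
  rw [h2]
  exact mul_le_mul_left (psum_fibre h Γ x n) (g n)

/-- the weight of a cluster of radius `n` -/
def wt (d : ℕ) (K : ℝ≥0) (p m : ℝ) (n : ℕ) : ℝ :=
  (3 + 7 * K * (d * (2 * n + 1) ^ d) / p) * (1 + (2 * d * (2 * n + 1) ^ d) ^ 2)
    * Real.exp (m * (n + 1))

lemma summable_odd (k : ℕ) {r : ℝ} (h0 : 0 ≤ r) (h1 : r < 1) :
    Summable (fun n : ℕ => (2 * (n : ℝ) + 1) ^ k * r ^ n) := by
  have hr : ‖r‖ < 1 := by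
    rw [Real.norm_eq_abs, abs_of_nonneg h0]
    exact h1
  have h2 : Summable (fun n : ℕ => (3 : ℝ) ^ k * ((n : ℝ) ^ k * r ^ n + r ^ n)) :=
    ((summable_pow_mul_geometric_of_norm_lt_one k hr).add
      (summable_geometric_of_lt_one h0 h1)).mul_left _
  refine Summable.of_nonneg_of_le (fun n => by positivity) (fun n => ?_) h2
  have h3 : (2 * (n : ℝ) + 1) ^ k ≤ 3 ^ k * ((n : ℝ) ^ k + 1) := by
    rcases Nat.eq_zero_or_pos n with h | h
    · subst h
      simp only [Nat.cast_zero, mul_zero, zero_add, one_pow]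
      have : (1:ℝ) ≤ 3 ^ k := one_le_pow₀ (by norm_num)
      have h4 : (0:ℝ) ≤ 0 ^ k := by positivity
      nlinarith
    · have h4 : (1:ℝ) ≤ n := by exact_mod_cast h
      calc (2 * (n : ℝ) + 1) ^ k ≤ (3 * (n : ℝ)) ^ k :=
            pow_le_pow_left₀ (by positivity) (by linarith) k
        _ = 3 ^ k * (n : ℝ) ^ k := by rw [mul_pow]
        _ ≤ 3 ^ k * ((n : ℝ) ^ k + 1) := by
            have : (0:ℝ) ≤ 3 ^ k := by positivity
            nlinarith
  calc (2 * (n : ℝ) + 1) ^ k * r ^ n ≤ 3 ^ k * ((n : ℝ) ^ k + 1) * r ^ n :=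
        mul_le_mul_of_nonneg_right h3 (by positivity)
    _ = 3 ^ k * ((n : ℝ) ^ k * r ^ n + r ^ n) := by ring

theorem wt_sum (d : ℕ) (K : ℝ≥0) {p A c m : ℝ} (hp : 0 < p) (hA : 0 ≤ A) (hm : 0 ≤ m)
    (hmc : m < c) :
    ∑' n : ℕ, ENNReal.ofReal (A * Real.exp (-(c * n))) * ENNReal.ofReal (wt d K p m n) ≠ ⊤ := by
  set r : ℝ := Real.exp (-(c - m)) with hr
  have hr0 : 0 ≤ r := (Real.exp_pos _).le
  have hr1 : r < 1 := by
    rw [hr, Real.exp_lt_one_iff]
    linarith
  set α : ℝ := 7 * K * d / p with hα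
  set β : ℝ := (2 * (d : ℝ)) ^ 2 with hβ
  have hterm : ∀ n : ℕ, A * Real.exp (-(c * n)) * wt d K p m n
      = A * Real.exp m * (3 * ((2 * (n : ℝ) + 1) ^ 0 * r ^ n)
        + α * ((2 * (n : ℝ) + 1) ^ d * r ^ n)
        + 3 * β * ((2 * (n : ℝ) + 1) ^ (2 * d) * r ^ n)
        + α * β * ((2 * (n : ℝ) + 1) ^ (3 * d) * r ^ n)) := by
    intro n
    have h1 : r ^ n = Real.exp (-(c * n)) * Real.exp (m * n) := by
      rw [hr, ← Real.exp_nat_mul, ← Real.exp_add]
      congr 1
      ring
    have h2 : Real.exp (m * (n + 1)) = Real.exp m * Real.exp (m * n) := by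
      rw [← Real.exp_add]
      congr 1
      ring
    unfold wt
    rw [h1, h2, pow_mul' _ 2 d, pow_mul' _ 3 d, pow_zero, hα, hβ]
    field_simp
    ring
  have hsum : Summable (fun n : ℕ => A * Real.exp (-(c * n)) * wt d K p m n) := by
    simp_rw [hterm]
    refine Summable.mul_left _ ?_
    exact ((((summable_odd 0 hr0 hr1).mul_left 3).add ((summable_odd d hr0 hr1).mul_left α)).add
      ((summable_odd (2 * d) hr0 hr1).mul_left (3 * β))).add
      ((summable_odd (3 * d) hr0 hr1).mul_left (α * β))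
  have h3 := hsum.tsum_ofReal_ne_top
  have h4 : ∀ n : ℕ, ENNReal.ofReal (A * Real.exp (-(c * n)) * wt d K p m n)
      = ENNReal.ofReal (A * Real.exp (-(c * n))) * ENNReal.ofReal (wt d K p m n) := by
    intro n
    exact ENNReal.ofReal_mul (by positivity)
  simp_rw [h4] at h3
  exact h3

end RC
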