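import Pool.Agent.RC.Res
import Pool.Agent.RC.Indep
import Pool.Agent.Helper3.Crit.SkelDefs
import Pool.Agent.Helper3.Crit.Trans

set_option autoImplicit false

/-!
SWA: the two exceptional sets of energies and what holds off them.
-/

open scoped ENNReal NNReal InnerProductSpace
open MeasureTheory Set Filter Topology

noncomputable section

namespace RC

open Pool.Agent.Helper3.Anderson Pool.Agent.Helper3.Crit

variable {d : ℕ} {b : ℝ} {κ : Measure ℝ} [IsProbabilityMeasure κ]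

/-- first exceptional set: the Green function does not decay -/
def NA (b : ℝ) (U : Set ℝ) (ε : ℕ → ℝ) (m : ℝ) (e : Edge d) : Set (ℝ × (Edge d → ℝ)) :=
  {p | p.1 ∈ U ∧ liminf (fun k => ∑' y : Site d, ENNReal.ofReal (Real.exp (m * sn (y - src e))) *
    ‖gR b p.2 ((p.1 : ℂ) + ε k * Complex.I) y e‖ₑ ^ (1 / 4 : ℝ)) atTop = ⊤}

/-- second exceptional set: `E` is an eigenvalue -/
def NB (b : ℝ) (ε : ℕ → ℝ) : Set (ℝ × (Edge d → ℝ)) :=
  {p | ∃ y : Site d,
    limsup (fun k => ‖(ε k : ℂ) * G b p.2 ((p.1 : ℂ) + ε k * Complex.I) y y‖ₑ) atTop ≠ 0}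

/-! ### tools -/

theorem swa_coord (u : L2 d) (y : Site d) : u y = ⟪dl y, u⟫_ℂ := by
  rw [dl, lp.inner_single_left]
  simp

theorem swa_im {E : ℝ} {t : ℝ} : ((E : ℂ) + t * Complex.I).im = t := by simp

theorem swa_isUnit (b : ℝ) (a : Edge d → ℝ) {z : ℂ} (hz : z.im ≠ 0) :
    IsUnit (Hc b a - z • (1 : L2 d →L[ℂ] L2 d)) := by
  refine ⟨⟨Hc b a - z • (1 : L2 d →L[ℂ] L2 d), Rz b a z, ?_, ?_⟩, rfl⟩
  · ext1 ψ
    have := Hz_Rz b a hz ψ
    simpa using this
  · ext1 ψ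
    have := Rz_Hz b a hz ψ
    simpa using this

theorem swa_continuous (b : ℝ) (a : Edge d → ℝ) {t : ℝ} (ht : 0 < t) (x y : Site d) :
    Continuous fun E : ℝ => G b a ((E : ℂ) + t * Complex.I) x y := by
  have h1 : Continuous fun E : ℝ => Rz b a ((E : ℂ) + t * Complex.I) := by
    rw [continuous_iff_continuousAt]
    intro E
    have him : ((E : ℂ) + t * Complex.I).im ≠ 0 := by rw [swa_im]; exact ht.ne'
    obtain ⟨u, hu⟩ := swa_isUnit b a him
    have h2 : ContinuousAt (fun T : L2 d →L[ℂ] L2 d => Ring.inverse T)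
        (Hc b a - ((E : ℂ) + t * Complex.I) • (1 : L2 d →L[ℂ] L2 d)) := by
      rw [← hu]
      exact NormedRing.inverse_continuousAt u
    have h3 : ContinuousAt (fun E : ℝ =>
        Hc b a - ((E : ℂ) + t * Complex.I) • (1 : L2 d →L[ℂ] L2 d)) E := by fun_prop
    exact ContinuousAt.comp (f := fun E : ℝ =>
        Hc b a - ((E : ℂ) + t * Complex.I) • (1 : L2 d →L[ℂ] L2 d)) h2 h3
  have h4 : (fun E : ℝ => G b a ((E : ℂ) + t * Complex.I) x y) =
      fun E : ℝ => ⟪dl x, Rz b a ((E : ℂ) + t * Complex.I) (dl y)⟫_ℂ := by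
    funext E
    rw [G, swa_coord]
  rw [h4]
  exact continuous_const.inner (h1.clm_apply continuous_const)

theorem measurable_Gp {ε : ℕ → ℝ} (hε : ∀ k, 0 < ε k) (k : ℕ) (x y : Site d) :
    Measurable fun p : ℝ × (Edge d → ℝ) => G b p.2 ((p.1 : ℂ) + ε k * Complex.I) x y := by
  have h := measurable_uncurry_of_continuous_of_measurable
    (u := fun (E : ℝ) (a : Edge d → ℝ) => G b a ((E : ℂ) + ε k * Complex.I) x y)
    (fun a => swa_continuous b a (hε k) x y)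
    (fun E => (continuous_G b (z := (E : ℂ) + ε k * Complex.I)
      (by rw [swa_im]; exact hε k) x y).measurable)
  exact h

theorem measurable_gRp {ε : ℕ → ℝ} (hε : ∀ k, 0 < ε k) (k : ℕ) (x : Site d) (e : Edge d) :
    Measurable fun p : ℝ × (Edge d → ℝ) => gR b p.2 ((p.1 : ℂ) + ε k * Complex.I) x e := by
  unfold gR
  exact (measurable_Gp hε k x _).sub (measurable_Gp hε k x _)

theorem measurable_SA {ε : ℕ → ℝ} (hε : ∀ k, 0 < ε k) (m : ℝ) (e : Edge d) (k : ℕ) :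
    Measurable fun p : ℝ × (Edge d → ℝ) =>
      ∑' y : Site d, ENNReal.ofReal (Real.exp (m * sn (y - src e))) *
        ‖gR b p.2 ((p.1 : ℂ) + ε k * Complex.I) y e‖ₑ ^ (1 / 4 : ℝ) :=
  Measurable.tsum fun y => ((measurable_gRp hε k y e).enorm.pow_const _).const_mul _

theorem measurableSet_NA {U : Set ℝ} (hU : MeasurableSet U) {ε : ℕ → ℝ} (hε : ∀ k, 0 < ε k)
    (m : ℝ) (e : Edge d) : MeasurableSet (NA (d := d) b U ε m e) := by
  have h1 : Measurable fun p : ℝ × (Edge d → ℝ) =>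
      liminf (fun k => ∑' y : Site d, ENNReal.ofReal (Real.exp (m * sn (y - src e))) *
        ‖gR b p.2 ((p.1 : ℂ) + ε k * Complex.I) y e‖ₑ ^ (1 / 4 : ℝ)) atTop :=
    Measurable.liminf fun k => measurable_SA hε m e k
  exact (measurable_fst hU).inter (h1 (measurableSet_singleton ⊤))

theorem measurableSet_NB {ε : ℕ → ℝ} (hε : ∀ k, 0 < ε k) :
    MeasurableSet (NB (d := d) b ε) := by
  have h0 : NB (d := d) b ε = ⋃ y : Site d, {p : ℝ × (Edge d → ℝ) |
      limsup (fun k => ‖(ε k : ℂ) * G b p.2 ((p.1 : ℂ) + ε k * Complex.I) y y‖ₑ) atTop ≠ 0} := by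
    ext p; simp [NB]
  rw [h0]
  refine MeasurableSet.iUnion fun y => ?_
  have h1 : Measurable fun p : ℝ × (Edge d → ℝ) =>
      limsup (fun k => ‖(ε k : ℂ) * G b p.2 ((p.1 : ℂ) + ε k * Complex.I) y y‖ₑ) atTop :=
    Measurable.limsup fun k => ((measurable_Gp hε k y y).const_mul _).enorm
  exact (h1 (measurableSet_singleton 0)).compl

theorem swa_tsum (d : ℕ) {c : ℝ} (hc : 0 < c) (x : Site d) :
    ∑' y : Site d, ENNReal.ofReal (Real.exp (-(c * sn (y - x)))) ≠ ⊤ := by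
  have := (Equiv.subRight x).tsum_eq (fun y : Site d => ENNReal.ofReal (Real.exp (-(c * sn y))))
  simp only [Equiv.subRight_apply] at this
  rw [this, ← ENNReal.ofReal_tsum_of_nonneg (fun _ => (Real.exp_pos _).le) (summable_exp_sn hc)]
  exact ENNReal.ofReal_ne_top

theorem sn_tgt_sub (e : Edge d) : sn (tgt e - src e) = 1 := by
  rw [tgt, src, add_sub_cancel_left, sn_single]

theorem ae_NA {U : Set ℝ} {ε : ℕ → ℝ} (hε : ∀ k, 0 < ε k) {B m : ℝ} (hm : 0 < m)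
    (hfm : ∀ z : ℂ, 0 < z.im → z.re ∈ U → ∀ x y : Site d,
      ∫⁻ ω, ‖G b ω z x y‖ₑ ^ (1 / 4 : ℝ) ∂(PE d κ)
        ≤ ENNReal.ofReal (B * Real.exp (-(m * sn (x - y))))) (e : Edge d) :
    ∀ E : ℝ, ∀ᵐ ω ∂(PE d κ), (E, ω) ∉ NA (d := d) b U ε (m / 2) e := by
  intro E
  by_cases hE : E ∈ U
  swap
  · exact ae_of_all _ fun ω h => hE h.1
  have him : ∀ k, 0 < ((E : ℂ) + ε k * Complex.I).im := fun k => by rw [swa_im]; exact hε k
  have hre : ∀ k, ((E : ℂ) + ε k * Complex.I).re = E := fun k => by simp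
  have hGm : ∀ (k : ℕ) (x y : Site d), Measurable fun ω : Edge d → ℝ =>
      G b ω ((E : ℂ) + ε k * Complex.I) x y := fun k x y => (continuous_G b (him k) x y).measurable
  have hgm : ∀ (k : ℕ) (y : Site d), Measurable fun ω : Edge d → ℝ =>
      gR b ω ((E : ℂ) + ε k * Complex.I) y e := fun k y => (hGm k y _).sub (hGm k y _)
  set S : ℕ → (Edge d → ℝ) → ℝ≥0∞ := fun k ω =>
    ∑' y : Site d, ENNReal.ofReal (Real.exp (m / 2 * sn (y - src e))) *
        ‖gR b ω ((E : ℂ) + ε k * Complex.I) y e‖ₑ ^ (1 / 4 : ℝ) with hS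
  have hSm : ∀ k, Measurable (S k) := fun k =>
    Measurable.tsum fun y => ((hgm k y).enorm.pow_const _).const_mul _
  set D : ℝ≥0∞ := ENNReal.ofReal (|B| * (Real.exp m + 1)) *
    ∑' y : Site d, ENNReal.ofReal (Real.exp (-(m / 2 * sn (y - src e)))) with hD
  have hDtop : D ≠ ⊤ := ENNReal.mul_ne_top ENNReal.ofReal_ne_top (swa_tsum d (by positivity) _)
  have hbound : ∀ k, ∫⁻ ω, S k ω ∂(PE d κ) ≤ D := by
    intro k
    rw [hS]
    simp only
    rw [lintegral_tsum fun y => (((hgm k y).enorm.pow_const _).const_mul _).aemeasurable, hD,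
      ← ENNReal.tsum_mul_left]
    refine ENNReal.tsum_le_tsum fun y => ?_
    rw [lintegral_const_mul _ ((hgm k y).enorm.pow_const _)]
    have h1 : ∫⁻ ω, ‖gR b ω ((E : ℂ) + ε k * Complex.I) y e‖ₑ ^ (1 / 4 : ℝ) ∂(PE d κ)
        ≤ ENNReal.ofReal (|B| * (Real.exp m + 1) * Real.exp (-(m * sn (y - src e)))) := by
      have h2 : ∀ ω, ‖gR b ω ((E : ℂ) + ε k * Complex.I) y e‖ₑ ^ (1 / 4 : ℝ)
          ≤ ‖G b ω ((E : ℂ) + ε k * Complex.I) y (tgt e)‖ₑ ^ (1 / 4 : ℝ)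
            + ‖G b ω ((E : ℂ) + ε k * Complex.I) y (src e)‖ₑ ^ (1 / 4 : ℝ) := by
        intro ω
        refine le_trans (ENNReal.rpow_le_rpow (enorm_sub_le) (by norm_num)) ?_
        exact ENNReal.rpow_add_le_add_rpow _ _ (by norm_num) (by norm_num)
      refine (lintegral_mono h2).trans ?_
      rw [lintegral_add_left ((hGm k y _).enorm.pow_const _)]
      refine (add_le_add (hfm _ (him k) (by rw [hre]; exact hE) y (tgt e))
        (hfm _ (him k) (by rw [hre]; exact hE) y (src e))).trans ?_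
      have h3 : Real.exp (-(m * sn (y - tgt e))) ≤ Real.exp m * Real.exp (-(m * sn (y - src e))) := by
        rw [← Real.exp_add]
        refine Real.exp_le_exp.2 ?_
        have h4 : sn (y - src e) ≤ sn (y - tgt e) + 1 := by
          have := sn_add_le (y - tgt e) (tgt e - src e)
          rwa [sub_add_sub_cancel, sn_tgt_sub] at this
        have h5 : (sn (y - src e) : ℝ) ≤ sn (y - tgt e) + 1 := by exact_mod_cast h4
        nlinarith
      have hexp : 0 < Real.exp (-(m * sn (y - src e))) := Real.exp_pos _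
      have h6 : ENNReal.ofReal (B * Real.exp (-(m * sn (y - tgt e))))
          ≤ ENNReal.ofReal (|B| * (Real.exp m * Real.exp (-(m * sn (y - src e))))) := by
        refine ENNReal.ofReal_le_ofReal ?_
        exact mul_le_mul (le_abs_self B) h3 (Real.exp_pos _).le (abs_nonneg B)
      have h7 : ENNReal.ofReal (B * Real.exp (-(m * sn (y - src e))))
          ≤ ENNReal.ofReal (|B| * Real.exp (-(m * sn (y - src e)))) :=
        ENNReal.ofReal_le_ofReal (mul_le_mul_of_nonneg_right (le_abs_self B) hexp.le)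
      refine (add_le_add h6 h7).trans ?_
      rw [← ENNReal.ofReal_add (by positivity) (by positivity)]
      refine ENNReal.ofReal_le_ofReal (le_of_eq ?_)
      ring
    refine (mul_le_mul_right h1 _).trans ?_
    rw [← ENNReal.ofReal_mul (Real.exp_pos _).le, ← ENNReal.ofReal_mul (by positivity)]
    refine ENNReal.ofReal_le_ofReal (le_of_eq ?_)
    rw [mul_left_comm, ← Real.exp_add]
    congr 2
    ring
  have hfat : ∫⁻ ω, liminf (fun k => S k ω) atTop ∂(PE d κ) ≤ D := by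
    refine (lintegral_liminf_le hSm).trans ?_
    refine (liminf_le_liminf (Eventually.of_forall hbound)).trans ?_
    rw [liminf_const]
  have hlim : Measurable fun ω => liminf (fun k => S k ω) atTop := Measurable.liminf hSm
  filter_upwards [ae_lt_top hlim (ne_top_of_le_ne_top hDtop hfat)] with ω hω hcon
  exact hω.ne hcon.2

/-- limits along an ultrafilter of pointwise bounded functions -/
theorem exists_lim (F : Ultrafilter ℕ) (u : ℕ → Site d → ℂ) (M : Site d → ℝ)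
    (h : ∀ᶠ k in (F : Filter ℕ), ∀ x, ‖u k x‖ ≤ M x) :
    ∃ f : Site d → ℂ, (∀ x, Tendsto (fun k => u k x) F (𝓝 (f x))) ∧ ∀ x, ‖f x‖ ≤ M x := by
  have h1 : ∀ x, ∃ l : ℂ, Tendsto (fun k => u k x) F (𝓝 l) ∧ ‖l‖ ≤ M x := by
    intro x
    have hc : IsCompact (Metric.closedBall (0 : ℂ) (M x)) := isCompact_closedBall _ _
    have hle : ((F.map fun k => u k x : Ultrafilter ℂ) : Filter ℂ)
        ≤ 𝓟 (Metric.closedBall (0 : ℂ) (M x)) := by
      rw [le_principal_iff, Ultrafilter.coe_map, mem_map]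
      filter_upwards [h] with k hk
      simpa using hk x
    obtain ⟨l, hl, hl2⟩ := hc.ultrafilter_le_nhds _ hle
    refine ⟨l, hl2, by simpa using hl⟩
  choose f hf using h1
  exact ⟨f, fun x => (hf x).1, fun x => (hf x).2⟩

/-- the equation in the limit -/
theorem lim_eqn (F : Ultrafilter ℕ) (a : Edge d → ℝ) (u : ℕ → L2 d) (φ : L2 d)
    (hφ : ∀ x, Tendsto (fun k => u k x) F (𝓝 (φ x))) (z : ℕ → ℂ) (E : ℂ)
    (hz : Tendsto z F (𝓝 E)) (g : ℕ → L2 d) (h : ∀ k, Hc b a (u k) - z k • u k = g k) (ψ : L2 d)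
    (hg : ∀ x, Tendsto (fun k => g k x) F (𝓝 (ψ x))) : Hc b a φ - E • φ = ψ := by
  ext x
  have hx : ∀ (v : L2 d) (w : ℂ), (Hc b a v - w • v : L2 d) x
      = (∑ j : Fin d, ((cl b (a (x - Pi.single j 1, j)) : ℂ) *
        (((v : Site d → ℂ) x : ℂ) - ((v : Site d → ℂ) (x - Pi.single j 1) : ℂ))
        + (cl b (a (x, j)) : ℂ) *
        (((v : Site d → ℂ) x : ℂ) - ((v : Site d → ℂ) (x + Pi.single j 1) : ℂ))))
        - w * ((v : Site d → ℂ) x : ℂ) := by
    intro v w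
    rw [lp.coeFn_sub, Pi.sub_apply, lp.coeFn_smul, Pi.smul_apply, smul_eq_mul, Hc_apply]
  have h1 : Tendsto (fun k => (Hc b a (u k) - z k • u k : L2 d) x) F
      (𝓝 ((Hc b a φ - E • φ : L2 d) x)) := by
    simp only [hx]
    have hφ' : ∀ x : Site d, Tendsto (fun k => ((u k : Site d → ℂ) x : ℂ)) F
        (𝓝 ((φ : Site d → ℂ) x : ℂ)) := hφ
    refine Tendsto.sub ?_ (Tendsto.mul hz (hφ' x))
    refine tendsto_finsetSum _ fun j _ => ?_
    refine Tendsto.add ?_ ?_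
    · exact Tendsto.const_mul _ (Tendsto.sub (hφ' x) (hφ' (x - Pi.single j 1)))
    · exact Tendsto.const_mul _ (Tendsto.sub (hφ' x) (hφ' (x + Pi.single j 1)))
  refine tendsto_nhds_unique h1 ?_
  refine (hg x).congr fun k => ?_
  rw [h k]

theorem swa_tendsto_z {ε : ℕ → ℝ} (hε0 : Tendsto ε atTop (𝓝 0)) (E : ℝ) {F : Filter ℕ}
    (hF : F ≤ atTop) : Tendsto (fun k => (E : ℂ) + ε k * Complex.I) F (𝓝 (E : ℂ)) := by
  have h1 : Tendsto (fun k => ((ε k : ℝ) : ℂ)) F (𝓝 ((0 : ℝ) : ℂ)) :=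
    (Complex.continuous_ofReal.tendsto 0).comp (hε0.mono_left hF)
  have h2 := (h1.mul_const Complex.I).const_add (E : ℂ)
  simpa using h2

/-- eigenvalues with an eigenvector which does not vanish at `x` are countable -/
theorem swa_count (a : Edge d → ℝ) (x : Site d) :
    {E : ℝ | ∃ φ : L2 d, Hc b a φ = (E : ℂ) • φ ∧ φ x ≠ 0}.Countable := by
  set A2 : Set ℝ := {E : ℝ | ∃ φ : L2 d, Hc b a φ = (E : ℂ) • φ ∧ φ x ≠ 0} with hA2def
  choose! Φ hΦ using fun (E : ℝ) (hE : E ∈ A2) => hE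
  have hne : ∀ E ∈ A2, Φ E ≠ 0 := fun E hE h0 => (hΦ E hE).2 (by rw [h0]; rfl)
  have hort : ∀ {E E' : ℝ}, E ≠ E' → ∀ {u v : L2 d}, Hc b a u = (E : ℂ) • u →
      Hc b a v = (E' : ℂ) • v → ⟪u, v⟫_ℂ = 0 := by
    intro E E' hEE u v hu hv
    have h1 := inner_Hc b a u v
    rw [hu, hv, inner_smul_left, inner_smul_right, Complex.conj_ofReal] at h1
    have h2 : ((E : ℂ) - (E' : ℂ)) * ⟪u, v⟫_ℂ = 0 := by linear_combination h1
    rcases mul_eq_zero.1 h2 with h3 | h3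
    · exact absurd (by exact_mod_cast sub_eq_zero.1 h3) hEE
    · exact h3
  let w : A2 → L2 d := fun E => ((‖Φ E‖ : ℂ)⁻¹) • Φ E
  have horth : Orthonormal ℂ w := by
    constructor
    · intro E
      have := norm_ne_zero_iff.2 (hne E E.2)
      simp only [w, norm_smul, norm_inv, Complex.norm_real, norm_norm]
      exact inv_mul_cancel₀ this
    · intro E E' hEE
      simp only [w, inner_smul_left, inner_smul_right]
      have h0 : ⟪Φ E, Φ E'⟫_ℂ = 0 :=
        hort (fun h => hEE (Subtype.ext h)) (hΦ E E.2).1 (hΦ E' E'.2).1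
      rw [h0]; simp
  have hsum := horth.inner_products_summable (dl x)
  have hsupp := hsum.countable_support
  have : Function.support (fun i : A2 => ‖⟪w i, dl x⟫_ℂ‖ ^ 2) = univ := by
    ext E
    simp only [Function.mem_support, mem_univ, iff_true]
    have h1 : ⟪w E, dl x⟫_ℂ ≠ 0 := by
      rw [← inner_conj_symm, ← swa_coord]
      simp only [w, lp.coeFn_smul, Pi.smul_apply, smul_eq_mul]
      have h2 := (hΦ E E.2).2
      have h3 := norm_ne_zero_iff.2 (hne E E.2)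
      rw [Ne, map_eq_zero]
      exact mul_ne_zero (inv_ne_zero (by exact_mod_cast h3)) h2
    exact pow_ne_zero 2 (norm_ne_zero_iff.2 h1)
  rw [this, countable_univ_iff] at hsupp
  exact countable_coe_iff.1 hsupp

/-- a point of the second exceptional set is an eigenvalue -/
theorem eig_of_limsup {ε : ℕ → ℝ} (hε : ∀ k, 0 < ε k) (hε0 : Tendsto ε atTop (𝓝 0))
    (ω : Edge d → ℝ) (E : ℝ) (y : Site d)
    (h : limsup (fun k => ‖(ε k : ℂ) * G b ω ((E : ℂ) + ε k * Complex.I) y y‖ₑ) atTop ≠ 0) :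
    ∃ φ : L2 d, Hc b ω φ = (E : ℂ) • φ ∧ φ y ≠ 0 := by
  have h0 : 0 < limsup (fun k => ‖(ε k : ℂ) * G b ω ((E : ℂ) + ε k * Complex.I) y y‖ₑ) atTop :=
    pos_iff_ne_zero.2 h
  obtain ⟨δ, hδ0, hδ⟩ := ENNReal.lt_iff_exists_nnreal_btwn.1 h0
  have hfreq := frequently_lt_of_lt_limsup (f := atTop)
    (u := fun k => ‖(ε k : ℂ) * G b ω ((E : ℂ) + ε k * Complex.I) y y‖ₑ) (b := (δ : ℝ≥0∞))
    (h := hδ)
  set s : Set ℕ := {k | (δ : ℝ≥0∞) < ‖(ε k : ℂ) * G b ω ((E : ℂ) + ε k * Complex.I) y y‖ₑ} with hs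
  have hne : (atTop ⊓ 𝓟 s).NeBot := frequently_mem_iff_neBot.1 hfreq
  set F : Ultrafilter ℕ := Ultrafilter.of (atTop ⊓ 𝓟 s) with hF
  have hFle : (F : Filter ℕ) ≤ atTop ⊓ 𝓟 s := Ultrafilter.of_le _
  have hFat : (F : Filter ℕ) ≤ atTop := hFle.trans inf_le_left
  have hFs : ∀ᶠ k in (F : Filter ℕ), k ∈ s := (hFle.trans inf_le_right) (mem_principal_self s)
  have him : ∀ k, 0 < ((E : ℂ) + ε k * Complex.I).im := fun k => by rw [swa_im]; exact hε k
  set u : ℕ → L2 d := fun k => (ε k : ℂ) • Rz b ω ((E : ℂ) + ε k * Complex.I) (dl y) with hu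
  have hun : ∀ k, ‖u k‖ ≤ 1 := by
    intro k
    rw [hu]
    simp only [norm_smul, Complex.norm_real, Real.norm_eq_abs, abs_of_pos (hε k)]
    have h1 := norm_Rz_le b ω (him k) (dl y)
    rw [swa_im, norm_dl, le_div_iff₀ (hε k)] at h1
    linarith
  obtain ⟨f, hf, hf1⟩ := exists_lim F (fun k => (u k : Site d → ℂ)) (fun _ => 1)
    (Eventually.of_forall fun k x =>
      (lp.norm_apply_le_norm (by norm_num) (u k) x).trans (hun k))
  have hmem : Memℓp f 2 := by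
    refine lp.memℓp_of_tendsto (l := (F : Filter ℕ)) (F := u) ?_ ?_
    · rw [isBounded_iff_forall_norm_le]
      exact ⟨1, by rintro _ ⟨k, rfl⟩; exact hun k⟩
    · rw [tendsto_pi_nhds]
      exact hf
  refine ⟨⟨f, hmem⟩, ?_, ?_⟩
  · have h2 := lim_eqn (b := b) F ω u ⟨f, hmem⟩ hf (fun k => (E : ℂ) + ε k * Complex.I) (E : ℂ)
      (swa_tendsto_z hε0 E hFat) (fun k => (ε k : ℂ) • dl y) (fun k => ?_) 0 (fun x => ?_)
    · exact sub_eq_zero.1 h2
    · rw [hu]
      simp only [map_smul]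
      rw [smul_comm, ← smul_sub, Hz_Rz b ω (him k).ne']
    · simp only [lp.coeFn_smul, Pi.smul_apply, smul_eq_mul, lp.coeFn_zero, Pi.zero_apply]
      have h3 : Tendsto (fun k => ((ε k : ℝ) : ℂ)) F (𝓝 ((0 : ℝ) : ℂ)) :=
        (Complex.continuous_ofReal.tendsto 0).comp (hε0.mono_left hFat)
      have h4 := h3.mul_const (dl y x)
      simpa using h4
  · have h5 : Tendsto (fun k => ‖u k y‖ₑ) F (𝓝 ‖f y‖ₑ) := (hf y).enorm
    have h6 : (δ : ℝ≥0∞) ≤ ‖f y‖ₑ := by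
      refine ge_of_tendsto h5 ?_
      filter_upwards [hFs] with k hk
      have h7 : u k y = (ε k : ℂ) * G b ω ((E : ℂ) + ε k * Complex.I) y y := by
        rw [hu]
        simp only [lp.coeFn_smul, Pi.smul_apply, smul_eq_mul, G]
      rw [h7]
      exact (le_of_lt hk)
    intro h8
    have h9 : f y = 0 := h8
    rw [h9, enorm_zero] at h6
    exact absurd h6 (not_le.2 hδ0)

theorem ae_NB {ε : ℕ → ℝ} (hε : ∀ k, 0 < ε k) (hε0 : Tendsto ε atTop (𝓝 0))
    (ω : Edge d → ℝ) : ∀ᵐ E : ℝ, (E, ω) ∉ NB (d := d) b ε := by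
  have h1 : (⋃ y : Site d, {E : ℝ | ∃ φ : L2 d, Hc b ω φ = (E : ℂ) • φ ∧ φ y ≠ 0}).Countable :=
    countable_iUnion fun y => swa_count ω y
  have h2 := h1.measure_zero (volume : Measure ℝ)
  rw [ae_iff]
  refine measure_mono_null (fun E hE => ?_) h2
  simp only [not_not] at hE
  obtain ⟨y, hy⟩ := hE
  exact mem_iUnion.2 ⟨y, eig_of_limsup hε hε0 ω E y hy⟩

theorem gR_eq_Rz (b : ℝ) (a : Edge d → ℝ) (z : ℂ) (x : Site d) (e : Edge d) :
    (Rz b a z (grad e) : L2 d) x = gR b a z x e := by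
  rw [grad, map_sub]
  rfl

/-- off the first set there is an exponentially decaying solution -/
theorem sol_of_NA {U : Set ℝ} {ε : ℕ → ℝ} (hε : ∀ k, 0 < ε k) (hε0 : Tendsto ε atTop (𝓝 0))
    {m : ℝ} (hm : 0 < m) {e : Edge d} {E : ℝ} (hE : E ∈ U) {ω : Edge d → ℝ}
    (h : (E, ω) ∉ NA (d := d) b U ε m e) :
    ∃ ψ : L2 d, ExpDecay (ψ : Site d → ℂ) ∧ Hc b ω ψ - (E : ℂ) • ψ = grad e := by
  have h0 : liminf (fun k => ∑' y : Site d, ENNReal.ofReal (Real.exp (m * sn (y - src e))) *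
      ‖gR b ω ((E : ℂ) + ε k * Complex.I) y e‖ₑ ^ (1 / 4 : ℝ)) atTop < ⊤ :=
    lt_top_iff_ne_top.2 fun hcon => h ⟨hE, hcon⟩
  obtain ⟨C, hC, -⟩ := ENNReal.lt_iff_exists_nnreal_btwn.1 h0
  have hfreq := frequently_lt_of_liminf_lt (f := atTop)
    (u := fun k => ∑' y : Site d, ENNReal.ofReal (Real.exp (m * sn (y - src e))) *
      ‖gR b ω ((E : ℂ) + ε k * Complex.I) y e‖ₑ ^ (1 / 4 : ℝ)) (b := (C : ℝ≥0∞))
    (h := hC)
  set s : Set ℕ := {k | (∑' y : Site d, ENNReal.ofReal (Real.exp (m * sn (y - src e))) *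
      ‖gR b ω ((E : ℂ) + ε k * Complex.I) y e‖ₑ ^ (1 / 4 : ℝ)) < (C : ℝ≥0∞)} with hs
  have hne : (atTop ⊓ 𝓟 s).NeBot := frequently_mem_iff_neBot.1 hfreq
  set F : Ultrafilter ℕ := Ultrafilter.of (atTop ⊓ 𝓟 s) with hF
  have hFle : (F : Filter ℕ) ≤ atTop ⊓ 𝓟 s := Ultrafilter.of_le _
  have hFat : (F : Filter ℕ) ≤ atTop := hFle.trans inf_le_left
  have hFs : ∀ᶠ k in (F : Filter ℕ), k ∈ s := (hFle.trans inf_le_right) (mem_principal_self s)
  have him : ∀ k, 0 < ((E : ℂ) + ε k * Complex.I).im := fun k => by rw [swa_im]; exact hε k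
  set u : ℕ → L2 d := fun k => Rz b ω ((E : ℂ) + ε k * Complex.I) (grad e) with hu
  have hbd : ∀ᶠ k in (F : Filter ℕ), ∀ y, ‖(u k : Site d → ℂ) y‖
      ≤ (C : ℝ) ^ 4 * Real.exp (-(4 * m * sn (y - src e))) := by
    filter_upwards [hFs] with k hk y
    rw [hu]
    simp only [gR_eq_Rz]
    have h1 : ENNReal.ofReal (Real.exp (m * sn (y - src e))) *
        ‖gR b ω ((E : ℂ) + ε k * Complex.I) y e‖ₑ ^ (1 / 4 : ℝ) ≤ C :=
      (ENNReal.le_tsum (f := fun y => ENNReal.ofReal (Real.exp (m * sn (y - src e))) *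
        ‖gR b ω ((E : ℂ) + ε k * Complex.I) y e‖ₑ ^ (1 / 4 : ℝ)) y).trans (le_of_lt hk)
    set g : ℂ := gR b ω ((E : ℂ) + ε k * Complex.I) y e with hg
    have h2 : Real.exp (m * sn (y - src e)) * ‖g‖ ^ (1 / 4 : ℝ) ≤ C := by
      have h3 := ENNReal.toReal_mono ENNReal.coe_ne_top h1
      rw [ENNReal.toReal_mul, ENNReal.toReal_ofReal (Real.exp_pos _).le, ← ENNReal.toReal_rpow,
        toReal_enorm, ENNReal.coe_toReal] at h3
      exact h3
    have h4 : ‖g‖ ^ (1 / 4 : ℝ) ≤ C * Real.exp (-(m * sn (y - src e))) := by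
      rw [Real.exp_neg, ← div_eq_mul_inv, le_div_iff₀ (Real.exp_pos _), mul_comm]
      exact h2
    have h5 : ‖g‖ = (‖g‖ ^ (1 / 4 : ℝ)) ^ 4 := by
      rw [← Real.rpow_natCast, ← Real.rpow_mul (norm_nonneg _)]
      norm_num
    calc ‖g‖ = (‖g‖ ^ (1 / 4 : ℝ)) ^ 4 := h5
      _ ≤ (C * Real.exp (-(m * sn (y - src e)))) ^ 4 := pow_le_pow_left₀ (by positivity) h4 4
      _ = (C : ℝ) ^ 4 * Real.exp (-(4 * m * sn (y - src e))) := by
          rw [mul_pow, ← Real.exp_nat_mul]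
          congr 2
          push_cast
          ring
  obtain ⟨f, hf, hf1⟩ := exists_lim F (fun k => (u k : Site d → ℂ))
    (fun y => (C : ℝ) ^ 4 * Real.exp (-(4 * m * sn (y - src e)))) hbd
  have hf2 : ∀ y, ‖f y‖ ≤ ((C : ℝ) ^ 4 * Real.exp (4 * m * sn (src e))) *
      Real.exp (-(4 * m * sn y)) := by
    intro y
    refine (hf1 y).trans ?_
    rw [mul_assoc ((C : ℝ) ^ 4), ← Real.exp_add]
    refine mul_le_mul_of_nonneg_left (Real.exp_le_exp.2 ?_) (by positivity)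
    have h6 : sn y ≤ sn (y - src e) + sn (src e) := by
      have := sn_add_le (y - src e) (src e)
      rwa [sub_add_cancel] at this
    have h7 : (sn y : ℝ) ≤ sn (y - src e) + sn (src e) := by exact_mod_cast h6
    nlinarith
  have hmem : Memℓp f 2 := memlp_of_decay (c := 4 * m) (by positivity) hf2
  refine ⟨⟨f, hmem⟩, ?_, ?_⟩
  · refine ⟨(C : ℝ) ^ 4 * Real.exp (4 * m * sn (src e)), 4 * m, by positivity, fun y => ?_⟩
    refine (hf2 y).trans (mul_le_mul_of_nonneg_left (Real.exp_le_exp.2 ?_) (by positivity))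
    have := norm_le_sn y
    nlinarith
  · refine lim_eqn (b := b) F ω u ⟨f, hmem⟩ hf (fun k => (E : ℂ) + ε k * Complex.I) (E : ℂ)
      (swa_tendsto_z hε0 E hFat) (fun k => grad e) (fun k => ?_) (grad e)
      (fun x => tendsto_const_nhds)
    rw [hu]
    exact Hz_Rz b ω (him k).ne' (grad e)

/-- off the second set there is no eigenvector -/
theorem ker_of_NB {ε : ℕ → ℝ} (hε : ∀ k, 0 < ε k) {E : ℝ} {ω : Edge d → ℝ}
    (h : (E, ω) ∉ NB (d := d) b ε) {ψ : L2 d} (hψ : Hc b ω ψ = (E : ℂ) • ψ) : ψ = 0 := by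
  ext y
  have hb : ∀ k, ‖ψ y‖ ^ 2 ≤ ‖ψ‖ ^ 2 *
      ‖(ε k : ℂ) * G b ω ((E : ℂ) + ε k * Complex.I) y y‖ := by
    intro k
    set z : ℂ := (E : ℂ) + ε k * Complex.I with hz'
    have hzim : z.im = ε k := by simp [hz']
    have hz0 : 0 < z.im := by rw [hzim]; exact hε k
    set u : L2 d := Rz b ω z (dl y) with hu
    have h1 : ⟪ψ, dl y⟫_ℂ = ((E : ℂ) - z) * ⟪ψ, u⟫_ℂ := by
      have e1 := Hz_Rz b ω hz0.ne' (dl y)
      rw [← hu] at e1
      rw [← e1, inner_sub_right, ← inner_Hc, hψ, inner_smul_right, inner_smul_left,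
        Complex.conj_ofReal]
      ring
    have h2 : ‖⟪ψ, dl y⟫_ℂ‖ = ‖ψ y‖ := by
      rw [dl, lp.inner_single_right]
      simp
    have hEz : ‖(E : ℂ) - z‖ = ε k := by
      rw [hz', sub_add_cancel_left, norm_neg, norm_mul, Complex.norm_I, mul_one, Complex.norm_real,
        Real.norm_eq_abs, abs_of_pos (hε k)]
    have h3 : ‖ψ y‖ ≤ ε k * (‖ψ‖ * ‖u‖) := by
      rw [← h2, h1, norm_mul, hEz]
      exact mul_le_mul_of_nonneg_left (norm_inner_le_norm _ _) (hε k).le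
    have h4 := ward b ω hz0 (dl y)
    rw [← hu, hzim, ← swa_coord] at h4
    have h5 : ‖ψ y‖ ^ 2 ≤ (ε k) ^ 2 * (‖ψ‖ ^ 2 * ‖u‖ ^ 2) := by
      have := pow_le_pow_left₀ (norm_nonneg _) h3 2
      rw [mul_pow, mul_pow] at this
      exact this
    have h6 : ‖(ε k : ℂ) * G b ω z y y‖ = ε k * ‖u y‖ := by
      rw [norm_mul, Complex.norm_real, Real.norm_eq_abs, abs_of_pos (hε k), hu]
      rfl
    rw [h6]
    have h7 : (u y).im ≤ ‖u y‖ := (le_abs_self _).trans (Complex.abs_im_le_norm _)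
    calc ‖ψ y‖ ^ 2 ≤ (ε k) ^ 2 * (‖ψ‖ ^ 2 * ‖u‖ ^ 2) := h5
      _ = ‖ψ‖ ^ 2 * (ε k * (ε k * ‖u‖ ^ 2)) := by ring
      _ = ‖ψ‖ ^ 2 * (ε k * (u y).im) := by rw [h4]
      _ ≤ ‖ψ‖ ^ 2 * (ε k * ‖u y‖) := by
          refine mul_le_mul_of_nonneg_left (mul_le_mul_of_nonneg_left h7 (hε k).le) (by positivity)
  have hls : limsup (fun k => ‖(ε k : ℂ) * G b ω ((E : ℂ) + ε k * Complex.I) y y‖ₑ) atTop = 0 := by
    by_contra hcon
    exact h ⟨y, hcon⟩
  have ht : Tendsto (fun k => ‖(ε k : ℂ) * G b ω ((E : ℂ) + ε k * Complex.I) y y‖ₑ) atTop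
      (𝓝 0) := tendsto_of_le_liminf_of_limsup_le bot_le hls.le
  have ht2 : Tendsto (fun k => ‖(ε k : ℂ) * G b ω ((E : ℂ) + ε k * Complex.I) y y‖) atTop
      (𝓝 0) := by
    have := (ENNReal.tendsto_toReal ENNReal.zero_ne_top).comp ht
    simpa [Function.comp_def] using this
  have hlim : Tendsto (fun k => ‖ψ‖ ^ 2 *
      ‖(ε k : ℂ) * G b ω ((E : ℂ) + ε k * Complex.I) y y‖) atTop (𝓝 0) := by
    have := ht2.const_mul (‖ψ‖ ^ 2)
    rwa [mul_zero] at this
  have h0 : ‖ψ y‖ ^ 2 ≤ 0 := ge_of_tendsto' hlim hb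
  have : ‖ψ y‖ = 0 := by
    have := le_antisymm h0 (by positivity)
    exact (pow_eq_zero_iff two_ne_zero).1 this
  simpa using this

/-- a reference conductance for the edge `e` -/
theorem exists_ref (e : Edge d) {N : Set (ℝ × (Edge d → ℝ))} (hN : MeasurableSet N)
    (h : ∀ᵐ E : ℝ, ∀ᵐ ω ∂(PE d κ), (E, ω) ∉ N) :
    ∃ t0 : ℝ, ∀ᵐ ω ∂(PE d κ), ∀ᵐ E : ℝ, (E, Function.update ω e t0) ∉ N := by
  have h0 : (volume.prod (PE d κ)) N = 0 := by
    rw [Measure.measure_prod_null hN]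
    filter_upwards [h] with E hE
    rw [ae_iff] at hE
    simp only [not_not] at hE
    exact hE
  have h1 : ((PE d κ).prod volume) (Prod.swap ⁻¹' N) = 0 := by
    rw [← Measure.prod_swap, Measure.map_apply measurable_swap (measurable_swap hN)]
    exact h0
  have h2 : ∀ᵐ ω ∂(PE d κ), ∀ᵐ E : ℝ, (E, ω) ∉ N := by
    have := Measure.measure_ae_null_of_prod_null h1
    filter_upwards [this] with ω hω
    rw [ae_iff]
    simp only [not_not]
    exact hω
  have hQ : MeasurableSet {ω : Edge d → ℝ | volume {E : ℝ | (E, ω) ∈ N} = 0} := by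
    have : Measurable fun ω : Edge d → ℝ => volume {E : ℝ | (E, ω) ∈ N} :=
      measurable_measure_prodMk_right hN
    exact this (measurableSet_singleton 0)
  have h3 : ∀ᵐ ω ∂(PE d κ), ω ∈ {ω : Edge d → ℝ | volume {E : ℝ | (E, ω) ∈ N} = 0} := by
    filter_upwards [h2] with ω hω
    simpa [ae_iff] using hω
  have h4 : ∀ᵐ p ∂((PE d κ).prod κ), Function.update p.1 e p.2
      ∈ {ω : Edge d → ℝ | volume {E : ℝ | (E, ω) ∈ N} = 0} := by
    have hmap := map_update (μ := κ) e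
    have h3' : ∀ᵐ ω ∂(((PE d κ).prod κ).map fun p : (Edge d → ℝ) × ℝ => Function.update p.1 e p.2),
        ω ∈ {ω : Edge d → ℝ | volume {E : ℝ | (E, ω) ∈ N} = 0} := by
      rw [hmap]; exact h3
    exact ae_of_ae_map (measurable_update_prod e).aemeasurable h3'
  have h5 : ∀ᵐ p ∂(κ.prod (PE d κ)), Function.update p.2 e p.1
      ∈ {ω : Edge d → ℝ | volume {E : ℝ | (E, ω) ∈ N} = 0} := by
    rw [← Measure.prod_swap] at h4
    exact ae_of_ae_map measurable_swap.aemeasurable h4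
  have h6 := Measure.ae_ae_of_ae_prod h5
  obtain ⟨t0, ht0⟩ := h6.exists
  refine ⟨t0, ?_⟩
  filter_upwards [ht0] with ω hω
  simpa [ae_iff] using hω

end RC
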