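import Pool.Agent.RC.PDefs

set_option autoImplicit false

/-!
Project RC (MP_938f0c_mp): the definitions of the statement.
-/

open scoped ENNReal NNReal InnerProductSpace
open MeasureTheory Set

noncomputable section

namespace RC

open Pool.Agent.Helper3.Anderson Pool.Agent.Helper3.Crit

variable {d : ℕ}

/-- The random conductance operator on functions `ℤ^d → ℂ`:
`(H_w f)(x) = ∑_{y ~ x} w(x,y) (f(x) - f(y))`; here `w (x, j)` is the conductance of the edge
between `x` and `x + e_j`. -/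
def Hw (w : Edge d → ℝ) (f : Site d → ℂ) (x : Site d) : ℂ :=
  ∑ j : Fin d, ((w (x, j) : ℂ) * (f x - f (x + Pi.single j 1)) +
    (w (x - Pi.single j 1, j) : ℂ) * (f x - f (x - Pi.single j 1)))

/-- `f` is in `ℓ²(ℤ^d)` and `H_w f = E f`: `f` is zero or an eigenfunction with eigenvalue `E`. -/
def Eig (w : Edge d → ℝ) (E : ℝ) (f : L2 d) : Prop := ∀ x : Site d, Hw w f x = (E : ℂ) * f x

/-- `H_w` is localised on the energies `[c, ∞)`:
every eigenfunction with eigenvalue `E ≥ c` decays exponentially, and the spectrum of `H_w` in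
`[c, ∞)` is pure point. The second part is written with the quadratic form
`⟨g, H_w g⟩ = ∑_{x, j} w(x, x + e_j) |g(x + e_j) - g(x)|²`: if `g ∈ ℓ²(ℤ^d)` is orthogonal to all
eigenfunctions with eigenvalue `E ≥ c` then `⟨g, H_w g⟩ ≤ c ‖g‖²` (equivalently: the spectral
measure of `g` does not charge `[c, ∞)`). -/
def LocalisedAbove (w : Edge d → ℝ) (c : ℝ) : Prop :=
  (∀ E : ℝ, c ≤ E → ∀ f : L2 d, Eig w E f →
    ∃ C m : ℝ, 0 < m ∧ ∀ x : Site d, ‖f x‖ ≤ C * Real.exp (-(m * ‖x‖))) ∧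
  ∀ g : L2 d, (∀ E : ℝ, c ≤ E → ∀ f : L2 d, Eig w E f → ⟪f, g⟫_ℂ = 0) →
    ∑' e : Edge d, ENNReal.ofReal (w e * ‖g (e.1 + Pi.single e.2 1) - g e.1‖ ^ 2) ≤
      ENNReal.ofReal (c * ‖g‖ ^ 2)

end RC
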