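import Pool.Agent.RC.Res

set_option autoImplicit false

/-!
TWO: fractional moments of `qq` with respect to one or two weak bonds.
-/

open scoped ENNReal NNReal InnerProductSpace
open MeasureTheory Set Filter Topology

noncomputable section

namespace RC

open Pool.Agent.Helper3.Anderson Pool.Agent.Helper3.Crit

variable {d : ℕ} {b : ℝ} {K : ℝ≥0} {z : ℂ} {κ : Measure ℝ} [IsProbabilityMeasure κ]

omit [IsProbabilityMeasure κ] in
theorem ae_mem_Ioc (hL : LawK κ b K) : ∀ᵐ w ∂κ, w ∈ Ioc 0 b := by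
  rw [ae_iff]; exact hL.supp

omit [IsProbabilityMeasure κ] in
/-- the law of the resistance has density at most `K q` on the weak bonds -/
theorem kap_le (hL : LawK κ b K) {q : ℝ} (hq : 0 < q) (c t : ℝ) :
    κ {w | w ≤ q ∧ |w⁻¹ - c| ≤ t} ≤ K * ENNReal.ofReal (2 * q * t) := by
  set l : ℝ := max (c - t) q⁻¹ with hl
  set r : ℝ := c + t with hr
  have hl0 : 0 < l := lt_of_lt_of_le (inv_pos.2 hq) (le_max_right _ _)
  have hsub : {w | w ≤ q ∧ |w⁻¹ - c| ≤ t} ⊆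
      (Ioc 0 b)ᶜ ∪ (Real.log ⁻¹' (if l ≤ r then Icc (-Real.log r) (-Real.log l) else ∅)) := by
    intro w hw
    obtain ⟨hw1, hw2⟩ := hw
    by_cases hwb : w ∈ Ioc 0 b
    · right
      have hw0 : 0 < w := hwb.1
      have hi : q⁻¹ ≤ w⁻¹ := inv_anti₀ hw0 hw1
      rw [abs_le] at hw2
      have h1 : l ≤ w⁻¹ := max_le (by linarith [hw2.1]) hi
      have h2 : w⁻¹ ≤ r := by linarith [hw2.2]
      have h3 : l ≤ r := h1.trans h2
      rw [if_pos h3]
      have e1 : Real.log w = -Real.log w⁻¹ := by rw [Real.log_inv, neg_neg]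
      show Real.log w ∈ Icc (-Real.log r) (-Real.log l)
      rw [e1]
      constructor
      · exact neg_le_neg (Real.log_le_log (inv_pos.2 hw0) h2)
      · exact neg_le_neg (Real.log_le_log hl0 h1)
    · left; exact hwb
  refine (measure_mono hsub).trans ((measure_union_le _ _).trans ?_)
  rw [hL.supp, zero_add]
  split_ifs with hlr
  · rw [← Measure.map_apply Real.measurable_log measurableSet_Icc]
    refine (hL.dens _).trans ?_
    rw [Measure.smul_apply, Real.volume_Icc]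
    show (K : ℝ≥0∞) * _ ≤ _
    gcongr
    have hr0 : 0 < r := hl0.trans_le hlr
    have h1 : Real.log r - Real.log l = Real.log (r / l) := by
      rw [Real.log_div hr0.ne' hl0.ne']
    have h2 : Real.log (r / l) ≤ r / l - 1 := Real.log_le_sub_one_of_pos (div_pos hr0 hl0)
    have h3 : r / l - 1 = (r - l) * l⁻¹ := by field_simp
    have h4 : l⁻¹ ≤ q := by
      rw [inv_le_comm₀ hl0 hq]; exact le_max_right _ _
    have h5 : r - l ≤ 2 * t := by
      have : c - t ≤ l := le_max_left _ _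
      linarith
    have h6 : 0 ≤ r - l := by linarith
    have h7 : (r - l) * l⁻¹ ≤ 2 * t * q :=
      mul_le_mul h5 h4 (inv_pos.2 hl0).le (by linarith)
    linarith
  · simp

/-- no atoms -/
theorem kap_atom (hL : LawK κ b K) (w₀ : ℝ) : κ {w₀} = 0 := by
  by_cases h : w₀ ∈ Ioc 0 b
  · have := kap_le hL h.1 w₀⁻¹ 0
    simp only [mul_zero, ENNReal.ofReal_zero, nonpos_iff_eq_zero] at this
    refine measure_mono_null ?_ this
    rintro w rfl
    simp
  · exact measure_mono_null (by simpa using h) hL.supp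

theorem K_pos (hL : LawK κ b K) : 0 < K := by
  by_contra hK
  have hK0 : K = 0 := le_antisymm (not_lt.1 hK) zero_le
  have h1 := hL.dens univ
  rw [hK0, zero_smul, Measure.map_apply Real.measurable_log MeasurableSet.univ] at h1
  simp at h1

theorem lint_min {A : ℝ} (hA : 0 < A) :
    ∫⁻ u in Ioi (0 : ℝ), min 1 (ENNReal.ofReal (A * u ^ (-4 : ℝ)))
      ≤ ENNReal.ofReal (4 / 3 * A ^ (1 / 4 : ℝ)) := by
  set m : ℝ := A ^ (1 / 4 : ℝ) with hm
  have hm0 : 0 < m := Real.rpow_pos_of_pos hA _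
  have hA4 : A = m ^ (4 : ℝ) := by
    rw [hm, ← Real.rpow_mul hA.le]; norm_num
  have hU : Ioi (0 : ℝ) = Ioc 0 m ∪ Ioi m := (Ioc_union_Ioi_eq_Ioi hm0.le).symm
  rw [hU]
  refine (lintegral_union_le _ _ _).trans ?_
  have h1 : ∫⁻ u in Ioc (0 : ℝ) m, min 1 (ENNReal.ofReal (A * u ^ (-4 : ℝ))) ≤ ENNReal.ofReal m := by
    calc _ ≤ ∫⁻ u in Ioc (0 : ℝ) m, 1 := lintegral_mono fun u => min_le_left _ _
      _ = _ := by rw [lintegral_one, Measure.restrict_apply_univ, Real.volume_Ioc, sub_zero]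
  have h2 : ∫⁻ u in Ioi m, min 1 (ENNReal.ofReal (A * u ^ (-4 : ℝ))) ≤ ENNReal.ofReal (m / 3) := by
    calc _ ≤ ∫⁻ u in Ioi m, ENNReal.ofReal (A * u ^ (-4 : ℝ)) :=
          lintegral_mono fun u => min_le_right _ _
      _ = ENNReal.ofReal (∫ u in Ioi m, A * u ^ (-4 : ℝ)) := by
          rw [ofReal_integral_eq_lintegral_ofReal]
          · exact ((integrableOn_Ioi_rpow_of_lt (by norm_num) hm0).const_mul A)
          · refine (ae_restrict_mem measurableSet_Ioi).mono fun u hu => ?_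
            have : 0 < u := hm0.trans hu
            positivity
      _ ≤ _ := by
          apply ENNReal.ofReal_le_ofReal
          rw [integral_const_mul, integral_Ioi_rpow_of_lt (by norm_num) hm0]
          have e1 : ((-4 : ℝ) + 1) = -3 := by norm_num
          rw [e1]
          have e2 : A * (-m ^ (-3 : ℝ) / -3) = m / 3 := by
            rw [hA4]
            have : m ^ (4 : ℝ) * m ^ (-3 : ℝ) = m := by
              rw [← Real.rpow_add hm0]; norm_num
            calc _ = (m ^ (4 : ℝ) * m ^ (-3 : ℝ)) / 3 := by ring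
              _ = _ := by rw [this]
          rw [e2]
  refine (add_le_add h1 h2).trans ?_
  rw [← ENNReal.ofReal_add hm0.le (by positivity)]
  apply ENNReal.ofReal_le_ofReal
  linarith

/-- The fractional moment of `1/(r - β)`, `r = 1/w` the resistance, over the weak bonds. -/
theorem res_moment (hL : LawK κ b K) {q : ℝ} (hq : 0 < q) (β : ℂ) :
    ∫⁻ w in Iic q, ‖((w⁻¹ : ℝ) : ℂ) - β‖ₑ ^ (-(1 / 4 : ℝ)) ∂κ
      ≤ 2 * ENNReal.ofReal (K * q) ^ (1 / 4 : ℝ) := by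
  have hK : (0 : ℝ) < K := K_pos hL
  have hne : ∀ᵐ w ∂(κ.restrict (Iic q)), ((w⁻¹ : ℝ) : ℂ) - β ≠ 0 := by
    refine ae_restrict_of_ae ?_
    rw [ae_iff]
    refine measure_mono_null (t := {β.re⁻¹}) ?_ (kap_atom hL _)
    intro w hw
    have h1 : ((w⁻¹ : ℝ) : ℂ) - β = 0 := not_not.1 hw
    have h2 := congrArg Complex.re h1
    simp only [Complex.sub_re, Complex.ofReal_re, Complex.zero_re] at h2
    have h3 : w⁻¹ = β.re := by linarith
    rw [mem_singleton_iff, ← h3, inv_inv]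
  have e1 : ∫⁻ w in Iic q, ‖((w⁻¹ : ℝ) : ℂ) - β‖ₑ ^ (-(1 / 4 : ℝ)) ∂κ
      = ∫⁻ w in Iic q, ENNReal.ofReal (‖((w⁻¹ : ℝ) : ℂ) - β‖ ^ (-(1 / 4 : ℝ))) ∂κ := by
    refine lintegral_congr_ae ?_
    filter_upwards [hne] with w hw
    rw [← ofReal_norm, ENNReal.ofReal_rpow_of_pos (norm_pos_iff.2 hw)]
  have hmeas : Measurable fun w : ℝ => ‖((w⁻¹ : ℝ) : ℂ) - β‖ ^ (-(1 / 4 : ℝ)) := by
    fun_prop
  rw [e1, lintegral_eq_lintegral_meas_lt _ (Eventually.of_forall fun w => by positivity)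
    hmeas.aemeasurable]
  have hA : 0 < 2 * K * q := by positivity
  have h2 : ∀ u ∈ Ioi (0 : ℝ),
      (κ.restrict (Iic q)) {w : ℝ | u < ‖((w⁻¹ : ℝ) : ℂ) - β‖ ^ (-(1 / 4 : ℝ))}
        ≤ min 1 (ENNReal.ofReal (2 * K * q * u ^ (-4 : ℝ))) := by
    intro u hu
    have hu : 0 < u := hu
    refine le_min ?_ ?_
    · refine (measure_mono (subset_univ _)).trans ?_
      rw [Measure.restrict_apply_univ]
      exact prob_le_one
    · rw [Measure.restrict_apply' measurableSet_Iic]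
      have hs : {w : ℝ | u < ‖((w⁻¹ : ℝ) : ℂ) - β‖ ^ (-(1 / 4 : ℝ))} ∩ Iic q
          ⊆ {w | w ≤ q ∧ |w⁻¹ - β.re| ≤ u ^ (-4 : ℝ)} := by
        rintro w ⟨hw1, hw2⟩
        refine ⟨hw2, ?_⟩
        have hw1 : u < ‖((w⁻¹ : ℝ) : ℂ) - β‖ ^ (-(1 / 4 : ℝ)) := hw1
        have h3 : |w⁻¹ - β.re| ≤ ‖((w⁻¹ : ℝ) : ℂ) - β‖ := by
          have := Complex.abs_re_le_norm (((w⁻¹ : ℝ) : ℂ) - β)
          rwa [Complex.sub_re, Complex.ofReal_re] at this
        refine h3.trans ?_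
        set N : ℝ := ‖((w⁻¹ : ℝ) : ℂ) - β‖ with hN
        rcases eq_or_lt_of_le (norm_nonneg (((w⁻¹ : ℝ) : ℂ) - β)) with h0 | h0
        · rw [← hN] at h0
          rw [← h0]; positivity
        · rw [← hN] at h0
          have h4 : (N ^ (-(1 / 4 : ℝ))) ^ (-4 : ℝ) ≤ u ^ (-4 : ℝ) :=
            Real.rpow_le_rpow_of_nonpos hu hw1.le (by norm_num)
          rwa [← Real.rpow_mul h0.le, show (-(1 / 4 : ℝ)) * (-4) = 1 by norm_num,
            Real.rpow_one] at h4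
      refine (measure_mono hs).trans ((kap_le hL hq _ _).trans ?_)
      have : (K : ℝ≥0∞) = ENNReal.ofReal (K : ℝ) := by simp
      rw [this, ← ENNReal.ofReal_mul hK.le]
      apply ENNReal.ofReal_le_ofReal
      apply le_of_eq; ring
  refine (setLIntegral_mono' measurableSet_Ioi h2).trans ((lint_min hA).trans ?_)
  have hKq : 0 < (K : ℝ) * q := by positivity
  rw [ENNReal.ofReal_rpow_of_pos hKq]
  have h22 : (2 : ℝ≥0∞) = ENNReal.ofReal 2 := by simp
  rw [h22, ← ENNReal.ofReal_mul (by norm_num)]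
  apply ENNReal.ofReal_le_ofReal
  rw [mul_assoc 2, Real.mul_rpow (by norm_num) hKq.le]
  have h23 : (2 : ℝ) ^ (1 / 4 : ℝ) ≤ 3 / 2 := by
    have h24 : ((2 : ℝ) ^ (1 / 4 : ℝ)) ^ (4 : ℕ) = 2 := by
      rw [← Real.rpow_natCast, ← Real.rpow_mul (by norm_num)]; norm_num
    refine le_of_pow_le_pow_left₀ (n := 4) (by norm_num) (by norm_num) ?_
    rw [h24]; norm_num
  have h25 : 0 ≤ ((K : ℝ) * q) ^ (1 / 4 : ℝ) := by positivity
  nlinarith

theorem gg_sub (b : ℝ) (a a' : Edge d → ℝ) (hz : 0 < z.im) (F : Finset (Edge d))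
    (h : ∀ e, e ∉ F → cl b (a e) = cl b (a' e)) (e f : Edge d) :
    gg b a z e f - gg b a' z e f =
      -∑ k ∈ F, ((cl b (a k) - cl b (a' k) : ℝ) : ℂ) * gg b a z e k * gg b a' z k f := by
  have h1 := G_sub b a a' hz F h (tgt e) (tgt f)
  have h2 := G_sub b a a' hz F h (tgt e) (src f)
  have h3 := G_sub b a a' hz F h (src e) (tgt f)
  have h4 := G_sub b a a' hz F h (src e) (src f)
  have e1 : gg b a z e f - gg b a' z e f
      = (G b a z (tgt e) (tgt f) - G b a' z (tgt e) (tgt f))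
        - (G b a z (src e) (tgt f) - G b a' z (src e) (tgt f))
        - ((G b a z (tgt e) (src f) - G b a' z (tgt e) (src f))
        - (G b a z (src e) (src f) - G b a' z (src e) (src f))) := by
    simp only [gg, gL]; ring
  rw [e1, h1, h2, h3, h4]
  simp only [← Finset.sum_neg_distrib, ← Finset.sum_sub_distrib]
  refine Finset.sum_congr rfl fun k _ => ?_
  simp only [gg, gL, gR]
  ring

theorem one_add_ne {s : ℝ} (hs : 0 < s) {A : ℂ} (hA : 0 < A.im) : 1 + (s : ℂ) * A ≠ 0 := by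
  intro h
  have := congrArg Complex.im h
  simp only [Complex.add_im, Complex.one_im, Complex.mul_im, Complex.ofReal_re, Complex.ofReal_im,
    zero_mul, add_zero, zero_add, Complex.zero_im] at this
  exact absurd this (mul_pos hs hA).ne'

theorem inv_add_ne {s : ℝ} {A : ℂ} (hA : 0 < A.im) : ((s⁻¹ : ℝ) : ℂ) + A ≠ 0 := by
  intro h
  have := congrArg Complex.im h
  simp only [Complex.add_im, Complex.ofReal_im, zero_add, Complex.zero_im] at this
  exact hA.ne' this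

theorem qq_diag_eq (hb : 0 ≤ b) (hz : 0 < z.im) (a : Edge d → ℝ) (e : Edge d) {s : ℝ}
    (hs : s ∈ Ioc 0 b) :
    qq b (Function.update a e s) z e e
      = (((s⁻¹ : ℝ) : ℂ) + gg b (Function.update a e 0) z e e)⁻¹ := by
  set A := gg b (Function.update a e 0) z e e with hAdef
  have hA : 0 < A.im := gg_im_pos b _ hz e
  have hsub := gg_sub b (Function.update a e s) (Function.update a e 0) hz {e} (by
    intro k hk
    rw [Finset.mem_singleton] at hk
    rw [Function.update_of_ne hk, Function.update_of_ne hk]) e e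
  rw [Finset.sum_singleton, Function.update_self, Function.update_self, cl_zero hb,
    cl_of_mem ⟨hs.1.le, hs.2⟩, ← hAdef, sub_zero] at hsub
  have h1 := one_add_ne hs.1 hA
  have h2 := inv_add_ne (s := s) hA
  have hs0 : (s : ℂ) ≠ 0 := by exact_mod_cast hs.1.ne'
  set g := gg b (Function.update a e s) z e e with hg
  have h3 : g * (1 + (s : ℂ) * A) = A := by linear_combination hsub
  have h4 : g = A / (1 + (s : ℂ) * A) := by rw [eq_div_iff h1]; exact h3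
  rw [qq, if_pos rfl, Function.update_self, cl_of_mem ⟨hs.1.le, hs.2⟩, ← hg, h4]
  rw [eq_comm, inv_eq_iff_eq_inv, eq_comm]
  rw [inv_eq_iff_eq_inv]
  have h5 : ((s⁻¹ : ℝ) : ℂ) + A = (1 + (s : ℂ) * A) / s := by
    rw [Complex.ofReal_inv]; field_simp
  rw [h5, inv_div]
  field_simp
  ring

theorem qq_diag (hb : 0 ≤ b) (hL : LawK κ b K) (hz : 0 < z.im) {q : ℝ} (hq : 0 < q)
    (a : Edge d → ℝ) (e : Edge d) :
    ∫⁻ s in Iic q, ‖qq b (Function.update a e s) z e e‖ₑ ^ (1 / 4 : ℝ) ∂κ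
      ≤ 8 * ENNReal.ofReal (K * q) ^ (1 / 4 : ℝ) := by
  have h1 : ∫⁻ s in Iic q, ‖qq b (Function.update a e s) z e e‖ₑ ^ (1 / 4 : ℝ) ∂κ
      = ∫⁻ s in Iic q, ‖((s⁻¹ : ℝ) : ℂ) - (-gg b (Function.update a e 0) z e e)‖ₑ
          ^ (-(1 / 4 : ℝ)) ∂κ := by
    refine lintegral_congr_ae ?_
    filter_upwards [ae_restrict_of_ae (ae_mem_Ioc hL)] with s hs
    rw [qq_diag_eq hb hz a e hs, sub_neg_eq_add, enorm_inv
      (inv_add_ne (gg_im_pos b _ hz e)), ENNReal.inv_rpow, ENNReal.rpow_neg]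
  rw [h1]
  refine (res_moment hL hq _).trans ?_
  gcongr
  norm_num

theorem qq_off_eq (hb : 0 ≤ b) (hz : 0 < z.im) (a : Edge d → ℝ) {e f : Edge d} (hef : e ≠ f)
    {s t : ℝ} (hs : s ∈ Ioc 0 b) (ht : t ∈ Ioc 0 b) :
    qq b (Function.update (Function.update a e s) f t) z e f
      * ((((s⁻¹ : ℝ) : ℂ) + gg b (Function.update (Function.update a e 0) f 0) z e e)
        * (((t⁻¹ : ℝ) : ℂ) + gg b (Function.update (Function.update a e 0) f 0) z f f)
        - gg b (Function.update (Function.update a e 0) f 0) z e f ^ 2)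
      = -gg b (Function.update (Function.update a e 0) f 0) z e f := by
  set a0 := Function.update (Function.update a e 0) f 0 with ha0
  set a1 := Function.update (Function.update a e s) f t with ha1
  set A := gg b a0 z e e with hA
  set D := gg b a0 z f f with hD
  set B := gg b a0 z e f with hB
  have hB' : gg b a0 z f e = B := gg_symm b a0 hz f e
  have hF : ∀ k, k ∉ ({e, f} : Finset (Edge d)) → cl b (a1 k) = cl b (a0 k) := by
    intro k hk
    simp only [Finset.mem_insert, Finset.mem_singleton, not_or] at hk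
    rw [ha0, ha1, Function.update_of_ne hk.2, Function.update_of_ne hk.1,
      Function.update_of_ne hk.2, Function.update_of_ne hk.1]
  have v1 : cl b (a1 e) = s := by
    rw [ha1, Function.update_of_ne hef, Function.update_self, cl_of_mem ⟨hs.1.le, hs.2⟩]
  have v2 : cl b (a1 f) = t := by
    rw [ha1, Function.update_self, cl_of_mem ⟨ht.1.le, ht.2⟩]
  have v3 : cl b (a0 e) = 0 := by
    rw [ha0, Function.update_of_ne hef, Function.update_self, cl_zero hb]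
  have v4 : cl b (a0 f) = 0 := by
    rw [ha0, Function.update_self, cl_zero hb]
  have h1 := gg_sub b a1 a0 hz {e, f} hF e e
  have h2 := gg_sub b a1 a0 hz {e, f} hF e f
  rw [Finset.sum_pair hef, v1, v2, v3, v4, sub_zero, sub_zero] at h1 h2
  rw [hB', ← hA] at h1
  rw [← hB, ← hD] at h2
  have hs0 : (s : ℂ) ≠ 0 := by exact_mod_cast hs.1.ne'
  have ht0 : (t : ℂ) ≠ 0 := by exact_mod_cast ht.1.ne'
  rw [qq, if_neg hef, v1, v2, Complex.ofReal_inv, Complex.ofReal_inv]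
  set g := gg b a1 z e f with hg
  set g' := gg b a1 z e e with hg'
  have h3 : g * ((1 + s * A) * (1 + t * D) - s * t * B ^ 2) = B := by
    linear_combination (1 + s * A) * h2 - (s * B) * h1
  have h4 : ((s : ℂ)⁻¹ + A) * ((t : ℂ)⁻¹ + D) - B ^ 2
      = ((1 + s * A) * (1 + t * D) - s * t * B ^ 2) / (s * t) := by
    field_simp
  rw [h4]
  have h5 : -(↑s * ↑t * g) * (((1 + ↑s * A) * (1 + ↑t * D) - ↑s * ↑t * B ^ 2) / (↑s * ↑t))
      = -(g * ((1 + s * A) * (1 + t * D) - s * t * B ^ 2)) := by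
    field_simp
  rw [h5, h3]

theorem three_cases {X Y B Q : ℂ} (hX : X ≠ 0) (hY : Y ≠ 0) (hQ : Q * (X * Y - B ^ 2) = -B) :
    ‖Q‖ₑ ≤ 2 * ‖X - B ^ 2 / Y‖ₑ⁻¹ ∨ ‖Q‖ₑ ≤ 2 * ‖Y - B ^ 2 / X‖ₑ⁻¹ ∨ ‖Q‖ₑ ≤ 2 * ‖X‖ₑ⁻¹ := by
  have key : ∀ Z : ℂ, ‖Q‖ * ‖Z‖ ≤ 2 → ‖Q‖ₑ ≤ 2 * ‖Z‖ₑ⁻¹ := by
    intro Z hZ
    by_cases hZ0 : Z = 0
    · subst hZ0
      rw [enorm_zero, ENNReal.inv_zero, ENNReal.mul_top (by norm_num)]
      exact le_top
    · rw [← div_eq_mul_inv, ENNReal.le_div_iff_mul_le (Or.inl (by simpa using hZ0))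
        (Or.inl enorm_ne_top), ← ofReal_norm, ← ofReal_norm, ← ENNReal.ofReal_mul (norm_nonneg _)]
      have : (2 : ℝ≥0∞) = ENNReal.ofReal 2 := by simp
      rw [this]
      exact ENNReal.ofReal_le_ofReal hZ
  have hXn : 0 < ‖X‖ := norm_pos_iff.2 hX
  have hYn : 0 < ‖Y‖ := norm_pos_iff.2 hY
  by_cases h1 : ‖B‖ ≤ 2 * ‖Y‖
  · left
    apply key
    have e1 : Q * (X - B ^ 2 / Y) * Y = -B := by
      rw [← hQ]; field_simp
    have e2 : ‖Q‖ * ‖X - B ^ 2 / Y‖ * ‖Y‖ = ‖B‖ := by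
      rw [← norm_mul, ← norm_mul, e1, norm_neg]
    by_contra hcon
    push Not at hcon
    have := mul_lt_mul_of_pos_right hcon hYn
    linarith
  by_cases h2 : ‖B‖ ≤ 2 * ‖X‖
  · right; left
    apply key
    have e1 : Q * (Y - B ^ 2 / X) * X = -B := by
      rw [← hQ]; field_simp
    have e2 : ‖Q‖ * ‖Y - B ^ 2 / X‖ * ‖X‖ = ‖B‖ := by
      rw [← norm_mul, ← norm_mul, e1, norm_neg]
    by_contra hcon
    push Not at hcon
    have := mul_lt_mul_of_pos_right hcon hXn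
    linarith
  · right; right
    apply key
    push Not at h1 h2
    have e2 : ‖Q‖ * ‖X * Y - B ^ 2‖ = ‖B‖ := by
      rw [← norm_mul, hQ, norm_neg]
    have e3 : ‖B‖ ^ 2 - ‖X‖ * ‖Y‖ ≤ ‖X * Y - B ^ 2‖ := by
      have := norm_sub_norm_le (B ^ 2) (X * Y)
      rw [norm_pow, norm_mul, norm_sub_rev] at this
      exact this
    have hB : 0 < ‖B‖ := by linarith
    have e4 : 3 / 4 * ‖B‖ ^ 2 ≤ ‖X * Y - B ^ 2‖ := by
      nlinarith
    have e5 : ‖Q‖ * (3 / 4 * ‖B‖ ^ 2) ≤ ‖B‖ := by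
      rw [← e2]; rw [e2]
      calc _ ≤ ‖Q‖ * ‖X * Y - B ^ 2‖ := by gcongr
        _ = _ := e2
    have e6 : ‖Q‖ * (3 / 4 * ‖B‖) ≤ 1 := by
      have : (‖Q‖ * (3 / 4 * ‖B‖)) * ‖B‖ ≤ 1 * ‖B‖ := by nlinarith
      exact le_of_mul_le_mul_right this hB
    have hQ0 : 0 ≤ ‖Q‖ := norm_nonneg _
    nlinarith

theorem qq_off (hb : 0 ≤ b) (hL : LawK κ b K) (hz : 0 < z.im) {q : ℝ} (hq : 0 < q)
    (a : Edge d → ℝ) {e f : Edge d} (hef : e ≠ f) :
    ∫⁻ s in Iic q, ∫⁻ t in Iic q,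
      ‖qq b (Function.update (Function.update a e s) f t) z e f‖ₑ ^ (1 / 4 : ℝ) ∂κ ∂κ
      ≤ 8 * ENNReal.ofReal (K * q) ^ (1 / 4 : ℝ) := by
  set a0 := Function.update (Function.update a e 0) f 0 with ha0
  set A := gg b a0 z e e with hA
  set D := gg b a0 z f f with hD
  set B := gg b a0 z e f with hB
  have hAi : 0 < A.im := gg_im_pos b _ hz e
  have hDi : 0 < D.im := gg_im_pos b _ hz f
  set M := 2 * ENNReal.ofReal (K * q) ^ (1 / 4 : ℝ) with hM
  set f1 : ℝ → ℝ → ℝ≥0∞ := fun s t =>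
    ‖((s⁻¹ : ℝ) : ℂ) - (B ^ 2 / (((t⁻¹ : ℝ) : ℂ) + D) - A)‖ₑ ^ (-(1 / 4 : ℝ)) with hf1
  set f2 : ℝ → ℝ → ℝ≥0∞ := fun s t =>
    ‖((t⁻¹ : ℝ) : ℂ) - (B ^ 2 / (((s⁻¹ : ℝ) : ℂ) + A) - D)‖ₑ ^ (-(1 / 4 : ℝ)) with hf2
  set f3 : ℝ → ℝ≥0∞ := fun s => ‖((s⁻¹ : ℝ) : ℂ) - (-A)‖ₑ ^ (-(1 / 4 : ℝ)) with hf3
  have m1 : Measurable (Function.uncurry f1) := by
    rw [hf1]; unfold Function.uncurry; fun_prop
  have m2 : Measurable (Function.uncurry f2) := by
    rw [hf2]; unfold Function.uncurry; fun_prop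
  have m3 : Measurable f3 := by
    rw [hf3]; fun_prop
  have hae := ae_restrict_of_ae (s := Iic q) (ae_mem_Ioc hL)
  set c : ℝ≥0∞ := (2 : ℝ≥0∞) ^ (1 / 4 : ℝ) with hc
  have hpt : ∀ s ∈ Ioc 0 b, ∀ t ∈ Ioc 0 b,
      ‖qq b (Function.update (Function.update a e s) f t) z e f‖ₑ ^ (1 / 4 : ℝ)
        ≤ c * (f1 s t + f2 s t + f3 s) := by
    intro s hs t ht
    have h := three_cases (inv_add_ne (s := s) hAi) (inv_add_ne (s := t) hDi)
      (qq_off_eq hb hz a hef hs ht)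
    have g1 : ((s⁻¹ : ℝ) : ℂ) + A - B ^ 2 / (((t⁻¹ : ℝ) : ℂ) + D)
        = ((s⁻¹ : ℝ) : ℂ) - (B ^ 2 / (((t⁻¹ : ℝ) : ℂ) + D) - A) := by ring
    have g2 : ((t⁻¹ : ℝ) : ℂ) + D - B ^ 2 / (((s⁻¹ : ℝ) : ℂ) + A)
        = ((t⁻¹ : ℝ) : ℂ) - (B ^ 2 / (((s⁻¹ : ℝ) : ℂ) + A) - D) := by ring
    have g3 : ((s⁻¹ : ℝ) : ℂ) + A = ((s⁻¹ : ℝ) : ℂ) - (-A) := by ring
    have hstep : ∀ Z : ℂ,
        ‖qq b (Function.update (Function.update a e s) f t) z e f‖ₑ ≤ 2 * ‖Z‖ₑ⁻¹ →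
        ‖qq b (Function.update (Function.update a e s) f t) z e f‖ₑ ^ (1 / 4 : ℝ)
          ≤ c * ‖Z‖ₑ ^ (-(1 / 4 : ℝ)) := by
      intro Z hZ
      calc _ ≤ (2 * ‖Z‖ₑ⁻¹) ^ (1 / 4 : ℝ) := ENNReal.rpow_le_rpow hZ (by norm_num)
        _ = _ := by
          rw [ENNReal.mul_rpow_of_nonneg _ _ (by norm_num), ENNReal.inv_rpow, ENNReal.rpow_neg]
    rcases h with h | h | h
    · rw [g1] at h
      refine (hstep _ h).trans ?_
      gcongr
      exact le_add_right (le_add_right le_rfl)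
    · rw [g2] at h
      refine (hstep _ h).trans ?_
      gcongr
      exact le_add_right (le_add_left le_rfl)
    · rw [g3] at h
      refine (hstep _ h).trans ?_
      gcongr
      exact le_add_left le_rfl
  have hle : ∫⁻ s in Iic q, ∫⁻ t in Iic q,
      ‖qq b (Function.update (Function.update a e s) f t) z e f‖ₑ ^ (1 / 4 : ℝ) ∂κ ∂κ
      ≤ ∫⁻ s in Iic q, ∫⁻ t in Iic q, c * (f1 s t + f2 s t + f3 s) ∂κ ∂κ := by
    refine lintegral_mono_ae ?_
    filter_upwards [hae] with s hs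
    refine lintegral_mono_ae ?_
    filter_upwards [hae] with t ht
    exact hpt s hs t ht
  refine hle.trans ?_
  have hone : (κ.restrict (Iic q)) univ ≤ 1 := by
    rw [Measure.restrict_apply_univ]; exact prob_le_one
  have i1 : ∫⁻ s in Iic q, ∫⁻ t in Iic q, f1 s t ∂κ ∂κ ≤ M := by
    rw [lintegral_lintegral_swap m1.aemeasurable]
    calc _ ≤ ∫⁻ t in Iic q, M ∂κ := lintegral_mono fun t => res_moment hL hq _
      _ = M * (κ.restrict (Iic q)) univ := by rw [lintegral_const]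
      _ ≤ M * 1 := by gcongr
      _ = M := mul_one _
  have i2 : ∫⁻ s in Iic q, ∫⁻ t in Iic q, f2 s t ∂κ ∂κ ≤ M := by
    calc _ ≤ ∫⁻ t in Iic q, M ∂κ := lintegral_mono fun t => res_moment hL hq _
      _ = M * (κ.restrict (Iic q)) univ := by rw [lintegral_const]
      _ ≤ M * 1 := by gcongr
      _ = M := mul_one _
  have i3 : ∫⁻ s in Iic q, ∫⁻ _ in Iic q, f3 s ∂κ ∂κ ≤ M := by
    calc _ ≤ ∫⁻ s in Iic q, f3 s ∂κ := by
          refine lintegral_mono fun s => ?_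
          rw [lintegral_const]
          calc _ ≤ f3 s * 1 := by gcongr
            _ = _ := mul_one _
      _ ≤ M := res_moment hL hq _
  have hsum : ∫⁻ s in Iic q, ∫⁻ t in Iic q, c * (f1 s t + f2 s t + f3 s) ∂κ ∂κ
      = c * (∫⁻ s in Iic q, ∫⁻ t in Iic q, f1 s t ∂κ ∂κ + ∫⁻ s in Iic q, ∫⁻ t in Iic q, f2 s t ∂κ ∂κ
        + ∫⁻ s in Iic q, ∫⁻ _ in Iic q, f3 s ∂κ ∂κ) := by
    have n1 : ∀ s, Measurable (f1 s) := fun s => m1.comp measurable_prodMk_left
    have n2 : ∀ s, Measurable (f2 s) := fun s => m2.comp measurable_prodMk_left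
    have e1 : ∀ s, ∫⁻ t in Iic q, c * (f1 s t + f2 s t + f3 s) ∂κ
        = c * (∫⁻ t in Iic q, f1 s t ∂κ + ∫⁻ t in Iic q, f2 s t ∂κ + ∫⁻ _ in Iic q, f3 s ∂κ) := by
      intro s
      have q1 : Measurable fun t => f1 s t + f2 s t := (n1 s).add (n2 s)
      have q2 : Measurable fun t => f1 s t + f2 s t + f3 s := q1.add measurable_const
      rw [lintegral_const_mul _ q2, lintegral_add_left q1, lintegral_add_left (n1 s)]
    simp_rw [e1]
    have k1 : Measurable fun s => ∫⁻ t in Iic q, f1 s t ∂κ := m1.lintegral_prod_right'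
    have k2 : Measurable fun s => ∫⁻ t in Iic q, f2 s t ∂κ := m2.lintegral_prod_right'
    have k3 : Measurable fun s => ∫⁻ _ in Iic q, f3 s ∂κ := by
      simp_rw [lintegral_const]; exact m3.mul_const _
    have q1 : Measurable fun s => ∫⁻ t in Iic q, f1 s t ∂κ + ∫⁻ t in Iic q, f2 s t ∂κ := k1.add k2
    have q2 : Measurable fun s => ∫⁻ t in Iic q, f1 s t ∂κ + ∫⁻ t in Iic q, f2 s t ∂κ
        + ∫⁻ _ in Iic q, f3 s ∂κ := q1.add k3
    rw [lintegral_const_mul _ q2, lintegral_add_left q1, lintegral_add_left k1]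
  rw [hsum]
  calc _ ≤ c * (M + M + M) := by gcongr
    _ = (c * 6) * ENNReal.ofReal (K * q) ^ (1 / 4 : ℝ) := by rw [hM]; ring
    _ ≤ 8 * ENNReal.ofReal (K * q) ^ (1 / 4 : ℝ) := by
      gcongr
      have h22 : (2 : ℝ≥0∞) = ENNReal.ofReal 2 := by simp
      have h6 : (6 : ℝ≥0∞) = ENNReal.ofReal 6 := by simp
      have h8 : (8 : ℝ≥0∞) = ENNReal.ofReal 8 := by simp
      rw [hc, h22, ENNReal.ofReal_rpow_of_pos (by norm_num), h6, h8,
        ← ENNReal.ofReal_mul (by positivity)]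
      apply ENNReal.ofReal_le_ofReal
      have h23 : (2 : ℝ) ^ (1 / 4 : ℝ) ≤ 4 / 3 := by
        have h24 : ((2 : ℝ) ^ (1 / 4 : ℝ)) ^ (4 : ℕ) = 2 := by
          rw [← Real.rpow_natCast, ← Real.rpow_mul (by norm_num)]; norm_num
        refine le_of_pow_le_pow_left₀ (n := 4) (by norm_num) (by norm_num) ?_
        rw [h24]; norm_num
      linarith

end RC
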