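import Pool.Agent.RC.Block
import Pool.Agent.Helper3.Crit.SpecAvgFun

set_option autoImplicit false

/-!
WEG: fractional moments of the Green function of a finite cluster (a Wegner type estimate).
-/

open scoped ENNReal NNReal InnerProductSpace
open MeasureTheory Set Filter Topology

noncomputable section

namespace RC

open Pool.Agent.Helper3.Anderson Pool.Agent.Helper3.Crit

variable {d : ℕ} {b : ℝ} {K : ℝ≥0} {z : ℂ} {κ : Measure ℝ} [IsProbabilityMeasure κ]

/-! ### The eigenbasis of a finite cluster -/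

omit [IsProbabilityMeasure κ] in
lemma weg_Hc (hb : 0 ≤ b) (F : Finset (Edge d)) (a : Edge d → ℝ) (ψ : L2 d) :
    Hc b (rst F a) ψ = ∑ e ∈ F, ((cl b (a e) : ℂ) * ⟪grad e, ψ⟫_ℂ) • grad e := by
  have h0 : Hc b (fun _ => (0:ℝ)) ψ = 0 := by
    ext x
    rw [Hc_apply]
    simp [cl_zero hb]
  have h1 := Hc_sub b (rst F a) (fun _ => 0) F (fun e he => by simp [rst, he]) ψ
  rw [h0, sub_zero] at h1
  rw [h1]
  refine Finset.sum_congr rfl fun e he => ?_
  rw [inner_grad, cl_zero hb, sub_zero]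
  simp [rst, he]

omit [IsProbabilityMeasure κ] in
lemma weg_basis (hb : 0 ≤ b) (C : Finset (Site d)) (F : Finset (Edge d)) (hF : F ⊆ In C)
    (a : Edge d → ℝ) :
    ∃ (n : ℕ) (ψ : Fin n → L2 d) (E : Fin n → ℝ), Orthonormal ℂ ψ ∧
      (∀ j, Hc b (rst F a) (ψ j) = (E j : ℂ) • ψ j) ∧
      (∀ y ∈ C, dl y = ∑ j, ⟪ψ j, dl y⟫_ℂ • ψ j) ∧
      (∀ e ∈ F, grad e = ∑ j, ⟪ψ j, grad e⟫_ℂ • ψ j) := by
  set V : Submodule ℂ (L2 d) := Submodule.span ℂ (dl '' (C : Set (Site d))) with hV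
  have hfin : FiniteDimensional ℂ V := FiniteDimensional.span_of_finite ℂ (C.finite_toSet.image _)
  have hg : ∀ e ∈ F, grad e ∈ V := by
    intro e he
    have := mem_In.1 (hF he)
    exact V.sub_mem (Submodule.subset_span ⟨_, this.2, rfl⟩)
      (Submodule.subset_span ⟨_, this.1, rfl⟩)
  have hinv : ∀ v ∈ V, ((Hc b (rst F a) : L2 d →L[ℂ] L2 d) : L2 d →ₗ[ℂ] L2 d) v ∈ V := by
    intro v _
    show Hc b (rst F a) v ∈ V
    rw [weg_Hc hb]
    exact V.sum_mem fun e he => V.smul_mem _ (hg e he)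
  set T : V →ₗ[ℂ] V :=
    ((Hc b (rst F a) : L2 d →L[ℂ] L2 d) : L2 d →ₗ[ℂ] L2 d).restrict hinv with hT
  have hsymm : T.IsSymmetric := by
    intro v w
    exact inner_Hc b (rst F a) v w
  have hex : ∀ v ∈ V, v = ∑ j, ⟪((hsymm.eigenvectorBasis rfl j : V) : L2 d), v⟫_ℂ •
      ((hsymm.eigenvectorBasis rfl j : V) : L2 d) := by
    intro v hv
    have h1 := (hsymm.eigenvectorBasis rfl).sum_repr' ⟨v, hv⟩
    have h2 := congrArg Subtype.val h1
    simp only [Submodule.coe_sum, Submodule.coe_smul, Submodule.coe_inner] at h2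
    exact h2.symm
  refine ⟨Module.finrank ℂ V, fun j => ((hsymm.eigenvectorBasis rfl j : V) : L2 d),
    hsymm.eigenvalues rfl, ?_, ?_, ?_, ?_⟩
  · have h1 := (hsymm.eigenvectorBasis rfl).orthonormal
    exact h1.comp_linearIsometry V.subtypeₗᵢ
  · intro j
    have h1 := hsymm.apply_eigenvectorBasis rfl j
    exact congrArg Subtype.val h1
  · intro y hy
    exact hex _ (Submodule.subset_span ⟨y, hy, rfl⟩)
  · intro e he
    exact hex _ (hg e he)

omit [IsProbabilityMeasure κ] in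
lemma weg_eig (hb : 0 ≤ b) (F : Finset (Edge d)) (a : Edge d → ℝ) {ψ : L2 d} {E : ℝ}
    (hn : ‖ψ‖ = 1) (h : Hc b (rst F a) ψ = (E : ℂ) • ψ) :
    E = ∑ e ∈ F, cl b (a e) * ‖⟪grad e, ψ⟫_ℂ‖ ^ 2 := by
  have h1 : ⟪ψ, Hc b (rst F a) ψ⟫_ℂ = E := by
    rw [h, inner_smul_right, inner_self_eq_norm_sq_to_K, hn]
    simp
  rw [weg_Hc hb, inner_sum] at h1
  have h2 : ∀ e ∈ F, ⟪ψ, ((cl b (a e) : ℂ) * ⟪grad e, ψ⟫_ℂ) • grad e⟫_ℂ
      = ((cl b (a e) * ‖⟪grad e, ψ⟫_ℂ‖ ^ 2 : ℝ) : ℂ) := by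
    intro e _
    rw [inner_smul_right, ← inner_conj_symm ψ (grad e), mul_assoc, Complex.mul_conj,
      Complex.normSq_eq_norm_sq]
    push_cast
    rfl
  rw [Finset.sum_congr rfl h2] at h1
  exact_mod_cast h1.symm

omit [IsProbabilityMeasure κ] in
lemma weg_Rz (hz : 0 < z.im) (a : Edge d → ℝ) {ψ : L2 d} {E : ℝ}
    (h : Hc b a ψ = (E : ℂ) • ψ) : Rz b a z ψ = ((E : ℂ) - z)⁻¹ • ψ := by
  have h1 := Rz_Hz b a hz.ne' ψ
  rw [h, ← sub_smul, map_smul] at h1
  have hne : (E : ℂ) - z ≠ 0 := by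
    intro h0
    have := congrArg Complex.im h0
    simp at this
    exact hz.ne' this
  rw [eq_inv_smul_iff₀ hne, h1]

/-! ### The weight -/

/-- the weight -/
def wegh (R : ℝ) (E : ℝ) : ℝ≥0∞ :=
  (Ioo (R / 2) (2 * R)).indicator (fun E => ENNReal.ofReal (2 / R) * ‖E - R‖ₑ ^ (-(1 / 2) : ℝ)) E

omit [IsProbabilityMeasure κ] in
lemma wegh_cont (R : ℝ) :
    Continuous fun E : ℝ => ENNReal.ofReal (2 / R) * ‖E - R‖ₑ ^ (-(1 / 2) : ℝ) := by
  have h1 : Continuous fun E : ℝ => ‖E - R‖ₑ ^ (-(1 / 2) : ℝ) :=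
    ENNReal.continuous_rpow_const.comp (continuous_enorm.comp (continuous_id.sub continuous_const))
  exact (ENNReal.continuous_const_mul ENNReal.ofReal_ne_top).comp h1

omit [IsProbabilityMeasure κ] in
lemma wegh_lsc (R : ℝ) : LowerSemicontinuous (wegh R) := by
  intro E a ha
  by_cases hE : E ∈ Ioo (R / 2) (2 * R)
  · rw [wegh, indicator_of_mem hE] at ha
    have h1 := (wegh_cont R).continuousAt (x := E)
    have h2 := h1.eventually (lt_mem_nhds ha)
    filter_upwards [h2, isOpen_Ioo.mem_nhds hE] with E' h3 h4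
    rw [wegh, indicator_of_mem h4]
    exact h3
  · rw [wegh, indicator_of_notMem hE] at ha
    exact absurd ha not_lt_zero

omit [IsProbabilityMeasure κ] in
lemma wegh_aux {R s : ℝ} (hs : 0 ≤ s) :
    ∫⁻ E in Ioc R (R + s), ‖E - R‖ₑ ^ (-(1 / 2) : ℝ) = ENNReal.ofReal (2 * √s) := by
  have h1 : ∫⁻ E in Ioc R (R + s), ‖E - R‖ₑ ^ (-(1 / 2) : ℝ)
      = ∫⁻ E in Ioc R (R + s), ENNReal.ofReal ((E - R) ^ (-(1 / 2) : ℝ)) := by
    refine setLIntegral_congr_fun measurableSet_Ioc fun E hE => ?_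
    have h2 : 0 < E - R := by linarith [hE.1]
    rw [Real.enorm_eq_ofReal h2.le, ENNReal.ofReal_rpow_of_pos h2]
  have hi : IntervalIntegrable (fun E : ℝ => (E - R) ^ (-(1 / 2) : ℝ)) volume R (R + s) := by
    have h2 := (intervalIntegral.intervalIntegrable_rpow' (a := 0) (b := s)
      (r := -(1 / 2)) (by norm_num)).comp_sub_right R
    simpa [add_comm] using h2
  rw [h1, ← ofReal_integral_eq_lintegral_ofReal]
  · congr 1
    rw [← intervalIntegral.integral_of_le (by linarith),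
      intervalIntegral.integral_comp_sub_right (fun x => x ^ (-(1 / 2) : ℝ)),
      integral_rpow (Or.inl (by norm_num)), Real.sqrt_eq_rpow]
    norm_num
    ring
  · exact (intervalIntegrable_iff_integrableOn_Ioc_of_le (by linarith)).1 hi
  · filter_upwards [ae_restrict_mem measurableSet_Ioc] with E hE
    exact Real.rpow_nonneg (by linarith [hE.1]) _

omit [IsProbabilityMeasure κ] in
lemma wegh_aux' {R s : ℝ} (hs : 0 ≤ s) :
    ∫⁻ E in Ico (R - s) R, ‖E - R‖ₑ ^ (-(1 / 2) : ℝ) = ENNReal.ofReal (2 * √s) := by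
  rw [← wegh_aux (R := R) hs]
  have h1 := (Measure.measurePreserving_sub_left (volume : Measure ℝ) (2 * R))
  have h2 := h1.setLIntegral_comp_preimage (s := Ioc R (R + s)) measurableSet_Ioc
    (f := fun E => ‖E - R‖ₑ ^ (-(1 / 2) : ℝ))
    ((continuous_enorm.measurable.comp (measurable_id.sub_const R)).pow_const _)
  rw [← h2]
  have h3 : (fun x => 2 * R - x) ⁻¹' Ioc R (R + s) = Ico (R - s) R := by
    ext x
    simp only [mem_preimage, mem_Ioc, mem_Ico]
    constructor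
    · rintro ⟨h, h'⟩; constructor <;> linarith
    · rintro ⟨h, h'⟩; constructor <;> linarith
  rw [h3]
  refine lintegral_congr fun E => ?_
  have h4 : 2 * R - E - R = -(E - R) := by ring
  rw [h4, enorm_neg]

omit [IsProbabilityMeasure κ] in
lemma wegh_int {R : ℝ} (hR : 0 < R) :
    ∫⁻ E, wegh R E ≤ 7 * ENNReal.ofReal R ^ (-(1 / 2) : ℝ) := by
  have h1 : ∫⁻ E, wegh R E
      = ENNReal.ofReal (2 / R) * ∫⁻ E in Ioo (R / 2) (2 * R), ‖E - R‖ₑ ^ (-(1 / 2) : ℝ) := by
    unfold wegh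
    rw [lintegral_indicator measurableSet_Ioo, lintegral_const_mul' _ _ ENNReal.ofReal_ne_top]
  have hsub : Ioo (R / 2) (2 * R) ⊆ Ico (R - R / 2) R ∪ ({R} ∪ Ioc R (R + R)) := by
    intro E hE
    rcases lt_trichotomy E R with h | h | h
    · exact Or.inl ⟨by linarith [hE.1], h⟩
    · exact Or.inr (Or.inl h)
    · exact Or.inr (Or.inr ⟨h, by linarith [hE.2]⟩)
  have h2 : ∫⁻ E in Ioo (R / 2) (2 * R), ‖E - R‖ₑ ^ (-(1 / 2) : ℝ)
      ≤ ENNReal.ofReal (2 * √(R / 2)) + ENNReal.ofReal (2 * √R) := by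
    refine (lintegral_mono_set hsub).trans ?_
    refine (lintegral_union_le _ _ _).trans ?_
    rw [wegh_aux' (by linarith)]
    refine add_le_add le_rfl ?_
    refine (lintegral_union_le _ _ _).trans ?_
    rw [wegh_aux hR.le]
    simp
  rw [h1]
  refine (mul_le_mul' le_rfl h2).trans ?_
  rw [← ENNReal.ofReal_add (by positivity) (by positivity), ← ENNReal.ofReal_mul (by positivity),
    ENNReal.ofReal_rpow_of_pos hR]
  have h7 : (7 : ℝ≥0∞) = ENNReal.ofReal 7 := by simp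
  rw [h7, ← ENNReal.ofReal_mul (by norm_num)]
  refine ENNReal.ofReal_le_ofReal ?_
  have h3 : R ^ (-(1 / 2) : ℝ) = (√R)⁻¹ := by
    rw [Real.rpow_neg hR.le, Real.sqrt_eq_rpow]
  have hs : 0 < √R := Real.sqrt_pos.2 hR
  have hss : √R * √R = R := Real.mul_self_sqrt hR.le
  have h4 : √(R / 2) ≤ 3 / 4 * √R := by
    rw [Real.sqrt_le_left (by positivity)]
    rw [mul_pow, Real.sq_sqrt hR.le]
    linarith
  rw [h3]
  have h5 : 2 / R * (2 * √(R / 2) + 2 * √R) ≤ 2 / R * (7 / 2 * √R) :=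
    mul_le_mul_of_nonneg_left (by linarith) (by positivity)
  refine h5.trans (le_of_eq ?_)
  have hR' : R = √R ^ 2 := by rw [sq, hss]
  generalize √R = s at hs hR' ⊢
  subst hR'
  field_simp

/-! ### The density of a conductance -/

omit [IsProbabilityMeasure κ] in
lemma weg_dens (hL : LawK κ b K) {f : ℝ → ℝ≥0∞} (hf : Measurable f) :
    ∫⁻ t, ENNReal.ofReal (cl b t) * f t ∂κ ≤ K * ∫⁻ t in Ioc 0 b, f t := by
  have hae : ∀ᵐ t ∂κ, t ∈ Ioc 0 b := by rw [ae_iff]; exact hL.supp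
  set g : ℝ → ℝ≥0∞ := fun s => ENNReal.ofReal (Real.exp s) * (Ioc 0 b).indicator f (Real.exp s)
    with hg
  have hgm : Measurable g := by
    refine (ENNReal.measurable_ofReal.comp Real.measurable_exp).mul ?_
    exact (hf.indicator measurableSet_Ioc).comp Real.measurable_exp
  calc ∫⁻ t, ENNReal.ofReal (cl b t) * f t ∂κ = ∫⁻ t, g (Real.log t) ∂κ := by
        refine lintegral_congr_ae ?_
        filter_upwards [hae] with t ht
        simp only [hg]
        rw [Real.exp_log ht.1, indicator_of_mem ht, cl_of_mem ⟨ht.1.le, ht.2⟩]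
    _ = ∫⁻ s, g s ∂(κ.map Real.log) := (lintegral_map hgm Real.measurable_log).symm
    _ ≤ ∫⁻ s, g s ∂((K : ℝ≥0∞) • (volume : Measure ℝ)) := lintegral_mono' hL.dens le_rfl
    _ = K * ∫⁻ s, g s := by rw [lintegral_smul_measure, smul_eq_mul]
    _ = K * ∫⁻ t in Ioi 0, (Ioc 0 b).indicator f t := by
        congr 1
        have h1 := lintegral_image_eq_lintegral_abs_deriv_mul (s := univ) (f := Real.exp)
          (f' := Real.exp) MeasurableSet.univ (fun x _ => (Real.hasDerivAt_exp x).hasDerivWithinAt)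
          Real.exp_injective.injOn ((Ioc 0 b).indicator f)
        rw [image_univ, Real.range_exp] at h1
        rw [h1, Measure.restrict_univ]
        refine lintegral_congr fun s => ?_
        rw [abs_of_pos (Real.exp_pos s)]
    _ ≤ K * ∫⁻ t, (Ioc 0 b).indicator f t := by
        gcongr
        exact Measure.restrict_le_self
    _ = K * ∫⁻ t in Ioc 0 b, f t := by rw [lintegral_indicator measurableSet_Ioc]

/-! ### The rank one formula -/

omit [IsProbabilityMeasure κ] in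
lemma weg_gg (hb : 0 ≤ b) (hz : 0 < z.im) (a : Edge d → ℝ) (e : Edge d) {t : ℝ}
    (ht : t ∈ Icc 0 b) :
    gg b (Function.update a e t) z e e * (1 + t * gg b (Function.update a e 0) z e e)
      = gg b (Function.update a e 0) z e e := by
  have h1 : ∀ x y, G b (Function.update a e t) z x y - G b (Function.update a e 0) z x y
      = -(t * gR b (Function.update a e t) z x e * gL b (Function.update a e 0) z e y) := by
    intro x y
    rw [G_sub b (Function.update a e t) (Function.update a e 0) hz {e} (fun f hf => by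
      rw [Finset.mem_singleton] at hf
      rw [Function.update_of_ne hf, Function.update_of_ne hf])]
    rw [Finset.sum_singleton, Function.update_self, Function.update_self, cl_of_mem ht,
      cl_zero hb, sub_zero]
  have e1 := h1 (tgt e) (tgt e)
  have e2 := h1 (src e) (tgt e)
  have e3 := h1 (tgt e) (src e)
  have e4 := h1 (src e) (src e)
  simp only [gg, gL, gR] at e1 e2 e3 e4 ⊢
  linear_combination e1 - e2 - e3 + e4

/-- the regularised spectral measure -/
def wegp (b : ℝ) (j : ℕ) (E : ℝ) (a : Edge d → ℝ) (e : Edge d) : ℝ≥0∞ :=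
  ENNReal.ofReal (Real.pi⁻¹ * (gg b a ((E : ℂ) + (saEps j : ℝ) * Complex.I) e e).im)

omit [IsProbabilityMeasure κ] in
lemma weg_one (hb : 0 ≤ b) (j : ℕ) (E : ℝ) (a : Edge d → ℝ) (e : Edge d) :
    ∫⁻ t in Ioc 0 b, wegp b j E (Function.update a e t) e ≤ 1 := by
  have hz0 : 0 < ((E : ℂ) + (saEps j : ℝ) * Complex.I).im := by simpa using saEps_pos j
  set z : ℂ := (E : ℂ) + (saEps j : ℝ) * Complex.I with hz
  set g := gg b (Function.update a e 0) z e e with hg
  have hgi : 0 < g.im := gg_im_pos b _ hz0 e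
  have hn2 : 0 < g.re ^ 2 + g.im ^ 2 := by positivity
  set α : ℝ := g.re / (g.re ^ 2 + g.im ^ 2) with hα
  set β : ℝ := g.im / (g.re ^ 2 + g.im ^ 2) with hβ
  have hβ0 : 0 < β := div_pos hgi hn2
  set γ : ℝ≥0 := ⟨β, hβ0.le⟩ with hγ
  have hγ0 : γ ≠ 0 := by
    intro h
    have : β = 0 := congrArg NNReal.toReal h
    linarith
  have hkey : ∀ t ∈ Ioc 0 b, wegp b j E (Function.update a e t) e
      = ProbabilityTheory.cauchyPDF (-α) γ t := by
    intro t ht
    have h1 := weg_gg hb hz0 a e (t := t) ⟨ht.1.le, ht.2⟩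
    rw [← hg] at h1
    have e1 : (1 + (t : ℂ) * g).re = 1 + t * g.re := by simp
    have e2 : (1 + (t : ℂ) * g).im = t * g.im := by simp
    have hne : 1 + (t : ℂ) * g ≠ 0 := by
      intro h0
      have := congrArg Complex.im h0
      rw [e2] at this
      have h2 : 0 < t * g.im := mul_pos ht.1 hgi
      simp at this
      rcases this with h | h
      · linarith [ht.1]
      · linarith
    have h2 : gg b (Function.update a e t) z e e = g / (1 + (t : ℂ) * g) := by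
      rw [eq_div_iff hne]; exact h1
    have h3 : (g / (1 + (t : ℂ) * g)).im = β / ((t - -α) ^ 2 + β ^ 2) := by
      rw [Complex.div_im, Complex.normSq_apply, e1, e2, ← sub_div]
      have h5 : (1 + t * g.re) * (1 + t * g.re) + (t * g.im) * (t * g.im)
          = (g.re ^ 2 + g.im ^ 2) * ((t - -α) ^ 2 + β ^ 2) := by
        rw [hα, hβ]; field_simp; ring
      have h6 : 0 < (t - -α) ^ 2 + β ^ 2 := by positivity
      rw [h5, ← div_div]
      congr 1
      rw [hβ]
      congr 1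
      ring
    rw [wegp, ← hz, h2, h3, ProbabilityTheory.cauchyPDF, ProbabilityTheory.cauchyPDFReal_def]
    congr 1
    have h6 : (γ : ℝ) = β := rfl
    rw [h6, div_eq_mul_inv]
    ring
  calc ∫⁻ t in Ioc 0 b, wegp b j E (Function.update a e t) e
      = ∫⁻ t in Ioc 0 b, ProbabilityTheory.cauchyPDF (-α) γ t :=
        setLIntegral_congr_fun measurableSet_Ioc hkey
    _ ≤ ∫⁻ t, ProbabilityTheory.cauchyPDF (-α) γ t := setLIntegral_le_lintegral _ _
    _ = 1 := ProbabilityTheory.lintegral_cauchyPDF_eq_one _ hγ0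

/-! ### Measurability -/

omit [IsProbabilityMeasure κ] in
lemma weg_contE (b : ℝ) (a : Edge d → ℝ) {ε : ℝ} (hε : 0 < ε) (x y : Site d) :
    Continuous fun E : ℝ => G b a ((E : ℂ) + ε * Complex.I) x y := by
  rw [continuous_iff_continuousAt]
  intro E
  have hz : ((E : ℂ) + ε * Complex.I).im ≠ 0 := by simpa using hε.ne'
  obtain ⟨U, hU⟩ := Hz_isUnit b a hz
  have h1 : ContinuousAt (fun E : ℝ =>
      Hc b a - ((E : ℂ) + ε * Complex.I) • (1 : L2 d →L[ℂ] L2 d)) E := by fun_prop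
  have h2 : ContinuousAt (fun E : ℝ => Rz b a ((E : ℂ) + ε * Complex.I)) E := by
    refine ContinuousAt.comp (g := Ring.inverse) ?_ h1
    rw [← hU]
    exact NormedRing.inverse_continuousAt U
  have h3 : Continuous fun φ : L2 d => φ x :=
    (lp.lipschitzWith_one_eval (E := fun _ : Site d => ℂ) 2 x).continuous
  exact h3.continuousAt.comp (h2.clm_apply continuousAt_const)

omit [IsProbabilityMeasure κ] in
lemma continuous_rst (F : Finset (Edge d)) : Continuous fun ω : Edge d → ℝ => rst F ω := by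
  refine continuous_pi fun e => ?_
  unfold rst
  split_ifs
  · exact continuous_apply e
  · exact continuous_const

omit [IsProbabilityMeasure κ] in
lemma weg_measG (b : ℝ) (F : Finset (Edge d)) {ε : ℝ} (hε : 0 < ε) (x y : Site d) :
    Measurable fun q : ℝ × (Edge d → ℝ) => G b (rst F q.2) ((q.1 : ℂ) + ε * Complex.I) x y := by
  have h := measurable_uncurry_of_continuous_of_measurable
    (u := fun (E : ℝ) (ω : Edge d → ℝ) => G b (rst F ω) ((E : ℂ) + ε * Complex.I) x y)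
    (fun ω => weg_contE b (rst F ω) hε x y) (fun E => by
      have hz : 0 < ((E : ℂ) + ε * Complex.I).im := by simpa using hε
      exact ((continuous_G b hz x y).comp (continuous_rst F)).measurable)
  exact h

omit [IsProbabilityMeasure κ] in
lemma weg_measp (b : ℝ) (j : ℕ) (F : Finset (Edge d)) (e : Edge d) :
    Measurable fun q : ℝ × (Edge d → ℝ) => wegp b j q.1 (rst F q.2) e := by
  unfold wegp gg gL
  have h1 := fun x y => weg_measG b F (saEps_pos j) x y (d := d)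
  refine ENNReal.measurable_ofReal.comp (Measurable.const_mul (Complex.measurable_im.comp ?_) _)
  exact ((h1 _ _).sub (h1 _ _)).sub ((h1 _ _).sub (h1 _ _))

/-! ### The pointwise bound -/

/-- the regularised integral of the weight -/
def wegL (b R : ℝ) (a : Edge d → ℝ) (e : Edge d) : ℝ≥0∞ :=
  liminf (fun j => ∫⁻ E, wegh R E * wegp b j E a e) atTop

omit [IsProbabilityMeasure κ] in
lemma weg_gg_sum (hz : 0 < z.im) (a : Edge d → ℝ) (e : Edge d) {n : ℕ} {ψ : Fin n → L2 d}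
    {E : Fin n → ℝ} (hH : ∀ j, Hc b a (ψ j) = (E j : ℂ) • ψ j)
    (hg : grad e = ∑ j, ⟪ψ j, grad e⟫_ℂ • ψ j) :
    (gg b a z e e).im = ∑ j, ‖⟪grad e, ψ j⟫_ℂ‖ ^ 2 * (z.im / ‖((E j : ℝ) : ℂ) - z‖ ^ 2) := by
  rw [gg_eq_inner]
  have h1 : Rz b a z (grad e) = ∑ j, (⟪ψ j, grad e⟫_ℂ * ((E j : ℂ) - z)⁻¹) • ψ j := by
    conv_lhs => rw [hg]
    rw [map_sum]
    refine Finset.sum_congr rfl fun j _ => ?_
    rw [map_smul, weg_Rz hz a (hH j), smul_smul]
  rw [h1, inner_sum, Complex.im_sum]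
  refine Finset.sum_congr rfl fun j _ => ?_
  rw [inner_smul_right]
  have h2 : ⟪ψ j, grad e⟫_ℂ * ((E j : ℂ) - z)⁻¹ * ⟪grad e, ψ j⟫_ℂ
      = ((‖⟪grad e, ψ j⟫_ℂ‖ ^ 2 : ℝ) : ℂ) * ((E j : ℂ) - z)⁻¹ := by
    have h3 : ⟪grad e, ψ j⟫_ℂ * ⟪ψ j, grad e⟫_ℂ = ((‖⟪grad e, ψ j⟫_ℂ‖ ^ 2 : ℝ) : ℂ) := by
      rw [← inner_conj_symm (ψ j) (grad e), Complex.mul_conj, Complex.normSq_eq_norm_sq]
    rw [← h3]; ring
  rw [h2, Complex.im_ofReal_mul, Complex.inv_im, Complex.normSq_eq_norm_sq]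
  congr 2
  simp

omit [IsProbabilityMeasure κ] in
lemma weg_spec (R : ℝ) (a : Edge d → ℝ) (e : Edge d) {n : ℕ} {ψ : Fin n → L2 d}
    {E : Fin n → ℝ} (hH : ∀ j, Hc b a (ψ j) = (E j : ℂ) • ψ j)
    (hg : grad e = ∑ j, ⟪ψ j, grad e⟫_ℂ • ψ j) :
    ∑ j, ENNReal.ofReal (‖⟪grad e, ψ j⟫_ℂ‖ ^ 2) * wegh R (E j) ≤ wegL b R a e := by
  set ν : Measure ℝ := ∑ j : Fin n, ENNReal.ofReal (‖⟪grad e, ψ j⟫_ℂ‖ ^ 2) • Measure.dirac (E j)
    with hν
  have hfin : IsFiniteMeasure ν := by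
    refine ⟨?_⟩
    rw [hν, Measure.finsetSum_apply]
    refine ENNReal.sum_lt_top.2 fun j _ => ?_
    rw [Measure.smul_apply, measure_univ, smul_eq_mul, mul_one]
    exact ENNReal.ofReal_lt_top
  have h1 : ∫⁻ t, wegh R t ∂ν = ∑ j, ENNReal.ofReal (‖⟪grad e, ψ j⟫_ℂ‖ ^ 2) * wegh R (E j) := by
    rw [hν, lintegral_finsetSum_measure]
    refine Finset.sum_congr rfl fun j _ => ?_
    rw [lintegral_smul_measure, lintegral_dirac, smul_eq_mul]
  rw [← h1]
  refine sa_lintegral_le (wegh_lsc R) (p := fun j E => wegp b j E a e) fun j E' => ?_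
  rw [wegp]
  refine ENNReal.ofReal_le_ofReal (mul_le_mul_of_nonneg_left (le_of_eq ?_) (by positivity))
  have hz0 : 0 < ((E' : ℂ) + (saEps j : ℝ) * Complex.I).im := by simpa using saEps_pos j
  rw [weg_gg_sum hz0 a e hH hg, hν, integral_finsetSum_measure]
  · refine Finset.sum_congr rfl fun i _ => ?_
    rw [integral_smul_measure, integral_dirac, smul_eq_mul, ENNReal.toReal_ofReal (by positivity)]
  · intro i _
    exact (integrable_dirac (by simp)).smul_measure ENNReal.ofReal_ne_top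

omit [IsProbabilityMeasure κ] in
lemma weg_pointwise (hb : 0 ≤ b) (hz : 0 < z.im) (C : Finset (Site d)) (F : Finset (Edge d))
    (hF : F ⊆ In C) (a : Edge d → ℝ) (x : Site d) {u : Site d} (hu : u ∈ C) :
    ‖G b (rst F a) z x u‖ₑ ^ (1 / 2 : ℝ) ≤ ENNReal.ofReal (2 / ‖z‖) ^ (1 / 2 : ℝ)
      + ∑ e ∈ F, ENNReal.ofReal (cl b (a e)) * wegL b ‖z‖ (rst F a) e := by
  obtain ⟨n, ψ, E, hon, hH, hdl, hgr⟩ := weg_basis hb C F hF a
  set R := ‖z‖ with hR
  have hR0 : 0 < R := by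
    rw [hR, norm_pos_iff]
    rintro rfl
    simp at hz
  have hE : ∀ j, E j = ∑ e ∈ F, cl b (a e) * ‖⟪grad e, ψ j⟫_ℂ‖ ^ 2 := fun j =>
    weg_eig hb F a (hon.1 j) (hH j)
  have hE0 : ∀ j, 0 ≤ E j := by
    intro j
    rw [hE]
    exact Finset.sum_nonneg fun e _ => mul_nonneg (cl_nonneg _ _) (sq_nonneg _)
  set S : ℝ≥0∞ := ∑ j, ENNReal.ofReal (E j) * wegh R (E j) with hS
  set T : ℝ≥0∞ := ENNReal.ofReal (2 / R) ^ (1 / 2 : ℝ) + S with hT
  -- each term
  have hj : ∀ j, ‖((E j : ℝ) : ℂ) - z‖ₑ ^ (-(1 / 2) : ℝ) ≤ T := by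
    intro j
    have h1 : |E j - R| ≤ ‖((E j : ℝ) : ℂ) - z‖ := by
      have h2 := abs_norm_sub_norm_le ((E j : ℝ) : ℂ) z
      rwa [Complex.norm_real, Real.norm_eq_abs, abs_of_nonneg (hE0 j)] at h2
    have h2 : ‖E j - R‖ₑ ≤ ‖((E j : ℝ) : ℂ) - z‖ₑ := by
      rw [← ofReal_norm, ← ofReal_norm]
      exact ENNReal.ofReal_le_ofReal (by rw [Real.norm_eq_abs]; exact h1)
    have h3 : ‖((E j : ℝ) : ℂ) - z‖ₑ ^ (-(1 / 2) : ℝ) ≤ ‖E j - R‖ₑ ^ (-(1 / 2) : ℝ) := by
      rw [ENNReal.rpow_neg, ENNReal.rpow_neg]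
      exact ENNReal.inv_le_inv.2 (ENNReal.rpow_le_rpow h2 (by norm_num))
    refine h3.trans ?_
    by_cases hc : E j ∈ Ioo (R / 2) (2 * R)
    · refine le_trans ?_ le_add_self
      refine le_trans ?_ (Finset.single_le_sum (f := fun j => ENNReal.ofReal (E j) * wegh R (E j))
        (fun _ _ => zero_le) (Finset.mem_univ j))
      rw [wegh, indicator_of_mem hc, ← mul_assoc, ← ENNReal.ofReal_mul (hE0 j)]
      have h4 : 1 ≤ ENNReal.ofReal (E j * (2 / R)) := by
        rw [ENNReal.one_le_ofReal, ← mul_div_assoc, le_div_iff₀ hR0]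
        linarith [hc.1]
      calc ‖E j - R‖ₑ ^ (-(1 / 2) : ℝ) = 1 * ‖E j - R‖ₑ ^ (-(1 / 2) : ℝ) := (one_mul _).symm
        _ ≤ _ := mul_le_mul' h4 le_rfl
    · refine le_trans ?_ le_self_add
      have h4 : R / 2 ≤ |E j - R| := by
        rw [mem_Ioo, not_and_or, not_lt, not_lt] at hc
        rcases hc with h | h
        · rw [abs_of_nonpos (by linarith)]; linarith
        · rw [abs_of_nonneg (by linarith)]; linarith
      have h5 : ENNReal.ofReal (R / 2) ≤ ‖E j - R‖ₑ := by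
        rw [← ofReal_norm]
        exact ENNReal.ofReal_le_ofReal (by rw [Real.norm_eq_abs]; exact h4)
      have h6 : (2 / R) = (R / 2)⁻¹ := by rw [inv_div]
      rw [h6, ENNReal.ofReal_inv_of_pos (by positivity), ENNReal.inv_rpow, ENNReal.rpow_neg]
      exact ENNReal.inv_le_inv.2 (ENNReal.rpow_le_rpow h5 (by norm_num))
  have hj2 : ∀ j, ‖(((E j : ℝ) : ℂ) - z)⁻¹‖ₑ ≤ T ^ (2 : ℝ) := by
    intro j
    have hne : ((E j : ℝ) : ℂ) - z ≠ 0 := by
      intro h0
      have := congrArg Complex.im h0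
      simp at this
      exact hz.ne' this
    have h1 := ENNReal.rpow_le_rpow (hj j) (z := 2) (by norm_num)
    rw [← ENNReal.rpow_mul] at h1
    rw [enorm_inv hne]
    have h2 : (-(1 / 2) * 2 : ℝ) = -1 := by norm_num
    rw [h2, ENNReal.rpow_neg_one] at h1
    exact h1
  -- the Green function
  have hG : G b (rst F a) z x u
      = ∑ j, ⟪ψ j, dl u⟫_ℂ * (((E j : ℝ) : ℂ) - z)⁻¹ * ⟪dl x, ψ j⟫_ℂ := by
    have h1 : Rz b (rst F a) z (dl u) = ∑ j, (⟪ψ j, dl u⟫_ℂ * ((E j : ℂ) - z)⁻¹) • ψ j := by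
      conv_lhs => rw [hdl u hu]
      rw [map_sum]
      refine Finset.sum_congr rfl fun j _ => ?_
      rw [map_smul, weg_Rz hz _ (hH j), smul_smul]
    have h2 : G b (rst F a) z x u = ⟪dl x, Rz b (rst F a) z (dl u)⟫_ℂ := by
      rw [inner_dl]; rfl
    rw [h2, h1, inner_sum]
    refine Finset.sum_congr rfl fun j _ => ?_
    rw [inner_smul_right]
  have hsum : ∑ j, ‖⟪ψ j, dl u⟫_ℂ‖ * ‖⟪dl x, ψ j⟫_ℂ‖ ≤ 1 := by
    have h1 := hon.sum_inner_products_le (dl u) (s := Finset.univ)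
    have h2 := hon.sum_inner_products_le (dl x) (s := Finset.univ)
    rw [norm_dl, one_pow] at h1 h2
    have h3 : ∀ j ∈ (Finset.univ : Finset (Fin n)), ‖⟪ψ j, dl u⟫_ℂ‖ * ‖⟪dl x, ψ j⟫_ℂ‖
        ≤ (‖⟪ψ j, dl u⟫_ℂ‖ ^ 2 + ‖⟪ψ j, dl x⟫_ℂ‖ ^ 2) / 2 := by
      intro j _
      rw [norm_inner_symm (dl x) (ψ j)]
      nlinarith [sq_nonneg (‖⟪ψ j, dl u⟫_ℂ‖ - ‖⟪ψ j, dl x⟫_ℂ‖)]
    refine (Finset.sum_le_sum h3).trans ?_
    rw [← Finset.sum_div, Finset.sum_add_distrib]
    linarith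
  have hGT : ‖G b (rst F a) z x u‖ₑ ≤ T ^ (2 : ℝ) := by
    rw [hG]
    refine (enorm_sum_le _ _).trans ?_
    calc ∑ j, ‖⟪ψ j, dl u⟫_ℂ * (((E j : ℝ) : ℂ) - z)⁻¹ * ⟪dl x, ψ j⟫_ℂ‖ₑ
        ≤ ∑ j, ENNReal.ofReal (‖⟪ψ j, dl u⟫_ℂ‖ * ‖⟪dl x, ψ j⟫_ℂ‖) * T ^ (2 : ℝ) := by
          refine Finset.sum_le_sum fun j _ => ?_
          rw [enorm_mul, enorm_mul, ENNReal.ofReal_mul (norm_nonneg _), ofReal_norm,
            ofReal_norm, mul_right_comm]
          exact mul_le_mul' le_rfl (hj2 j)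
      _ = ENNReal.ofReal (∑ j, ‖⟪ψ j, dl u⟫_ℂ‖ * ‖⟪dl x, ψ j⟫_ℂ‖) * T ^ (2 : ℝ) := by
          rw [← Finset.sum_mul, ENNReal.ofReal_sum_of_nonneg fun j _ => by positivity]
      _ ≤ 1 * T ^ (2 : ℝ) := by
          refine mul_le_mul' ?_ le_rfl
          rw [← ENNReal.ofReal_one]
          exact ENNReal.ofReal_le_ofReal hsum
      _ = T ^ (2 : ℝ) := one_mul _
  have hfin : ‖G b (rst F a) z x u‖ₑ ^ (1 / 2 : ℝ) ≤ T := by
    refine (ENNReal.rpow_le_rpow hGT (by norm_num)).trans (le_of_eq ?_)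
    rw [← ENNReal.rpow_mul]
    norm_num
  refine hfin.trans (add_le_add le_rfl ?_)
  rw [hS]
  calc ∑ j, ENNReal.ofReal (E j) * wegh R (E j)
      = ∑ j, ∑ e ∈ F, ENNReal.ofReal (cl b (a e)) *
          (ENNReal.ofReal (‖⟪grad e, ψ j⟫_ℂ‖ ^ 2) * wegh R (E j)) := by
        refine Finset.sum_congr rfl fun j _ => ?_
        conv_lhs => enter [1]; rw [hE j]
        rw [ENNReal.ofReal_sum_of_nonneg fun e _ => mul_nonneg (cl_nonneg _ _) (sq_nonneg _),
          Finset.sum_mul]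
        refine Finset.sum_congr rfl fun e _ => ?_
        rw [ENNReal.ofReal_mul (cl_nonneg _ _), mul_assoc]
    _ = ∑ e ∈ F, ENNReal.ofReal (cl b (a e)) *
          ∑ j, ENNReal.ofReal (‖⟪grad e, ψ j⟫_ℂ‖ ^ 2) * wegh R (E j) := by
        rw [Finset.sum_comm]
        refine Finset.sum_congr rfl fun e _ => ?_
        rw [Finset.mul_sum]
    _ ≤ ∑ e ∈ F, ENNReal.ofReal (cl b (a e)) * wegL b R (rst F a) e := by
        refine Finset.sum_le_sum fun e he => ?_
        exact mul_le_mul' le_rfl (weg_spec R (rst F a) e hH (hgr e he))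

/-! ### Integration -/

omit [IsProbabilityMeasure κ] in
lemma weg_measI (b R : ℝ) (j : ℕ) (F : Finset (Edge d)) (e : Edge d) :
    Measurable fun ω : Edge d → ℝ => ∫⁻ E, wegh R E * wegp b j E (rst F ω) e := by
  have h1 : Measurable (Function.uncurry fun (E : ℝ) (ω : Edge d → ℝ) =>
      wegh R E * wegp b j E (rst F ω) e) :=
    ((wegh_lsc R).measurable.comp measurable_fst).mul (weg_measp b j F e)
  exact Measurable.lintegral_prod_left h1

omit [IsProbabilityMeasure κ] in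
lemma weg_measL (b R : ℝ) (F : Finset (Edge d)) (e : Edge d) :
    Measurable fun ω : Edge d → ℝ => wegL b R (rst F ω) e :=
  Measurable.liminf fun j => weg_measI b R j F e

omit [IsProbabilityMeasure κ] in
lemma rst_update {F : Finset (Edge d)} {e : Edge d} (he : e ∈ F) (ω : Edge d → ℝ) (t : ℝ) :
    rst F (Function.update ω e t) = Function.update (rst F ω) e t := by
  funext f
  by_cases hf : f = e
  · subst hf
    simp [rst, he]
  · simp [rst, Function.update_of_ne hf]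

omit [IsProbabilityMeasure κ] in
lemma weg_fatou (hb : 0 ≤ b) {R : ℝ} (hR : 0 < R) {F : Finset (Edge d)} {e : Edge d} (he : e ∈ F)
    (ω : Edge d → ℝ) :
    ∫⁻ t in Ioc 0 b, wegL b R (rst F (Function.update ω e t)) e
      ≤ 7 * ENNReal.ofReal R ^ (-(1 / 2) : ℝ) := by
  refine le_trans ?_ (wegh_int hR)
  have hm : ∀ j, Measurable fun t : ℝ =>
      ∫⁻ E, wegh R E * wegp b j E (rst F (Function.update ω e t)) e := fun j =>
    (weg_measI b R j F e).comp (measurable_update ω)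
  refine (lintegral_liminf_le hm).trans ?_
  have hj : ∀ j, ∫⁻ t in Ioc 0 b, (∫⁻ E, wegh R E * wegp b j E (rst F (Function.update ω e t)) e)
      ≤ ∫⁻ E, wegh R E := by
    intro j
    have hmp := weg_measp b j F e
    have h2 : Measurable fun q : ℝ × ℝ => ((q.2, Function.update ω e q.1) :
        ℝ × (Edge d → ℝ)) :=
      measurable_snd.prodMk ((measurable_update ω).comp measurable_fst)
    have h00 := hmp.comp h2
    have h0 : Measurable fun q : ℝ × ℝ => wegp b j q.2 (rst F (Function.update ω e q.1)) e := by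
      exact h00
    have h01 : Measurable fun q : ℝ × ℝ => wegh R q.2 :=
      (wegh_lsc R).measurable.comp measurable_snd
    have h1 : Measurable (Function.uncurry fun (t E : ℝ) =>
        wegh R E * wegp b j E (rst F (Function.update ω e t)) e) := by
      have h11 := h01.mul h0
      exact h11
    rw [lintegral_lintegral_swap h1.aemeasurable]
    refine lintegral_mono fun E => ?_
    have h5 : Measurable fun t : ℝ => ((t, E) : ℝ × ℝ) := measurable_id.prodMk measurable_const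
    have h30 := h0.comp h5
    have h3 : Measurable fun t : ℝ => wegp b j E (rst F (Function.update ω e t)) e := by
      exact h30
    simp only
    rw [lintegral_const_mul _ h3]
    have h4 : ∫⁻ t in Ioc 0 b, wegp b j E (rst F (Function.update ω e t)) e ≤ 1 := by
      simp only [rst_update he]
      exact weg_one hb j E _ e
    calc wegh R E * ∫⁻ t in Ioc 0 b, wegp b j E (rst F (Function.update ω e t)) e
        ≤ wegh R E * 1 := mul_le_mul' le_rfl h4
      _ = wegh R E := mul_one _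
  refine (liminf_le_liminf (Eventually.of_forall hj)).trans ?_
  simp

lemma weg_edge (hb : 0 ≤ b) (hL : LawK κ b K) {R : ℝ} (hR : 0 < R) {F : Finset (Edge d)}
    {e : Edge d} (he : e ∈ F) {B B' : Set (Edge d → ℝ)} (hB : MeasurableSet B)
    (hB' : MeasurableSet B') (hBB : ∀ ω ∈ B, ∀ t : ℝ, Function.update ω e t ∈ B') :
    ∫⁻ ω in B, ENNReal.ofReal (cl b (ω e)) * wegL b R (rst F ω) e ∂(PE d κ)
      ≤ K * (7 * ENNReal.ofReal R ^ (-(1 / 2) : ℝ)) * PE d κ B' := by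
  set f : (Edge d → ℝ) → ℝ≥0∞ := fun ω => ENNReal.ofReal (cl b (ω e)) * wegL b R (rst F ω) e
    with hf
  have hfm : Measurable f := by
    refine Measurable.mul ?_ (weg_measL b R F e)
    exact ENNReal.measurable_ofReal.comp ((continuous_cl b).measurable.comp (measurable_pi_apply e))
  rw [← lintegral_indicator hB, lintegral_resample e (hfm.indicator hB)]
  calc ∫⁻ ω, ∫⁻ t, B.indicator f (Function.update ω e t) ∂κ ∂(PE d κ)
      ≤ ∫⁻ ω, B'.indicator (fun _ => K * (7 * ENNReal.ofReal R ^ (-(1 / 2) : ℝ))) ω ∂(PE d κ) := by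
        refine lintegral_mono fun ω => ?_
        by_cases hω : ω ∈ B'
        · rw [indicator_of_mem hω]
          calc ∫⁻ t, B.indicator f (Function.update ω e t) ∂κ
              ≤ ∫⁻ t, ENNReal.ofReal (cl b t) * wegL b R (rst F (Function.update ω e t)) e ∂κ := by
                refine lintegral_mono fun t => ?_
                refine (indicator_le_self _ _ _).trans (le_of_eq ?_)
                simp only [hf, Function.update_self]
            _ ≤ K * ∫⁻ t in Ioc 0 b, wegL b R (rst F (Function.update ω e t)) e :=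
                weg_dens hL ((weg_measL b R F e).comp (measurable_update ω))
            _ ≤ _ := mul_le_mul' le_rfl (weg_fatou hb hR he ω)
        · rw [indicator_of_notMem hω]
          refine le_of_eq ?_
          rw [← lintegral_zero (μ := κ)]
          refine lintegral_congr fun t => ?_
          refine indicator_of_notMem (fun ht => hω ?_) _
          have h1 := hBB _ ht (ω e)
          rwa [Function.update_idem, Function.update_eq_self] at h1
    _ = K * (7 * ENNReal.ofReal R ^ (-(1 / 2) : ℝ)) * PE d κ B' := by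
        rw [lintegral_indicator_const hB']

theorem weg (hb : 0 ≤ b) (hL : LawK κ b K) (hz : 0 < z.im) (C : Finset (Site d))
    (Γ : Finset (Edge d)) {B : Set (Edge d → ℝ)} (hB : MeasurableSet B)
    (Be : Edge d → Set (Edge d → ℝ)) (hBem : ∀ e, MeasurableSet (Be e))
    (hBe : ∀ e ∈ Γ ∩ In C, ∀ ω ∈ B, ∀ t : ℝ, Function.update ω e t ∈ Be e) {β : ℝ≥0∞}
    (hβ : ∀ e ∈ Γ ∩ In C, PE d κ (Be e) ≤ β) {x u : Site d} (hx : x ∈ C) (hu : u ∈ C) :
    ∫⁻ ω in B, ‖G b (rst (Γ ∩ In C) ω) z x u‖ₑ ^ (1 / 2 : ℝ) ∂(PE d κ)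
      ≤ ‖z‖ₑ ^ (-(1 / 2 : ℝ)) * (2 * PE d κ B + 7 * K * (Γ ∩ In C).card * β) := by
  have hR0 : 0 < ‖z‖ := by
    rw [norm_pos_iff]
    rintro rfl
    simp at hz
  have hc : ENNReal.ofReal (2 / ‖z‖) ^ (1 / 2 : ℝ) ≤ ‖z‖ₑ ^ (-(1 / 2 : ℝ)) * 2 := by
    rw [← ofReal_norm, ENNReal.ofReal_rpow_of_pos (by positivity),
      ENNReal.ofReal_rpow_of_pos hR0]
    have h2 : (2 : ℝ≥0∞) = ENNReal.ofReal 2 := by simp
    rw [h2, ← ENNReal.ofReal_mul (by positivity)]
    refine ENNReal.ofReal_le_ofReal ?_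
    rw [div_eq_mul_inv, Real.mul_rpow (by norm_num) (by positivity), Real.inv_rpow hR0.le,
      Real.rpow_neg hR0.le, mul_comm]
    refine mul_le_mul_of_nonneg_left ?_ (by positivity)
    rw [← Real.sqrt_eq_rpow, Real.sqrt_le_left (by norm_num)]
    norm_num
  have hm : ∀ e ∈ Γ ∩ In C, Measurable fun ω : Edge d → ℝ =>
      ENNReal.ofReal (cl b (ω e)) * wegL b ‖z‖ (rst (Γ ∩ In C) ω) e := by
    intro e _
    refine Measurable.mul ?_ (weg_measL b _ _ e)
    exact ENNReal.measurable_ofReal.comp ((continuous_cl b).measurable.comp (measurable_pi_apply e))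
  calc ∫⁻ ω in B, ‖G b (rst (Γ ∩ In C) ω) z x u‖ₑ ^ (1 / 2 : ℝ) ∂(PE d κ)
      ≤ ∫⁻ ω in B, (ENNReal.ofReal (2 / ‖z‖) ^ (1 / 2 : ℝ) + ∑ e ∈ Γ ∩ In C,
          ENNReal.ofReal (cl b (ω e)) * wegL b ‖z‖ (rst (Γ ∩ In C) ω) e) ∂(PE d κ) :=
        lintegral_mono fun ω => weg_pointwise hb hz C _ Finset.inter_subset_right ω x hu
    _ = ENNReal.ofReal (2 / ‖z‖) ^ (1 / 2 : ℝ) * PE d κ B + ∑ e ∈ Γ ∩ In C,
          ∫⁻ ω in B, ENNReal.ofReal (cl b (ω e)) * wegL b ‖z‖ (rst (Γ ∩ In C) ω) e ∂(PE d κ) := by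
        rw [lintegral_add_left measurable_const, setLIntegral_const, lintegral_finsetSum _ hm]
    _ ≤ ‖z‖ₑ ^ (-(1 / 2 : ℝ)) * 2 * PE d κ B + ∑ e ∈ Γ ∩ In C,
          K * (7 * ‖z‖ₑ ^ (-(1 / 2) : ℝ)) * β := by
        refine add_le_add (mul_le_mul' hc le_rfl) (Finset.sum_le_sum fun e he => ?_)
        refine (weg_edge hb hL hR0 he hB (hBem e) (hBe e he)).trans ?_
        rw [ofReal_norm]
        exact mul_le_mul' le_rfl (hβ e he)
    _ = ‖z‖ₑ ^ (-(1 / 2 : ℝ)) * (2 * PE d κ B + 7 * K * (Γ ∩ In C).card * β) := by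
        rw [Finset.sum_const, nsmul_eq_mul]
        ring

end RC
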