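import Pool.Agent.RC.Expand
import Pool.Agent.RC.Two
import Pool.Agent.RC.Weg
import Pool.Agent.RC.PSum

set_option autoImplicit false

/-!
STEP: removal of the cluster of `x`, one cluster `C`.
-/

open scoped ENNReal NNReal InnerProductSpace
open MeasureTheory Set Filter Topology

noncomputable section

namespace RC

open Pool.Agent.Helper3.Anderson Pool.Agent.Helper3.Crit

variable {d : ℕ} {b : ℝ} {K : ℝ≥0} {z : ℂ} {κ : Measure ℝ} [IsProbabilityMeasure κ]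

namespace StepAux

omit [IsProbabilityMeasure κ] in
theorem continuous_rst (Γ : Finset (Edge d)) :
    Continuous (rst Γ : (Edge d → ℝ) → Edge d → ℝ) := by
  refine continuous_pi fun e => ?_
  by_cases he : e ∈ Γ
  · simp only [rst, if_pos he]; exact continuous_apply e
  · simp only [rst, if_neg he]; exact continuous_const

theorem rst_congr {S : Finset (Edge d)} {ω ω' : Edge d → ℝ} (h : ∀ e ∈ S, ω e = ω' e) :
    rst S ω = rst S ω' := by
  funext e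
  by_cases he : e ∈ S
  · simp only [rst, if_pos he, h e he]
  · simp only [rst, if_neg he]

theorem rst_update {Γ : Finset (Edge d)} (ω : Edge d → ℝ) {e : Edge d} (he : e ∈ Γ) (t : ℝ) :
    rst Γ (Function.update ω e t) = Function.update (rst Γ ω) e t := by
  funext f
  by_cases hf : f = e
  · subst hf; simp [rst, he]
  · simp only [rst, Function.update_of_ne hf]

theorem measurable_G (hz : 0 < z.im) (Γ : Finset (Edge d)) (u v : Site d) (s : ℝ) :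
    Measurable fun ω : Edge d → ℝ => ‖G b (rst Γ ω) z u v‖ₑ ^ s :=
  (((continuous_G b hz u v).comp (continuous_rst Γ)).measurable.enorm).pow_const s

theorem continuous_qq (b : ℝ) (hz : 0 < z.im) (e f : Edge d) :
    Continuous fun a : Edge d → ℝ => qq b a z e f := by
  have hgg : ∀ e f : Edge d, Continuous fun a : Edge d → ℝ => gg b a z e f := fun e f => by
    unfold gg gL
    exact ((continuous_G b hz _ _).sub (continuous_G b hz _ _)).sub
      ((continuous_G b hz _ _).sub (continuous_G b hz _ _))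
  have hc : ∀ e : Edge d, Continuous fun a : Edge d → ℝ => (cl b (a e) : ℂ) := fun e =>
    Complex.continuous_ofReal.comp ((continuous_cl b).comp (continuous_apply e))
  unfold qq
  by_cases h : e = f
  · simp only [if_pos h]
    exact (hc e).sub (((hc e).pow 2).mul (hgg e e))
  · simp only [if_neg h]
    exact (((hc e).mul (hc f)).mul (hgg e f)).neg

theorem measurable_qq (hz : 0 < z.im) (Γ : Finset (Edge d)) (e f : Edge d) (s : ℝ) :
    Measurable fun ω : Edge d → ℝ => ‖qq b (rst Γ ω) z e f‖ₑ ^ s :=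
  (((continuous_qq b hz e f).comp (continuous_rst Γ)).measurable.enorm).pow_const s

theorem coef {p : ℝ} (hp : 0 < p) (K : ℝ≥0) (n : ℕ) {c : ℝ} (hc : 0 ≤ c) (P : ℝ≥0∞) :
    ENNReal.ofReal c * P + 7 * K * n * (P / ENNReal.ofReal p)
      = ENNReal.ofReal (c + 7 * K * n / p) * P := by
  rw [ENNReal.ofReal_add hc (by positivity), ENNReal.ofReal_div_of_pos hp,
    ENNReal.ofReal_mul (by positivity), ENNReal.ofReal_mul (by positivity),
    ENNReal.ofReal_natCast, ENNReal.ofReal_coe_nnreal, ENNReal.ofReal_ofNat]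
  rw [div_eq_mul_inv, div_eq_mul_inv]
  ring

theorem z_ne (hz : 0 < z.im) : ‖z‖ₑ ≠ 0 := by
  rw [ne_eq, enorm_eq_zero]
  rintro rfl
  simp at hz

theorem inn_mem {C : Finset (Site d)} {e : Edge d} (he : e ∈ Bd C) : inn C e ∈ C := by
  rw [mem_Bd] at he
  unfold inn
  split_ifs with h
  · exact h
  · rcases he with he | he
    · exact absurd he.1 h
    · exact he.2

theorem outp_not_mem {C : Finset (Site d)} {e : Edge d} (he : e ∈ Bd C) : outp C e ∉ C := by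
  rw [mem_Bd] at he
  unfold outp
  split_ifs with h
  · rcases he with he | he
    · exact he.2
    · exact absurd h he.1
  · exact h

theorem disj_In_Bd {C : Finset (Site d)} {e : Edge d} (h1 : e ∈ In C) (h2 : e ∈ Bd C) : False := by
  rw [mem_In] at h1
  rw [mem_Bd] at h2
  rcases h2 with h2 | h2
  · exact h2.2 h1.2
  · exact h2.1 h1.1

theorem In_touch {C : Finset (Site d)} {e : Edge d} (h1 : e ∈ In C) : e ∈ touch C := by
  rw [mem_In] at h1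
  rw [mem_touch]
  exact Or.inl h1.1

theorem Bd_touch {C : Finset (Site d)} {e : Edge d} (h1 : e ∈ Bd C) : e ∈ touch C := by
  rw [mem_Bd] at h1
  rw [mem_touch]
  rcases h1 with h | h
  · exact Or.inl h.1
  · exact Or.inr h.2

/-- weak event of a set of edges -/
def WK (q : ℝ) (T : Finset (Edge d)) : Set (Edge d → ℝ) := {ω | ∀ e ∈ T, ω e ≤ q}

theorem measurableSet_WK (q : ℝ) (T : Finset (Edge d)) : MeasurableSet (WK q T) := by
  have : WK q T = ⋂ e ∈ T, {ω : Edge d → ℝ | ω e ≤ q} := by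
    ext ω; simp [WK]
  rw [this]
  exact Finset.measurableSet_biInter _ fun e _ => measurableSet_le (measurable_pi_apply e) measurable_const

theorem prob_WK (q : ℝ) (T : Finset (Edge d)) : PE d κ (WK q T) = κ (Iic q) ^ T.card :=
  prob_all T measurableSet_Iic

/-- three independent parts -/
theorem three (q : ℝ) (Γ : Finset (Edge d)) (C : Finset (Site d)) {α γ : (Edge d → ℝ) → ℝ≥0∞}
    (hα : Measurable α) (hγ : Measurable γ)
    (hαS : DepOn α ((Γ ∩ In C : Finset (Edge d)) : Set (Edge d)))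
    (hγS : DepOn γ ((Γ \ touch C : Finset (Edge d)) : Set (Edge d)))
    {T : Finset (Edge d)} (hT : T ⊆ Γ ∩ Bd C) :
    ∫⁻ ω in WK q T, α ω * γ ω ∂(PE d κ)
      = (∫⁻ ω, α ω ∂(PE d κ)) * (κ (Iic q) ^ T.card * ∫⁻ ω, γ ω ∂(PE d κ)) := by
  have hW := measurableSet_WK q T
  have h1 : ∫⁻ ω in WK q T, α ω * γ ω ∂(PE d κ)
      = ∫⁻ ω, α ω * ((WK q T).indicator 1 ω * γ ω) ∂(PE d κ) := by
    rw [← lintegral_indicator hW]
    refine lintegral_congr fun ω => ?_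
    by_cases h : ω ∈ WK q T
    · simp [h]
    · simp [h]
  have hWdep : DepOn (fun ω => (WK q T).indicator (1 : (Edge d → ℝ) → ℝ≥0∞) ω) (T : Set (Edge d)) := by
    intro ω ω' h
    have : ω ∈ WK q T ↔ ω' ∈ WK q T := by
      simp only [WK, Set.mem_ofPred_eq]
      refine forall₂_congr fun e he => ?_
      rw [h e he]
    by_cases h1 : ω ∈ WK q T
    · simp only [indicator_of_mem h1, indicator_of_mem (this.1 h1), Pi.one_apply]
    · simp only [indicator_of_notMem h1, indicator_of_notMem (fun h2 => h1 (this.2 h2))]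
  have hWm : Measurable (fun ω => (WK q T).indicator (1 : (Edge d → ℝ) → ℝ≥0∞) ω) :=
    measurable_one.indicator hW
  have hgm : Measurable fun ω => (WK q T).indicator (1 : (Edge d → ℝ) → ℝ≥0∞) ω * γ ω :=
    hWm.mul hγ
  rw [h1, indep (Γ ∩ In C) hα hgm hαS]
  · rw [indep T hWm hγ hWdep]
    · rw [lintegral_indicator_one hW, prob_WK]
    · intro ω ω' h
      refine hγS ω ω' fun e he => h e ?_
      intro heT
      have he1 := hT heT
      simp only [Finset.coe_sdiff, Set.mem_sdiff, Finset.mem_coe] at he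
      exact he.2 (Bd_touch (Finset.mem_inter.1 he1).2)
  · intro ω ω' h
    show (WK q T).indicator (1 : (Edge d → ℝ) → ℝ≥0∞) ω * γ ω
      = (WK q T).indicator (1 : (Edge d → ℝ) → ℝ≥0∞) ω' * γ ω'
    have e1 := hWdep ω ω' (fun e he => h e (by
      intro he2
      exact disj_In_Bd (Finset.mem_inter.1 he2).2 (Finset.mem_inter.1 (hT he)).2))
    have e2 := hγS ω ω' (fun e he => h e (by
      intro he2
      simp only [Finset.coe_sdiff, Set.mem_sdiff, Finset.mem_coe] at he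
      exact he.2 (In_touch (Finset.mem_inter.1 he2).2)))
    simp only at e1
    rw [e1, e2]

theorem kappa_Iic {q p : ℝ} (hp : 0 < p) (hq : κ (Ioi q) = ENNReal.ofReal p) :
    κ (Iic q) = ENNReal.ofReal (1 - p) := by
  have h := prob_compl_eq_one_sub (μ := κ) (measurableSet_Ioi (a := q))
  rw [compl_Ioi] at h
  rw [h, hq, ENNReal.ofReal_sub _ hp.le, ENNReal.ofReal_one]

theorem pow_le_aux {q p : ℝ} (hp1 : p < 1) (hp : 0 < p) (hq : κ (Ioi q) = ENNReal.ofReal p)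
    {m n : ℕ} (h : n ≤ m + 2) :
    κ (Iic q) ^ m ≤ ENNReal.ofReal (((1 - p) ^ 2)⁻¹) * κ (Iic q) ^ n := by
  have hk1 : κ (Iic q) ≤ 1 := prob_le_one
  have h1p : 0 < 1 - p := by linarith
  have hone : κ (Iic q) ^ 2 * ENNReal.ofReal (((1 - p) ^ 2)⁻¹) = 1 := by
    rw [kappa_Iic hp hq, ← ENNReal.ofReal_pow h1p.le, ← ENNReal.ofReal_mul (by positivity),
      mul_inv_cancel₀ (by positivity), ENNReal.ofReal_one]
  calc κ (Iic q) ^ m = κ (Iic q) ^ m * (κ (Iic q) ^ 2 * ENNReal.ofReal (((1 - p) ^ 2)⁻¹)) := by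
        rw [hone, mul_one]
    _ = ENNReal.ofReal (((1 - p) ^ 2)⁻¹) * κ (Iic q) ^ (m + 2) := by rw [pow_add]; ring
    _ ≤ _ := by
        exact mul_le_mul_right (pow_le_pow_right_of_le_one' hk1 h) _

/-- the inner integral, diagonal case -/
theorem inner_diag (hb : 0 ≤ b) (hL : LawK κ b K) (hz : 0 < z.im) {q : ℝ} (hq0 : 0 < q)
    (A : ℝ≥0∞) (a : Edge d → ℝ) (e : Edge d) :
    ∫⁻ t, (Iic q).indicator
        (fun t => A * ‖qq b (Function.update a e t) z e e‖ₑ ^ (1 / 4 : ℝ)) t ∂κ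
      ≤ A * (8 * ENNReal.ofReal (K * q) ^ (1 / 4 : ℝ)) := by
  have hc : Continuous fun t : ℝ => Function.update a e t :=
    continuous_const.update e continuous_id
  have hm : Measurable fun t : ℝ => ‖qq b (Function.update a e t) z e e‖ₑ ^ (1 / 4 : ℝ) :=
    (((continuous_qq b hz e e).comp hc).measurable.enorm).pow_const _
  rw [lintegral_indicator measurableSet_Iic, lintegral_const_mul _ hm]
  gcongr
  exact qq_diag hb hL hz hq0 a e

theorem meas_param (q : ℝ) (g : ℝ → ℝ → ℝ≥0∞) (hg : Measurable fun st : ℝ × ℝ => g st.1 st.2) :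
    Measurable fun s => ∫⁻ t in Iic q, g s t ∂κ :=
  hg.lintegral_prod_right' (ν := κ.restrict (Iic q))

/-- the inner integral, off diagonal case -/
theorem inner_off (hb : 0 ≤ b) (hL : LawK κ b K) (hz : 0 < z.im) {q : ℝ} (hq0 : 0 < q)
    (A : ℝ≥0∞) (a : Edge d → ℝ) {e f : Edge d} (hef : e ≠ f) :
    ∫⁻ s, ∫⁻ t, (Iic q).indicator (fun s => (Iic q).indicator
        (fun t => A * ‖qq b (Function.update (Function.update a e s) f t) z e f‖ₑ ^ (1 / 4 : ℝ)) t)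
          s ∂κ ∂κ
      ≤ A * (8 * ENNReal.ofReal (K * q) ^ (1 / 4 : ℝ)) := by
  have hc : Continuous fun st : ℝ × ℝ => Function.update (Function.update a e st.1) f st.2 :=
    Continuous.update (Continuous.update (f := fun _ : ℝ × ℝ => a) continuous_const e
      continuous_fst) f continuous_snd
  have hm2 : Measurable fun st : ℝ × ℝ =>
      ‖qq b (Function.update (Function.update a e st.1) f st.2) z e f‖ₑ ^ (1 / 4 : ℝ) :=
    (((continuous_qq b hz e f).comp hc).measurable.enorm).pow_const _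
  have hc1 : ∀ s : ℝ, Continuous fun t : ℝ => Function.update (Function.update a e s) f t :=
    fun s => continuous_const.update f continuous_id
  have hm1 : ∀ s : ℝ, Measurable fun t : ℝ =>
      ‖qq b (Function.update (Function.update a e s) f t) z e f‖ₑ ^ (1 / 4 : ℝ) := fun s =>
    (((continuous_qq b hz e f).comp (hc1 s)).measurable.enorm).pow_const _
  have hmi : Measurable fun s : ℝ => ∫⁻ t in Iic q,
      ‖qq b (Function.update (Function.update a e s) f t) z e f‖ₑ ^ (1 / 4 : ℝ) ∂κ :=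
    meas_param q (fun s t =>
      ‖qq b (Function.update (Function.update a e s) f t) z e f‖ₑ ^ (1 / 4 : ℝ)) hm2
  calc ∫⁻ s, ∫⁻ t, (Iic q).indicator (fun s => (Iic q).indicator
        (fun t => A * ‖qq b (Function.update (Function.update a e s) f t) z e f‖ₑ ^ (1 / 4 : ℝ)) t)
          s ∂κ ∂κ
      = ∫⁻ s, (Iic q).indicator (fun s => A * ∫⁻ t in Iic q,
        ‖qq b (Function.update (Function.update a e s) f t) z e f‖ₑ ^ (1 / 4 : ℝ) ∂κ) s ∂κ := by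
        refine lintegral_congr fun s => ?_
        by_cases hs : s ∈ Iic q
        · simp only [indicator_of_mem hs]
          rw [lintegral_indicator measurableSet_Iic, lintegral_const_mul _ (hm1 s)]
        · simp only [indicator_of_notMem hs, lintegral_zero]
    _ = A * ∫⁻ s in Iic q, ∫⁻ t in Iic q,
        ‖qq b (Function.update (Function.update a e s) f t) z e f‖ₑ ^ (1 / 4 : ℝ) ∂κ ∂κ := by
        rw [lintegral_indicator measurableSet_Iic, lintegral_const_mul _ hmi]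
    _ ≤ _ := by
        gcongr
        exact qq_off hb hL hz hq0 a hef

/-- the final step of `bd_moment` -/
theorem bd_final {q p : ℝ} (hp1 : p < 1) (hp : 0 < p) (hq : κ (Ioi q) = ENNReal.ofReal p)
    (Γ : Finset (Edge d)) (C : Finset (Site d))
    {α γ : (Edge d → ℝ) → ℝ≥0∞} (hα : Measurable α) (hγ : Measurable γ)
    (hαS : DepOn α ((Γ ∩ In C : Finset (Edge d)) : Set (Edge d)))
    (hγS : DepOn γ ((Γ \ touch C : Finset (Edge d)) : Set (Edge d)))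
    {T : Finset (Edge d)} (hT : T ⊆ Γ ∩ Bd C) (hc : (Γ ∩ Bd C).card ≤ T.card + 2) (D : ℝ≥0∞) :
    ∫⁻ ω, (WK q T).indicator (fun ω => α ω * γ ω * D) ω ∂(PE d κ)
      ≤ D * ENNReal.ofReal (((1 - p) ^ 2)⁻¹)
        * κ (Iic q) ^ (Γ ∩ Bd C).card * (∫⁻ ω, α ω ∂(PE d κ)) * ∫⁻ ω, γ ω ∂(PE d κ) := by
  have hαγ : Measurable fun ω => α ω * γ ω := hα.mul hγ
  rw [lintegral_indicator (measurableSet_WK q T), lintegral_mul_const _ hαγ,
    three q Γ C hα hγ hαS hγS hT]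
  calc (∫⁻ ω, α ω ∂(PE d κ)) * (κ (Iic q) ^ T.card * ∫⁻ ω, γ ω ∂(PE d κ)) * D
      ≤ (∫⁻ ω, α ω ∂(PE d κ)) * ((ENNReal.ofReal (((1 - p) ^ 2)⁻¹)
          * κ (Iic q) ^ (Γ ∩ Bd C).card) * ∫⁻ ω, γ ω ∂(PE d κ)) * D := by
        gcongr
        exact pow_le_aux hp1 hp hq hc
    _ = _ := by ring

theorem enorm_rpow_le {ι : Type*} (S : Finset ι) (w w0 : ℂ) (U : ι → ι → ℂ)
    (h : ‖w‖ ≤ ‖w0‖ + ∑ e ∈ S, ∑ f ∈ S, ‖U e f‖) {s : ℝ} (h0 : 0 < s) (h1 : s ≤ 1) :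
    ‖w‖ₑ ^ s ≤ ‖w0‖ₑ ^ s + ∑ e ∈ S, ∑ f ∈ S, ‖U e f‖ₑ ^ s := by
  have hE : ‖w‖ₑ ≤ ‖w0‖ₑ + ∑ e ∈ S, ∑ f ∈ S, ‖U e f‖ₑ := by
    have := ENNReal.ofReal_le_ofReal h
    rw [ENNReal.ofReal_add (norm_nonneg _)
      (Finset.sum_nonneg fun _ _ => Finset.sum_nonneg fun _ _ => norm_nonneg _),
      ENNReal.ofReal_sum_of_nonneg (fun _ _ => Finset.sum_nonneg fun _ _ => norm_nonneg _)] at this
    simp only [ENNReal.ofReal_sum_of_nonneg (fun _ _ => norm_nonneg _), ofReal_norm]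
      at this
    exact this
  have hsum : ∀ (g : ι → ℝ≥0∞), (∑ e ∈ S, g e) ^ s ≤ ∑ e ∈ S, g e ^ s := fun g =>
    Finset.le_sum_of_subadditive (fun t : ℝ≥0∞ => t ^ s) (ENNReal.zero_rpow_of_pos h0).le
      (fun a b => ENNReal.rpow_add_le_add_rpow a b h0.le h1) S g
  calc ‖w‖ₑ ^ s ≤ (‖w0‖ₑ + ∑ e ∈ S, ∑ f ∈ S, ‖U e f‖ₑ) ^ s := ENNReal.rpow_le_rpow hE h0.le
    _ ≤ ‖w0‖ₑ ^ s + (∑ e ∈ S, ∑ f ∈ S, ‖U e f‖ₑ) ^ s :=
        ENNReal.rpow_add_le_add_rpow _ _ h0.le h1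
    _ ≤ ‖w0‖ₑ ^ s + ∑ e ∈ S, ∑ f ∈ S, ‖U e f‖ₑ ^ s := by
        gcongr
        exact (hsum _).trans (Finset.sum_le_sum fun e _ => hsum _)

theorem sum_restrict (Γ : Finset (Edge d)) (C : Finset (Site d)) (g : Edge d → Edge d → ℝ)
    (h : ∀ e f, e ∉ Γ ∨ f ∉ Γ → g e f = 0) :
    ∑ e ∈ Bd C, ∑ f ∈ Bd C, g e f = ∑ e ∈ Γ ∩ Bd C, ∑ f ∈ Γ ∩ Bd C, g e f := by
  have h1 : ∀ e, ∑ f ∈ Bd C, g e f = ∑ f ∈ Γ ∩ Bd C, g e f := by
    intro e
    symm
    refine Finset.sum_subset Finset.inter_subset_right fun f hf hf2 => h e f (Or.inr fun h3 => ?_)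
    exact hf2 (Finset.mem_inter.2 ⟨h3, hf⟩)
  simp only [h1]
  symm
  refine Finset.sum_subset Finset.inter_subset_right fun e he he2 =>
    Finset.sum_eq_zero fun f _ => h e f (Or.inl fun h3 => ?_)
  exact he2 (Finset.mem_inter.2 ⟨h3, he⟩)

theorem qq_rst_zero (hb : 0 ≤ b) {Γ : Finset (Edge d)} {ω : Edge d → ℝ} {e f : Edge d}
    (h : e ∉ Γ ∨ f ∉ Γ) : qq b (rst Γ ω) z e f = 0 := by
  refine qq_zero ?_
  rcases h with h | h
  · left; simp only [rst, if_neg h, cl_zero hb]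
  · right; simp only [rst, if_neg h, cl_zero hb]

theorem dep_BC {Γ : Finset (Edge d)} {q : ℝ} {x : Site d} {C : Finset (Site d)}
    {g : (Edge d → ℝ) → ℝ≥0∞}
    (hg : ∀ ω ω' : Edge d → ℝ, (∀ e ∈ Γ ∩ In C, ω e = ω' e) → g ω = g ω') :
    DepOn ((BC Γ q x C).indicator g) ((Γ ∩ In C : Finset (Edge d)) : Set (Edge d)) := by
  intro ω ω' h
  have h' : ∀ e ∈ Γ ∩ In C, ω e = ω' e := fun e he => h e (Finset.mem_coe.2 he)
  by_cases h1 : ω ∈ BC Γ q x C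
  · rw [indicator_of_mem h1, indicator_of_mem (BC_dep h' h1), hg ω ω' h']
  · have h2 : ω' ∉ BC Γ q x C := fun h3 => h1 (BC_dep (fun e he => (h' e he).symm) h3)
    rw [indicator_of_notMem h1, indicator_of_notMem h2]

theorem clu_set {Γ : Finset (Edge d)} {q : ℝ} {x : Site d} {C : Finset (Site d)} (hx : x ∈ C) :
    {ω : Edge d → ℝ | clu Γ q ω x = C} = BC Γ q x C ∩ WK q (Γ ∩ Bd C) := by
  ext ω
  exact clu_eq_iff hx

theorem dep_G (Γ : Finset (Edge d)) (u v : Site d) (s : ℝ) (ω ω' : Edge d → ℝ)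
    (h : ∀ e ∈ Γ, ω e = ω' e) : ‖G b (rst Γ ω) z u v‖ₑ ^ s = ‖G b (rst Γ ω') z u v‖ₑ ^ s := by
  rw [rst_congr h]

end StepAux

open StepAux

/-- the Green function inside the cluster, half moments -/
theorem in_half (hb : 0 ≤ b) (hL : LawK κ b K) (hz : 0 < z.im) {q p : ℝ} (hp : 0 < p)
    (hq : κ (Ioi q) = ENNReal.ofReal p) (Γ : Finset (Edge d)) {x : Site d}
    {C : Finset (Site d)} {u v : Site d} (hu : u ∈ C) (hv : v ∈ C) :
    ∫⁻ ω in BC Γ q x C, ‖G b (rst (Γ ∩ In C) ω) z u v‖ₑ ^ (1 / 2 : ℝ) ∂(PE d κ)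
      ≤ ‖z‖ₑ ^ (-(1 / 2 : ℝ)) * (ENNReal.ofReal (2 + 7 * K * (In C).card / p)
        * PE d κ (BC Γ q x C)) := by
  have hp0 : ENNReal.ofReal p ≠ 0 := (ENNReal.ofReal_pos.2 hp).ne'
  have h := weg hb hL hz C Γ (measurableSet_BC Γ q x C) (BCf Γ q x C) (measurableSet_BCf Γ q x C)
    (fun e _ ω hω t => update_mem_BCf hω t) (β := PE d κ (BC Γ q x C) / ENNReal.ofReal p)
    (fun e _ => by
      rw [ENNReal.le_div_iff_mul_le (Or.inl hp0) (Or.inl ENNReal.ofReal_ne_top), mul_comm, ← hq]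
      exact prob_BCf Γ q x C e) hu hv
  refine h.trans ?_
  rw [← coef hp K (In C).card (by norm_num : (0 : ℝ) ≤ 2), ENNReal.ofReal_ofNat]
  have hcard : ((Γ ∩ In C).card : ℝ≥0∞) ≤ ((In C).card : ℝ≥0∞) := by
    exact_mod_cast Finset.card_le_card Finset.inter_subset_right
  gcongr

/-- the Green function inside the cluster, quarter moments -/
theorem in_quarter (hb : 0 ≤ b) (hL : LawK κ b K) (hz : 0 < z.im) {q p : ℝ} (hp : 0 < p)
    (hq : κ (Ioi q) = ENNReal.ofReal p) (Γ : Finset (Edge d)) {x : Site d}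
    {C : Finset (Site d)} {u v : Site d} (hu : u ∈ C) (hv : v ∈ C) :
    ∫⁻ ω in BC Γ q x C, ‖G b (rst (Γ ∩ In C) ω) z u v‖ₑ ^ (1 / 4 : ℝ) ∂(PE d κ)
      ≤ ‖z‖ₑ ^ (-(1 / 4 : ℝ)) * (ENNReal.ofReal (3 + 7 * K * (In C).card / p)
        * PE d κ (BC Γ q x C)) := by
  have hR := z_ne hz
  have hR' : ‖z‖ₑ ≠ ⊤ := enorm_ne_top
  have hpt : ∀ t : ℝ≥0∞, t ^ (1 / 4 : ℝ)
      ≤ ‖z‖ₑ ^ (-(1 / 4 : ℝ)) * (1 + ‖z‖ₑ ^ (1 / 2 : ℝ) * t ^ (1 / 2 : ℝ)) := by
    intro t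
    have h1 : (‖z‖ₑ * t) ^ (1 / 4 : ℝ) ≤ 1 + (‖z‖ₑ * t) ^ (1 / 2 : ℝ) := by
      rcases le_total (‖z‖ₑ * t) 1 with h | h
      · exact (ENNReal.rpow_le_one h (by norm_num)).trans le_self_add
      · exact (ENNReal.rpow_le_rpow_of_exponent_le h (by norm_num)).trans le_add_self
    rw [ENNReal.mul_rpow_of_nonneg _ _ (by norm_num),
      ENNReal.mul_rpow_of_nonneg _ _ (by norm_num)] at h1
    calc t ^ (1 / 4 : ℝ) = ‖z‖ₑ ^ (-(1 / 4 : ℝ)) * (‖z‖ₑ ^ (1 / 4 : ℝ) * t ^ (1 / 4 : ℝ)) := by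
          rw [← mul_assoc, ← ENNReal.rpow_add _ _ hR hR']
          norm_num
      _ ≤ _ := by gcongr
  have hm := measurable_G (b := b) hz (Γ ∩ In C) u v (1 / 2)
  calc ∫⁻ ω in BC Γ q x C, ‖G b (rst (Γ ∩ In C) ω) z u v‖ₑ ^ (1 / 4 : ℝ) ∂(PE d κ)
      ≤ ∫⁻ ω in BC Γ q x C, ‖z‖ₑ ^ (-(1 / 4 : ℝ)) * (1 + ‖z‖ₑ ^ (1 / 2 : ℝ)
          * ‖G b (rst (Γ ∩ In C) ω) z u v‖ₑ ^ (1 / 2 : ℝ)) ∂(PE d κ) :=
        lintegral_mono fun ω => hpt _
    _ = ‖z‖ₑ ^ (-(1 / 4 : ℝ)) * (PE d κ (BC Γ q x C) + ‖z‖ₑ ^ (1 / 2 : ℝ)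
          * ∫⁻ ω in BC Γ q x C, ‖G b (rst (Γ ∩ In C) ω) z u v‖ₑ ^ (1 / 2 : ℝ) ∂(PE d κ)) := by
        rw [lintegral_const_mul _ ((hm.const_mul _).const_add _),
          lintegral_add_left measurable_const, lintegral_const_mul _ hm, lintegral_one,
          Measure.restrict_apply_univ]
    _ ≤ ‖z‖ₑ ^ (-(1 / 4 : ℝ)) * (PE d κ (BC Γ q x C) + ‖z‖ₑ ^ (1 / 2 : ℝ)
          * (‖z‖ₑ ^ (-(1 / 2 : ℝ)) * (ENNReal.ofReal (2 + 7 * K * (In C).card / p)
        * PE d κ (BC Γ q x C)))) := by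
        gcongr
        exact in_half hb hL hz hp hq Γ hu hv
    _ = _ := by
        rw [← mul_assoc (‖z‖ₑ ^ (1 / 2 : ℝ)), ← ENNReal.rpow_add _ _ hR hR']
        have h3 : (3 : ℝ) + 7 * K * (In C).card / p = 1 + (2 + 7 * K * (In C).card / p) := by ring
        have h4 : (1 / 2 : ℝ) + -(1 / 2) = 0 := by norm_num
        rw [h3, h4, ENNReal.ofReal_add (p := 1) (by norm_num) (by positivity),
          ENNReal.ofReal_one, ENNReal.rpow_zero]
        ring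

/-- weak boundary bonds: for functions `α` of the inside and `γ` of the outside -/
theorem bd_moment (hb : 0 ≤ b) (hL : LawK κ b K) (hz : 0 < z.im) {q p : ℝ} (hq0 : 0 < q)
    (hp1 : p < 1) (hp : 0 < p) (hq : κ (Ioi q) = ENNReal.ofReal p) (Γ : Finset (Edge d))
    (C : Finset (Site d)) {e f : Edge d} (he : e ∈ Γ ∩ Bd C) (hf : f ∈ Γ ∩ Bd C)
    {α γ : (Edge d → ℝ) → ℝ≥0∞} (hα : Measurable α) (hγ : Measurable γ)
    (hαS : DepOn α ((Γ ∩ In C : Finset (Edge d)) : Set (Edge d)))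
    (hγS : DepOn γ ((Γ \ touch C : Finset (Edge d)) : Set (Edge d))) :
    ∫⁻ ω in {ω | ∀ e ∈ Γ ∩ Bd C, ω e ≤ q},
        α ω * ‖qq b (rst Γ ω) z e f‖ₑ ^ (1 / 4 : ℝ) * γ ω ∂(PE d κ)
      ≤ 8 * ENNReal.ofReal (K * q) ^ (1 / 4 : ℝ) * ENNReal.ofReal (((1 - p) ^ 2)⁻¹)
        * κ (Iic q) ^ (Γ ∩ Bd C).card * (∫⁻ ω, α ω ∂(PE d κ)) * ∫⁻ ω, γ ω ∂(PE d κ) := by
  have hW := measurableSet_WK q (Γ ∩ Bd C)
  have hFm : Measurable fun ω => (WK q (Γ ∩ Bd C)).indicator (fun ω =>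
      α ω * ‖qq b (rst Γ ω) z e f‖ₑ ^ (1 / 4 : ℝ) * γ ω) ω :=
    ((hα.mul (measurable_qq hz Γ e f _)).mul hγ).indicator hW
  have heG := (Finset.mem_inter.1 he).1
  have hfG := (Finset.mem_inter.1 hf).1
  have heB := (Finset.mem_inter.1 he).2
  have hfB := (Finset.mem_inter.1 hf).2
  have hαu : ∀ (ω : Edge d → ℝ) {g : Edge d}, g ∈ Bd C → ∀ t, α (Function.update ω g t) = α ω := by
    intro ω g hg t
    refine hαS _ _ fun i hi => ?_
    have hi2 : i ∈ In C := (Finset.mem_inter.1 (Finset.mem_coe.1 hi)).2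
    have hne : i ≠ g := by
      rintro rfl
      exact disj_In_Bd hi2 hg
    exact Function.update_of_ne hne _ _
  have hγu : ∀ (ω : Edge d → ℝ) {g : Edge d}, g ∈ Bd C → ∀ t, γ (Function.update ω g t) = γ ω := by
    intro ω g hg t
    refine hγS _ _ fun i hi => ?_
    have hi2 : i ∉ touch C := (Finset.mem_sdiff.1 (Finset.mem_coe.1 hi)).2
    have hne : i ≠ g := by
      rintro rfl
      exact hi2 (Bd_touch hg)
    exact Function.update_of_ne hne _ _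
  change ∫⁻ ω in WK q (Γ ∩ Bd C), α ω * ‖qq b (rst Γ ω) z e f‖ₑ ^ (1 / 4 : ℝ) * γ ω ∂(PE d κ) ≤ _
  rw [← lintegral_indicator hW]
  by_cases hef : e = f
  · subst hef
    refine le_trans ?_ (bd_final hp1 hp hq Γ C hα hγ hαS hγS
      (T := (Γ ∩ Bd C).erase e) (Finset.erase_subset _ _)
      (by rw [Finset.card_erase_of_mem he]; omega) _)
    rw [lintegral_resample e hFm]
    refine lintegral_mono fun ω => ?_
    by_cases h : ω ∈ WK q ((Γ ∩ Bd C).erase e)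
    · rw [indicator_of_mem h]
      refine le_trans (lintegral_mono fun t => ?_)
        (inner_diag hb hL hz hq0 (α ω * γ ω) (rst Γ ω) e)
      by_cases h2 : Function.update ω e t ∈ WK q (Γ ∩ Bd C)
      · have ht : t ∈ Iic q := by
          have := h2 e he
          rwa [Function.update_self] at this
        rw [indicator_of_mem h2, indicator_of_mem ht, hαu ω heB, hγu ω heB, StepAux.rst_update ω heG]
        exact le_of_eq (by ring)
      · rw [indicator_of_notMem h2]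
        exact bot_le
    · rw [indicator_of_notMem h]
      have : ∀ t, (WK q (Γ ∩ Bd C)).indicator (fun ω =>
          α ω * ‖qq b (rst Γ ω) z e e‖ₑ ^ (1 / 4 : ℝ) * γ ω) (Function.update ω e t) = 0 := by
        intro t
        refine indicator_of_notMem (fun h2 => h ?_) _
        intro g hg
        have hge : g ≠ e := (Finset.mem_erase.1 hg).1
        have := h2 g (Finset.mem_erase.1 hg).2
        rwa [Function.update_of_ne hge] at this
      simp only [this, lintegral_zero, le_refl]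
  · refine le_trans ?_ (bd_final hp1 hp hq Γ C hα hγ hαS hγS
      (T := ((Γ ∩ Bd C).erase e).erase f)
      ((Finset.erase_subset _ _).trans (Finset.erase_subset _ _))
      (by
        rw [Finset.card_erase_of_mem (Finset.mem_erase.2 ⟨fun h => hef h.symm, hf⟩),
          Finset.card_erase_of_mem he]
        omega) _)
    have hFm2 : Measurable fun ω => ∫⁻ t, (WK q (Γ ∩ Bd C)).indicator (fun ω =>
        α ω * ‖qq b (rst Γ ω) z e f‖ₑ ^ (1 / 4 : ℝ) * γ ω) (Function.update ω f t) ∂κ :=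
      Measurable.lintegral_prod_right' (ν := κ) (hFm.comp (measurable_update_prod f))
    rw [lintegral_resample f hFm, lintegral_resample e hFm2]
    refine lintegral_mono fun ω => ?_
    by_cases h : ω ∈ WK q (((Γ ∩ Bd C).erase e).erase f)
    · rw [indicator_of_mem h]
      refine le_trans (lintegral_mono fun s => lintegral_mono fun t => ?_)
        (inner_off hb hL hz hq0 (α ω * γ ω) (rst Γ ω) hef)
      by_cases h2 : Function.update (Function.update ω e s) f t ∈ WK q (Γ ∩ Bd C)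
      · have ht : t ∈ Iic q := by
          have := h2 f hf
          rwa [Function.update_self] at this
        have hs : s ∈ Iic q := by
          have := h2 e he
          rwa [Function.update_of_ne hef, Function.update_self] at this
        rw [indicator_of_mem h2, indicator_of_mem hs, indicator_of_mem ht, hαu _ hfB, hαu ω heB,
          hγu _ hfB, hγu ω heB, StepAux.rst_update _ hfG, StepAux.rst_update _ heG]
        exact le_of_eq (by ring)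
      · rw [indicator_of_notMem h2]
        exact bot_le
    · rw [indicator_of_notMem h]
      have : ∀ s t, (WK q (Γ ∩ Bd C)).indicator (fun ω =>
          α ω * ‖qq b (rst Γ ω) z e f‖ₑ ^ (1 / 4 : ℝ) * γ ω)
            (Function.update (Function.update ω e s) f t) = 0 := by
        intro s t
        refine indicator_of_notMem (fun h2 => h ?_) _
        intro g hg
        have hgf : g ≠ f := (Finset.mem_erase.1 hg).1
        have hg2 := Finset.mem_erase.1 (Finset.mem_erase.1 hg).2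
        have := h2 g hg2.2
        rwa [Function.update_of_ne hgf, Function.update_of_ne hg2.1] at this
      simp only [this, lintegral_zero, le_refl]

/-- the case `y ∉ C` -/
theorem step_out (hb : 0 ≤ b) (hL : LawK κ b K) (hz : 0 < z.im) {q p : ℝ} (hq0 : 0 < q)
    (hp1 : p < 1) (hp : 0 < p) (hq : κ (Ioi q) = ENNReal.ofReal p) (Γ : Finset (Edge d))
    {x y : Site d} {C : Finset (Site d)} (hx : x ∈ C) (hy : y ∉ C) :
    ∫⁻ ω in {ω | clu Γ q ω x = C}, ‖G b (rst Γ ω) z x y‖ₑ ^ (1 / 4 : ℝ) ∂(PE d κ)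
      ≤ ∑ _e ∈ Γ ∩ Bd C, ∑ f ∈ Γ ∩ Bd C,
        8 * ENNReal.ofReal (K * q) ^ (1 / 4 : ℝ) * ENNReal.ofReal (((1 - p) ^ 2)⁻¹)
        * (‖z‖ₑ ^ (-(1 / 4 : ℝ)) * ENNReal.ofReal (3 + 7 * K * (In C).card / p))
        * PE d κ {ω | clu Γ q ω x = C}
        * ∫⁻ ω, ‖G b (rst (Γ \ touch C) ω) z (outp C f) y‖ₑ ^ (1 / 4 : ℝ) ∂(PE d κ) := by
  have hmW := measurableSet_WK q (Γ ∩ Bd C)
  have hmB := measurableSet_BC Γ q x C
  rw [clu_set hx]
  set W := WK q (Γ ∩ Bd C) with hWdef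
  set α : Edge d → (Edge d → ℝ) → ℝ≥0∞ := fun e => (BC Γ q x C).indicator
    (fun ω => ‖G b (rst (Γ ∩ In C) ω) z x (inn C e)‖ₑ ^ (1 / 4 : ℝ)) with hαdef
  set γ : Edge d → (Edge d → ℝ) → ℝ≥0∞ := fun f ω =>
    ‖G b (rst (Γ \ touch C) ω) z (outp C f) y‖ₑ ^ (1 / 4 : ℝ) with hγdef
  have hα : ∀ e, Measurable (α e) := fun e => (measurable_G hz _ _ _ _).indicator hmB
  have hγ : ∀ f, Measurable (γ f) := fun f => measurable_G hz _ _ _ _
  have hpt : ∀ ω : Edge d → ℝ, ‖G b (rst Γ ω) z x y‖ₑ ^ (1 / 4 : ℝ) ≤ ∑ e ∈ Γ ∩ Bd C,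
      ∑ f ∈ Γ ∩ Bd C, ‖G b (rst (Γ ∩ In C) ω) z x (inn C e)‖ₑ ^ (1 / 4 : ℝ)
        * ‖qq b (rst Γ ω) z e f‖ₑ ^ (1 / 4 : ℝ) * γ f ω := by
    intro ω
    have h := norm_G_out_le hb hz C (rst Γ ω) hx hy
    rw [sum_restrict Γ C _ (fun e f hef => by rw [qq_rst_zero hb hef]; simp)] at h
    have h2 := enorm_rpow_le (Γ ∩ Bd C) (G b (rst Γ ω) z x y) 0 (fun e f =>
      G b (cut C (rst Γ ω)) z x (inn C e) * qq b (rst Γ ω) z e f
        * G b (cut C (rst Γ ω)) z (outp C f) y) (by simpa [norm_mul] using h)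
      (s := 1 / 4) (by norm_num) (by norm_num)
    rw [enorm_zero, ENNReal.zero_rpow_of_pos (by norm_num), zero_add] at h2
    refine h2.trans (Finset.sum_le_sum fun e he => Finset.sum_le_sum fun f hf => ?_)
    rw [enorm_mul, enorm_mul, ENNReal.mul_rpow_of_nonneg _ _ (by norm_num),
      ENNReal.mul_rpow_of_nonneg _ _ (by norm_num),
      G_cut_in hb hz C Γ ω hx (inn_mem (Finset.mem_inter.1 he).2),
      G_cut_out hb hz C Γ ω (outp_not_mem (Finset.mem_inter.1 hf).2) hy]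
  calc ∫⁻ ω in BC Γ q x C ∩ W, ‖G b (rst Γ ω) z x y‖ₑ ^ (1 / 4 : ℝ) ∂(PE d κ)
      ≤ ∫⁻ ω in BC Γ q x C ∩ W, ∑ e ∈ Γ ∩ Bd C,
      ∑ f ∈ Γ ∩ Bd C, ‖G b (rst (Γ ∩ In C) ω) z x (inn C e)‖ₑ ^ (1 / 4 : ℝ)
        * ‖qq b (rst Γ ω) z e f‖ₑ ^ (1 / 4 : ℝ) * γ f ω ∂(PE d κ) := lintegral_mono hpt
    _ = ∑ e ∈ Γ ∩ Bd C, ∑ f ∈ Γ ∩ Bd C, ∫⁻ ω in W, α e ω
        * ‖qq b (rst Γ ω) z e f‖ₑ ^ (1 / 4 : ℝ) * γ f ω ∂(PE d κ) := by
        have hm : ∀ e f, Measurable fun ω : Edge d → ℝ =>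
            ‖G b (rst (Γ ∩ In C) ω) z x (inn C e)‖ₑ ^ (1 / 4 : ℝ)
              * ‖qq b (rst Γ ω) z e f‖ₑ ^ (1 / 4 : ℝ) * γ f ω := fun e f =>
          ((measurable_G hz _ _ _ _).mul (measurable_qq hz _ _ _ _)).mul (hγ f)
        rw [lintegral_finsetSum _ (fun e _ => Finset.measurable_sum _ fun f _ => hm e f)]
        refine Finset.sum_congr rfl fun e _ => ?_
        rw [lintegral_finsetSum _ (fun f _ => hm e f)]
        refine Finset.sum_congr rfl fun f _ => ?_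
        rw [← setLIntegral_indicator hmB]
        refine lintegral_congr fun ω => ?_
        by_cases hω : ω ∈ BC Γ q x C
        · simp only [hαdef, indicator_of_mem hω]
        · simp only [hαdef, indicator_of_notMem hω, zero_mul]
    _ ≤ _ := by
        refine Finset.sum_le_sum fun e he => Finset.sum_le_sum fun f hf => ?_
        have h1 := bd_moment hb hL hz hq0 hp1 hp hq Γ C he hf (hα e) (hγ f)
          (dep_BC (dep_G _ _ _ _)) (fun ω ω' h => dep_G _ _ _ _ ω ω' fun e he =>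
            h e (Finset.mem_coe.2 he))
        have h2 : ∫⁻ ω, α e ω ∂(PE d κ) ≤ ‖z‖ₑ ^ (-(1 / 4 : ℝ)) *
            (ENNReal.ofReal (3 + 7 * K * (In C).card / p) * PE d κ (BC Γ q x C)) := by
          rw [hαdef, lintegral_indicator hmB]
          exact in_quarter hb hL hz hp hq Γ hx (inn_mem (Finset.mem_inter.1 he).2)
        refine h1.trans ?_
        rw [← clu_set hx, prob_clu hx]
        calc 8 * ENNReal.ofReal (K * q) ^ (1 / 4 : ℝ) * ENNReal.ofReal (((1 - p) ^ 2)⁻¹)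
              * κ (Iic q) ^ (Γ ∩ Bd C).card * (∫⁻ ω, α e ω ∂(PE d κ)) * ∫⁻ ω, γ f ω ∂(PE d κ)
            ≤ 8 * ENNReal.ofReal (K * q) ^ (1 / 4 : ℝ) * ENNReal.ofReal (((1 - p) ^ 2)⁻¹)
              * κ (Iic q) ^ (Γ ∩ Bd C).card * (‖z‖ₑ ^ (-(1 / 4 : ℝ)) *
            (ENNReal.ofReal (3 + 7 * K * (In C).card / p) * PE d κ (BC Γ q x C)))
              * ∫⁻ ω, γ f ω ∂(PE d κ) := by gcongr
          _ = _ := by ring

/-- the case `y ∈ C` -/
theorem step_in (hb : 0 ≤ b) (hL : LawK κ b K) (hz : 0 < z.im) {q p : ℝ} (hq0 : 0 < q)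
    (hp1 : p < 1) (hp : 0 < p) (hq : κ (Ioi q) = ENNReal.ofReal p) (Γ : Finset (Edge d))
    {x y : Site d} {C : Finset (Site d)} (hx : x ∈ C) (hy : y ∈ C) :
    ∫⁻ ω in {ω | clu Γ q ω x = C}, ‖G b (rst Γ ω) z x y‖ₑ ^ (1 / 4 : ℝ) ∂(PE d κ)
      ≤ (‖z‖ₑ ^ (-(1 / 4 : ℝ)) + (Bd C).card ^ 2 *
          (8 * ENNReal.ofReal (K * q) ^ (1 / 4 : ℝ) * ENNReal.ofReal (((1 - p) ^ 2)⁻¹))
          * ‖z‖ₑ ^ (-(1 / 2 : ℝ)))
        * ENNReal.ofReal (3 + 7 * K * (In C).card / p) * PE d κ {ω | clu Γ q ω x = C} := by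
  have hmW := measurableSet_WK q (Γ ∩ Bd C)
  have hmB := measurableSet_BC Γ q x C
  set D := 8 * ENNReal.ofReal (K * q) ^ (1 / 4 : ℝ) * ENNReal.ofReal (((1 - p) ^ 2)⁻¹) with hD
  set W := WK q (Γ ∩ Bd C) with hWdef
  have hset : {ω : Edge d → ℝ | clu Γ q ω x = C} = BC Γ q x C ∩ W := clu_set hx
  have hprob : PE d κ (BC Γ q x C) * κ (Iic q) ^ (Γ ∩ Bd C).card
      = PE d κ {ω | clu Γ q ω x = C} := (prob_clu hx).symm
  have hpt : ∀ ω : Edge d → ℝ, ‖G b (rst Γ ω) z x y‖ₑ ^ (1 / 4 : ℝ) ≤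
      ‖G b (rst (Γ ∩ In C) ω) z x y‖ₑ ^ (1 / 4 : ℝ) + ∑ e ∈ Γ ∩ Bd C,
      ∑ f ∈ Γ ∩ Bd C, ‖G b (rst (Γ ∩ In C) ω) z x (inn C e)‖ₑ ^ (1 / 4 : ℝ)
        * ‖qq b (rst Γ ω) z e f‖ₑ ^ (1 / 4 : ℝ)
        * ‖G b (rst (Γ ∩ In C) ω) z (inn C f) y‖ₑ ^ (1 / 4 : ℝ) := by
    intro ω
    have h := norm_G_in_le hb hz C (rst Γ ω) hx hy
    rw [sum_restrict Γ C _ (fun e f hef => by rw [qq_rst_zero hb hef]; simp)] at h
    have h2 := enorm_rpow_le (Γ ∩ Bd C) (G b (rst Γ ω) z x y) (G b (cut C (rst Γ ω)) z x y)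
      (fun e f => G b (cut C (rst Γ ω)) z x (inn C e) * qq b (rst Γ ω) z e f
        * G b (cut C (rst Γ ω)) z (inn C f) y) (by simpa [norm_mul] using h)
      (s := 1 / 4) (by norm_num) (by norm_num)
    refine h2.trans ?_
    rw [G_cut_in hb hz C Γ ω hx hy]
    gcongr with e he f hf
    rw [enorm_mul, enorm_mul, ENNReal.mul_rpow_of_nonneg _ _ (by norm_num),
      ENNReal.mul_rpow_of_nonneg _ _ (by norm_num),
      G_cut_in hb hz C Γ ω hx (inn_mem (Finset.mem_inter.1 he).2),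
      G_cut_in hb hz C Γ ω (inn_mem (Finset.mem_inter.1 hf).2) hy]
  set α : Edge d → Edge d → (Edge d → ℝ) → ℝ≥0∞ := fun e f => (BC Γ q x C).indicator
    (fun ω => ‖G b (rst (Γ ∩ In C) ω) z x (inn C e)‖ₑ ^ (1 / 4 : ℝ)
      * ‖G b (rst (Γ ∩ In C) ω) z (inn C f) y‖ₑ ^ (1 / 4 : ℝ)) with hαdef
  have hα : ∀ e f, Measurable (α e f) := fun e f =>
    ((measurable_G hz _ _ _ _).mul (measurable_G hz _ _ _ _)).indicator hmB
  have hαint : ∀ e ∈ Γ ∩ Bd C, ∀ f ∈ Γ ∩ Bd C, ∫⁻ ω, α e f ω ∂(PE d κ)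
      ≤ ‖z‖ₑ ^ (-(1 / 2 : ℝ)) * (ENNReal.ofReal (3 + 7 * K * (In C).card / p)
        * PE d κ (BC Γ q x C)) := by
    intro e he f hf
    have hAM : ∀ s t : ℝ≥0∞, s ^ (1 / 4 : ℝ) * t ^ (1 / 4 : ℝ)
        ≤ 2⁻¹ * (s ^ (1 / 2 : ℝ) + t ^ (1 / 2 : ℝ)) := by
      intro s t
      have h := ENNReal.young_inequality (s ^ (1 / 4 : ℝ)) (t ^ (1 / 4 : ℝ))
        Real.HolderConjugate.two_two
      have e : (1 / 4 : ℝ) * 2 = 1 / 2 := by norm_num
      rw [← ENNReal.rpow_mul, ← ENNReal.rpow_mul, ENNReal.ofReal_ofNat, e,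
        ENNReal.div_eq_inv_mul, ENNReal.div_eq_inv_mul, ← mul_add] at h
      exact h
    rw [hαdef, lintegral_indicator hmB]
    calc ∫⁻ ω in BC Γ q x C, ‖G b (rst (Γ ∩ In C) ω) z x (inn C e)‖ₑ ^ (1 / 4 : ℝ)
          * ‖G b (rst (Γ ∩ In C) ω) z (inn C f) y‖ₑ ^ (1 / 4 : ℝ) ∂(PE d κ)
        ≤ ∫⁻ ω in BC Γ q x C, 2⁻¹ * (‖G b (rst (Γ ∩ In C) ω) z x (inn C e)‖ₑ ^ (1 / 2 : ℝ)
          + ‖G b (rst (Γ ∩ In C) ω) z (inn C f) y‖ₑ ^ (1 / 2 : ℝ)) ∂(PE d κ) :=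
          lintegral_mono fun ω => hAM _ _
      _ = 2⁻¹ * ((∫⁻ ω in BC Γ q x C, ‖G b (rst (Γ ∩ In C) ω) z x (inn C e)‖ₑ ^ (1 / 2 : ℝ)
            ∂(PE d κ))
          + ∫⁻ ω in BC Γ q x C, ‖G b (rst (Γ ∩ In C) ω) z (inn C f) y‖ₑ ^ (1 / 2 : ℝ)
            ∂(PE d κ)) := by
          have hma : Measurable fun ω : Edge d → ℝ =>
              ‖G b (rst (Γ ∩ In C) ω) z x (inn C e)‖ₑ ^ (1 / 2 : ℝ)
                + ‖G b (rst (Γ ∩ In C) ω) z (inn C f) y‖ₑ ^ (1 / 2 : ℝ) :=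
            (measurable_G hz _ _ _ _).add (measurable_G hz _ _ _ _)
          rw [lintegral_const_mul _ hma, lintegral_add_left (measurable_G hz _ _ _ _)]
      _ ≤ 2⁻¹ * (‖z‖ₑ ^ (-(1 / 2 : ℝ)) * (ENNReal.ofReal (2 + 7 * K * (In C).card / p)
            * PE d κ (BC Γ q x C))
          + ‖z‖ₑ ^ (-(1 / 2 : ℝ)) * (ENNReal.ofReal (2 + 7 * K * (In C).card / p)
            * PE d κ (BC Γ q x C))) := by
          gcongr
          · exact in_half hb hL hz hp hq Γ hx (inn_mem (Finset.mem_inter.1 he).2)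
          · exact in_half hb hL hz hp hq Γ (inn_mem (Finset.mem_inter.1 hf).2) hy
      _ = ‖z‖ₑ ^ (-(1 / 2 : ℝ)) * (ENNReal.ofReal (2 + 7 * K * (In C).card / p)
            * PE d κ (BC Γ q x C)) := by
          rw [← two_mul, ← mul_assoc, ENNReal.inv_mul_cancel (by norm_num) (by norm_num), one_mul]
      _ ≤ _ := by
          gcongr
          norm_num
  have hfirst : ∫⁻ ω in BC Γ q x C ∩ W, ‖G b (rst (Γ ∩ In C) ω) z x y‖ₑ ^ (1 / 4 : ℝ) ∂(PE d κ)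
      ≤ ‖z‖ₑ ^ (-(1 / 4 : ℝ)) * ENNReal.ofReal (3 + 7 * K * (In C).card / p)
        * PE d κ {ω | clu Γ q ω x = C} := by
    have h3 := three (κ := κ) q Γ C (α := (BC Γ q x C).indicator
        fun ω => ‖G b (rst (Γ ∩ In C) ω) z x y‖ₑ ^ (1 / 4 : ℝ)) (γ := fun _ => 1)
      ((measurable_G hz _ _ _ _).indicator hmB) measurable_const (dep_BC (dep_G _ _ _ _))
      (fun _ _ _ => rfl) (T := Γ ∩ Bd C) (Finset.Subset.refl _)
    rw [← setLIntegral_indicator hmB]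
    simp only [mul_one, lintegral_one, measure_univ] at h3
    rw [h3, lintegral_indicator hmB, ← hprob]
    calc (∫⁻ ω in BC Γ q x C, ‖G b (rst (Γ ∩ In C) ω) z x y‖ₑ ^ (1 / 4 : ℝ) ∂(PE d κ))
          * κ (Iic q) ^ (Γ ∩ Bd C).card
        ≤ (‖z‖ₑ ^ (-(1 / 4 : ℝ)) * (ENNReal.ofReal (3 + 7 * K * (In C).card / p)
          * PE d κ (BC Γ q x C))) * κ (Iic q) ^ (Γ ∩ Bd C).card := by
          gcongr
          exact in_quarter hb hL hz hp hq Γ hx hy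
      _ = _ := by ring
  have hsecond : ∀ e ∈ Γ ∩ Bd C, ∀ f ∈ Γ ∩ Bd C,
      ∫⁻ ω in BC Γ q x C ∩ W, ‖G b (rst (Γ ∩ In C) ω) z x (inn C e)‖ₑ ^ (1 / 4 : ℝ)
        * ‖qq b (rst Γ ω) z e f‖ₑ ^ (1 / 4 : ℝ)
        * ‖G b (rst (Γ ∩ In C) ω) z (inn C f) y‖ₑ ^ (1 / 4 : ℝ) ∂(PE d κ)
      ≤ D * ‖z‖ₑ ^ (-(1 / 2 : ℝ)) * ENNReal.ofReal (3 + 7 * K * (In C).card / p)
        * PE d κ {ω | clu Γ q ω x = C} := by
    intro e he f hf
    have h1 := bd_moment hb hL hz hq0 hp1 hp hq Γ C he hf (hα e f) (γ := fun _ => 1)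
      measurable_const (dep_BC (fun ω ω' h => by rw [rst_congr h])) (fun _ _ _ => rfl)
    simp only [mul_one, lintegral_one, measure_univ] at h1
    calc ∫⁻ ω in BC Γ q x C ∩ W, ‖G b (rst (Γ ∩ In C) ω) z x (inn C e)‖ₑ ^ (1 / 4 : ℝ)
        * ‖qq b (rst Γ ω) z e f‖ₑ ^ (1 / 4 : ℝ)
        * ‖G b (rst (Γ ∩ In C) ω) z (inn C f) y‖ₑ ^ (1 / 4 : ℝ) ∂(PE d κ)
        = ∫⁻ ω in W, α e f ω * ‖qq b (rst Γ ω) z e f‖ₑ ^ (1 / 4 : ℝ) ∂(PE d κ) := by
          rw [← setLIntegral_indicator hmB]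
          refine lintegral_congr fun ω => ?_
          by_cases hω : ω ∈ BC Γ q x C
          · simp only [hαdef, indicator_of_mem hω]
            ring
          · simp only [hαdef, indicator_of_notMem hω, zero_mul]
      _ ≤ _ := h1
      _ ≤ D * κ (Iic q) ^ (Γ ∩ Bd C).card * (‖z‖ₑ ^ (-(1 / 2 : ℝ))
            * (ENNReal.ofReal (3 + 7 * K * (In C).card / p) * PE d κ (BC Γ q x C))) := by
          gcongr
          exact hαint e he f hf
      _ = _ := by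
          rw [← hprob]
          ring
  have hcard : ((Γ ∩ Bd C).card : ℝ≥0∞) ≤ ((Bd C).card : ℝ≥0∞) := by
    exact_mod_cast Finset.card_le_card Finset.inter_subset_right
  have hm : ∀ e f, Measurable fun ω : Edge d → ℝ =>
      ‖G b (rst (Γ ∩ In C) ω) z x (inn C e)‖ₑ ^ (1 / 4 : ℝ)
        * ‖qq b (rst Γ ω) z e f‖ₑ ^ (1 / 4 : ℝ)
        * ‖G b (rst (Γ ∩ In C) ω) z (inn C f) y‖ₑ ^ (1 / 4 : ℝ) := fun e f =>
    ((measurable_G hz _ _ _ _).mul (measurable_qq hz _ _ _ _)).mul (measurable_G hz _ _ _ _)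
  calc ∫⁻ ω in {ω | clu Γ q ω x = C}, ‖G b (rst Γ ω) z x y‖ₑ ^ (1 / 4 : ℝ) ∂(PE d κ)
      = ∫⁻ ω in BC Γ q x C ∩ W, ‖G b (rst Γ ω) z x y‖ₑ ^ (1 / 4 : ℝ) ∂(PE d κ) := by rw [hset]
    _ ≤ ∫⁻ ω in BC Γ q x C ∩ W, (‖G b (rst (Γ ∩ In C) ω) z x y‖ₑ ^ (1 / 4 : ℝ) + ∑ e ∈ Γ ∩ Bd C,
      ∑ f ∈ Γ ∩ Bd C, ‖G b (rst (Γ ∩ In C) ω) z x (inn C e)‖ₑ ^ (1 / 4 : ℝ)
        * ‖qq b (rst Γ ω) z e f‖ₑ ^ (1 / 4 : ℝ)
        * ‖G b (rst (Γ ∩ In C) ω) z (inn C f) y‖ₑ ^ (1 / 4 : ℝ)) ∂(PE d κ) := lintegral_mono hpt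
    _ = ∫⁻ ω in BC Γ q x C ∩ W, ‖G b (rst (Γ ∩ In C) ω) z x y‖ₑ ^ (1 / 4 : ℝ) ∂(PE d κ)
        + ∑ e ∈ Γ ∩ Bd C, ∑ f ∈ Γ ∩ Bd C,
          ∫⁻ ω in BC Γ q x C ∩ W, ‖G b (rst (Γ ∩ In C) ω) z x (inn C e)‖ₑ ^ (1 / 4 : ℝ)
        * ‖qq b (rst Γ ω) z e f‖ₑ ^ (1 / 4 : ℝ)
        * ‖G b (rst (Γ ∩ In C) ω) z (inn C f) y‖ₑ ^ (1 / 4 : ℝ) ∂(PE d κ) := by
        rw [lintegral_add_left (measurable_G hz _ _ _ _),
          lintegral_finsetSum _ (fun e _ => Finset.measurable_sum _ fun f _ => hm e f)]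
        congr 1
        refine Finset.sum_congr rfl fun e _ => ?_
        rw [lintegral_finsetSum _ (fun f _ => hm e f)]
    _ ≤ ‖z‖ₑ ^ (-(1 / 4 : ℝ)) * ENNReal.ofReal (3 + 7 * K * (In C).card / p)
        * PE d κ {ω | clu Γ q ω x = C} + ∑ _e ∈ Γ ∩ Bd C, ∑ _f ∈ Γ ∩ Bd C,
        D * ‖z‖ₑ ^ (-(1 / 2 : ℝ)) * ENNReal.ofReal (3 + 7 * K * (In C).card / p)
        * PE d κ {ω | clu Γ q ω x = C} := by
        gcongr with e he f hf
        exact hsecond e he f hf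
    _ = ‖z‖ₑ ^ (-(1 / 4 : ℝ)) * ENNReal.ofReal (3 + 7 * K * (In C).card / p)
        * PE d κ {ω | clu Γ q ω x = C} + ((Γ ∩ Bd C).card : ℝ≥0∞) ^ 2 *
        (D * ‖z‖ₑ ^ (-(1 / 2 : ℝ)) * ENNReal.ofReal (3 + 7 * K * (In C).card / p)
        * PE d κ {ω | clu Γ q ω x = C}) := by
        rw [Finset.sum_const, Finset.sum_const, nsmul_eq_mul, nsmul_eq_mul]
        ring
    _ ≤ ‖z‖ₑ ^ (-(1 / 4 : ℝ)) * ENNReal.ofReal (3 + 7 * K * (In C).card / p)
        * PE d κ {ω | clu Γ q ω x = C} + ((Bd C).card : ℝ≥0∞) ^ 2 *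
        (D * ‖z‖ₑ ^ (-(1 / 2 : ℝ)) * ENNReal.ofReal (3 + 7 * K * (In C).card / p)
        * PE d κ {ω | clu Γ q ω x = C}) := by gcongr
    _ = _ := by ring

end RC
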